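import Pool.Agent.Lib.TTN.FinN
import Pool.Agent.Lib.SmN.Stm2

/-!
# Project TTN (MP_950c68_ag), module NestD: independent twists of the curves, definitions
-/

set_option autoImplicit false

open Polynomial Pool.Agent.SmN.Stm

namespace Pool.Agent.TTN

section

variable (k : Type) {K : Type} [Field k] [Field K] [Algebra k K]

/-- For almost all `d_1`, for almost all `d_2`, ..., for almost all `d_n` the property
`P (d_1, ..., d_n)` holds. -/
def Nested : (n : ℕ) → ((Fin n → K) → Prop) → Prop
  | 0, P => P Fin.elim0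
  | n + 1, P => AlmostAll k fun _ (d : K) => Nested n fun D => P (Fin.cons d D)

/-- The hypotheses on the curves `y ^ 2 = x ^ 3 + A_i x + B_i`. -/
structure Indep {ι : Type} (A B : ι → K) : Prop where
  root : ∀ i x, x ^ 3 + A i * x + B i ≠ 0
  disc : ∀ J : Finset ι, J.Nonempty → ∀ c s : K, IsAlgebraic k c →
    ∏ i ∈ J, (-4 * A i ^ 3 - 27 * B i ^ 2) ≠ c * s ^ 2

/-- The conclusions for the curves `y ^ 2 = x ^ 3 + A_i x + B_i`. -/
structure Tup {ι : Type} (A B : ι → K) : Prop where
  tensor : ∀ (m : ℕ) (g : Fin m → ι), Function.Injective g → Odd m → 3 ≤ m →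
    ∃ r ≤ 1, SmJ.L.HasCorank k
      (TTC.actN (SeparableClosure K) (fun j => shE (A (g j)) (B (g j))) ((m - 1) / 2) 1) r
  ord : ∀ i, Sm.L.OrdC k (shE (A i) (B i))

end

end Pool.Agent.TTN
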