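import Pool.Agent.Lib.TTN.FinN
import Pool.Agent.Lib.SmNH.Fin.JtoEH

/-!
# Project TTN (MP_950c68_ag), module AllN: all subsets with an odd number of elements, and the
order of
vanishing for each curve

PROOF. For every `m` odd, `3 ≤ m`, and injective `g : Fin m → Fin n` (finitely many: `m ≤ n`):
`twists_T` for `A ∘ g`, `B ∘ g`, `m = 2 m' + 1`, `(m - 1) / 2 = m'`: the product over `J : Finset
(Fin m)` is the product over the image of `J` under `g` (`Finset.prod_map`), and `hgeo` with `c =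
1` gives `hdisc`. `GoodOn.corank` gives `∃ r ≤ 1, HasCorank`. For every `i`: `SmNH.Fnl.twists_EH`
(`SmNH/Fin/JtoEH.lean`); `Nat.card Gal = 6` by `card_gal_cubic_iff` (`SmN/Fin/GalJ.lean`):
irreducible since there is no root (degree `3`), the discriminant is no square (`hgeo {i}`, `c =
1`). Union bound over the finitely many `(m, g)` and `i` with `ε / (number)`: `TwLE k N (¬ ∀ ...)`
is contained in the union of the `TwLE k N (¬ ...)` (`twLE_mono` and the definition),
`Set.ncard_union_le`, finiteness. (Compare `TTC/AllC.lean`, `SmN/Fin/FinE.lean`.) `n = 0` is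
allowed: there is nothing to sum; the finiteness of `TwLE k N True` without any curve: use
`SmN.Fnl.pairs_E` (`SmN/Fin/FinE.lean`), first component.
-/

set_option autoImplicit false

open Polynomial
open Pool.Agent.SmNJ Pool.Agent.SmJ Pool.Agent.SmN.Fnl Pool.Agent.BSDFF Pool.Agent.BSDFF.MW

namespace Pool.Agent.TTN

section aux

variable {k K : Type} [Field k] [Field K] [Algebra k K]

/-- The union bound. -/
private theorem AllN_union {J : Type} [Finite J] {P : J → K → Prop}
    (hfin : ∀ N, (TwLE k N (fun _ : K => True)).Finite)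
    (h : ∀ j, ∀ ε : ℝ, 0 < ε → ∃ N₀ : ℕ, ∀ N ≥ N₀,
      ((TwLE k N (fun d : K => ¬ P j d)).ncard : ℝ) ≤
        ε * (TwLE k N (fun _ : K => True)).ncard) (ε : ℝ) (hε : 0 < ε) :
    ∃ N₀ : ℕ, ∀ N ≥ N₀,
      ((TwLE k N (fun d : K => ¬ ∀ j, P j d)).ncard : ℝ) ≤
        ε * (TwLE k N (fun _ : K => True)).ncard := by
  classical
  haveI := Fintype.ofFinite J
  have hpos : (0 : ℝ) < Fintype.card J + 1 := by positivity
  choose N₀ hN₀ using fun j => h j (ε / (Fintype.card J + 1)) (div_pos hε hpos)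
  refine ⟨Finset.univ.sup N₀, fun N hN => ?_⟩
  have hf : ∀ j, (TwLE k N (fun d : K => ¬ P j d)).Finite := fun j =>
    (hfin N).subset (twLE_mono fun _ _ => trivial)
  have hsub : TwLE k N (fun d : K => ¬ ∀ j, P j d) ⊆
      ⋃ j ∈ (Finset.univ : Finset J), TwLE k N (fun d : K => ¬ P j d) := by
    rintro c ⟨d, h1, h2, h3⟩
    obtain ⟨j, hj⟩ := not_forall.1 h3
    exact Set.mem_iUnion₂.2 ⟨j, Finset.mem_univ j, d, h1, h2, hj⟩
  have hle : (TwLE k N (fun d : K => ¬ ∀ j, P j d)).ncard ≤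
      ∑ j : J, (TwLE k N (fun d : K => ¬ P j d)).ncard :=
    (Set.ncard_le_ncard hsub (Set.Finite.biUnion (Finset.finite_toSet _) fun j _ => hf j)).trans
      (Finset.set_ncard_biUnion_le _ _)
  calc ((TwLE k N (fun d : K => ¬ ∀ j, P j d)).ncard : ℝ)
      ≤ ∑ j : J, ((TwLE k N (fun d : K => ¬ P j d)).ncard : ℝ) := by exact_mod_cast hle
    _ ≤ ∑ _j : J, ε / (Fintype.card J + 1) * ((TwLE k N (fun _ : K => True)).ncard : ℝ) :=
        Finset.sum_le_sum fun j _ => hN₀ j N (le_trans (Finset.le_sup (Finset.mem_univ j)) hN)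
    _ = Fintype.card J / (Fintype.card J + 1) *
          (ε * ((TwLE k N (fun _ : K => True)).ncard : ℝ)) := by
        rw [Finset.sum_const, Finset.card_univ, nsmul_eq_mul]
        ring
    _ ≤ 1 * (ε * ((TwLE k N (fun _ : K => True)).ncard : ℝ)) := by
        refine mul_le_mul_of_nonneg_right ?_ (by positivity)
        rw [div_le_one hpos]
        linarith
    _ = _ := one_mul _

variable (k)

/-- The condition on the twist by `d`. -/
private def AllN_P {n : ℕ} (A B : Fin n → K) :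
    (Σ m : Fin (n + 1), (Fin m → Fin n)) ⊕ Fin n → K → Prop
  | Sum.inl g => fun d => Function.Injective g.2 → Odd (g.1 : ℕ) → 3 ≤ (g.1 : ℕ) →
      ∃ r ≤ 1, SmJ.L.HasCorank k (TTC.actN (SeparableClosure K)
        (fun j => shE (A (g.2 j)) (B (g.2 j))) (((g.1 : ℕ) - 1) / 2) d) r
  | Sum.inr i => fun d => Sm.L.OrdC k (twE (A i) (B i) d)

private theorem AllN_all {n : ℕ} (A B : Fin n → K) (d : K) :
    (∀ j, AllN_P k A B j d) ↔ (∀ (m : ℕ) (g : Fin m → Fin n), Function.Injective g → Odd m →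
        3 ≤ m → ∃ r ≤ 1, SmJ.L.HasCorank k
          (TTC.actN (SeparableClosure K) (fun j => shE (A (g j)) (B (g j))) ((m - 1) / 2) d) r) ∧
      ∀ i, Sm.L.OrdC k (twE (A i) (B i) d) := by
  constructor
  · intro h
    refine ⟨fun m g hg hm hm3 => ?_, fun i => h (Sum.inr i)⟩
    have hle : m ≤ n := by
      have := Fintype.card_le_of_injective g hg
      simpa using this
    exact h (Sum.inl ⟨⟨m, Nat.lt_succ_of_le hle⟩, g⟩) hg hm hm3
  · rintro ⟨h, h'⟩ (g | i)
    · exact fun hg hm hm3 => h _ g.2 hg hm hm3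
    · exact h' i

omit [Algebra k K] [Field k] in
private theorem AllN_gal {A B : K} (hroot : ∀ x, x ^ 3 + A * x + B ≠ 0)
    (hsq : ¬ IsSquare (-4 * A ^ 3 - 27 * B ^ 2)) :
    Nat.card (X ^ 3 + C A * X + C B : K[X]).Gal = 6 := by
  refine card_gal_cubic A B ?_ hsq
  have hd := natDegree_short A B
  rw [irreducible_iff_roots_eq_zero_of_degree_le_three (by omega) (by omega)]
  refine Multiset.eq_zero_of_forall_notMem fun x hx => hroot x ?_
  have h1 := (mem_roots'.1 hx).2
  simpa [IsRoot] using h1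

end aux

variable (k K : Type) [Field k] [Finite k] [Field K] [Algebra k K] [Algebra.EssFiniteType k K]

/-- **All odd subsets.** -/
theorem final_all (hK : Algebra.trdeg k K = 1) (h6 : (6 : k) ≠ 0) {n : ℕ} {A B : Fin n → K}
    (hroot : ∀ i x, x ^ 3 + A i * x + B i ≠ 0)
    (hgeo : ∀ J : Finset (Fin n), J.Nonempty → ∀ c s : K, IsAlgebraic k c →
      ∏ i ∈ J, (-4 * A i ^ 3 - 27 * B i ^ 2) ≠ c * s ^ 2) :
    (∀ N, (TwLE k N (fun _ : K => True)).Finite) ∧
    ∀ ε : ℝ, 0 < ε → ∃ N₀ : ℕ, ∀ N ≥ N₀,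
      ((TwLE k N (fun d : K => ¬ ((∀ (m : ℕ) (g : Fin m → Fin n), Function.Injective g → Odd m →
          3 ≤ m → ∃ r ≤ 1, SmJ.L.HasCorank k
            (TTC.actN (SeparableClosure K) (fun j => shE (A (g j)) (B (g j))) ((m - 1) / 2) d) r) ∧
        ∀ i, Sm.L.OrdC k (twE (A i) (B i) d)))).ncard : ℝ) ≤
        ε * (TwLE k N (fun _ : K => True)).ncard := by
  classical
  have hfin : ∀ N, (TwLE k N (fun _ : K => True)).Finite := (pairs_E hK h6).1
  refine ⟨hfin, fun ε hε => ?_⟩
  have key : ∀ j, ∀ ε : ℝ, 0 < ε → ∃ N₀ : ℕ, ∀ N ≥ N₀,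
      ((TwLE k N (fun d : K => ¬ AllN_P k A B j d)).ncard : ℝ) ≤
        ε * (TwLE k N (fun _ : K => True)).ncard := by
    rintro (⟨m, g⟩ | i) ε hε
    · by_cases hg : Function.Injective g ∧ Odd (m : ℕ) ∧ 3 ≤ (m : ℕ)
      · obtain ⟨hg, hm, hm3⟩ := hg
        obtain ⟨r, hr⟩ := hm
        have hm' : ((m : ℕ) - 1) / 2 = r := by omega
        obtain ⟨j, N₀, hN₀⟩ := (twists_T k K hK h6 (A := fun j => A (g j)) (B := fun j => B (g j))
          hr (fun i x => hroot (g i) x) (fun J hJ s => by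
            have h1 := hgeo (J.map ⟨g, hg⟩) (hJ.map) 1 s isAlgebraic_one
            rw [Finset.prod_map, one_mul] at h1
            exact h1)).2 ε hε
        refine ⟨N₀, fun N hN => le_trans (Nat.cast_le.2 (Set.ncard_le_ncard
          (twLE_mono fun d hd h9 => hd fun _ _ _ => ?_)
          ((hfin N).subset (twLE_mono fun _ _ => trivial)))) (hN₀ N hN)⟩
        obtain ⟨r', hr', h10, -⟩ := h9.corank
        refine ⟨r', hr', ?_⟩
        change SmJ.L.HasCorank k (TTC.actN (SeparableClosure K)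
          (fun j => shE (A (g j)) (B (g j))) (((m : ℕ) - 1) / 2) (d : K)) r'
        rw [hm']
        exact h10
      · refine ⟨0, fun N _ => ?_⟩
        have he : TwLE k N (fun d : K => ¬ AllN_P k A B (Sum.inl ⟨m, g⟩) d) = ∅ := by
          refine Set.eq_empty_of_forall_notMem ?_
          rintro c ⟨d, -, -, h3⟩
          exact h3 fun h1 h2 h3 => absurd ⟨h1, h2, h3⟩ hg
        rw [he, Set.ncard_empty, Nat.cast_zero]
        positivity
    · have hg1 : ∀ c s : K, IsAlgebraic k c → -4 * A i ^ 3 - 27 * B i ^ 2 ≠ c * s ^ 2 := by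
        intro c s hc
        have h1 := hgeo {i} (Finset.singleton_nonempty i) c s hc
        rwa [Finset.prod_singleton] at h1
      have hG : Nat.card (X ^ 3 + C (A i) * X + C (B i) : K[X]).Gal = 6 := by
        refine AllN_gal (hroot i) ?_
        rintro ⟨s, hs⟩
        refine hg1 1 s isAlgebraic_one ?_
        rw [hs]
        ring
      obtain ⟨j, N₀, hN₀⟩ := (SmNH.Fnl.twists_EH hK h6 hG hg1).2 ε hε
      exact ⟨N₀, fun N hN => le_trans (Nat.cast_le.2 (Set.ncard_le_ncard
        (twLE_mono fun d hd h9 => hd h9.2)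
        ((hfin N).subset (twLE_mono fun _ _ => trivial)))) (hN₀ N hN)⟩
  obtain ⟨N₀, hN₀⟩ := AllN_union hfin key ε hε
  refine ⟨N₀, fun N hN => le_trans (Nat.cast_le.2 (Set.ncard_le_ncard
    (twLE_mono fun d hd h9 => hd ((AllN_all k A B _).1 h9))
    ((hfin N).subset (twLE_mono fun _ _ => trivial)))) (hN₀ N hN)⟩

end Pool.Agent.TTN
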