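import Pool.Agent.Lib.TTN.TensD
import Pool.Agent.Lib.TTC.Stmt

/-!
# Project TTN (MP_950c68_ag), module TwMod: one factor of the tensor product is twisted

PROOF. For every `i` an isomorphism `t i : T2 Ω (W i) ≃ₗ[ℤ_2] T2 Ω (W' i)`: for `i ≠ j` the
identity (`hW i`, `eqToHom`-like: `▸`/`Equiv.cast`, or prove the statement first for `W' =
Function.update W j V` and `subst`), for `i = j` the map `tateMap` of `e` (a linear equivalence
with inverse `tateMap e.symm`), which satisfies `t j (c • actT2 (W j) s x) = actT2 (W' j) s (t j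
x)`, `c = SmN.sgn (chi K d s) = quadChar Ω d s = ± 1` (unfold both). `φ` is `TensorProduct.congr
(PiTensorProduct.congr t) (LinearEquiv.refl _)`. `PiTensorProduct.map (fun i => actT2 Ω (W' i) s)`
applied to `congr t x` is `c •` (`congr t (map (fun i => actT2 Ω (W i) s) x)`): check it on pure
tensors `tprod x` (`PiTensorProduct.induction_on`, `MultilinearMap.map_update_smul` or
`map_smul_univ` with `c i = if i = j then c else 1`). `quadChar Ω 1 s = 1`: the square roots of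
`1` are `± 1`. (`private` lemmas of the result file `AllCodimensions`, `tensEquiv_act`,
`actMod_equiv`, are a model.)
-/

set_option autoImplicit false

open Polynomial TensorProduct
open Pool.Agent.Lib.SmD
open Pool.Agent.Sm.L (Pts gal)

namespace Pool.Agent.TTN

variable {K Ω : Type} [Field K] [Field Ω] [Algebra K Ω]

private theorem twMod_quad (d : K) (s : Ω ≃ₐ[K] Ω) :
    TTC.quadChar Ω d s = SmN.sgn (chi K d s) := by
  classical
  unfold TTC.quadChar chi SmN.sgn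
  split_ifs with h1 h2 h3
  · rfl
  · exact absurd rfl h2
  · exact absurd h3 one_ne_zero
  · rfl

private theorem twMod_quad_one (s : Ω ≃ₐ[K] Ω) : TTC.quadChar Ω (1 : K) s = 1 := by
  classical
  unfold TTC.quadChar
  rw [if_pos]
  intro r hr
  rw [map_one] at hr
  have h1 : (r - 1) * (r + 1) = 0 := by
    have h2 : (r - 1) * (r + 1) = r ^ 2 - 1 := by ring
    rw [h2, hr, sub_self]
  rcases mul_eq_zero.1 h1 with h | h
  · rw [sub_eq_zero.1 h, map_one]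
  · rw [eq_neg_of_add_eq_zero_left h, map_neg, map_one]

private noncomputable def twMod_eqv {P Q : Type} [AddCommGroup P] [AddCommGroup Q] (e : P ≃+ Q) :
    TTC.Tate P ≃ₗ[ℤ_[2]] TTC.Tate Q :=
  LinearEquiv.ofLinearMap (TTC.tateMap e.toAddMonoidHom) (TTC.tateMap e.symm.toAddMonoidHom)
    (LinearMap.ext fun _ => Subtype.ext (funext fun _ => e.apply_symm_apply _))
    (LinearMap.ext fun _ => Subtype.ext (funext fun _ => e.symm_apply_apply _))

private theorem twMod_refl (W1 W2 : WeierstrassCurve K) (h : W2 = W1) :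
    ∃ t : TTC.T2 Ω W1 ≃ₗ[ℤ_[2]] TTC.T2 Ω W2, ∀ (s : Ω ≃ₐ[K] Ω) (x : TTC.T2 Ω W1),
      TTC.actT2 Ω W2 s (t x) = t (TTC.actT2 Ω W1 s x) := by
  subst h
  exact ⟨LinearEquiv.refl _ _, fun _ _ => rfl⟩

private theorem twMod_tw (W1 W2 : WeierstrassCurve K) (d : K)
    (e : Pts Ω W1 ≃+ Pts Ω W2) (he : ∀ (s : Ω ≃ₐ[K] Ω) (P : Pts Ω W1),
      e (SmN.sgn (chi K d s) • gal Ω W1 s P) = gal Ω W2 s (e P)) :
    ∃ t : TTC.T2 Ω W1 ≃ₗ[ℤ_[2]] TTC.T2 Ω W2, ∀ (s : Ω ≃ₐ[K] Ω) (x : TTC.T2 Ω W1),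
      TTC.actT2 Ω W2 s (t x) =
        ((SmN.sgn (chi K d s) : ℤ) : ℤ_[2]) • t (TTC.actT2 Ω W1 s x) := by
  refine ⟨twMod_eqv e, fun s x => ?_⟩
  rw [Int.cast_smul_eq_zsmul]
  refine Subtype.ext (funext fun i => ?_)
  change gal Ω W2 s (e (x.1 i)) = SmN.sgn (chi K d s) • e (gal Ω W1 s (x.1 i))
  rw [← he, map_zsmul]

private theorem twMod_map {n : ℕ} (W W' : Fin n → WeierstrassCurve K)
    (t : ∀ i, TTC.T2 Ω (W i) ≃ₗ[ℤ_[2]] TTC.T2 Ω (W' i)) (c : Fin n → ℤ_[2]) (s : Ω ≃ₐ[K] Ω)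
    (ht : ∀ i (x : TTC.T2 Ω (W i)), TTC.actT2 Ω (W' i) s (t i x) =
      c i • t i (TTC.actT2 Ω (W i) s x)) (x : ⨂[ℤ_[2]] i, TTC.T2 Ω (W i)) :
    PiTensorProduct.map (fun i => TTC.actT2 Ω (W' i) s) (PiTensorProduct.congr t x) =
      (∏ i, c i) • PiTensorProduct.congr t
        (PiTensorProduct.map (fun i => TTC.actT2 Ω (W i) s) x) := by
  induction x using PiTensorProduct.induction_on with
  | smul_tprod r x =>
    rw [map_smul, map_smul, map_smul, map_smul, smul_comm (∏ i, c i) r]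
    congr 1
    rw [PiTensorProduct.congr_tprod, PiTensorProduct.map_tprod, PiTensorProduct.map_tprod,
      PiTensorProduct.congr_tprod, ← MultilinearMap.map_smul_univ]
    congr 1
    funext i
    exact ht i (x i)
  | add x y hx hy => simp only [map_add, hx, hy, smul_add]

/-- The common part: the product of the signs of the factors is the quadratic character. -/
private theorem twMod_core {n : ℕ} (W W' : Fin n → WeierstrassCurve K) (d : K) (m : ℕ)
    (t : ∀ i, TTC.T2 Ω (W i) ≃ₗ[ℤ_[2]] TTC.T2 Ω (W' i)) (c : (Ω ≃ₐ[K] Ω) → Fin n → ℤ_[2])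
    (ht : ∀ i (s : Ω ≃ₐ[K] Ω) (x : TTC.T2 Ω (W i)), TTC.actT2 Ω (W' i) s (t i x) =
      c s i • t i (TTC.actT2 Ω (W i) s x))
    (hc : ∀ s, ∏ i, c s i = ((SmN.sgn (chi K d s) : ℤ) : ℤ_[2])) :
    ∃ φ : TTC.ModN Ω W ≃+ TTC.ModN Ω W', ∀ (s : Ω ≃ₐ[K] Ω) (x : TTC.ModN Ω W),
      φ (TTC.actN Ω W m d s x) = TTC.actN Ω W' m 1 s (φ x) := by
  let φ : TTC.ModN Ω W ≃ₗ[ℤ_[2]] TTC.ModN Ω W' :=
    TensorProduct.congr (PiTensorProduct.congr t) (LinearEquiv.refl ℤ_[2] _)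
  have hφ : ∀ (s : Ω ≃ₐ[K] Ω) (x : TTC.ModN Ω W),
      TensorProduct.map (PiTensorProduct.map fun i => TTC.actT2 Ω (W' i) s) LinearMap.id (φ x) =
        ((SmN.sgn (chi K d s) : ℤ) : ℤ_[2]) •
          φ (TensorProduct.map (PiTensorProduct.map fun i => TTC.actT2 Ω (W i) s)
            LinearMap.id x) := by
    intro s x
    have h1 := twMod_map W W' t (c s) s fun i => ht i s
    rw [hc s] at h1
    induction x using TensorProduct.induction_on with
    | zero => simp only [map_zero, smul_zero]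
    | tmul x y =>
      change TensorProduct.map _ _ ((PiTensorProduct.congr t x) ⊗ₜ[ℤ_[2]] y) = _
      rw [TensorProduct.map_tmul, h1, ← TensorProduct.smul_tmul', TensorProduct.map_tmul]
      rfl
    | add x y hx hy => simp only [map_add, hx, hy, smul_add]
  refine ⟨φ.toAddEquiv, fun s x => ?_⟩
  change φ (TTC.quadChar Ω d s • ((((cyclotomicCharacter Ω 2 s.toRingEquiv)⁻¹ ^ m : ℤ_[2]ˣ) :
      ℤ_[2]) • TensorProduct.map (PiTensorProduct.map fun i => TTC.actT2 Ω (W i) s)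
        LinearMap.id x)) =
    TTC.quadChar Ω 1 s • ((((cyclotomicCharacter Ω 2 s.toRingEquiv)⁻¹ ^ m : ℤ_[2]ˣ) :
      ℤ_[2]) • TensorProduct.map (PiTensorProduct.map fun i => TTC.actT2 Ω (W' i) s)
        LinearMap.id (φ x))
  have h9 : ∀ (c : ℤ) (y : TTC.ModN Ω W'), ((c : ℤ) : ℤ_[2]) • y = c • y := fun c y =>
    Int.cast_smul_eq_zsmul ℤ_[2] c y
  rw [hφ, twMod_quad_one, one_smul, twMod_quad, map_zsmul, map_smul, h9, smul_comm]

theorem exists_twMod {n : ℕ} (W W' : Fin n → WeierstrassCurve K) (j : Fin n)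
    (hW : ∀ i, i ≠ j → W' i = W i) (d : K)
    (he : ∃ e : Pts Ω (W j) ≃+ Pts Ω (W' j), ∀ (s : Ω ≃ₐ[K] Ω) (P : Pts Ω (W j)),
      e (SmN.sgn (chi K d s) • gal Ω (W j) s P) = gal Ω (W' j) s (e P)) (m : ℕ) :
    ∃ φ : TTC.ModN Ω W ≃+ TTC.ModN Ω W', ∀ (s : Ω ≃ₐ[K] Ω) (x : TTC.ModN Ω W),
      φ (TTC.actN Ω W m d s x) = TTC.actN Ω W' m 1 s (φ x) := by
  obtain ⟨e, he⟩ := he
  have ht : ∀ i, ∃ t : TTC.T2 Ω (W i) ≃ₗ[ℤ_[2]] TTC.T2 Ω (W' i),
      ∀ (s : Ω ≃ₐ[K] Ω) (x : TTC.T2 Ω (W i)), TTC.actT2 Ω (W' i) s (t x) =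
        (if i = j then ((SmN.sgn (chi K d s) : ℤ) : ℤ_[2]) else 1) •
          t (TTC.actT2 Ω (W i) s x) := by
    intro i
    by_cases h : i = j
    · subst h
      obtain ⟨t, ht⟩ := twMod_tw (W i) (W' i) d e he
      refine ⟨t, fun s x => ?_⟩
      rw [if_pos rfl]
      exact ht s x
    · obtain ⟨t, ht⟩ := twMod_refl (Ω := Ω) (W i) (W' i) (hW i h)
      refine ⟨t, fun s x => ?_⟩
      rw [if_neg h, one_smul]
      exact ht s x
  choose t ht using ht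
  refine twMod_core W W' d m t
    (fun s i => if i = j then ((SmN.sgn (chi K d s) : ℤ) : ℤ_[2]) else 1) ht fun s => ?_
  rw [Finset.prod_ite_eq' Finset.univ j, if_pos (Finset.mem_univ j)]

/-- The variant in which all the factors are twisted, `n` odd. -/
theorem exists_twAll {n : ℕ} (hn : Odd n) (W W' : Fin n → WeierstrassCurve K) (d : K)
    (he : ∀ j, ∃ e : Pts Ω (W j) ≃+ Pts Ω (W' j), ∀ (s : Ω ≃ₐ[K] Ω) (P : Pts Ω (W j)),
      e (SmN.sgn (chi K d s) • gal Ω (W j) s P) = gal Ω (W' j) s (e P)) (m : ℕ) :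
    ∃ φ : TTC.ModN Ω W ≃+ TTC.ModN Ω W', ∀ (s : Ω ≃ₐ[K] Ω) (x : TTC.ModN Ω W),
      φ (TTC.actN Ω W m d s x) = TTC.actN Ω W' m 1 s (φ x) := by
  have ht : ∀ i, ∃ t : TTC.T2 Ω (W i) ≃ₗ[ℤ_[2]] TTC.T2 Ω (W' i),
      ∀ (s : Ω ≃ₐ[K] Ω) (x : TTC.T2 Ω (W i)), TTC.actT2 Ω (W' i) s (t x) =
        ((SmN.sgn (chi K d s) : ℤ) : ℤ_[2]) • t (TTC.actT2 Ω (W i) s x) := by
    intro i
    obtain ⟨e, he⟩ := he i
    exact twMod_tw (W i) (W' i) d e he
  choose t ht using ht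
  refine twMod_core W W' d m t (fun s _ => ((SmN.sgn (chi K d s) : ℤ) : ℤ_[2])) ht fun s => ?_
  rw [Finset.prod_const, Finset.card_univ, Fintype.card_fin, ← Int.cast_pow]
  congr 1
  unfold SmN.sgn
  split_ifs
  · exact one_pow n
  · exact hn.neg_one_pow

end Pool.Agent.TTN
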