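import Pool.Agent.Lib.TTN.FinN
import Pool.Agent.Lib.SM.E.TwistIso

/-!
# Project TTN (MP_950c68_ag), module TwPts: the points of the quadratic twist of
`y ^ 2 = x ^ 3 + A x + B`

PROOF. Let `δ ∈ Ω`, `δ ^ 2 = d` (separably closed), so `s δ = ± δ`, `+` iff `chi K d s = 0`. The
map is `(x, y) ↦ (δ ^ 2 x, δ ^ 3 y)` (`SM/E/TwistIso.lean`, `ScaleRel.equiv`).
-/

set_option autoImplicit false

open Polynomial
open Pool.Agent.SmN.Fnl Pool.Agent.Lib.SmD
open Pool.Agent.Sm.L (Pts gal)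

namespace Pool.Agent.TTN

variable {K Ω : Type} [Field K] [Field Ω] [Algebra K Ω] [IsSepClosed Ω]

omit [IsSepClosed Ω] in
open WeierstrassCurve in
private theorem twPts_gal_some {W : WeierstrassCurve K} (s : Ω ≃ₐ[K] Ω) {x y : Ω}
    (hn : (W.baseChange Ω).toAffine.Nonsingular x y) :
    ∃ h', gal Ω W s (.some x y hn) = .some (s x) (s y) h' := ⟨_, rfl⟩

open WeierstrassCurve in
theorem exists_twPts (h2 : (2 : K) ≠ 0) {A B d : K} (hdisc : -4 * A ^ 3 - 27 * B ^ 2 ≠ 0)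
    (hd : d ≠ 0) : ∃ e : Pts Ω (shE A B) ≃+ Pts Ω (shE (A * d ^ 2) (B * d ^ 3)),
      ∀ (s : Ω ≃ₐ[K] Ω) (P : Pts Ω (shE A B)),
        e (SmN.sgn (chi K d s) • gal Ω (shE A B) s P) =
          gal Ω (shE (A * d ^ 2) (B * d ^ 3)) s (e P) := by
  classical
  have h2Ω : ((2 : ℕ) : Ω) ≠ 0 := by
    rw [Nat.cast_ofNat, ← map_ofNat (algebraMap K Ω) 2]
    exact (map_ne_zero_iff _ (algebraMap K Ω).injective).2 h2
  have : NeZero ((2 : ℕ) : Ω) := ⟨h2Ω⟩
  obtain ⟨δ, hδ⟩ := IsSepClosed.exists_pow_nat_eq (algebraMap K Ω d) 2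
  have hδ0 : δ ≠ 0 := by
    rintro rfl
    apply hd
    apply (algebraMap K Ω).injective
    rw [← hδ, map_zero]
    simp
  have hrel : SmithE.ScaleRel ((shE A B).baseChange Ω).toAffine
      ((shE (A * d ^ 2) (B * d ^ 3)).baseChange Ω).toAffine δ := by
    refine ⟨hδ0, ?_, ?_, ?_, ?_, ?_, ?_, ?_⟩
    · exact map_zero _
    · exact map_zero _
    · exact map_zero _
    · exact map_zero _
    · change algebraMap K Ω 0 = δ ^ 2 * algebraMap K Ω 0
      rw [map_zero, mul_zero]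
    · change algebraMap K Ω (A * d ^ 2) = δ ^ 4 * algebraMap K Ω A
      rw [map_mul, map_pow, ← hδ]
      ring
    · change algebraMap K Ω (B * d ^ 3) = δ ^ 6 * algebraMap K Ω B
      rw [map_mul, map_pow, ← hδ]
      ring
  have hs : ∀ s : Ω ≃ₐ[K] Ω, s δ = δ ∨ s δ = -δ := by
    intro s
    have h1 : s δ ^ 2 = δ ^ 2 := by rw [← map_pow, hδ, AlgEquiv.commutes]
    exact sq_eq_sq_iff_eq_or_eq_neg.mp h1
  have hchi : ∀ s : Ω ≃ₐ[K] Ω, chi K d s = 0 ↔ s δ = δ := by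
    intro s
    unfold chi
    constructor
    · intro h
      by_contra h1
      rw [if_neg (fun h3 => h1 (h3 δ hδ))] at h
      exact one_ne_zero h
    · intro h
      rw [if_pos]
      intro r hr
      have h1 : r ^ 2 = δ ^ 2 := by rw [hr, hδ]
      rcases sq_eq_sq_iff_eq_or_eq_neg.mp h1 with rfl | rfl
      · exact h
      · rw [map_neg, h]
  refine ⟨hrel.equiv, fun s P => ?_⟩
  by_cases h : s δ = δ
  · rw [(hchi s).2 h, SmN.sgn, if_pos rfl, one_smul]
    rcases P with _ | ⟨x, y, hn⟩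
    · rfl
    · obtain ⟨h3, e3⟩ := twPts_gal_some s hn
      obtain ⟨h4, e4⟩ := twPts_gal_some s (hrel.nonsingular hn)
      rw [e3, SmithE.ScaleRel.equiv_some, SmithE.ScaleRel.equiv_some, e4,
        Affine.Point.some.injEq]
      simp only [map_mul, map_pow, h, and_self]
  · have h1 : s δ = -δ := (hs s).resolve_left h
    have h5 : chi K d s ≠ 0 := fun h0 => h ((hchi s).1 h0)
    rw [SmN.sgn, if_neg h5, neg_one_smul]
    rcases P with _ | ⟨x, y, hn⟩
    · rfl
    · obtain ⟨h3, e3⟩ := twPts_gal_some s hn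
      obtain ⟨h4, e4⟩ := twPts_gal_some s (hrel.nonsingular hn)
      rw [e3, map_neg, SmithE.ScaleRel.equiv_some, SmithE.ScaleRel.equiv_some, e4,
        Affine.Point.neg_some, Affine.Point.some.injEq, Affine.negY, hrel.b1, hrel.b3]
      simp only [map_mul, map_pow, h1]
      constructor <;> ring

end Pool.Agent.TTN
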