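import Pool.Agent.Lib.TTN.NestD
import Pool.Agent.Lib.TTN.TwPts
import Pool.Agent.Lib.TTN.TwMod
import Pool.Agent.Lib.TTN.AllN
import Pool.Agent.Lib.SmNH.Fin.Done

/-!
# Project TTN (MP_950c68_ag), module ComT: the common twist, in terms of `Tup`

PROOF. `final_all` (module AllN) with `hroot = hI.root`, `hgeo = hI.disc`. For `d : Kˣ` outside
the bad set: `ord` is the second part (`twE A B d = shE (A * d ^ 2) (B * d ^ 3)` is `rfl`);
`tensor`: for `g : Fin m → Fin n`, `m` odd, the first part gives `HasCorank` for `actN Ω (fun j =>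
shE (A (g j)) (B (g j))) m' d`, and `exists_twAll` (module TwMod, `m` odd) with `exists_twPts`
(module TwPts; `disc ≠ 0` from `hI.disc {i}` with `s = 0`; `2 ≠ 0`) and `SmN.Fnl.hasCorank_iso`
(`SmN/Fin/Trans.lean`) give it for the twisted curves with `d = 1`. `SmNH.Fnl.twists_self`
identifies `Twists` with `TwLE`; `twLE_mono`, `Set.ncard_le_ncard`.
-/

set_option autoImplicit false

open Polynomial Pool.Agent.SmN.Stm

namespace Pool.Agent.TTN

section prep

variable {k K : Type} [Field k] [Field K] [Algebra k K]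

private theorem ComT_two (h6 : (6 : k) ≠ 0) : (2 : K) ≠ 0 := by
  have h2 : (2 : k) ≠ 0 := by
    intro h
    apply h6
    have h3 : (6 : k) = 2 * 3 := by norm_num
    rw [h3, h, zero_mul]
  intro h
  apply h2
  apply (algebraMap k K).injective
  rw [map_zero, map_ofNat]
  exact h

private theorem ComT_tup (h6 : (6 : k) ≠ 0) {n : ℕ} {A B : Fin n → K} (hI : Indep k A B)
    (d : Kˣ)
    (h1 : ∀ (m : ℕ) (g : Fin m → Fin n), Function.Injective g → Odd m → 3 ≤ m →
      ∃ r ≤ 1, SmJ.L.HasCorank k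
        (TTC.actN (SeparableClosure K) (fun j => shE (A (g j)) (B (g j))) ((m - 1) / 2) (d : K)) r)
    (h2 : ∀ i, Sm.L.OrdC k (SmN.Fnl.twE (A i) (B i) (d : K))) :
    Tup k (fun i => A i * (d : K) ^ 2) (fun i => B i * (d : K) ^ 3) := by
  refine ⟨fun m g hg hm h3 => ?_, fun i => h2 i⟩
  obtain ⟨r, hr, hc⟩ := h1 m g hg hm h3
  refine ⟨r, hr, ?_⟩
  obtain ⟨φ, hφ⟩ := exists_twAll (Ω := SeparableClosure K) hm
    (fun j => shE (A (g j)) (B (g j)))
    (fun j => shE (A (g j) * (d : K) ^ 2) (B (g j) * (d : K) ^ 3)) (d : K)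
    (fun j => exists_twPts (ComT_two h6) (fun h => by
      refine hI.disc {g j} (Finset.singleton_nonempty _) 1 0 isAlgebraic_one ?_
      rw [Finset.prod_singleton, h]
      ring) d.ne_zero) ((m - 1) / 2)
  exact SmN.Fnl.hasCorank_iso φ hφ hc

end prep

variable (k K : Type) [Field k] [Finite k] [Field K] [Algebra k K] [Algebra.EssFiniteType k K]

/-- **All curves twisted by the same `d`.** -/
theorem common_all (hK : Algebra.trdeg k K = 1) (h6 : (6 : k) ≠ 0) {n : ℕ} {A B : Fin n → K}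
    (hI : Indep k A B) :
    (∀ N, (Twists k N fun _ : K => True).Finite) ∧
    AlmostAll k fun _ (d : K) => Tup k (fun i => A i * d ^ 2) (fun i => B i * d ^ 3) := by
  obtain ⟨h1, h2⟩ := final_all k K hK h6 hI.root hI.disc
  have hfin : ∀ N, (Twists k N (fun _ : K => True)).Finite := fun N => by
    rw [SmNH.Fnl.twists_self]
    exact h1 N
  refine ⟨hfin, ?_⟩
  intro ε hε
  obtain ⟨N₀, h3⟩ := h2 ε hε
  refine ⟨0, N₀, fun N hN => ?_⟩
  have h8 := h3 N hN
  rw [← SmNH.Fnl.twists_self (P := fun _ : K => True)] at h8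
  refine le_trans ?_ h8
  refine Nat.cast_le.2 (Set.ncard_le_ncard ?_ ((h1 N).subset ?_))
  · rintro c ⟨d, h4, h5, h6'⟩
    refine ⟨d, h4, (SmNH.Fnl.oddDeg_eq (k := k) d.ne_zero) ▸ h5, fun h7 =>
      h6' (ComT_tup h6 hI d h7.1 h7.2)⟩
  · exact SmN.Fnl.twLE_mono fun _ _ => trivial

end Pool.Agent.TTN
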