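import Pool.Agent.Lib.TTN.NestD
import Pool.Agent.Lib.TTN.TwPts
import Pool.Agent.Lib.TTN.TwMod
import Pool.Agent.Lib.SmNH.Fin.Done

/-!
# Project TTN (MP_950c68_ag), module NestS: independent twists, one more curve

PROOF. For `g : Fin m → Option ι` injective, `m` odd, `m ≥ 3`: if `none` is not in the range, `g =
some ∘ g'`, and the conclusion is `h0.tensor` for every `d` (the curves do not depend on `d`).
Otherwise `g j = none` for one `j`: `twists_T` (module FinN, `m = 2 m' + 1`, `(m - 1) / 2 = m'`)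
for `A ∘ g`, `B ∘ g` (`hdisc` from `hI.disc` for the image of `J` under `g`, `c = 1`,
`Finset.prod_map`) says that for almost all `d` the module `actN Ω (fun i => shE (A (g i)) (B (g
i))) m' d` has a Selmer group of corank `r ≤ 1` (`GoodOn.corank`); `exists_twMod` with `W' i = `
the curve with `d` at `j`, and `exists_twPts`, `hasCorank_iso` (`SmN/Fin/Trans.lean`) give the
conclusion. There are finitely many `(m, g)` (`m ≤ Nat.card (Option ι)`). `ord`: for `some i` from
`h0.ord`; for `none` from `SmNH.Fnl.twists_EH` (`card_gal_cubic_iff` as in the proof of `AllN`;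
`twE A B d = shE (A d ^ 2) (B d ^ 3)` is `rfl`). Union bound; `SmNH.Fnl.twists_self`
(`SmNH/Fin/Done.lean`) identifies `Twists` with `TwLE`; `d ≠ 0` in `TwLE` (`twLE_mono` gives `d :
Kˣ`). It is convenient to prove first: `AlmostAll` is stable under `∧` (`j` is not used here: `P j
d` does not depend on `j`), under finite `∀` and under implication; `Twists k N True` is finite
(first part of `twists_EH`).
-/

set_option autoImplicit false

open Polynomial Pool.Agent.SmN.Stm

namespace Pool.Agent.TTN

section almost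

variable {k K : Type} [Field k] [Field K] [Algebra k K]

private theorem NestS_num_mono (hfin : ∀ N, (Twists k N fun _ : K => True).Finite) (N : ℕ)
    {P Q : K → Prop} (h : ∀ d : Kˣ, P d → Q d) : num k N P ≤ num k N Q := by
  unfold num
  refine Nat.cast_le.2 (Set.ncard_le_ncard ?_ ((hfin N).subset ?_))
  · rintro c ⟨d, h1, h2, h3⟩
    exact ⟨d, h1, h2, h d h3⟩
  · rintro c ⟨d, h1, h2, -⟩
    exact ⟨d, h1, h2, trivial⟩

private theorem NestS_mono (hfin : ∀ N, (Twists k N fun _ : K => True).Finite)
    {P Q : ℕ → K → Prop} (h : ∀ j (d : Kˣ), P j d → Q j d) (hP : AlmostAll k P) :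
    AlmostAll k Q := by
  intro ε hε
  obtain ⟨j, N₀, h1⟩ := hP ε hε
  exact ⟨j, N₀, fun N hN => le_trans
    (NestS_num_mono hfin N fun d hd hp => hd (h j d hp)) (h1 N hN)⟩

private theorem NestS_true : AlmostAll k fun _ (_ : K) => True := by
  intro ε hε
  refine ⟨0, 0, fun N _ => ?_⟩
  have h1 : num k N (fun _ : K => ¬ True) = 0 := by
    unfold num
    have h2 : Twists k N (fun _ : K => ¬ True) = ∅ := by
      ext c
      constructor
      · rintro ⟨d, h1, h2, h3⟩
        exact absurd trivial h3
      · intro h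
        exact absurd h (Set.notMem_empty c)
    rw [h2, Set.ncard_empty, Nat.cast_zero]
  rw [h1]
  exact mul_nonneg hε.le (Nat.cast_nonneg _)

private theorem NestS_and (hfin : ∀ N, (Twists k N fun _ : K => True).Finite) {P Q : K → Prop}
    (hP : AlmostAll k fun _ => P) (hQ : AlmostAll k fun _ => Q) :
    AlmostAll k fun _ d => P d ∧ Q d := by
  intro ε hε
  obtain ⟨_, N₁, h1⟩ := hP (ε / 2) (half_pos hε)
  obtain ⟨_, N₂, h2⟩ := hQ (ε / 2) (half_pos hε)
  refine ⟨0, max N₁ N₂, fun N hN => ?_⟩
  have h3 : num k N (fun d : K => ¬ (P d ∧ Q d)) ≤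
      num k N (fun d : K => ¬ P d) + num k N (fun d : K => ¬ Q d) := by
    unfold num
    rw [← Nat.cast_add]
    refine Nat.cast_le.2 (le_trans (Set.ncard_le_ncard ?_ ?_) (Set.ncard_union_le _ _))
    · rintro c ⟨d, h4, h5, h6⟩
      by_cases h7 : P d
      · exact Or.inr ⟨d, h4, h5, fun h8 => h6 ⟨h7, h8⟩⟩
      · exact Or.inl ⟨d, h4, h5, h7⟩
    · refine (hfin N).subset ?_
      rintro c (⟨d, h4, h5, -⟩ | ⟨d, h4, h5, -⟩)
      · exact ⟨d, h4, h5, trivial⟩
      · exact ⟨d, h4, h5, trivial⟩
  have h4 := h1 N ((le_max_left _ _).trans hN)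
  have h5 := h2 N ((le_max_right _ _).trans hN)
  calc num k N (fun d : K => ¬ (P d ∧ Q d))
      ≤ num k N (fun d : K => ¬ P d) + num k N (fun d : K => ¬ Q d) := h3
    _ ≤ ε / 2 * num k N (fun _ : K => True) + ε / 2 * num k N (fun _ : K => True) :=
        add_le_add h4 h5
    _ = ε * num k N (fun _ : K => True) := by ring

private theorem NestS_forall (hfin : ∀ N, (Twists k N fun _ : K => True).Finite) {α : Type}
    [Finite α] {P : α → K → Prop} (h : ∀ a, AlmostAll k fun _ => P a) :
    AlmostAll k fun _ d => ∀ a, P a d := by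
  classical
  obtain ⟨_⟩ := nonempty_fintype α
  have key : ∀ s : Finset α, AlmostAll k fun _ (d : K) => ∀ a ∈ s, P a d := by
    intro s
    induction s using Finset.induction_on with
    | empty =>
      exact NestS_mono hfin (fun _ _ _ a ha => absurd ha (Finset.notMem_empty a)) NestS_true
    | insert a s _ ih =>
      refine NestS_mono hfin (fun _ d hd b hb => ?_) (NestS_and hfin (h a) ih)
      rcases Finset.mem_insert.1 hb with rfl | hb
      · exact hd.1
      · exact hd.2 b hb
  exact NestS_mono hfin (fun _ d hd a => hd a (Finset.mem_univ a)) (key Finset.univ)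

end almost

section curves

open Pool.Agent.SmN.Fnl

variable {k K : Type} [Field k] [Finite k] [Field K] [Algebra k K] [Algebra.EssFiniteType k K]

omit [Finite k] [Algebra.EssFiniteType k K] in
private theorem NestS_two (h6 : (6 : k) ≠ 0) : (2 : K) ≠ 0 := by
  have h2 : (2 : k) ≠ 0 := by
    intro h
    apply h6
    have h3 : (6 : k) = 2 * 3 := by norm_num
    rw [h3, h, zero_mul]
  intro h
  apply h2
  apply (algebraMap k K).injective
  rw [map_zero, map_ofNat]
  exact h

private theorem NestS_gal (h2 : (2 : K) ≠ 0) {A B : K} (hroot : ∀ x, x ^ 3 + A * x + B ≠ 0)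
    (hsq : ∀ s : K, -4 * A ^ 3 - 27 * B ^ 2 ≠ s ^ 2) :
    Nat.card (X ^ 3 + C A * X + C B : K[X]).Gal = 6 := by
  have h1 := (card_gal_cubic_iff h2 A B).2
  have h3 : (2 * 1 + 1).factorial = 6 := rfl
  rw [h3] at h1
  refine h1 ⟨?_, ?_⟩
  · have hd : (X ^ 3 + C A * X + C B : K[X]).natDegree = 3 := natDegree_short A B
    have hm : (X ^ 3 + C A * X + C B : K[X]).Monic := monic_short A B
    rw [hm.irreducible_iff_roots_eq_zero_of_degree_le_three (by rw [hd]; norm_num)
      (by rw [hd])]
    rw [Multiset.eq_zero_iff_forall_notMem]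
    intro x hx
    rw [mem_roots hm.ne_zero, IsRoot.def] at hx
    simp only [eval_add, eval_pow, eval_X, eval_mul, eval_C] at hx
    exact hroot x hx
  · rintro ⟨s, hs⟩
    exact hsq s (by rw [hs]; ring)

private theorem NestS_EH (hK : Algebra.trdeg k K = 1) (h6 : (6 : k) ≠ 0) {A B : K}
    (hroot : ∀ x, x ^ 3 + A * x + B ≠ 0)
    (hdisc : ∀ c s : K, IsAlgebraic k c → -4 * A ^ 3 - 27 * B ^ 2 ≠ c * s ^ 2) :
    (∀ N, (Twists k N (fun _ : K => True)).Finite) ∧
    AlmostAll k fun _ (d : K) => Sm.L.OrdC k (shE (A * d ^ 2) (B * d ^ 3)) := by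
  have hG := NestS_gal (NestS_two h6) hroot fun s hs =>
    hdisc 1 s (isAlgebraic_one) (by rw [one_mul]; exact hs)
  obtain ⟨h1, h2⟩ := SmNH.Fnl.twists_EH hK h6 hG hdisc
  have hfin : ∀ N, (Twists k N (fun _ : K => True)).Finite := fun N => by
    rw [SmNH.Fnl.twists_self]
    exact h1 N
  refine ⟨hfin, ?_⟩
  have h3 : AlmostAll k fun j (d : K) =>
      Sm.L.GoodC k (twE A B d) j ∧ Sm.L.OrdC k (twE A B d) := by
    intro ε hε
    obtain ⟨j, N₀, h4⟩ := h2 ε hε
    refine ⟨j, N₀, fun N hN => ?_⟩
    unfold num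
    rw [SmNH.Fnl.twists_self, SmNH.Fnl.twists_self]
    exact h4 N hN
  exact NestS_mono hfin (fun _ d hd => hd.2) h3

private theorem NestS_tens (hK : Algebra.trdeg k K = 1) (h6 : (6 : k) ≠ 0) {ι : Type}
    {A B : Option ι → K} (hI : Indep k A B)
    (hfin : ∀ N, (Twists k N (fun _ : K => True)).Finite)
    (h0 : Tup k (fun i : ι => A (some i)) (fun i : ι => B (some i)))
    {m : ℕ} (g : Fin m → Option ι) (hg : Function.Injective g) (hm : Odd m) (h3 : 3 ≤ m) :
    AlmostAll k fun _ (d : K) => ∃ r ≤ 1, SmJ.L.HasCorank k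
      (TTC.actN (SeparableClosure K) (fun j => shE
        ((g j).elim (A none * d ^ 2) fun i => A (some i))
        ((g j).elim (B none * d ^ 3) fun i => B (some i))) ((m - 1) / 2) 1) r := by
  by_cases hn : ∃ j, g j = none
  · obtain ⟨j0, hj0⟩ := hn
    obtain ⟨m', hm'⟩ := hm
    have hm2 : (m - 1) / 2 = m' := by omega
    have h1 : AlmostAll k fun j (d : K) => SmJ.L.GoodOn k
        (TTC.actN (SeparableClosure K) (fun i => shE (A (g i)) (B (g i))) m' d) j := by
      intro ε hε
      obtain ⟨-, h4⟩ := twists_T k K hK h6 hm' (A := fun i => A (g i)) (B := fun i => B (g i))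
        (fun i x => hI.root (g i) x) (fun J hJ s hs => by
          refine hI.disc (J.map ⟨g, hg⟩) (Finset.map_nonempty.2 hJ) 1 s isAlgebraic_one ?_
          rw [Finset.prod_map, one_mul]
          exact hs)
      obtain ⟨j, N₀, h5⟩ := h4 ε hε
      refine ⟨j, N₀, fun N hN => ?_⟩
      unfold num
      rw [SmNH.Fnl.twists_self, SmNH.Fnl.twists_self]
      exact h5 N hN
    refine NestS_mono hfin (fun _ d hd => ?_) h1
    obtain ⟨r, hr, hc, -⟩ := hd.corank
    refine ⟨r, hr, ?_⟩
    rw [hm2]
    have hdisc : -4 * A none ^ 3 - 27 * B none ^ 2 ≠ 0 := by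
      intro h
      refine hI.disc {none} (Finset.singleton_nonempty _) 1 0 isAlgebraic_one ?_
      rw [Finset.prod_singleton, h]
      ring
    have hgen : ∀ W W' : Fin m → WeierstrassCurve K, (∀ i, i ≠ j0 → W' i = W i) →
        W j0 = shE (A none) (B none) →
        W' j0 = shE (A none * (d : K) ^ 2) (B none * (d : K) ^ 3) →
        SmJ.L.HasCorank k (TTC.actN (SeparableClosure K) W m' (d : K)) r →
        SmJ.L.HasCorank k (TTC.actN (SeparableClosure K) W' m' 1) r := by
      intro W W' hW hWj hW'j hcor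
      obtain ⟨φ, hφ⟩ := exists_twMod (Ω := SeparableClosure K) W W' j0 hW (d : K) (by
        rw [hWj, hW'j]
        exact exists_twPts (NestS_two h6) hdisc d.ne_zero) m'
      exact hasCorank_iso φ hφ hcor
    refine hgen (fun i => shE (A (g i)) (B (g i))) _ (fun i hi => ?_) ?_ ?_ hc
    · rcases hgi : g i with _ | x
      · exact absurd (hg (hgi.trans hj0.symm)) hi
      · rfl
    · change shE (A (g j0)) (B (g j0)) = _
      rw [hj0]
    · change shE ((g j0).elim (A none * (d : K) ^ 2) fun i => A (some i))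
          ((g j0).elim (B none * (d : K) ^ 3) fun i => B (some i)) = _
      rw [hj0]
      rfl
  · have h1 : ∀ j, ∃ i, g j = some i := by
      intro j
      rcases hgj : g j with _ | x
      · exact absurd ⟨j, hgj⟩ hn
      · exact ⟨x, rfl⟩
    choose g' hg' using h1
    have hinj : Function.Injective g' := by
      intro x y hxy
      apply hg
      rw [hg', hg', hxy]
    obtain ⟨r, hr, hc⟩ := h0.tensor m g' hinj hm h3
    refine NestS_mono hfin (fun _ d _ => ⟨r, hr, ?_⟩) NestS_true
    have h2 : (fun j => shE ((g j).elim (A none * (d : K) ^ 2) fun i => A (some i))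
        ((g j).elim (B none * (d : K) ^ 3) fun i => B (some i))) =
        fun j => shE (A (some (g' j))) (B (some (g' j))) := by
      funext j
      rw [hg' j]
      rfl
    rw [h2]
    exact hc

end curves

variable (k K : Type) [Field k] [Finite k] [Field K] [Algebra k K] [Algebra.EssFiniteType k K]

/-- One more curve, twisted by almost all `d`. -/
theorem nest_step (hK : Algebra.trdeg k K = 1) (h6 : (6 : k) ≠ 0) {ι : Type} [Finite ι]
    {A B : Option ι → K} (hI : Indep k A B)
    (h0 : Tup k (fun i : ι => A (some i)) (fun i : ι => B (some i))) :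
    AlmostAll k fun _ (d : K) => Tup k
      (fun i : Option ι => i.elim (A none * d ^ 2) fun i => A (some i))
      (fun i : Option ι => i.elim (B none * d ^ 3) fun i => B (some i)) := by
  classical
  obtain ⟨hfin, hEH⟩ := NestS_EH hK h6 (A := A none) (B := B none) (hI.root none)
    fun c s hc h => by
      refine hI.disc {none} (Finset.singleton_nonempty _) c s hc ?_
      rw [Finset.prod_singleton]
      exact h
  have hord : AlmostAll k fun _ (d : K) => ∀ i : Option ι, Sm.L.OrdC k
      (shE (i.elim (A none * d ^ 2) fun i => A (some i))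
        (i.elim (B none * d ^ 3) fun i => B (some i))) := by
    refine NestS_forall hfin fun i => ?_
    rcases i with _ | i
    · exact hEH
    · exact NestS_mono hfin (fun _ _ _ => h0.ord i) NestS_true
  have htens : AlmostAll k fun _ (d : K) => ∀ p : (m : Fin (Nat.card (Option ι) + 1)) ×
      {g : Fin (m : ℕ) → Option ι // Function.Injective g ∧ Odd (m : ℕ) ∧ 3 ≤ (m : ℕ)},
      ∃ r ≤ 1, SmJ.L.HasCorank k
        (TTC.actN (SeparableClosure K) (fun j => shE
          ((p.2.1 j).elim (A none * d ^ 2) fun i => A (some i))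
          ((p.2.1 j).elim (B none * d ^ 3) fun i => B (some i))) (((p.1 : ℕ) - 1) / 2) 1) r := by
    refine NestS_forall hfin fun p => ?_
    exact NestS_tens hK h6 hI hfin h0 p.2.1 p.2.2.1 p.2.2.2.1 p.2.2.2.2
  refine NestS_mono hfin (fun _ d hd => ?_) (NestS_and hfin htens hord)
  refine ⟨fun m g hg hm h3 => ?_, hd.2⟩
  have hle : m ≤ Nat.card (Option ι) := by
    have h1 := Nat.card_le_card_of_injective g hg
    rwa [Nat.card_fin] at h1
  exact hd.1 ⟨⟨m, Nat.lt_succ_of_le hle⟩, ⟨g, hg, hm, h3⟩⟩

end Pool.Agent.TTN
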