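import Pool.Agent.Lib.TTN.Defs

/-!
# Project TTN (MP_950c68_ag), module AcL: elementary facts on the module of a lattice

SOURCES: `TTC/OkB.lean`, `TTC/OkL.lean`, `TTC/Mact.lean` (same facts for lattices which are
trivial modulo `2`; here `acL` replaces the trivial action). `iota_acL`: `mact_hf2`. `e_invL`:
`Sy.sim` modulo `2` (the multiplier is a unit of `ℤ_2`, so `1` modulo `2`). `act_finL`: `LatG.cont
j` and `mact_kill`. `fin_invL` (the invariants of the decomposition group in `VL ⊗ χ` are finite):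
see the proof of `fin_inv` from the field `pure` in `TTC/OkL.lean`, `TTC/OkB.lean` (an infinite
set of invariants gives a nonzero vector of `ℚ_2 ^ I`). Here use the field `LatG.pure v U` with
`U` = the kernel of `χ` (`HomG`: `χ` is a homomorphism, trivial on a member of `NP K Ω`, so `U` is
open): on `U` the twisted action is the action, and a vector of `ℚ_2 ^ I` fixed by `dvK Ω v ∩ U`
is `0`; so the invariants of `dvK Ω v ∩ U` in `VL L` are finite. (If they are infinite there is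
for every `j` an invariant point of order exactly `2 ^ j`; by compactness (König) a compatible
sequence, that is a nonzero `r` with `L.rq s r - r` divisible by every power of `2`, for all `s`.)
-/

set_option autoImplicit false

open Pool.Agent.TTC (Lat VL QZ mact red2 hf2 iotaL eL cycK)
open Pool.Agent.BSDFF Pool.Agent.GBU Pool.Agent.Lib.SmD Pool.Agent.SmN

namespace Pool.Agent.TTN

private theorem AcL_fin (N : ℕ) : {Q : QZ | (2 : ℤ_[2]) ^ N • Q = 0}.Finite := by
  refine (Set.finite_range fun n : Fin (2 ^ N) => TTC.qz (((n : ℕ) : ℚ_[2]) / 2 ^ N)).subset ?_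
  intro Q hQ
  obtain ⟨r, rfl⟩ := TTC.qz_surj Q
  rw [Set.mem_ofPred_eq, TTC.qz_smul, TTC.qz_eq_zero] at hQ
  obtain ⟨a, ha⟩ := hQ
  obtain ⟨c, hc⟩ := Ideal.mem_span_singleton.mp (PadicInt.appr_spec N a)
  refine ⟨⟨a.appr N, by simpa using a.appr_lt N⟩, ?_⟩
  refine (TTC.qz_eq.mpr ⟨c, ?_⟩).symm
  have h2 : (2 : ℚ_[2]) ^ N ≠ 0 := pow_ne_zero _ two_ne_zero
  have h3 : (a : ℚ_[2]) = (a.appr N : ℚ_[2]) + 2 ^ N * c := by
    have h4 : a = (a.appr N : ℤ_[2]) + 2 ^ N * c := by
      rw [Nat.cast_ofNat] at hc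
      linear_combination hc
    have h5 := congrArg (fun z : ℤ_[2] => (z : ℚ_[2])) h4
    push_cast at h5
    exact h5
  have h6 : (2 : ℚ_[2]) ^ N * r = (a.appr N : ℚ_[2]) + 2 ^ N * c := by
    rw [← h3, ha]
    push_cast
    rfl
  change r = ((a.appr N : ℕ) : ℚ_[2]) / 2 ^ N + c
  field_simp
  linear_combination h6

private theorem AcL_den1 (x : ℚ_[2]) : ∃ n : ℕ, ∀ m, n ≤ m → ∃ b : ℤ_[2],
    (2 : ℚ_[2]) ^ m * x = b := by
  obtain ⟨n, hn⟩ := pow_unbounded_of_one_lt ‖x‖ (one_lt_two : (1 : ℝ) < 2)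
  refine ⟨n, fun m hm => ?_⟩
  have h1 : ‖(2 : ℚ_[2]) ^ m * x‖ ≤ 1 := by
    have h2 : ‖(2 : ℚ_[2])‖ = 2⁻¹ := by
      have h0 := Padic.norm_p (p := 2)
      rw [Nat.cast_ofNat, Nat.cast_ofNat] at h0
      exact h0
    rw [norm_mul, norm_pow, h2]
    have h3 : ‖x‖ ≤ 2 ^ m := hn.le.trans (pow_le_pow_right₀ one_le_two hm)
    calc (2⁻¹ : ℝ) ^ m * ‖x‖ ≤ (2⁻¹ : ℝ) ^ m * 2 ^ m :=
          mul_le_mul_of_nonneg_left h3 (by positivity)
      _ = 1 := by rw [← mul_pow]; norm_num
  exact ⟨⟨_, h1⟩, rfl⟩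

private theorem AcL_den {I : Type} [Finite I] (M : Matrix I I ℚ_[2]) : ∃ n : ℕ, ∀ m, n ≤ m →
    ∀ i j, ∃ b : ℤ_[2], (2 : ℚ_[2]) ^ m * M i j = b := by
  cases nonempty_fintype I
  choose f hf using fun p : I × I => AcL_den1 (M p.1 p.2)
  refine ⟨Finset.univ.sup f, fun m hm i j => hf (i, j) m (le_trans ?_ hm)⟩
  exact Finset.le_sup (f := f) (Finset.mem_univ (i, j))

private theorem AcL_int {I : Type} [Fintype I] {M : Matrix I I ℚ_[2]} {m : ℕ}
    (h : ∀ i j, ∃ b : ℤ_[2], (2 : ℚ_[2]) ^ m * M i j = b) (x : I → ℤ_[2]) (i : I) :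
    ∃ b : ℤ_[2], (2 : ℚ_[2]) ^ m * M.mulVec (fun j => (x j : ℚ_[2])) i = b := by
  choose B hB using h
  refine ⟨∑ j, B i j * x j, ?_⟩
  rw [Matrix.mulVec, dotProduct, Finset.mul_sum, PadicInt.coe_sum]
  refine Finset.sum_congr rfl fun j _ => ?_
  rw [← mul_assoc, hB]
  push_cast
  rfl

/-- Finitely many of a family of linear maps without common zero suffice. -/
private theorem AcL_noeth {S W : Type} [AddCommGroup W] [Module ℚ_[2] W]
    [FiniteDimensional ℚ_[2] W] (f : S → W →ₗ[ℚ_[2]] W) (P : S → Prop)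
    (h : ∀ r, (∀ s, P s → f s r = 0) → r = 0) :
    ∃ T : Finset S, (∀ s ∈ T, P s) ∧ ∀ r, (∀ s ∈ T, f s r = 0) → r = 0 := by
  classical
  let E : Finset S → Submodule ℚ_[2] W := fun T => ⨅ s ∈ T, LinearMap.ker (f s)
  have hE : ∀ T r, r ∈ E T ↔ ∀ s ∈ T, f s r = 0 := by
    intro T r
    simp only [E, Submodule.mem_iInf, LinearMap.mem_ker]
  have hex : ∃ n : ℕ, ∃ T : Finset S, (∀ s ∈ T, P s) ∧ Module.finrank ℚ_[2] (E T) = n :=
    ⟨_, ∅, by simp, rfl⟩
  obtain ⟨T, hT, hn⟩ := Nat.find_spec hex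
  refine ⟨T, hT, fun r hr => ?_⟩
  refine h r fun s hs => ?_
  by_contra hne
  have hlt : E (insert s T) < E T := by
    refine lt_of_le_of_ne (fun x hx => ?_) (fun he => ?_)
    · exact (hE T x).2 fun t ht => (hE _ x).1 hx t (Finset.mem_insert_of_mem ht)
    · have h1 : r ∈ E (insert s T) := by
        rw [he]
        exact (hE T r).2 hr
      exact hne ((hE _ r).1 h1 s (Finset.mem_insert_self s T))
  have h2 := Submodule.finrank_lt_finrank_of_lt hlt
  rw [hn] at h2
  refine Nat.find_min hex h2 ⟨insert s T, fun t ht => ?_, rfl⟩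
  rcases Finset.mem_insert.1 ht with rfl | ht
  · exact hs
  · exact hT t ht

private theorem AcL_lift {G : Type} [Group G] {I : Type} [Fintype I] [DecidableEq I] {L : Lat G I}
    (s : G) {Q : VL L} (h : s • Q = Q) {r : I → ℚ_[2]} (hr : ∀ i, TTC.qz (r i) = (Q : I → QZ) i)
    (i : I) : ∃ x : ℤ_[2], (x : ℚ_[2]) = ((L.rq s).mulVec r - r) i := by
  have h1 : (Q : I → QZ) = (fun j => TTC.qz (r j)) := (funext hr).symm
  have h2 : (mact (L.rho s) (Q : I → QZ)) = (fun a => TTC.qz ((L.rq s).mulVec r a)) := by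
    rw [h1]
    exact TTC.mact_qz _ _
  have h3 : mact (L.rho s) (Q : I → QZ) i = (Q : I → QZ) i := congrFun h i
  have h5 : mact (L.rho s) (Q : I → QZ) i = TTC.qz ((L.rq s).mulVec r i) := congrFun h2 i
  rw [h5, ← hr i, ← sub_eq_zero, ← map_sub, TTC.qz_eq_zero] at h3
  obtain ⟨x, hx⟩ := h3
  exact ⟨x, by rw [hx, Pi.sub_apply]⟩

/-- The invariants are finite when there is no invariant vector. -/
private theorem AcL_main {G : Type} [Group G] {I : Type} [Fintype I] [DecidableEq I] (L : Lat G I)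
    (P : G → Prop) (h : ∀ r : I → ℚ_[2], (∀ s, P s → (L.rq s).mulVec r = r) → r = 0) :
    {Q : VL L | ∀ s, P s → s • Q = Q}.Finite := by
  classical
  obtain ⟨T, hT, hT'⟩ := AcL_noeth (fun s => (L.rq s).mulVecLin - LinearMap.id) P (by
    intro r hr
    refine h r fun s hs => ?_
    have := hr s hs
    rw [LinearMap.sub_apply, LinearMap.id_apply, Matrix.mulVecLin_apply, sub_eq_zero] at this
    exact this)
  let f : (I → ℚ_[2]) →ₗ[ℚ_[2]] (T → I → ℚ_[2]) :=
    LinearMap.pi fun s => (L.rq s.1).mulVecLin - LinearMap.id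
  have hf1 : ∀ r, f r = fun s : T => (L.rq s.1).mulVec r - r := fun r => rfl
  have hk : LinearMap.ker f = ⊥ := by
    rw [LinearMap.ker_eq_bot']
    intro r hr
    refine hT' r fun s hs => ?_
    exact congrFun hr ⟨s, hs⟩
  obtain ⟨g, hg⟩ := LinearMap.exists_leftInverse_of_injective f hk
  let M : T → Matrix I I ℚ_[2] := fun t =>
    LinearMap.toMatrix' (g ∘ₗ LinearMap.single ℚ_[2] (fun _ : T => I → ℚ_[2]) t)
  have hg1 : ∀ y, g y = ∑ t, (M t).mulVec (y t) := by
    intro y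
    have e : y = ∑ t, LinearMap.single ℚ_[2] (fun _ : T => I → ℚ_[2]) t (y t) := by
      simp only [LinearMap.single_apply]
      exact (Finset.univ_sum_single y).symm
    conv_lhs => rw [e, map_sum]
    refine Finset.sum_congr rfl fun t _ => ?_
    rw [show M t = LinearMap.toMatrix'
        (g ∘ₗ LinearMap.single ℚ_[2] (fun _ : T => I → ℚ_[2]) t) from rfl,
      LinearMap.toMatrix'_mulVec, LinearMap.comp_apply]
  choose n hn using fun t : T => AcL_den (M t)
  set N := Finset.univ.sup n with hN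
  have hfin : {Q : I → QZ | ∀ i, Q i ∈ {Q : QZ | (2 : ℤ_[2]) ^ N • Q = 0}}.Finite :=
    Set.Finite.pi' fun _ => AcL_fin N
  refine hfin.subset ?_
  intro Q hQ i
  choose r hr using fun j => TTC.qz_surj ((Q : I → QZ) j)
  choose x hx using fun (t : T) j => AcL_lift t.1 (hQ t.1 (hT t.1 t.2)) hr j
  have h1 : f r = fun t j => (x t j : ℚ_[2]) := by
    rw [hf1]
    exact funext fun t => funext fun j => (hx t j).symm
  have h3 : r = ∑ t, (M t).mulVec (fun j => (x t j : ℚ_[2])) := by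
    rw [← hg1 (fun t j => (x t j : ℚ_[2])), ← h1]
    exact (LinearMap.congr_fun hg r).symm
  choose z hz using fun t : T =>
    AcL_int (hn t N (Finset.le_sup (f := n) (Finset.mem_univ t))) (x t) i
  change (2 : ℤ_[2]) ^ N • (Q : I → QZ) i = 0
  rw [← hr i, TTC.qz_smul, TTC.qz_eq_zero]
  refine ⟨∑ t, z t, ?_⟩
  have h4 : r i = ∑ t, (M t).mulVec (fun j => (x t j : ℚ_[2])) i := by
    conv_lhs => rw [h3]
    rw [Finset.sum_apply]
  have h5 : (((2 : ℤ_[2]) ^ N : ℤ_[2]) : ℚ_[2]) = (2 : ℚ_[2]) ^ N := PadicInt.coe_pow 2 N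
  rw [h4, PadicInt.coe_sum, h5, Finset.mul_sum]
  exact Finset.sum_congr rfl fun t _ => (hz t).symm

section alg

variable {G : Type} [Group G] {I : Type} [Fintype I] [DecidableEq I] (L : Lat G I)

theorem iota_injL : Function.Injective (iotaL L) := by
  intro x y hxy
  funext i
  exact TTC.hf2_inj (congrFun hxy i)

theorem iota_rangeL (Q : VL L) (hQ : (2 : ℕ) • Q = 0) : ∃ w, iotaL L w = Q := by
  have h1 : ∀ i, ∃ w, hf2 w = (Q : I → QZ) i := fun i => TTC.hf2_range _ (congrFun hQ i)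
  choose w hw using h1
  exact ⟨w, funext hw⟩

theorem iota_acL (s : G) (w : I → ZMod 2) : s • iotaL L w = iotaL L (acL L s w) := by
  rw [TTC.smul_VL, acL_apply]
  exact TTC.mact_hf2 (L.rho s) w

theorem half_L (Q : VL L) : ∃ R : VL L, (2 : ℕ) • R = Q := by
  choose R hR using fun i => TTC.qz_half ((Q : I → QZ) i)
  exact ⟨(R : I → QZ), funext hR⟩

theorem tors_L (Q : VL L) : ∃ j : ℕ, (2 : ℕ) ^ j • Q = 0 := by
  choose j hj using fun i => TTC.qz_tors ((Q : I → QZ) i)
  refine ⟨Finset.univ.sup j, funext fun i => ?_⟩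
  have hle : j i ≤ Finset.univ.sup j := Finset.le_sup (Finset.mem_univ i)
  obtain ⟨d, hd⟩ := Nat.exists_eq_add_of_le hle
  change (2 : ℕ) ^ (Finset.univ.sup j) • (Q : I → QZ) i = 0
  rw [hd, add_comm, pow_add, mul_smul, hj i, smul_zero]

theorem card_torsL (j : ℕ) :
    Nat.card {Q : VL L // (2 : ℕ) ^ j • Q = 0} = (2 ^ j) ^ Fintype.card I := by
  exact TTC.card_tors (I := I) j

variable {L}

theorem e_altL (h : Sy L) (w : I → ZMod 2) : eL L w w = 0 := by
  have h1 : ∀ i, red2 (L.J i i) = 0 := fun i => by rw [h.Jd i, map_zero]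
  have h2 : ∀ i j, red2 (L.J j i) = red2 (L.J i j) := by
    intro i j
    have h3 : L.J j i = -L.J i j := congrFun (congrFun h.Jt i) j
    rw [h3, map_neg]
    exact CharTwo.neg_eq _
  rw [TTC.eL_apply, ← Finset.sum_product']
  refine Finset.sum_involution (fun p _ => (p.2, p.1)) ?_ ?_ ?_ ?_
  · rintro ⟨i, j⟩ -
    change w i * red2 (L.J i j) * w j + w j * red2 (L.J j i) * w i = 0
    rw [h2 i j, show w j * red2 (L.J i j) * w i = w i * red2 (L.J i j) * w j by ring]
    exact CharTwo.add_self_eq_zero _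
  · rintro ⟨i, j⟩ - h3 h4
    obtain rfl : j = i := congrArg Prod.fst h4
    apply h3
    change w j * red2 (L.J j j) * w j = 0
    rw [h1 j, mul_zero, zero_mul]
  · intro p _
    exact Finset.mem_product.mpr ⟨Finset.mem_univ _, Finset.mem_univ _⟩
  · intro p _
    rfl

theorem e_ndL (h : Sy L) (w : I → ZMod 2) (h' : ∀ w', eL L w w' = 0) : w = 0 := by
  have hu : IsUnit (L.J.map red2).det := by
    rw [← RingHom.mapMatrix_apply, ← RingHom.map_det]
    exact h.Ju.map red2
  have h1 : (L.J.map red2).vecMul w = 0 := by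
    funext j
    have h3 := h' (Pi.single j 1)
    rw [TTC.eL_apply] at h3
    rw [Matrix.vecMul, dotProduct, Pi.zero_apply, ← h3]
    refine Finset.sum_congr rfl fun i _ => ?_
    rw [Finset.sum_eq_single j]
    · rw [Pi.single_eq_same, mul_one, Matrix.map_apply]
    · intro b _ hb
      rw [Pi.single_eq_of_ne hb, mul_zero]
    · intro hj
      exact absurd (Finset.mem_univ j) hj
  have h3 := congrArg (fun x => Matrix.vecMul x (L.J.map red2)⁻¹) h1
  simpa [Matrix.vecMul_vecMul, Matrix.mul_nonsing_inv _ hu] using h3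

theorem e_invL (h : Sy L) (s : G) (w w' : I → ZMod 2) :
    eL L (acL L s w) (acL L s w') = eL L w w' := by
  have h0 : ∀ x y : I → ZMod 2, eL L x y = x ⬝ᵥ (L.J.map red2).mulVec y := by
    intro x y
    rw [TTC.eL_apply, dotProduct]
    refine Finset.sum_congr rfl fun i _ => ?_
    rw [Matrix.mulVec, dotProduct, Finset.mul_sum]
    exact Finset.sum_congr rfl fun j _ => by rw [Matrix.map_apply, mul_assoc]
  have h1 := congrArg (fun M : Matrix I I ℤ_[2] => (RingHom.mapMatrix red2 M)) (h.sim s)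
  simp only [map_mul, RingHom.mapMatrix_apply] at h1
  have hc : red2 (L.cyc s : ℤ_[2]) = 1 := by
    have hu : IsUnit (red2 (L.cyc s : ℤ_[2])) := (L.cyc s).isUnit.map red2
    have hz : ∀ a : ZMod 2, IsUnit a → a = 1 := by
      intro a ha
      have := ha.ne_zero
      revert this
      revert a
      decide
    exact hz _ hu
  have h2 : ((L.cyc s : ℤ_[2]) • L.J).map red2 = L.J.map red2 := by
    ext i j
    rw [Matrix.map_apply, Matrix.smul_apply, smul_eq_mul, map_mul, hc, one_mul, Matrix.map_apply]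
  rw [h2, Matrix.transpose_map] at h1
  rw [h0, h0, acL_apply, acL_apply, Matrix.mulVec_mulVec, ← Matrix.vecMul_transpose,
    Matrix.dotProduct_mulVec, Matrix.vecMul_vecMul, ← Matrix.mul_assoc, h1,
    ← Matrix.dotProduct_mulVec]

end alg

section field

variable {k K Ω : Type} [Field k] [Finite k] [Field K] [Algebra k K] [Algebra (RatFunc k) K]
  [IsScalarTower k (RatFunc k) K] [FiniteDimensional (RatFunc k) K] [Field Ω] [Algebra K Ω]
  [IsSepClosure K Ω] {I : Type} [Fintype I] [DecidableEq I] {L : Lat (Ω ≃ₐ[K] Ω) I}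

theorem act_finL (hL : LatG k L) (j : ℕ) : ∃ N ∈ NP K Ω, ∀ s ∈ N, ∀ Q : VL L,
    (2 : ℕ) ^ j • Q = 0 → s • Q = Q := by
  obtain ⟨N, hN, h⟩ := hL.cont j
  refine ⟨N, hN, fun s hs Q hQ => ?_⟩
  obtain ⟨B, hB⟩ := h s hs
  rw [TTC.smul_VL, hB]
  exact TTC.mact_kill B hQ

/-- The field `fin_inv` of `Sys.Ok`. -/
theorem fin_invL (h2 : (2 : k) ≠ 0) (hL : LatG k L) (chi : (Ω ≃ₐ[K] Ω) → ZMod 2)
    (hchi : (sysG k L).HomG chi) (v : Place k K) :
    {Q : VL L | ∀ s ∈ dvK Ω v, dl chi Q s = 0}.Finite := by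
  obtain ⟨⟨N, hN, hTF⟩, hadd⟩ := hchi
  have h1 : chi 1 = 0 := by
    have h := hadd 1 1
    rw [mul_one] at h
    exact left_eq_add.1 h
  let U : Subgroup (Ω ≃ₐ[K] Ω) :=
    { carrier := {s | chi s = 0}
      mul_mem' := fun {a b} ha hb => by
        have ha' : chi a = 0 := ha
        have hb' : chi b = 0 := hb
        change chi (a * b) = 0
        rw [hadd, ha', hb', add_zero]
      one_mem' := h1
      inv_mem' := fun {a} ha => by
        have ha' : chi a = 0 := ha
        have h := hadd a a⁻¹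
        rw [mul_inv_cancel, h1, ha', zero_add] at h
        exact h.symm }
  have hU : ∀ s, s ∈ U ↔ chi s = 0 := fun s => Iff.rfl
  have hle : N ≤ U := fun s hs => by
    rw [hU, ← one_mul s, hTF 1 s hs, h1]
  have hopen : IsOpen (U : Set (Ω ≃ₐ[K] Ω)) := Subgroup.isOpen_mono hle (NP.isOpen hN)
  refine (AcL_main L (fun s => s ∈ dvK Ω v ∧ s ∈ U) fun r hr =>
    hL.pure v U hopen r fun s hs hs' => hr s ⟨hs, hs'⟩).subset ?_
  intro Q hQ s hs
  have h3 := hQ s hs.1
  have h4 : chi s = 0 := (hU s).1 hs.2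
  unfold Pool.Agent.SmN.dl Pool.Agent.SmN.tw Pool.Agent.SmN.sgn at h3
  rw [if_pos h4, one_smul, sub_eq_zero] at h3
  exact h3

end field

end Pool.Agent.TTN
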