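import Pool.Agent.Lib.TTN.FInstG
import Pool.Agent.Lib.SmNJ.Asm

/-!
# Project TTN (MP_950c68_ag), module AsmG: the arithmetic facts `AOk` for a lattice with big
action
modulo `2` (port of `SmNJ/Asm.lean`)

PROOF of `Big.span'`: if every finset `U` with `∑ s ∈ U, ac s = 0` has an even number of elements,
then the parity defines a ring homomorphism `End(V1) → ZMod 2` (well defined by `span`; additive
by symmetric differences; multiplicative by the group ring); it is `1` at `1`. But `End(V1)` is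
generated by matrix units with `E_ij` of square `0` for `i ≠ j`, `E_ii = E_ij E_ji` (`finrank ≥
2`), so it is `0` at every matrix unit, hence at `1`: contradiction. So there is `U₀` with sum `0`
and odd cardinality; add it (symmetric difference) to change the parity. (For the action of
`BigIm` see `SmNJ/BigIm.lean`.) `Big.nofix`: `A = ` a projection to a complement; by `span` a
fixed vector `w` satisfies `A w = (parity) w` for every `A`.
SOURCES for `exists_aOkG`: `SmNJ/Asm.lean`, `SmNJ/BigIm.lean` (the fields of `AOk` which use the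
image of Galois: with `Big.span'`, `Big.nofix`, `Big.h1`), `SmNJ/AOkInst.lean`.
-/

set_option autoImplicit false

open Pool.Agent.TTC (Lat VL QZ mact red2 hf2 iotaL eL cycK)
open Pool.Agent.BSDFF Pool.Agent.GBU Pool.Agent.Lib.SmD Pool.Agent.SmN

namespace Pool.Agent.TTN

section big

variable {G V1 : Type} [Group G] [AddCommGroup V1] [Module (ZMod 2) V1] [Finite V1]
  {ac : G →* (V1 ≃ₗ[ZMod 2] V1)}

/-- The spanning property with any parity. -/
theorem Big.span' (h : Big ac) (hV : 2 ≤ Module.finrank (ZMod 2) V1) (A : V1 →ₗ[ZMod 2] V1)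
    (ε : ZMod 2) : ∃ U : Finset G, (∀ w, ∑ s ∈ U, ac s w = A w) ∧ (U.card : ZMod 2) = ε := by
  classical
  obtain ⟨U, hU⟩ := h.span A
  obtain ⟨Z, hZ, hZ1⟩ := SmNJ.exists_odd_zero hV ac h.span
  by_cases hε : (U.card : ZMod 2) = ε
  · exact ⟨U, hU, hε⟩
  · refine ⟨symmDiff U Z, fun w => by
      rw [SmNJ.sum_symmDiff' SmNJ.two_mod, hU, hZ, add_zero], ?_⟩
    rw [SmNJ.card_symmDiff', hZ1]
    generalize (U.card : ZMod 2) = x at hε ⊢
    revert x ε
    decide

theorem Big.nofix (h : Big ac) (hV : 2 ≤ Module.finrank (ZMod 2) V1) (w : V1)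
    (hw : ∀ s, ac s w = w) : w = 0 := by
  obtain ⟨U, hU, h1⟩ := h.span' hV 0 1
  have h2 := hU w
  rw [Finset.sum_congr rfl fun s _ => hw s, Finset.sum_const, ← Nat.cast_smul_eq_nsmul (ZMod 2), h1,
    one_smul] at h2
  exact h2

omit [Finite V1] in
/-- A power of every element acts trivially. -/
private theorem asmG_pow [Finite V1] {V Pl : Type} [AddCommGroup V] [DistribMulAction G V]
    (S : SmN.Sys G V V1 Pl) (fr : G) : ∃ m : ℕ, 1 ≤ m ∧ fr ^ m ∈ S.GN := by
  have h1 : Finite (V1 ≃ₗ[ZMod 2] V1) :=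
    Finite.of_injective (fun f : V1 ≃ₗ[ZMod 2] V1 => (f : V1 → V1)) fun f f' h =>
      LinearEquiv.ext fun x => congrFun h x
  refine ⟨orderOf (S.ac fr), orderOf_pos _, ?_⟩
  rw [SmN.Sys.GN, MonoidHom.mem_ker, map_pow, pow_orderOf_eq_one]

end big

section

variable {k K Ω : Type} [Field k] [Finite k] [Field K] [Algebra k K] [Algebra (RatFunc k) K]
  [IsScalarTower k (RatFunc k) K] [FiniteDimensional (RatFunc k) K]
  [Algebra.IsSeparable (RatFunc k) K] [Field Ω] [Algebra K Ω] [IsSepClosure K Ω]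
  {I : Type} [Fintype I] [DecidableEq I] {L : Lat (Ω ≃ₐ[K] Ω) I}

/-- **The arithmetic facts for the lattice.** -/
theorem exists_aOkG (h2 : (2 : k) ≠ 0)
    (hk : ∀ x : K, IsIntegral k x → ∃ c : k, algebraMap k K c = x) (hL : LatG k L)
    (hI : 2 ≤ Fintype.card I) {X : Type} [Fintype X] [MulAction (Ω ≃ₐ[K] Ω) X]
    {i : (I → ZMod 2) →ₗ[ZMod 2] (X → ZMod 2)} {p : (X → ZMod 2) →ₗ[ZMod 2] (I → ZMod 2)}
    (hP : PermL (acL L) (eL L) X i p) (hb : Big (acL L)) :
    ∃ (T0 : Finset (Place k K)) (T : Set (Place k K)) (fr : Ω ≃ₐ[K] Ω) (ca cC m0 : ℕ),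
      T.Finite ∧
      AOk ((sysG k L).shr T0) T Place.degree (Nat.card k) (GeoK k K Ω) fr ca cC m0 := by
  have hgal : IsGalois K Ω := IsSepClosure.isGalois
  have hV : 2 ≤ Module.finrank (ZMod 2) (I → ZMod 2) := by
    rw [Module.finrank_fintype_fun_eq_card]
    exact hI
  obtain ⟨T0, hF, hLag⟩ := exists_fG (k := k) h2 hL hP
  have hok : ((sysG k L).shr T0).Ok := okG h2 hL T0.finite_toSet hF
  obtain ⟨G, -⟩ := GBC.exists_geo k K
  obtain ⟨T, hT, hsub, -, hPr⟩ := exists_S G (((sysG k L).shr T0).goodᶜ) hok.good_fin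
  obtain ⟨fr, hfr⟩ := exists_isFrC (k := k) (K := K) (Om := Ω) fun x hx =>
    hk x (SmBU.isIntegral_iff_isC.2 hx)
  obtain ⟨ca, cC, hC⟩ := SmBU.chebT (S := (sysG k L).shr T0) rfl rfl rfl h2 hT hfr
  obtain ⟨m0, hm, hm0⟩ := asmG_pow ((sysG k L).shr T0) fr
  refine ⟨T0, T, fr, ca, cC, m0, hT, ?_⟩
  exact
    { ok := hok
      fi := fun _ hN => NP.finiteIndex hN
      up := fun _ hN _ hN' hle => mem_NP_of_le hN hN' hle
      lagV := hLag T hT hsub
      lagF := SmN.Ch.lagF_of h2 rfl rfl rfl rfl hT hPr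
      nofix := hb.nofix hV
      span := hb.span' hV
      xok := SmNJ.xok k K hk hT
      geo := SmNJ.geoOk_of h2 rfl rfl hfr fun c hc h => hb.h1 c hc.2 fun s hs => h s (by
        change s ∈ ((sysG k L).shr T0).ac.ker
        rw [MonoidHom.mem_ker]
        ext1 w
        exact hs w)
      cheb := hC
      m0_pos := hm
      m0_mem := hm0 }

end

end Pool.Agent.TTN
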