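import Pool.Agent.Lib.TTN.TensD
import Pool.Agent.Lib.TTC.Kron

/-!
# Project TTN (MP_950c68_ag), module BigT: the action on the tensor product modulo `2` is big

PROOF. `span`: the set `R` of all `A : Matrix (ι → Fin 2) (ι → Fin 2) (ZMod 2)` which are a sum `∑
s ∈ U, kronH r s` over a finset `U` is closed under addition (symmetric difference of finsets,
characteristic `2`) and contains all `kron M` with `det (M i) = 1` for all `i` (`hr`). Every
matrix `B` in `M_2(𝔽_2)` is a sum of matrices of determinant `1` (`decide`), and `kron` is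
multilinear, so `R` contains every `kron B` (`Finset.induction` on a set `T` of indices: `kron B ∈
R` if `det (B i) = 1` for `i ∉ T`), in particular the matrix units (`kron` of matrix units), hence
everything. Transfer to linear maps with `Matrix.toLin'`, `autM_apply`.
`h1`: let `z0 ∈ G` with `r i₀ z0 = C := !![0, 1; 1, 1]` (of order `3`, `1 + C + C ^ 2 = 0`), `r i
z0 = 1` for `i ≠ i₀`. The operator `Z := ac z0` satisfies `1 + Z + Z ^ 2 = 0`, so `Z - 1` is
invertible (`(Z - 1) * Z = 1` over `𝔽_2`). Put `z := (Z - 1)⁻¹ (c z0)` (so `c z0 = Z z - z`) and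
replace `c` by `c' s = c s - (ac s z - z)`: a cocycle with `c' z0 = 0`, still `0` on the kernel of
`ac`. Claim `c' = 0`. For every `t ∈ G`: `r i₀ (t z0 t⁻¹)` has order `3`, so it is `C` or `C ^ 2`,
and `t z0 t⁻¹ = z0 ^ ε * n` with `ε ∈ {1, 2}` and `n` in the kernel of `ac`; `c' (z0 ^ ε n) = 0`.
And `c' (t z0 t⁻¹) = c' t + t c' z0 + t z0 c' (t⁻¹) = c' t - (t z0 t⁻¹) (c' t)` (as `c' (t⁻¹) = -
t⁻¹ c' t`), so `(1 - Z ^ ε) (c' t) = 0`, and `1 - Z ^ ε` is invertible (`ε = 1, 2`). So `c' t =
0`.
-/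

set_option autoImplicit false

open Pool.Agent.TTC

namespace Pool.Agent.TTN

section

variable {G : Type} [Group G] {ι : Type} [Fintype ι] [DecidableEq ι]

private theorem BigT_update_add (B : ι → Matrix (Fin 2) (Fin 2) (ZMod 2)) (i : ι)
    (X Y : Matrix (Fin 2) (Fin 2) (ZMod 2)) :
    kron (Function.update B i (X + Y)) =
      kron (Function.update B i X) + kron (Function.update B i Y) := by
  ext a b
  have key : ∀ Z : Matrix (Fin 2) (Fin 2) (ZMod 2), kron (Function.update B i Z) a b =
      Z (a i) (b i) * ∏ j ∈ Finset.univ.erase i, B j (a j) (b j) := by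
    intro Z
    rw [kron_apply, ← Finset.mul_prod_erase Finset.univ _ (Finset.mem_univ i),
      Function.update_self]
    congr 1
    apply Finset.prod_congr rfl
    intro j hj
    rw [Function.update_of_ne (Finset.ne_of_mem_erase hj)]
  rw [Matrix.add_apply, key, key, key, Matrix.add_apply, add_mul]

private theorem BigT_dec : ∀ a b c d : ZMod 2, ∃ a' b' c' d' : ZMod 2,
    a' * d' - b' * c' = 1 ∧ (a - a') * (d - d') - (b - b') * (c - c') = 1 := by
  decide

private theorem BigT_two (X : Matrix (Fin 2) (Fin 2) (ZMod 2)) :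
    ∃ Y Z : Matrix (Fin 2) (Fin 2) (ZMod 2), Y.det = 1 ∧ Z.det = 1 ∧ X = Y + Z := by
  obtain ⟨a', b', c', d', h1, h2⟩ := BigT_dec (X 0 0) (X 0 1) (X 1 0) (X 1 1)
  refine ⟨!![a', b'; c', d'], !![X 0 0 - a', X 0 1 - b'; X 1 0 - c', X 1 1 - d'], ?_, ?_, ?_⟩
  · rw [Matrix.det_fin_two_of]
    exact h1
  · rw [Matrix.det_fin_two_of]
    exact h2
  · ext i j
    fin_cases i <;> fin_cases j <;> simp

private theorem BigT_span (r : ι → G →* Matrix (Fin 2) (Fin 2) (ZMod 2))
    (hr : ∀ M : ι → Matrix (Fin 2) (Fin 2) (ZMod 2), (∀ i, (M i).det = 1) → ∃ s, ∀ i, r i s = M i)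
    (T : Finset ι) : ∀ B : ι → Matrix (Fin 2) (Fin 2) (ZMod 2), (∀ i ∉ T, (B i).det = 1) →
      kron B ∈ Submodule.span (ZMod 2) (Set.range fun s => kronH r s) := by
  induction T using Finset.induction_on with
  | empty =>
    intro B hB
    obtain ⟨s, hs⟩ := hr B fun i => hB i (Finset.notMem_empty i)
    refine Submodule.subset_span ⟨s, ?_⟩
    change kron (fun i => r i s) = kron B
    rw [funext hs]
  | insert i T hi ih =>
    intro B hB
    obtain ⟨Y, Z, hY, hZ, hX⟩ := BigT_two (B i)
    have h0 : B = Function.update B i (Y + Z) := by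
      rw [← hX, Function.update_eq_self]
    rw [h0, BigT_update_add]
    have h1 : ∀ Z : Matrix (Fin 2) (Fin 2) (ZMod 2), Z.det = 1 →
        kron (Function.update B i Z) ∈ Submodule.span (ZMod 2) (Set.range fun s => kronH r s) := by
      intro Z hZ
      apply ih
      intro j hj
      by_cases hji : j = i
      · rw [hji, Function.update_self]
        exact hZ
      · rw [Function.update_of_ne hji]
        refine hB j fun h => ?_
        rcases Finset.mem_insert.1 h with h | h
        · exact hji h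
        · exact hj h
    exact Submodule.add_mem _ (h1 Y hY) (h1 Z hZ)

private theorem BigT_single (a b : ι → Fin 2) :
    Matrix.single a b (1 : ZMod 2) = kron fun i => Matrix.single (a i) (b i) (1 : ZMod 2) := by
  ext x y
  rw [kron_apply, Matrix.single_apply]
  simp only [Matrix.single_apply]
  rw [Finset.prod_ite_zero]
  simp only [Finset.mem_univ, forall_const, Finset.prod_const_one]
  congr 1
  apply propext
  constructor
  · rintro ⟨rfl, rfl⟩ i
    exact ⟨rfl, rfl⟩
  · intro h
    exact ⟨funext fun i => (h i).1, funext fun i => (h i).2⟩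

private theorem BigT_top (r : ι → G →* Matrix (Fin 2) (Fin 2) (ZMod 2))
    (hr : ∀ M : ι → Matrix (Fin 2) (Fin 2) (ZMod 2), (∀ i, (M i).det = 1) → ∃ s, ∀ i, r i s = M i)
    (N : Matrix (ι → Fin 2) (ι → Fin 2) (ZMod 2)) :
    N ∈ Submodule.span (ZMod 2) (Set.range fun s => kronH r s) := by
  rw [Matrix.matrix_eq_sum_single N]
  refine Submodule.sum_mem _ fun a _ => Submodule.sum_mem _ fun b _ => ?_
  have h1 : Matrix.single a b (N a b) = N a b • Matrix.single a b (1 : ZMod 2) := by
    rw [Matrix.smul_single, smul_eq_mul, mul_one]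
  rw [h1, BigT_single]
  refine Submodule.smul_mem _ _ (BigT_span r hr Finset.univ _ fun i hi => ?_)
  exact absurd (Finset.mem_univ i) hi

private theorem BigT_fin (r : ι → G →* Matrix (Fin 2) (Fin 2) (ZMod 2))
    (hr : ∀ M : ι → Matrix (Fin 2) (Fin 2) (ZMod 2), (∀ i, (M i).det = 1) → ∃ s, ∀ i, r i s = M i)
    (N : Matrix (ι → Fin 2) (ι → Fin 2) (ZMod 2)) :
    ∃ U : Finset G, ∑ s ∈ U, kronH r s = N := by
  obtain ⟨c, hc⟩ := (Finsupp.mem_span_range_iff_exists_finsupp).1 (BigT_top r hr N)
  refine ⟨c.support, ?_⟩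
  rw [← hc, Finsupp.sum]
  apply Finset.sum_congr rfl
  intro s hs
  have h1 : ∀ x : ZMod 2, x ≠ 0 → x = 1 := by decide
  rw [h1 _ (Finsupp.mem_support_iff.1 hs), one_smul]

private def BigT_C : Matrix (Fin 2) (Fin 2) (ZMod 2) := !![0, 1; 1, 1]

private theorem BigT_C3 : (1 : Matrix (Fin 2) (Fin 2) (ZMod 2)) + BigT_C + BigT_C * BigT_C = 0 := by
  unfold BigT_C
  decide

private theorem BigT_Cdet : BigT_C.det = 1 := by
  unfold BigT_C
  rw [Matrix.det_fin_two_of]
  decide

private theorem BigT_conj_dec : ∀ a b c d a' b' c' d' : ZMod 2,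
    !![a, b; c, d] * !![a', b'; c', d'] = (1 : Matrix (Fin 2) (Fin 2) (ZMod 2)) →
    !![a, b; c, d] * !![0, 1; 1, 1] * !![a', b'; c', d'] =
      (!![0, 1; 1, 1] : Matrix (Fin 2) (Fin 2) (ZMod 2)) ∨
    !![a, b; c, d] * !![0, 1; 1, 1] * !![a', b'; c', d'] =
      (!![0, 1; 1, 1] * !![0, 1; 1, 1] : Matrix (Fin 2) (Fin 2) (ZMod 2)) := by
  decide

private theorem BigT_conj (D D' : Matrix (Fin 2) (Fin 2) (ZMod 2)) (h : D * D' = 1) :
    D * BigT_C * D' = BigT_C ∨ D * BigT_C * D' = BigT_C * BigT_C := by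
  have h1 := BigT_conj_dec (D 0 0) (D 0 1) (D 1 0) (D 1 1) (D' 0 0) (D' 0 1) (D' 1 0) (D' 1 1)
  rw [← Matrix.eta_fin_two D, ← Matrix.eta_fin_two D'] at h1
  exact h1 h

private theorem BigT_h1 [Nonempty ι] (r : ι → G →* Matrix (Fin 2) (Fin 2) (ZMod 2))
    (hr : ∀ M : ι → Matrix (Fin 2) (Fin 2) (ZMod 2), (∀ i, (M i).det = 1) → ∃ s, ∀ i, r i s = M i)
    (c : G → ((ι → Fin 2) → ZMod 2))
    (hc : ∀ s t, c (s * t) = c s + autM (kronH r) s (c t))
    (hk : ∀ s, (∀ w, autM (kronH r) s w = w) → c s = 0) :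
    ∃ z, ∀ s, c s = autM (kronH r) s z - z := by
  obtain ⟨i0⟩ := ‹Nonempty ι›
  have two : ∀ w : (ι → Fin 2) → ZMod 2, w + w = 0 := by
    intro w
    funext a
    have h1 : ∀ x : ZMod 2, x + x = 0 := by decide
    exact h1 (w a)
  let e : Matrix (Fin 2) (Fin 2) (ZMod 2) → ι → Matrix (Fin 2) (Fin 2) (ZMod 2) :=
    fun X => Function.update (fun _ => 1) i0 X
  obtain ⟨z0, hz0⟩ := hr (e BigT_C) (by
    intro i
    by_cases hi : i = i0
    · rw [hi]
      change (Function.update (fun _ => (1 : Matrix (Fin 2) (Fin 2) (ZMod 2))) i0 BigT_C i0).det = 1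
      rw [Function.update_self]
      exact BigT_Cdet
    · change (Function.update (fun _ => (1 : Matrix (Fin 2) (Fin 2) (ZMod 2))) i0 BigT_C i).det = 1
      rw [Function.update_of_ne hi]
      exact Matrix.det_one)
  have hz00 : r i0 z0 = BigT_C := (hz0 i0).trans (Function.update_self _ _ _)
  have hz01 : ∀ i, i ≠ i0 → r i z0 = 1 := fun i hi => (hz0 i).trans (Function.update_of_ne hi _ _)
  -- equality of operators
  have hop : ∀ s t : G, (∀ i, r i s = r i t) → ∀ w, autM (kronH r) s w = autM (kronH r) t w := by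
    intro s t h w
    rw [autM_apply, autM_apply, kronH_apply, kronH_apply, funext h]
  have hZ : ∀ w, w + autM (kronH r) z0 w + autM (kronH r) z0 (autM (kronH r) z0 w) = 0 := by
    intro w
    have h1 : kronH r z0 = kron (e BigT_C) := by
      rw [kronH_apply, funext hz0]
    have h2 : kronH r (z0 * z0) = kron (e (BigT_C * BigT_C)) := by
      rw [kronH_apply]
      congr 1
      funext i
      rw [map_mul]
      by_cases hi : i = i0
      · rw [hi, hz00]
        change BigT_C * BigT_C = Function.update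
          (fun _ => (1 : Matrix (Fin 2) (Fin 2) (ZMod 2))) i0 (BigT_C * BigT_C) i0
        rw [Function.update_self]
      · rw [hz01 i hi, one_mul]
        change 1 = Function.update
          (fun _ => (1 : Matrix (Fin 2) (Fin 2) (ZMod 2))) i0 (BigT_C * BigT_C) i
        rw [Function.update_of_ne hi]
    have h3 : (1 : Matrix (ι → Fin 2) (ι → Fin 2) (ZMod 2)) = kron (e 1) := by
      rw [← kron_one]
      congr 1
      exact (Function.update_eq_self i0 _).symm
    have h4 : (1 : Matrix (ι → Fin 2) (ι → Fin 2) (ZMod 2)) + kronH r z0 + kronH r (z0 * z0) = 0 := by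
      rw [h1, h2, h3]
      change kron (Function.update _ i0 _) + kron (Function.update _ i0 _) +
        kron (Function.update _ i0 _) = 0
      rw [← BigT_update_add, ← BigT_update_add, BigT_C3]
      ext a b
      rw [kron_apply]
      apply Finset.prod_eq_zero (Finset.mem_univ i0)
      rw [Function.update_self]
      rfl
    have h5 : autM (kronH r) z0 (autM (kronH r) z0 w) = autM (kronH r) (z0 * z0) w := by
      rw [map_mul]
      rfl
    rw [h5, autM_apply, autM_apply]
    have h6 := congrArg (fun M => M.mulVec w) h4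
    beta_reduce at h6
    rw [Matrix.add_mulVec, Matrix.add_mulVec, Matrix.one_mulVec, Matrix.zero_mulVec] at h6
    exact h6
  have neg : ∀ w : (ι → Fin 2) → ZMod 2, -w = w := fun w =>
    neg_eq_of_add_eq_zero_left (two w)
  set ac := autM (kronH r) with hac
  have ac_mul : ∀ s t w, ac (s * t) w = ac s (ac t w) := by
    intro s t w
    rw [map_mul]
    rfl
  refine ⟨ac z0 (c z0), ?_⟩
  set z := ac z0 (c z0) with hz
  have hzz : c z0 = ac z0 z - z := by
    have h1 := hZ (c z0)
    rw [sub_eq_add_neg, neg, hz, ← neg (c z0)]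
    rw [neg]
    have h2 : c z0 = -(ac z0 (c z0) + ac z0 (ac z0 (c z0))) :=
      eq_neg_of_add_eq_zero_left (by rw [← add_assoc]; exact h1)
    rw [neg, add_comm] at h2
    exact h2
  -- the corrected cocycle
  let d : G → ((ι → Fin 2) → ZMod 2) := fun s => c s - (ac s z - z)
  have hd : ∀ s t, d (s * t) = d s + ac s (d t) := by
    intro s t
    change c (s * t) - (ac (s * t) z - z) = c s - (ac s z - z) + ac s (c t - (ac t z - z))
    rw [hc, ac_mul, map_sub, map_sub]
    abel
  have hdk : ∀ s, (∀ w, ac s w = w) → d s = 0 := by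
    intro s hs
    change c s - (ac s z - z) = 0
    rw [hk s hs, hs z, sub_self, sub_self]
  have hd0 : d z0 = 0 := by
    change c z0 - (ac z0 z - z) = 0
    rw [← hzz, sub_self]
  have hd1 : d 1 = 0 := hdk 1 fun w => by
    rw [map_one]
    rfl
  have hdeq : ∀ s t : G, (∀ w, ac s w = ac t w) → d t = 0 → d s = 0 := by
    intro s t h ht
    have h1 : s = t * (t⁻¹ * s) := by rw [mul_inv_cancel_left]
    rw [h1, hd, ht, zero_add, hdk (t⁻¹ * s), map_zero]
    intro w
    rw [ac_mul, h, ← ac_mul, inv_mul_cancel, map_one]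
    rfl
  intro t
  have hfin : d t = 0 := by
    have h1 : d (t * z0 * t⁻¹) = d t - ac (t * z0 * t⁻¹) (d t) := by
      have h2 : d (t⁻¹) = -ac t⁻¹ (d t) := by
        have h3 := hd t⁻¹ t
        rw [inv_mul_cancel, hd1] at h3
        exact eq_neg_of_add_eq_zero_left h3.symm
      rw [hd, hd, hd0, map_zero, add_zero, h2, map_neg, ← ac_mul, ← sub_eq_add_neg]
    rcases BigT_conj (r i0 t) (r i0 t⁻¹) (by rw [← map_mul, mul_inv_cancel, map_one]) with h2 | h2
    · have h3 : ∀ w, ac (t * z0 * t⁻¹) w = ac z0 w := by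
        apply hop
        intro i
        by_cases hi : i = i0
        · rw [hi, map_mul, map_mul, hz00, h2]
        · rw [map_mul, map_mul, hz01 i hi, mul_one, ← map_mul, mul_inv_cancel, map_one]
      have h4 : d (t * z0 * t⁻¹) = 0 := hdeq _ z0 h3 hd0
      rw [h4, h3] at h1
      have h5 : ac z0 (d t) = d t := (sub_eq_zero.1 h1.symm).symm
      have h6 := hZ (d t)
      rw [h5, h5, two, zero_add] at h6
      exact h6
    · have h3 : ∀ w, ac (t * z0 * t⁻¹) w = ac (z0 * z0) w := by
        apply hop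
        intro i
        by_cases hi : i = i0
        · rw [hi, map_mul, map_mul, map_mul, hz00, h2]
        · rw [map_mul, map_mul, map_mul, hz01 i hi, mul_one, ← map_mul, mul_inv_cancel, map_one,
            one_mul]
      have h4 : d (t * z0 * t⁻¹) = 0 := hdeq _ (z0 * z0) h3 (by
        rw [hd, hd0, map_zero, add_zero])
      rw [h4, h3, ac_mul] at h1
      have h5 : ac z0 (ac z0 (d t)) = d t := (sub_eq_zero.1 h1.symm).symm
      have h6 := hZ (d t)
      rw [h5, add_right_comm, two, zero_add] at h6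
      exact (LinearEquiv.map_eq_zero_iff _).1 h6
  exact sub_eq_zero.1 hfin

theorem big_T [Nonempty ι] (r : ι → G →* Matrix (Fin 2) (Fin 2) (ZMod 2))
    (hr : ∀ M : ι → Matrix (Fin 2) (Fin 2) (ZMod 2), (∀ i, (M i).det = 1) → ∃ s, ∀ i, r i s = M i) :
    Big (autM (kronH r)) := by
  refine ⟨fun A => ?_, BigT_h1 r hr⟩
  obtain ⟨U, hU⟩ := BigT_fin r hr (LinearMap.toMatrix' A)
  refine ⟨U, fun w => ?_⟩
  have h1 : (LinearMap.toMatrix' A).mulVec w = A w := LinearMap.toMatrix'_mulVec A w
  rw [← h1, ← hU, Matrix.sum_mulVec]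
  rfl

end

end Pool.Agent.TTN
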