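import Pool.Agent.Lib.SM.E.Act
import Pool.Agent.Lib.SmN.Fin.BrE
import Pool.Agent.Lib.SmNJ.Defs

/-!
# Project TTN (MP_950c68_ag), module BrV: the `2`-power torsion of Weierstrass points and of `JJ`

`F ⊆ Ω` an intermediate field which contains the roots `a i`; `VV Ω (e 0) (e 1) (e 2)` the
`2`-power
torsion of `y ^ 2 = (x - e 0) (x - e 1) (x - e 2)` over `F`, with the action of `Gal(Ω/F)`; `VN a`
the
`2`-power torsion of the Jacobian, with the action of `Gal(Ω/K)`.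

PROOF. The curve `crv e₀ e₁ e₂` over `F` is `Short` and elliptic (the `a i` are distinct, `2 ≠ 0`;
discriminant `16 ∏ (eᵢ - eⱼ) ^ 2`), and its cubic `cubW` maps to `ff a` over `Ω` (`∏ (X - a i)`).
`SmN.Fnl.exists_brE` over the field `F` gives `e : Pt Ω e₀ e₁ e₂ ≃+ JJ (ff a)` with `e (map s P) =
act s (e P)` for `s : Ω ≃ₐ[F] Ω`; `gN K a (s.restrictScalars K) = act s.toRingEquiv _` by
definition. Restrict `e` to the `2`-power torsion (`VV` and `VN a` are both `{P | ∃ n, 2 ^ n • P =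
0}`). Note the `DecidableEq` instances (`exists_brE` uses the classical one; `Subsingleton.elim`,
`convert`).
-/

set_option autoImplicit false

open Pool.Agent.SmithE Pool.Agent.SmNJ Pool.Agent.SmJ

namespace Pool.Agent.TTN

private theorem crv_elliptic {F : Type} [Field F] {e₀ e₁ e₂ : F} (h2 : (2 : F) ≠ 0)
    (h01 : e₀ ≠ e₁) (h02 : e₀ ≠ e₂) (h12 : e₁ ≠ e₂) : (crv e₀ e₁ e₂).IsElliptic := by
  refine ⟨?_⟩
  rw [isUnit_iff_ne_zero]
  have h : (crv e₀ e₁ e₂).Δ = 16 * ((e₀ - e₁) * (e₀ - e₂) * (e₁ - e₂)) ^ 2 := by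
    simp only [crv, WeierstrassCurve.Δ, WeierstrassCurve.b₂, WeierstrassCurve.b₄,
      WeierstrassCurve.b₆, WeierstrassCurve.b₈]
    ring
  rw [h]
  have h16 : (16 : F) ≠ 0 := by
    have h3 : (16 : F) = 2 ^ 4 := by norm_num
    rw [h3]
    exact pow_ne_zero _ h2
  exact mul_ne_zero h16 (pow_ne_zero _ (mul_ne_zero (mul_ne_zero (sub_ne_zero.mpr h01)
    (sub_ne_zero.mpr h02)) (sub_ne_zero.mpr h12)))

variable {K Ω : Type} [Field K] [Field Ω] [Algebra K Ω] [DecidableEq Ω]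
  {a : Fin (2 * 1 + 1) → Ω} [RtG K a] [HypA a]

omit [RtG K a] in
private theorem brV_key (F : IntermediateField K Ω) {e₀ e₁ e₂ : F} (h0 : (e₀ : Ω) = a 0)
    (h1 : (e₁ : Ω) = a 1) (h2 : (e₂ : Ω) = a 2) :
    ∃ e : Pt Ω e₀ e₁ e₂ ≃+ JJ (ff a), ∀ (s : Ω ≃ₐ[F] Ω)
      (hs : (ff a).map (s.toRingEquiv : Ω →+* Ω) = ff a) (P : Pt Ω e₀ e₁ e₂),
      e (s • P) = act s.toRingEquiv hs (e P) := by
  have hd : ‹DecidableEq Ω› = fun x y => Classical.propDecidable (x = y) :=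
    Subsingleton.elim _ _
  subst hd
  have hinj := HypA.inj (a := a)
  have h2' : (2 : F) ≠ 0 := fun h => HypA.two a (by
    have := congrArg (algebraMap F Ω) h
    rwa [map_ofNat, map_zero] at this)
  have h01 : e₀ ≠ e₁ := fun h => by
    have : (0 : Fin (2 * 1 + 1)) = 1 := hinj (by rw [← h0, ← h1, h])
    exact absurd this (by decide)
  have h02 : e₀ ≠ e₂ := fun h => by
    have : (0 : Fin (2 * 1 + 1)) = 2 := hinj (by rw [← h0, ← h2, h])
    exact absurd this (by decide)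
  have h12 : e₁ ≠ e₂ := fun h => by
    have : (1 : Fin (2 * 1 + 1)) = 2 := hinj (by rw [← h1, ← h2, h])
    exact absurd this (by decide)
  have hE := crv_elliptic h2' h01 h02 h12
  have hS : SmN.Fnl.Short (crv e₀ e₁ e₂).toAffine := ⟨rfl, rfl⟩
  have hF : ff a = (SmN.Fnl.cubW (crv e₀ e₁ e₂).toAffine).map (algebraMap F Ω) := by
    have e0 : (algebraMap F Ω) e₀ = a 0 := h0
    have e1 : (algebraMap F Ω) e₁ = a 1 := h1
    have e2 : (algebraMap F Ω) e₂ = a 2 := h2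
    rw [ff, Fin.prod_univ_three, SmN.Fnl.cubW]
    simp only [crv, Polynomial.map_add, Polynomial.map_pow, Polynomial.map_mul, Polynomial.map_X,
      Polynomial.map_C, map_neg, map_add, map_mul, e0, e1, e2,
      Polynomial.map_neg]
    ring
  obtain ⟨e, he⟩ := SmN.Fnl.exists_brE (crv e₀ e₁ e₂) hF
  exact ⟨e, fun s hs P => he s hs P⟩

theorem exists_brV (F : IntermediateField K Ω) {e₀ e₁ e₂ : F} (h0 : (e₀ : Ω) = a 0)
    (h1 : (e₁ : Ω) = a 1) (h2 : (e₂ : Ω) = a 2) :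
    ∃ β : VV Ω e₀ e₁ e₂ ≃+ VN a, ∀ (s : Ω ≃ₐ[F] Ω) (Q : VV Ω e₀ e₁ e₂),
      β (s • Q) = (AlgEquiv.restrictScalars K s) • β Q := by
  obtain ⟨e, he⟩ := brV_key F h0 h1 h2
  have hm : ∀ P : Pt Ω e₀ e₁ e₂, P ∈ VV Ω e₀ e₁ e₂ ↔ e P ∈ VN a := by
    intro P
    constructor
    · rintro ⟨n, hn⟩
      exact ⟨n, by rw [← map_nsmul, hn, map_zero]⟩
    · rintro ⟨n, hn⟩
      refine ⟨n, e.injective ?_⟩
      rw [map_nsmul, hn, map_zero]
  let β : VV Ω e₀ e₁ e₂ ≃+ VN a :=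
    { toFun := fun Q => ⟨e Q.1, (hm Q.1).mp Q.2⟩
      invFun := fun R => ⟨e.symm R.1, (hm _).mpr (by rw [e.apply_symm_apply]; exact R.2)⟩
      left_inv := fun Q => Subtype.ext (e.symm_apply_apply Q.1)
      right_inv := fun R => Subtype.ext (e.apply_symm_apply R.1)
      map_add' := fun Q R => Subtype.ext (map_add e Q.1 R.1) }
  refine ⟨β, fun s Q => Subtype.ext ?_⟩
  exact he s _ Q.1

end Pool.Agent.TTN
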