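import Pool.Agent.Lib.TTC.KronD
import Pool.Agent.Lib.TTC.Mact
import Pool.Agent.Lib.SmNJ.FInst
import Pool.Agent.Lib.SmJ.L.SelDefs

/-!
# Project TTN (MP_950c68_ag): symplectic `ℤ_2`-lattices over a global function field

`K` = a global function field, `Ω` = a separable closure, `L : TTC.Lat (Ω ≃ₐ[K] Ω) I` = a
representation `rho : Gal(Ω/K) → GL_I(ℤ_2)` with a form `J` and a similitude character `cyc`.
The action modulo `2` is not trivial; it is a direct summand of a transitive permutation module.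
`VL L = (ℚ_2 / ℤ_2) ^ I` is the discrete module, `sysG` the abstract structure `SmN.Sys`.
-/

set_option autoImplicit false

open Pool.Agent.TTC (Lat VL QZ mact red2 hf2 iotaL eL cycK)
open Pool.Agent.BSDFF Pool.Agent.GBU Pool.Agent.Lib.SmD Pool.Agent.SmN

namespace Pool.Agent.TTN

section alg

variable {G : Type} [Group G] {I : Type} [Fintype I] [DecidableEq I]

/-- Symplectic similitudes. -/
structure Sy (L : Lat G I) : Prop where
  Jt : L.J.transpose = -L.J
  Jd : ∀ i, L.J i i = 0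
  Ju : IsUnit L.J.det
  sim : ∀ s, (L.rho s).transpose * L.J * L.rho s = (L.cyc s : ℤ_[2]) • L.J

/-- A representation by matrices over `ZMod 2` as a group of linear automorphisms. -/
noncomputable def autM (r : G →* Matrix I I (ZMod 2)) :
    G →* ((I → ZMod 2) ≃ₗ[ZMod 2] (I → ZMod 2)) :=
  (LinearMap.GeneralLinearGroup.generalLinearEquiv (ZMod 2) (I → ZMod 2)).toMonoidHom.comp
    (MonoidHom.toHomUnits
      (((Matrix.toLinAlgEquiv' : Matrix I I (ZMod 2) ≃ₐ[ZMod 2] _) : Matrix I I (ZMod 2) →*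
        Module.End (ZMod 2) (I → ZMod 2)).comp r))

theorem autM_apply (r : G →* Matrix I I (ZMod 2)) (s : G) (w : I → ZMod 2) :
    autM r s w = (r s).mulVec w := rfl

/-- The representation modulo `2`. -/
noncomputable def r2 (L : Lat G I) : G →* Matrix I I (ZMod 2) :=
  ((RingHom.mapMatrix red2 : Matrix I I ℤ_[2] →+* Matrix I I (ZMod 2)) :
    Matrix I I ℤ_[2] →* Matrix I I (ZMod 2)).comp L.rho

theorem r2_apply (L : Lat G I) (s : G) : r2 L s = (L.rho s).map red2 := rfl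

/-- The action modulo `2`. -/
noncomputable abbrev acL (L : Lat G I) : G →* ((I → ZMod 2) ≃ₗ[ZMod 2] (I → ZMod 2)) := autM (r2 L)

theorem acL_apply (L : Lat G I) (s : G) (w : I → ZMod 2) :
    acL L s w = ((L.rho s).map red2).mulVec w := rfl

end alg

/-- The action `ac` of `G` on `V1` is big: it spans the endomorphisms, and every cocycle which
vanishes on the kernel of the action is a coboundary. -/
structure Big {G V1 : Type} [Group G] [AddCommGroup V1] [Module (ZMod 2) V1]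
    (ac : G →* (V1 ≃ₗ[ZMod 2] V1)) : Prop where
  span : ∀ A : V1 →ₗ[ZMod 2] V1, ∃ U : Finset G, ∀ w, ∑ s ∈ U, ac s w = A w
  h1 : ∀ c : G → V1, (∀ s t, c (s * t) = c s + ac s (c t)) →
    (∀ s, (∀ w, ac s w = w) → c s = 0) → ∃ z, ∀ s, c s = ac s z - z

/-- `I → ZMod 2` with the form `e` and the action `ac` as a direct summand of the permutation module
of the transitive `G`-set `X`. -/
structure PermL {G : Type} [Group G] {V1 : Type} [AddCommGroup V1] [Module (ZMod 2) V1]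
    (ac : G →* (V1 ≃ₗ[ZMod 2] V1)) (e : V1 →ₗ[ZMod 2] V1 →ₗ[ZMod 2] ZMod 2)
    (X : Type) [Fintype X] [MulAction G X] (i : V1 →ₗ[ZMod 2] (X → ZMod 2))
    (p : (X → ZMod 2) →ₗ[ZMod 2] V1) : Prop where
  p_i : ∀ w, p (i w) = w
  i_ac : ∀ s w x, i (ac s w) x = i w (s⁻¹ • x)
  p_ac : ∀ s a, p (fun x => a (s⁻¹ • x)) = ac s (p a)
  adj : ∀ a w, e (p a) w = ∑ x, a x * i w x
  /-- the action on `X` factors through the action on `V1` -/
  ker : ∀ s, (∀ w, ac s w = w) → ∀ x : X, s • x = x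
  /-- transitivity -/
  tr : ∀ x y : X, ∃ s : G, s • x = y
  ne : Nonempty X

section field

variable (k : Type) {K Ω : Type} [Field k] [Field K] [Field Ω] [Algebra k K] [Algebra K Ω]
  {I : Type} [Fintype I] [DecidableEq I]

/-- The abstract structure of the lattice. -/
noncomputable def sysG (L : Lat (Ω ≃ₐ[K] Ω) I) :
    SmN.Sys (Ω ≃ₐ[K] Ω) (VL L) (I → ZMod 2) (Place k K) where
  NN := NP K Ω
  D := fun v => dvK Ω v
  phi := fun v => phK Ω v
  sg := fun v => sgK Ω v
  eps := fun v => epsK v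
  iota := iotaL L
  ac := acL L
  e := eL L
  sy := fun v => SmN.Loc.syf (eL L) (acL L (sgK Ω v)) (acL L (phK Ω v)) (qK v)
  good := {v | ∀ s ∈ iner K (abK Ω v), L.rho s = 1}

/-- What is needed of the lattice. -/
structure LatG (L : Lat (Ω ≃ₐ[K] Ω) I) : Prop where
  sy : Sy L
  cyc : ∀ s, L.cyc s = cycK Ω K s
  cont : ∀ j : ℕ, ∃ N ∈ NP K Ω, ∀ s ∈ N, ∃ B : Matrix I I ℤ_[2],
    L.rho s = 1 + (2 : ℤ_[2]) ^ j • B
  unr : {v : Place k K | ¬ ∀ s ∈ iner K (abK Ω v), L.rho s = 1}.Finite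
  pure : ∀ (v : Place k K) (U : Subgroup (Ω ≃ₐ[K] Ω)), IsOpen (U : Set (Ω ≃ₐ[K] Ω)) →
    ∀ r : I → ℚ_[2], (∀ s ∈ dvK Ω v, s ∈ U → (L.rq s).mulVec r = r) → r = 0

variable {k}

/-- The action on `VL L`, twisted by the quadratic character of `d`. -/
noncomputable def rhoD (L : Lat (Ω ≃ₐ[K] Ω) I) (d : K) (s : Ω ≃ₐ[K] Ω) : VL L →+ VL L :=
  SmN.sgn (chi K d s) • DistribSMul.toAddMonoidHom (VL L) s

theorem rhoD_apply (L : Lat (Ω ≃ₐ[K] Ω) I) (d : K) (s : Ω ≃ₐ[K] Ω) (Q : VL L) :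
    rhoD L d s Q = SmN.sgn (chi K d s) • (s • Q) := rfl

end field

end Pool.Agent.TTN
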