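import Pool.Agent.Lib.TTN.Halve
import Pool.Agent.Lib.TTC.H.Good
import Pool.Agent.Lib.SmN.Fin.BrE

/-!
# Project TTN (MP_950c68_ag), module Dich: good or multiplicative reduction over a field with the
roots and the square roots of their differences

PROOF. Let `δ` be one of the three differences `e₁ - e₂`, `e₁ - e₃`, `e₂ - e₃` with the largest
`|δ|`, `δ = g ^ 2`, `g ≠ 0`, and `eᵢ' = eᵢ / g ^ 2`. The differences `eᵢ' - eⱼ'` have absolute
value at most `1`, and at least two of the three have absolute value `1` (ultrametric: the sum of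
suitable signs is `0`). `3 e₁' = (e₁' - e₂') + (e₁' - e₃')` (sum zero) and `|3| = 1` give `|eᵢ'| ≤
1`.
GOOD CASE: the three differences are units: `iner_good` and `hasse_good` of `TTC/H/Good.lean` for
`eᵢ = g ^ 2 eᵢ'`.
OTHERWISE exactly one difference `eᵢ' - eⱼ'` has absolute value `< 1`: `mult_moves` for `(eᵢ',
eⱼ', eₗ')` gives `s ∈ iner K w` and a point `Q` of `VV Ω eᵢ' eⱼ' eₗ'` which is moved. `crv e₁ e₂
e₃` is symmetric in the three roots (equality of Weierstrass curves, `WeierstrassCurve.ext`,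
`ring`), so `VV Ω eᵢ' eⱼ' eₗ'` is `VV Ω e₁' e₂' e₃'` (prove for general `W = W'`: a point moved on
`W'` gives one on `W`, `subst`), and `exists_scale` (used in `TTC/H/Good.lean`, from `twistEquiv`)
transports the point to `VV Ω (g ^ 2 e₁') (g ^ 2 e₂') (g ^ 2 e₃')`. `qm` is only needed if you
want `g` with the other sign.
-/

set_option autoImplicit false

open Pool.Agent.SmithE Pool.Agent.Lib.SmD

namespace Pool.Agent.TTN

variable {K Ω : Type} [Field K] [Field Ω] [Algebra K Ω] [IsGalois K Ω] [IsSepClosed Ω]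
  [DecidableEq Ω] {w : ValuationSubring Ω} {π e₁ e₂ e₃ : K}

omit [IsGalois K Ω] [IsSepClosed Ω] in
/-- transport of a moved torsion point between equal curves -/
private theorem dich_eq {W W' : WeierstrassCurve K} (hW : W = W') (s : Ω ≃ₐ[K] Ω)
    (P : (WeierstrassCurve.Affine.baseChange W Ω).Point) (hP : ∃ n : ℕ, (2 : ℕ) ^ n • P = 0)
    (hs : WeierstrassCurve.Affine.Point.map (W' := W) (s : Ω →ₐ[K] Ω) P ≠ P) :
    ∃ P' : (WeierstrassCurve.Affine.baseChange W' Ω).Point, (∃ n : ℕ, (2 : ℕ) ^ n • P' = 0) ∧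
      WeierstrassCurve.Affine.Point.map (W' := W') (s : Ω →ₐ[K] Ω) P' ≠ P' := by
  subst hW
  exact ⟨P, hP, hs⟩

omit [IsGalois K Ω] [IsSepClosed Ω] in
private theorem dich_swap {a b c a' b' c' : K} (hW : crv a b c = crv a' b' c')
    {s : Ω ≃ₐ[K] Ω} (Q : VV Ω a b c) (hQ : s • Q ≠ Q) :
    ∃ Q' : VV Ω a' b' c', s • Q' ≠ Q' := by
  obtain ⟨P', h1, h2⟩ := dich_eq hW s Q.1 Q.2 (fun h => hQ (Subtype.ext h))
  exact ⟨⟨P', h1⟩, fun h => h2 (congrArg Subtype.val h)⟩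

omit [IsGalois K Ω] [IsSepClosed Ω] in
private theorem dich_scale {g : K} (hg : g ≠ 0) {s : Ω ≃ₐ[K] Ω} (Q : VV Ω e₁ e₂ e₃)
    (hQ : s • Q ≠ Q) :
    ∃ Q' : VV Ω (g ^ 2 * e₁) (g ^ 2 * e₂) (g ^ 2 * e₃), s • Q' ≠ Q' := by
  obtain ⟨T, hT⟩ := Pool.Agent.TTC.H.exists_scale (Om := Ω) e₁ e₂ e₃ hg
  obtain ⟨j, hj⟩ := Q.2
  refine ⟨⟨T Q.1, j, by rw [← map_nsmul, hj, map_zero]⟩, fun h => hQ ?_⟩
  have h1 : s • T Q.1 = T Q.1 := congrArg Subtype.val h
  rw [hT] at h1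
  exact Subtype.ext (T.injective h1)

omit [IsGalois K Ω] [IsSepClosed Ω] [DecidableEq Ω] in
private theorem dich_int (h3 : w.valuation (3 : Ω) = 1) {a b c : K} (hs : a + b + c = 0)
    (vb : w.valuation (algebraMap K Ω (a - b)) ≤ 1)
    (vc : w.valuation (algebraMap K Ω (a - c)) ≤ 1) : w.valuation (algebraMap K Ω a) ≤ 1 := by
  have e : (3 : Ω) * algebraMap K Ω a = algebraMap K Ω (a - b) + algebraMap K Ω (a - c) := by
    rw [← map_add, ← map_ofNat (algebraMap K Ω) 3, ← map_mul]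
    congr 1
    linear_combination hs
  have h4 : w.valuation ((3 : Ω) * algebraMap K Ω a) ≤ 1 := by
    rw [e]
    exact w.valuation.map_add_le vb vc
  rwa [map_mul, h3, one_mul] at h4

/-- the dichotomy for integral roots, scaled -/
private theorem dich_core (h : LocHyp K w π) (h3 : w.valuation (3 : Ω) = 1)
    (hs : e₁ + e₂ + e₃ = 0) (h12 : e₁ ≠ e₂) (h13 : e₁ ≠ e₃) (h23 : e₂ ≠ e₃)
    {g : K} (hg : g ≠ 0)
    (v12 : w.valuation (algebraMap K Ω (e₁ - e₂)) ≤ 1)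
    (v13 : w.valuation (algebraMap K Ω (e₁ - e₃)) ≤ 1)
    (v23 : w.valuation (algebraMap K Ω (e₂ - e₃)) ≤ 1)
    (hmax : w.valuation (algebraMap K Ω (e₁ - e₂)) = 1 ∨
      w.valuation (algebraMap K Ω (e₁ - e₃)) = 1 ∨
      w.valuation (algebraMap K Ω (e₂ - e₃)) = 1) :
    ((∀ s ∈ iner K w, ∀ Q : VV Ω (g ^ 2 * e₁) (g ^ 2 * e₂) (g ^ 2 * e₃), s • Q = Q) ∧
      ∀ φ, IsFrob K w φ → ∃ t : ℤ, t ^ 2 ≤ 4 * resCard (below K w) ∧
        ∀ Q : VV Ω (g ^ 2 * e₁) (g ^ 2 * e₂) (g ^ 2 * e₃),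
        φ • (φ • Q) - t • (φ • Q) + (resCard (below K w) : ℤ) • Q = 0) ∨
    ∃ s ∈ iner K w, ∃ Q : VV Ω (g ^ 2 * e₁) (g ^ 2 * e₂) (g ^ 2 * e₃), s • Q ≠ Q := by
  have w21 : w.valuation (algebraMap K Ω (e₂ - e₁)) = w.valuation (algebraMap K Ω (e₁ - e₂)) := by
    rw [← neg_sub e₁ e₂, map_neg, Valuation.map_neg]
  have w31 : w.valuation (algebraMap K Ω (e₃ - e₁)) = w.valuation (algebraMap K Ω (e₁ - e₃)) := by
    rw [← neg_sub e₁ e₃, map_neg, Valuation.map_neg]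
  have w32 : w.valuation (algebraMap K Ω (e₃ - e₂)) = w.valuation (algebraMap K Ω (e₂ - e₃)) := by
    rw [← neg_sub e₂ e₃, map_neg, Valuation.map_neg]
  have i1 := dich_int h3 hs v12 v13
  have i2 := dich_int (a := e₂) (b := e₁) (c := e₃) h3 (by rw [← hs]; ring)
    (by rw [w21]; exact v12) v23
  have i3 := dich_int (a := e₃) (b := e₁) (c := e₂) h3 (by rw [← hs]; ring)
    (by rw [w31]; exact v13) (by rw [w32]; exact v23)
  have s12 : algebraMap K Ω (e₁ - e₂) = algebraMap K Ω (e₁ - e₃) + algebraMap K Ω (e₃ - e₂) := by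
    rw [← map_add]
    congr 1
    ring
  have s13 : algebraMap K Ω (e₁ - e₃) = algebraMap K Ω (e₁ - e₂) + algebraMap K Ω (e₂ - e₃) := by
    rw [← map_add]
    congr 1
    ring
  have s23 : algebraMap K Ω (e₂ - e₃) = algebraMap K Ω (e₂ - e₁) + algebraMap K Ω (e₁ - e₃) := by
    rw [← map_add]
    congr 1
    ring
  rcases lt_or_eq_of_le v12 with l12 | l12
  · -- the difference of the first two roots is small
    have t13 : w.valuation (algebraMap K Ω (e₁ - e₃)) = 1 := by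
      rcases hmax with m | m | m
      · exact absurd m l12.ne
      · exact m
      · apply le_antisymm v13
        by_contra hc
        push Not at hc
        have h4 : w.valuation (algebraMap K Ω (e₂ - e₃)) < 1 := by
          rw [s23]
          exact w.valuation.map_add_lt (by rw [w21]; exact l12) hc
        exact absurd m h4.ne
    have t23 : w.valuation (algebraMap K Ω (e₂ - e₃)) = 1 := by
      apply le_antisymm v23
      by_contra hc
      push Not at hc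
      have h4 : w.valuation (algebraMap K Ω (e₁ - e₃)) < 1 := by
        rw [s13]
        exact w.valuation.map_add_lt l12 hc
      exact absurd t13 h4.ne
    obtain ⟨s, hs1, Q, hQ⟩ := mult_moves h h12 l12 t13 t23
    exact Or.inr ⟨s, hs1, dich_scale hg Q hQ⟩
  · rcases lt_or_eq_of_le v13 with l13 | l13
    · have t23 : w.valuation (algebraMap K Ω (e₂ - e₃)) = 1 := by
        apply le_antisymm v23
        by_contra hc
        push Not at hc
        have h4 : w.valuation (algebraMap K Ω (e₁ - e₂)) < 1 := by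
          rw [s12]
          exact w.valuation.map_add_lt l13 (by rw [w32]; exact hc)
        exact absurd l12 h4.ne
      obtain ⟨s, hs1, Q, hQ⟩ := mult_moves (e₁ := e₁) (e₂ := e₃) (e₃ := e₂) h h13 l13 l12
        (by rw [w32]; exact t23)
      obtain ⟨Q1, hQ1⟩ := dich_swap (a' := e₁) (b' := e₂) (c' := e₃)
        (by ext <;> simp only [crv] <;> ring) Q hQ
      exact Or.inr ⟨s, hs1, dich_scale hg Q1 hQ1⟩
    · rcases lt_or_eq_of_le v23 with l23 | l23
      · obtain ⟨s, hs1, Q, hQ⟩ := mult_moves (e₁ := e₂) (e₂ := e₃) (e₃ := e₁) h h23 l23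
          (by rw [w21]; exact l12) (by rw [w31]; exact l13)
        obtain ⟨Q1, hQ1⟩ := dich_swap (a' := e₁) (b' := e₂) (c' := e₃)
          (by ext <;> simp only [crv] <;> ring) Q hQ
        exact Or.inr ⟨s, hs1, dich_scale hg Q1 hQ1⟩
      · exact Or.inl ⟨fun s hs1 Q =>
          Pool.Agent.TTC.H.iner_good hg h.two i1 i2 i3 l12 l13 l23 hs1 Q,
          fun φ hφ => Pool.Agent.TTC.H.hasse_good h hφ hg i1 i2 i3 l12 l13 l23⟩

/-- the dichotomy with a square root `g` of the largest difference -/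
private theorem dich_max (h : LocHyp K w π) (h3 : w.valuation (3 : Ω) = 1)
    (hs : e₁ + e₂ + e₃ = 0) (h12 : e₁ ≠ e₂) (h13 : e₁ ≠ e₃) (h23 : e₂ ≠ e₃)
    {g : K} (hg : g ≠ 0)
    (v12 : w.valuation (algebraMap K Ω (e₁ - e₂)) ≤ w.valuation (algebraMap K Ω (g ^ 2)))
    (v13 : w.valuation (algebraMap K Ω (e₁ - e₃)) ≤ w.valuation (algebraMap K Ω (g ^ 2)))
    (v23 : w.valuation (algebraMap K Ω (e₂ - e₃)) ≤ w.valuation (algebraMap K Ω (g ^ 2)))
    (hmax : w.valuation (algebraMap K Ω (e₁ - e₂)) = w.valuation (algebraMap K Ω (g ^ 2)) ∨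
      w.valuation (algebraMap K Ω (e₁ - e₃)) = w.valuation (algebraMap K Ω (g ^ 2)) ∨
      w.valuation (algebraMap K Ω (e₂ - e₃)) = w.valuation (algebraMap K Ω (g ^ 2))) :
    ((∀ s ∈ iner K w, ∀ Q : VV Ω e₁ e₂ e₃, s • Q = Q) ∧
      ∀ φ, IsFrob K w φ → ∃ t : ℤ, t ^ 2 ≤ 4 * resCard (below K w) ∧ ∀ Q : VV Ω e₁ e₂ e₃,
        φ • (φ • Q) - t • (φ • Q) + (resCard (below K w) : ℤ) • Q = 0) ∨
    ∃ s ∈ iner K w, ∃ Q : VV Ω e₁ e₂ e₃, s • Q ≠ Q := by
  have hg2 : g ^ 2 ≠ 0 := pow_ne_zero 2 hg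
  obtain ⟨a, rfl⟩ : ∃ a, e₁ = g ^ 2 * a := ⟨e₁ / g ^ 2, by field_simp⟩
  obtain ⟨b, rfl⟩ : ∃ b, e₂ = g ^ 2 * b := ⟨e₂ / g ^ 2, by field_simp⟩
  obtain ⟨c, rfl⟩ : ∃ c, e₃ = g ^ 2 * c := ⟨e₃ / g ^ 2, by field_simp⟩
  have hv0 : w.valuation (algebraMap K Ω (g ^ 2)) ≠ 0 := by
    rw [Valuation.ne_zero_iff]
    exact fun h0 => hg2 ((map_eq_zero _).1 h0)
  have hpos : 0 < w.valuation (algebraMap K Ω (g ^ 2)) := zero_lt_iff.2 hv0
  have hle : ∀ x y : K, w.valuation (algebraMap K Ω (g ^ 2 * x - g ^ 2 * y)) ≤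
      w.valuation (algebraMap K Ω (g ^ 2)) → w.valuation (algebraMap K Ω (x - y)) ≤ 1 := by
    intro x y hxy
    rw [← mul_sub, map_mul, map_mul] at hxy
    exact (mul_le_iff_le_one_right hpos).1 hxy
  have heq : ∀ x y : K, w.valuation (algebraMap K Ω (g ^ 2 * x - g ^ 2 * y)) =
      w.valuation (algebraMap K Ω (g ^ 2)) → w.valuation (algebraMap K Ω (x - y)) = 1 := by
    intro x y hxy
    rw [← mul_sub, map_mul, map_mul] at hxy
    exact (mul_eq_left₀ hv0).1 hxy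
  refine dich_core h h3 ?_ (fun h0 => h12 (by rw [h0])) (fun h0 => h13 (by rw [h0]))
    (fun h0 => h23 (by rw [h0])) hg (hle _ _ v12) (hle _ _ v13) (hle _ _ v23) ?_
  · apply mul_left_cancel₀ hg2
    linear_combination hs
  · rcases hmax with m | m | m
    · exact Or.inl (heq _ _ m)
    · exact Or.inr (Or.inl (heq _ _ m))
    · exact Or.inr (Or.inr (heq _ _ m))

theorem dich (h : LocHyp K w π) (h3 : w.valuation (3 : Ω) = 1) (hs : e₁ + e₂ + e₃ = 0)
    (h12 : e₁ ≠ e₂) (h13 : e₁ ≠ e₃) (h23 : e₂ ≠ e₃) (q12 : IsSquare (e₁ - e₂))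
    (q13 : IsSquare (e₁ - e₃)) (q23 : IsSquare (e₂ - e₃)) (qm : IsSquare (-1 : K)) :
    ((∀ s ∈ iner K w, ∀ Q : VV Ω e₁ e₂ e₃, s • Q = Q) ∧
      ∀ φ, IsFrob K w φ → ∃ t : ℤ, t ^ 2 ≤ 4 * resCard (below K w) ∧ ∀ Q : VV Ω e₁ e₂ e₃,
        φ • (φ • Q) - t • (φ • Q) + (resCard (below K w) : ℤ) • Q = 0) ∨
    ∃ s ∈ iner K w, ∃ Q : VV Ω e₁ e₂ e₃, s • Q ≠ Q := by
  have hsq : ∀ d : K, IsSquare d → d ≠ 0 → ∃ g : K, g ≠ 0 ∧ g ^ 2 = d := by
    rintro d ⟨g, hg⟩ hd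
    refine ⟨g, fun h0 => hd (by rw [hg, h0, mul_zero]), by rw [hg, sq]⟩
  obtain ⟨g1, g1n, g1e⟩ := hsq _ q12 (sub_ne_zero.2 h12)
  obtain ⟨g2, g2n, g2e⟩ := hsq _ q13 (sub_ne_zero.2 h13)
  obtain ⟨g3, g3n, g3e⟩ := hsq _ q23 (sub_ne_zero.2 h23)
  rcases le_total (w.valuation (algebraMap K Ω (e₁ - e₂)))
    (w.valuation (algebraMap K Ω (e₁ - e₃))) with h1 | h1
  · rcases le_total (w.valuation (algebraMap K Ω (e₁ - e₃)))
      (w.valuation (algebraMap K Ω (e₂ - e₃))) with h2 | h2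
    · exact dich_max h h3 hs h12 h13 h23 g3n (by rw [g3e]; exact h1.trans h2)
        (by rw [g3e]; exact h2) (by rw [g3e]) (Or.inr (Or.inr (by rw [g3e])))
    · exact dich_max h h3 hs h12 h13 h23 g2n (by rw [g2e]; exact h1)
        (by rw [g2e]) (by rw [g2e]; exact h2) (Or.inr (Or.inl (by rw [g2e])))
  · rcases le_total (w.valuation (algebraMap K Ω (e₁ - e₂)))
      (w.valuation (algebraMap K Ω (e₂ - e₃))) with h2 | h2
    · exact dich_max h h3 hs h12 h13 h23 g3n (by rw [g3e]; exact h2)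
        (by rw [g3e]; exact h1.trans h2) (by rw [g3e]) (Or.inr (Or.inr (by rw [g3e])))
    · exact dich_max h h3 hs h12 h13 h23 g1n (by rw [g1e])
        (by rw [g1e]; exact h1) (by rw [g1e]; exact h2) (Or.inl (by rw [g1e]))

end Pool.Agent.TTN
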