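import Pool.Agent.Lib.TTN.OkG
import Pool.Agent.Lib.SmNJ.FInst

/-!
# Project TTN (MP_950c68_ag), module FInstG: block F for a lattice whose reduction modulo `2` is a
direct summand of a transitive permutation module (port of `SmNJ.exists_sysT`)

SOURCES: `SmNJ/FInst.lean` (`exists_sysT`). There the permutation module is that of the roots of
the polynomial; here it is `X`, with the stabilizers of a point (open subgroups by `PermL.ker` and
the continuity of the action modulo `2`, `LatG.cont 1`). The field `L` = the fixed field of the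
stabilizer of a point `x₀ : X` is finite over `K`, `X` is the set of the cosets (`PermL.tr`,
`PermL.ne`). `SmN.F.exists_fOk` and the Hasse principle / finiteness for `L` (`GBUH.hasseK`) as
there. If the original passes through a structure which asks for the set of roots `Fin (2 g + 1)`,
copy the modules with `X` (tell helper79).
-/

set_option autoImplicit false

open Pool.Agent.TTC (Lat VL QZ mact red2 hf2 iotaL eL cycK)
open Pool.Agent.BSDFF Pool.Agent.GBU Pool.Agent.Lib.SmD Pool.Agent.SmN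

namespace Pool.Agent.TTN

section perm

variable {k K Ω : Type} [Field k] [Field K] [Algebra k K] [Field Ω] [Algebra K Ω]
  {I : Type} [Fintype I] [DecidableEq I] {L : Lat (Ω ≃ₐ[K] Ω) I}

private theorem exists_triv (hL : LatG k L) {X : Type} [Fintype X]
    [MulAction (Ω ≃ₐ[K] Ω) X] {i : (I → ZMod 2) →ₗ[ZMod 2] (X → ZMod 2)}
    {p : (X → ZMod 2) →ₗ[ZMod 2] (I → ZMod 2)} (hP : PermL (acL L) (eL L) X i p) :
    ∃ N ∈ NP K Ω, ∀ n ∈ N, ∀ x : X, n • x = x := by
  obtain ⟨N, hN, h⟩ := hL.cont 1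
  refine ⟨N, hN, fun n hn => hP.ker n fun w => ?_⟩
  obtain ⟨B, hB⟩ := h n hn
  rw [acL_apply, hB]
  have h1 : (1 + (2 : ℤ_[2]) ^ 1 • B).map red2 = 1 := by
    ext a b
    rw [Matrix.map_apply, Matrix.add_apply, Matrix.smul_apply, smul_eq_mul, map_add, map_mul,
      pow_one, map_ofNat]
    have h2 : (2 : ZMod 2) = 0 := rfl
    have h3 : (OfNat.ofNat 2 : ZMod 2) = 0 := h2
    rw [h3, zero_mul, add_zero, Matrix.one_apply, Matrix.one_apply]
    split_ifs <;> simp
  rw [h1, Matrix.one_mulVec]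

private theorem permOkG (hL : LatG k L) {X : Type} [Fintype X]
    [MulAction (Ω ≃ₐ[K] Ω) X] {i : (I → ZMod 2) →ₗ[ZMod 2] (X → ZMod 2)}
    {p : (X → ZMod 2) →ₗ[ZMod 2] (I → ZMod 2)} (hP : PermL (acL L) (eL L) X i p) :
    SmN.PermOk (sysG k L) X i p :=
  ⟨exists_triv hL hP, hP.p_i, hP.i_ac, hP.p_ac, hP.adj⟩

end perm

section stab

variable {K Ω : Type} [Field K] [Field Ω] [Algebra K Ω]

/-- An open subgroup is the Galois group over its fixed field. -/
private theorem eq_rg [IsGalois K Ω] (H : Subgroup (Ω ≃ₐ[K] Ω))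
    (hH : IsOpen (H : Set (Ω ≃ₐ[K] Ω))) :
    FiniteDimensional K (IntermediateField.fixedField H) ∧
      H = rg K (IntermediateField.fixedField H) Ω := by
  have hc : (IntermediateField.fixedField H).fixingSubgroup = H :=
    InfiniteGalois.fixingSubgroup_fixedField ⟨H, H.isClosed_of_isOpen hH⟩
  refine ⟨(InfiniteGalois.isOpen_iff_finite _).1 ?_, ?_⟩
  · rw [hc]
    exact hH
  · ext s
    constructor
    · intro h
      exact (mem_rg K).2 fun x => (IntermediateField.mem_fixingSubgroup_iff _ _).1 (hc.ge h) x.1 x.2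
    · intro h
      exact hc.le ((IntermediateField.mem_fixingSubgroup_iff _ _).2 fun x hx =>
        (mem_rg K).1 h ⟨x, hx⟩)

end stab

section

variable {k K Ω : Type} [Field k] [Finite k] [Field K] [Algebra k K] [Algebra (RatFunc k) K]
  [IsScalarTower k (RatFunc k) K] [FiniteDimensional (RatFunc k) K]
  [Algebra.IsSeparable (RatFunc k) K] [Field Ω] [Algebra K Ω] [IsSepClosure K Ω]
  {I : Type} [Fintype I] [DecidableEq I] {L : Lat (Ω ≃ₐ[K] Ω) I}

theorem exists_fG (h2 : (2 : k) ≠ 0) (hL : LatG k L) {X : Type} [Fintype X]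
    [MulAction (Ω ≃ₐ[K] Ω) X] {i : (I → ZMod 2) →ₗ[ZMod 2] (X → ZMod 2)}
    {p : (X → ZMod 2) →ₗ[ZMod 2] (I → ZMod 2)} (hP : PermL (acL L) (eL L) X i p) :
    ∃ T0 : Finset (Place k K), FOk ((sysG k L).shr T0) ∧
      ∀ T : Set (Place k K), T.Finite → ((sysG k L).shr T0).goodᶜ ⊆ T →
        Ch.LagV ((sysG k L).shr T0) T := by
  have halg : Algebra.IsAlgebraic K Ω := (IsSepClosure.separable (k := K) (K := Ω)).isAlgebraic
  have hsep : Algebra.IsSeparable K Ω := IsSepClosure.separable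
  have hsc : IsSepClosed Ω := IsSepClosure.sep_closed K
  have hgal : IsGalois K Ω := inferInstance
  have hne : Nonempty X := hP.ne
  obtain ⟨x0⟩ := hP.ne
  obtain ⟨N, hN, htriv⟩ := exists_triv hL hP
  have hle : N ≤ MulAction.stabilizer (Ω ≃ₐ[K] Ω) x0 := fun n hn =>
    MulAction.mem_stabilizer_iff.2 (htriv n hn x0)
  have hop : IsOpen ((MulAction.stabilizer (Ω ≃ₐ[K] Ω) x0 : Subgroup (Ω ≃ₐ[K] Ω)) :
      Set (Ω ≃ₐ[K] Ω)) := Subgroup.isOpen_mono hle hN.2.1
  obtain ⟨hfd, hst⟩ := eq_rg (MulAction.stabilizer (Ω ≃ₐ[K] Ω) x0) hop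
  generalize IntermediateField.fixedField (MulAction.stabilizer (Ω ≃ₐ[K] Ω) x0) = F at hfd hst
  have hsepL : IsSepClosure F Ω := ⟨hsc, Algebra.isSeparable_tower_top_of_isSeparable K F Ω⟩
  let algR : Algebra (RatFunc k) F :=
    ((algebraMap K F).comp (algebraMap (RatFunc k) K)).toAlgebra
  let algk : Algebra k F := ((algebraMap K F).comp (algebraMap k K)).toAlgebra
  have ht1 : IsScalarTower (RatFunc k) K F := IsScalarTower.of_algebraMap_eq fun x => rfl
  have ht2 : IsScalarTower k (RatFunc k) F :=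
    IsScalarTower.of_algebraMap_eq fun x =>
      congrArg (algebraMap K F) (IsScalarTower.algebraMap_apply k (RatFunc k) K x)
  have hfd2 : FiniteDimensional (RatFunc k) F := FiniteDimensional.trans (RatFunc k) K F
  have hs1 : Algebra.IsSeparable K F := Algebra.isSeparable_tower_bot_of_isSeparable K F Ω
  have hs2 : Algebra.IsSeparable (RatFunc k) F := Algebra.IsSeparable.trans (RatFunc k) K F
  have hH : SmN.F.HasseZ F Ω := by
    intro c hc hcoc hloc
    obtain ⟨b, ⟨U, _, hU, h1⟩, h3⟩ := Pool.Agent.GBUH.hasseK (k := k) (K := F) h2 c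
      (by
        obtain ⟨U, hU, h1⟩ := hc
        exact ⟨U, hU, fun s t n hn m hm => h1 s t n hn m hm⟩) hcoc hloc
    exact ⟨b, ⟨U, hU, h1⟩, h3⟩
  choose r hr using fun x : X => hP.tr x x0
  exact SmN.F.exists_fOk (L := F) (X := X) h2 (S := sysG k L)
    ⟨rfl, fun _ => rfl, fun _ => rfl, fun _ => rfl⟩ (locDG h2 hL) (permOkG hL hP)
    (fun w h => e_ndL hL.sy w h) hL.unr (x0 := x0) (r := r) hr hst hH

end

end Pool.Agent.TTN
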