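import Pool.Agent.Lib.TTN.LatTA
import Pool.Agent.Lib.TTC.Stmt
import Pool.Agent.Lib.TTC.QZ2
import Pool.Agent.Lib.SmN.Fin.BrE

/-!
# Project TTN (MP_950c68_ag), module TateK: the module `(⨂ i, T_2(W i)) ⊗ ℚ_2 / ℤ_2` in
coordinates,
over any field `K` (port of `TTC/TateB.lean`, `TTC/TateT.lean`)

SOURCES: `TTC/TateB.lean` (`exists_basis`: the private lemmas hold for any abelian group `P`, a
subgroup `V` containing all elements of `2`-power order and an isomorphism `th : (Fin 2 → QZ) ≃+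
V`; here `P = Pts Ω W`, `V` = its `2`-power torsion, and `th` = `R.th` followed by the isomorphism
of the `2`-power torsion of `JJ (ff a)` with that of `Pts Ω W` from `SmN.Fnl.exists_brE`,
equivariant, as in `SmN/Fin/FinE.lean`, `exists_isoE`). `TTC/TateT.lean` (`exists_phi`): verbatim
for any `K`, with `B i` from `hB`; `quadChar Ω d s` is `SmN.sgn (chi K d s)` (unfold both; `sgn 0
= 1`, `sgn 1 = -1`).
-/

set_option autoImplicit false

open Polynomial TensorProduct
open Pool.Agent.TTC (QZ mact red2 hf2 cycK latT kron J2 eL VL)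
open Pool.Agent.SmNJ Pool.Agent.SmJ Pool.Agent.SmN.Fnl
open Pool.Agent.Sm.L (Pts gal)

namespace Pool.Agent.TTN

section TateKa

open Pool.Agent.TTC

private theorem TateK_tz_sub (a : ℤ_[2]) (m : ℕ) :
    ∃ b : ℤ_[2], a = (tz a m : ℤ_[2]) + (2 : ℤ_[2]) ^ m * b := by
  have h1 : PadicInt.toZModPow m (a - (tz a m : ℤ_[2])) = 0 := by
    rw [map_sub, map_natCast, tz_cast, sub_self]
  have h2 : a - (tz a m : ℤ_[2]) ∈ RingHom.ker (PadicInt.toZModPow (p := 2) m) := h1
  rw [PadicInt.ker_toZModPow, Ideal.mem_span_singleton] at h2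
  obtain ⟨b, hb⟩ := h2
  refine ⟨b, ?_⟩
  have h3 : a = (tz a m : ℤ_[2]) + (a - (tz a m : ℤ_[2])) := by ring
  rw [hb] at h3
  exact h3

private theorem TateK_pow (m : ℕ) : (2 : ℕ) ^ m • qz (1 / 2 ^ m) = 0 := by
  rw [qz_nsmul]
  refine qz_eq_zero.mpr ⟨1, ?_⟩
  push_cast
  field_simp

private theorem TateK_smul (a : ℤ_[2]) (m : ℕ) (Q : QZ) (hQ : (2 : ℕ) ^ m • Q = 0) :
    a • Q = tz a m • Q := by
  obtain ⟨b, hb⟩ := TateK_tz_sub a m
  have h1 : a • Q = ((tz a m : ℤ_[2]) + (2 : ℤ_[2]) ^ m * b) • Q := by rw [← hb]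
  rw [h1, add_smul, qz_kill hQ b, add_zero]
  exact Nat.cast_smul_eq_nsmul ℤ_[2] (tz a m) Q

private theorem TateK_succ (m : ℕ) : (2 : ℕ) • qz (1 / 2 ^ (m + 1)) = qz (1 / 2 ^ m) := by
  rw [qz_nsmul]
  congr 1
  push_cast
  rw [pow_succ]
  field_simp

variable {P : Type} [AddCommGroup P] (V : AddSubgroup P) (th : (Fin 2 → QZ) ≃+ V)

private noncomputable def TateK_F : (Fin 2 → ℤ_[2]) →ₗ[ℤ_[2]] Tate P where
  toFun v := ⟨fun m => (th (fun i => v i • qz (1 / 2 ^ m)) : P), by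
    refine ⟨?_, fun m => ?_⟩
    · have h1 : (fun i => v i • qz (1 / 2 ^ 0)) = (0 : Fin 2 → QZ) := by
        funext i
        have h2 : qz (1 / 2 ^ 0) = 0 := by
          have := TateK_pow 0
          rwa [pow_zero, one_smul] at this
        rw [h2, smul_zero]
        rfl
      change (th (fun i => v i • qz (1 / 2 ^ 0)) : P) = 0
      rw [h1, map_zero]
      rfl
    · rw [← AddSubgroup.coe_nsmul, ← map_nsmul]
      congr 2
      funext i
      rw [Pi.smul_apply, smul_comm, TateK_succ]⟩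
  map_add' v w := Subtype.ext (funext fun m => by
    change (th (fun i => (v + w) i • qz (1 / 2 ^ m)) : P) =
      (th (fun i => v i • qz (1 / 2 ^ m)) : P) + (th (fun i => w i • qz (1 / 2 ^ m)) : P)
    rw [← AddSubgroup.coe_add, ← map_add]
    congr 2
    funext i
    rw [Pi.add_apply, Pi.add_apply, add_smul])
  map_smul' a v := Subtype.ext (funext fun m => by
    change (th (fun i => (a • v) i • qz (1 / 2 ^ m)) : P) =
      tz a m • (th (fun i => v i • qz (1 / 2 ^ m)) : P)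
    rw [← AddSubgroup.coe_nsmul, ← map_nsmul]
    congr 2
    funext i
    rw [Pi.smul_apply, Pi.smul_apply, smul_eq_mul, mul_smul]
    refine TateK_smul a m _ ?_
    rw [smul_comm, TateK_pow, smul_zero])

private theorem TateK_F_val (v : Fin 2 → ℤ_[2]) (m : ℕ) :
    (TateK_F V th v).1 m = (th (fun i => v i • qz (1 / 2 ^ m)) : P) := rfl

private theorem TateK_inj : Function.Injective (TateK_F V th) := by
  rw [injective_iff_map_eq_zero]
  intro v hv
  funext i
  refine qz_faithful fun m => ?_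
  have h1 : (TateK_F V th v).1 m = 0 := by
    rw [hv]
    rfl
  rw [TateK_F_val] at h1
  have h2 : th (fun i => v i • qz (1 / 2 ^ m)) = 0 := Subtype.ext h1
  have h3 := (map_eq_zero_iff th th.injective).mp h2
  exact congrFun h3 i

private theorem TateK_surj (hV : ∀ (x : P) (n : ℕ), (2 : ℕ) ^ n • x = 0 → x ∈ V) :
    Function.Surjective (TateK_F V th) := by
  intro x
  let y : ℕ → V := fun m => ⟨x.1 m, hV _ m (x.tors m)⟩
  have h0 : y 0 = 0 := Subtype.ext x.2.1
  have hs : ∀ m, (2 : ℕ) • y (m + 1) = y m := fun m => Subtype.ext (x.2.2 m)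
  have h1 : ∀ i : Fin 2, ∃ a : ℤ_[2], ∀ m, a • qz (1 / 2 ^ m) = th.symm (y m) i := by
    intro i
    obtain ⟨f, hf⟩ := qz_hom (fun m => th.symm (y m) i) (by
      rw [h0, map_zero]
      rfl) (fun m => by
      rw [← Pi.smul_apply, ← map_nsmul, hs])
    obtain ⟨a, ha⟩ := qz_end f
    exact ⟨a, fun m => by rw [← ha, hf]⟩
  choose a ha using h1
  refine ⟨a, Subtype.ext (funext fun m => ?_)⟩
  rw [TateK_F_val]
  have h2 : (fun i => a i • qz (1 / 2 ^ m)) = th.symm (y m) := funext fun i => ha i m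
  rw [h2, AddEquiv.apply_symm_apply]

/-- Isomorphic groups have isomorphic Tate modules. -/
private noncomputable def TateK_E {P' : Type} [AddCommGroup P'] (e : P ≃+ P') :
    Tate P ≃ₗ[ℤ_[2]] Tate P' :=
  LinearEquiv.ofLinearMap (tateMap e.toAddMonoidHom) (tateMap e.symm.toAddMonoidHom)
    (by
      ext x : 1
      refine Subtype.ext (funext fun i => ?_)
      exact e.apply_symm_apply _)
    (by
      ext x : 1
      refine Subtype.ext (funext fun i => ?_)
      exact e.symm_apply_apply _)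

private theorem TateK_E_val {P' : Type} [AddCommGroup P'] (e : P ≃+ P') (x : Tate P) (i : ℕ) :
    (TateK_E e x).1 i = e (x.1 i) := rfl

end TateKa

variable {K Ω : Type} [Field K] [Field Ω] [Algebra K Ω]

/-- A basis of the Tate module of an elliptic curve. -/
theorem exists_basisK (W : WeierstrassCurve K) [Short W.toAffine] [W.IsElliptic]
    {a : Fin (2 * 1 + 1) → Ω} [RtG K a] [HypA a]
    (ha : ff a = (cubW W.toAffine).map (algebraMap K Ω)) (R : Rep (Ω ≃ₐ[K] Ω) (VN a)) :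
    ∃ B : Module.Basis (Fin 2) ℤ_[2] (TTC.T2 Ω W),
      ∀ s j, TTC.actT2 Ω W s (B j) = ∑ i, R.rho s i j • B i := by
  obtain ⟨e, he⟩ := exists_brE W ha
  have hbij : Function.Bijective (TateK_F (VN a) R.th) :=
    ⟨TateK_inj _ _, TateK_surj _ _ fun x n hx => ⟨n, hx⟩⟩
  let L : (Fin 2 → ℤ_[2]) ≃ₗ[ℤ_[2]] TTC.Tate (JJ (ff a)) := LinearEquiv.ofBijective _ hbij
  let E : TTC.Tate (JJ (ff a)) ≃ₗ[ℤ_[2]] TTC.T2 Ω W := TateK_E e.symm
  refine ⟨(Module.Basis.ofEquivFun L.symm).map E, fun s j => ?_⟩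
  have hB : ∀ i, (Module.Basis.ofEquivFun L.symm).map E i =
      E (TateK_F (VN a) R.th (Pi.single i 1)) := by
    intro i
    rw [Module.Basis.map_apply, Module.Basis.coe_ofEquivFun]
    rfl
  simp only [hB]
  have h1 : ∑ i, R.rho s i j • E (TateK_F (VN a) R.th (Pi.single i 1)) =
      E (TateK_F (VN a) R.th (fun i => R.rho s i j)) := by
    simp only [← map_smul, ← map_sum]
    congr 2
    funext i
    simp [Finset.sum_apply, Pi.single_apply]
  rw [h1]
  refine Subtype.ext (funext fun m => ?_)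
  have h2 : (TTC.actT2 Ω W s (E (TateK_F (VN a) R.th (Pi.single j 1)))).1 m =
      gal Ω W s (e.symm ((R.th (fun i => (Pi.single j 1 : Fin 2 → ℤ_[2]) i •
        TTC.qz (1 / 2 ^ m)) : VN a) : JJ (ff a))) := rfl
  have h3 : (E (TateK_F (VN a) R.th (fun i => R.rho s i j))).1 m =
      e.symm ((R.th (fun i => R.rho s i j • TTC.qz (1 / 2 ^ m)) : VN a) : JJ (ff a)) := rfl
  rw [h2, h3]
  apply e.injective
  have h4 := he s (map_ffN K a s) (e.symm ((R.th (fun i => (Pi.single j 1 : Fin 2 → ℤ_[2]) i •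
        TTC.qz (1 / 2 ^ m)) : VN a) : JJ (ff a)))
  rw [AddEquiv.apply_symm_apply] at h4 ⊢
  refine h4.trans ?_
  have h5 := R.act s (fun i => (Pi.single j 1 : Fin 2 → ℤ_[2]) i • TTC.qz (1 / 2 ^ m))
  have h6 := congrArg (fun Q : VN a => (Q : JJ (ff a))) h5
  beta_reduce at h6
  rw [coe_smul_VN] at h6
  refine h6.symm.trans ?_
  congr 2
  funext i
  rw [TTC.mact_apply]
  simp [Pi.single_apply]

section TateKb

open Pool.Agent.TTC

/-- The coordinates of `M ⊗ N` for a finite basis of `M`. -/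
private noncomputable def TateK_eq {R M N κ : Type} [CommRing R] [AddCommGroup M] [AddCommGroup N]
    [Module R M] [Module R N] [Fintype κ] [DecidableEq κ] (B : Module.Basis κ R M) :
    (κ → N) ≃ₗ[R] M ⊗[R] N :=
  (Finsupp.linearEquivFunOnFinite R N κ).symm ≪≫ₗ (TensorProduct.equivFinsuppOfBasisLeft B).symm

private theorem TateK_eq_apply {R M N κ : Type} [CommRing R] [AddCommGroup M] [AddCommGroup N]
    [Module R M] [Module R N] [Fintype κ] [DecidableEq κ] (B : Module.Basis κ R M) (Q : κ → N) :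
    TateK_eq B Q = ∑ p, B p ⊗ₜ[R] Q p := by
  rw [TateK_eq, LinearEquiv.trans_apply, TensorProduct.equivFinsuppOfBasisLeft_symm_apply,
    Finsupp.sum_fintype _ _ (fun i => TensorProduct.tmul_zero _ _)]
  rfl

/-- The tensor product of maps given by matrices. -/
private theorem TateK_map {R ι : Type} [CommRing R] [Fintype ι] [DecidableEq ι]
    {M : ι → Type} [∀ i, AddCommGroup (M i)] [∀ i, Module R (M i)]
    (B : ∀ i, Module.Basis (Fin 2) R (M i)) (f : ∀ i, M i →ₗ[R] M i)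
    (A : ι → Matrix (Fin 2) (Fin 2) R) (hf : ∀ i j, f i (B i j) = ∑ l, A i l j • B i l)
    (p : ι → Fin 2) :
    PiTensorProduct.map f (Basis.piTensorProduct B p) =
      ∑ q, kron A q p • Basis.piTensorProduct B q := by
  rw [Basis.piTensorProduct_apply, PiTensorProduct.map_tprod]
  simp only [hf]
  rw [MultilinearMap.map_sum]
  refine Finset.sum_congr rfl fun q _ => ?_
  rw [MultilinearMap.map_smul_univ, Basis.piTensorProduct_apply, kron_apply]

private theorem TateK_quad (d : K) (s : Ω ≃ₐ[K] Ω) :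
    quadChar Ω d s = SmN.sgn (Pool.Agent.Lib.SmD.chi K d s) := by
  rw [quadChar, SmN.sgn, Pool.Agent.Lib.SmD.chi]
  by_cases h : ∀ r : Ω, r ^ 2 = algebraMap K Ω d → s r = r
  · rw [if_pos h, if_pos h, if_pos rfl]
  · rw [if_neg h, if_neg h, if_neg one_ne_zero]

end TateKb

theorem exists_phiK {n : ℕ} (W : Fin n → WeierstrassCurve K) {V : Fin n → Type}
    [∀ i, AddCommGroup (V i)] [∀ i, DistribMulAction (Ω ≃ₐ[K] Ω) (V i)]
    (R : ∀ i, Rep (Ω ≃ₐ[K] Ω) (V i))
    (hB : ∀ i, ∃ B : Module.Basis (Fin 2) ℤ_[2] (TTC.T2 Ω (W i)),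
      ∀ s j, TTC.actT2 Ω (W i) s (B j) = ∑ l, (R i).rho s l j • B l) (m : ℕ) :
    ∃ φ : VL (latT (cycK Ω K) (fun i => (R i).rho) m) ≃+ TTC.ModN Ω W,
      ∀ (d : K) (s : Ω ≃ₐ[K] Ω) (Q : VL (latT (cycK Ω K) (fun i => (R i).rho) m)),
        φ (rhoD _ d s Q) = TTC.actN Ω W m d s (φ Q) := by
  choose B hB using hB
  let φ : VL (latT (cycK Ω K) (fun i => (R i).rho) m) ≃+ TTC.ModN Ω W :=
    (TateK_eq (N := QZ) (Basis.piTensorProduct B)).toAddEquiv
  have hφ : ∀ Q : VL (latT (cycK Ω K) (fun i => (R i).rho) m),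
      φ Q = ∑ p, Basis.piTensorProduct B p ⊗ₜ[ℤ_[2]] Q p :=
    fun Q => TateK_eq_apply (Basis.piTensorProduct B) Q
  refine ⟨φ, fun d s Q => ?_⟩
  rw [rhoD_apply, map_zsmul]
  symm
  change TTC.quadChar Ω d s • ((((cycK Ω K s)⁻¹ ^ m : ℤ_[2]ˣ) : ℤ_[2]) •
    TensorProduct.map (PiTensorProduct.map fun i => TTC.actT2 Ω (W i) s)
      LinearMap.id (φ Q)) = _
  rw [TateK_quad]
  congr 1
  rw [hφ Q, hφ (s • Q), map_sum, Finset.smul_sum]
  have h1 : ∀ p, TensorProduct.map (PiTensorProduct.map fun i => TTC.actT2 Ω (W i) s)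
      LinearMap.id (Basis.piTensorProduct B p ⊗ₜ[ℤ_[2]] Q p) =
      ∑ q, Basis.piTensorProduct B q ⊗ₜ[ℤ_[2]] ((kron (fun i => (R i).rho s) q p) • Q p) := by
    intro p
    rw [TensorProduct.map_tmul, LinearMap.id_apply,
      TateK_map B (fun i => TTC.actT2 Ω (W i) s) (fun i => (R i).rho s)
        (fun i j => hB i s j) p, TensorProduct.sum_tmul]
    exact Finset.sum_congr rfl fun q _ => TensorProduct.smul_tmul _ _ _
  simp only [h1, Finset.smul_sum]
  rw [Finset.sum_comm]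
  refine Finset.sum_congr rfl fun q _ => ?_
  rw [TTC.smul_VL, TTC.mact_apply, TensorProduct.tmul_sum]
  refine Finset.sum_congr rfl fun p _ => ?_
  rw [← TensorProduct.tmul_smul, smul_smul, TTC.latT_rho, Matrix.smul_apply, smul_eq_mul]

end Pool.Agent.TTN
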