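import Pool.Agent.Lib.TTN.AsmG
import Pool.Agent.Lib.SmN.Fin.FinJ

/-!
# Project TTN (MP_950c68_ag), module TwG: the Selmer groups of the quadratic twists of a lattice

`k` is the exact field of constants of `K` in `tw_lat`.

SOURCES: `SmN/Fin/TwN.lean` (`tw_facts`), `SmN/Fin/Abs.lean` (`tw_abs`), `SmN/Fin/CorC.lean`,
`SmNJ/Cnt.lean`, `SmN/Fin/FinJ.lean` (`goodOn_ofC`, `locVals`). `zsel_lat`: the Selmer cocycles
`SmJ.L.ZSel` are defined by all decomposition groups `dec K w`, those of the abstract structure by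
`dvK Ω v` (conjugation: `conj_dvK`, `SmD.conj`). `hI` of `exists_aOkG`: `card I = 2 g ≥ 2`. `hfix`
in `tw_lat`: `Big.nofix`. (A version for any `k` with the field of constants of `K` is done
elsewhere: module FinN.)
-/

set_option autoImplicit false

open Pool.Agent.TTC (Lat VL QZ mact red2 hf2 iotaL eL cycK)
open Pool.Agent.BSDFF Pool.Agent.GBU Pool.Agent.Lib.SmD Pool.Agent.SmN Pool.Agent.SmN.Fnl
open Pool.Agent.BSDFF.MW

namespace Pool.Agent.TTN

section aux

private theorem twg_ess (k K : Type) [Field k] [Field K] [Algebra k K] [Algebra (RatFunc k) K]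
    [IsScalarTower k (RatFunc k) K] [FiniteDimensional (RatFunc k) K] :
    Algebra.EssFiniteType k K := by
  have h1 : Algebra.EssFiniteType k (RatFunc k) := by
    have h2 : Algebra.EssFiniteType (Polynomial k) (RatFunc k) :=
      Algebra.EssFiniteType.of_isLocalization (RatFunc k) (nonZeroDivisors (Polynomial k))
    exact Algebra.EssFiniteType.comp k (Polynomial k) (RatFunc k)
  exact Algebra.EssFiniteType.comp k (RatFunc k) K

private theorem twg_trdeg (k K : Type) [Field k] [Field K] [Algebra k K] [Algebra (RatFunc k) K]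
    [IsScalarTower k (RatFunc k) K] [FiniteDimensional (RatFunc k) K] :
    Algebra.trdeg k K = 1 := by
  have h1 : Algebra.trdeg k (RatFunc k) + Algebra.trdeg (RatFunc k) K = Algebra.trdeg k K :=
    _root_.trdeg_add_eq k (RatFunc k) (A := K)
  have h2 : Algebra.trdeg (RatFunc k) K = 0 := trdeg_eq_zero
  have h3 : Algebra.trdeg k (RatFunc k) = 1 := by
    have h4 : Algebra.trdeg k (Polynomial k) + Algebra.trdeg (Polynomial k) (RatFunc k) =
      Algebra.trdeg k (RatFunc k) := _root_.trdeg_add_eq k (Polynomial k) (A := RatFunc k)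
    rw [← h4]
    have h6 : Algebra.IsAlgebraic (Polynomial k) (RatFunc k) := by
      exact IsLocalization.isAlgebraic (RatFunc k) (nonZeroDivisors (Polynomial k))
    have h5 : Algebra.trdeg (Polynomial k) (RatFunc k) = 0 := trdeg_eq_zero
    rw [h5, add_zero]
    exact Polynomial.trdeg_of_isDomain
  rw [← h1, h2, h3, add_zero]

private theorem twg_conj' (k K Ω : Type) [Field k] [Finite k] [Field K] [Algebra k K]
    [Algebra.EssFiniteType k K] (h : Algebra.trdeg k K = 1) [Field Ω] [Algebra K Ω]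
    [IsSepClosure K Ω] (w : ValuationSubring Ω) (hw : w ≠ ⊤) :
    ∃ (v : Place k K) (σ : Ω ≃ₐ[K] Ω), ∀ s ∈ w.decompositionSubgroup K,
      σ * s * σ⁻¹ ∈ dvK Ω v := by
  obtain ⟨alg, i1, i2, i3⟩ := Pool.Agent.GBC.exists_ratFunc k K h
  exact conj_dvK w hw

end aux

section

variable {k K Ω : Type} [Field k] [Finite k] [Field K] [Algebra k K] [Algebra (RatFunc k) K]
  [IsScalarTower k (RatFunc k) K] [FiniteDimensional (RatFunc k) K]
  [Field Ω] [Algebra K Ω] [IsSepClosure K Ω]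
  {I : Type} [Fintype I] [DecidableEq I] {L : Lat (Ω ≃ₐ[K] Ω) I}

omit [IsSepClosure K Ω] in
private theorem twg_conj [IsSepClosure K Ω] (w : ValuationSubring Ω) (hw : w ≠ ⊤) :
    ∃ (v : Place k K) (σ : Ω ≃ₐ[K] Ω), ∀ s ∈ w.decompositionSubgroup K,
      σ * s * σ⁻¹ ∈ dvK Ω v := by
  have := twg_ess k K
  exact twg_conj' k K Ω (twg_trdeg k K) w hw

private theorem twg_two (h2 : (2 : k) ≠ 0) : (2 : K) ≠ 0 := by
  intro h
  apply h2
  apply (algebraMap k K).injective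
  rw [map_ofNat, h, map_zero]

private theorem twg_chi (h2 : (2 : k) ≠ 0) {d : K} (hd : d ≠ 0) (s t : Ω ≃ₐ[K] Ω) :
    chi K d (s * t) = chi K d s + chi K d t :=
  Pool.Agent.SmF.chi_mul (twg_two (k := k) h2) hd s t

private theorem twg_act (h2 : (2 : k) ≠ 0) (hL : LatG k L) {d : K} (hd : d ≠ 0) (j : ℕ) :
    ∃ N ∈ NP K Ω, ∀ s ∈ N, ∀ Q : VL L, (2 : ℕ) ^ j • Q = 0 → rhoD L d s Q = Q := by
  have h2K : (2 : K) ≠ 0 := twg_two (k := k) h2
  obtain ⟨N1, hN1, h1⟩ := act_finL hL j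
  obtain ⟨N2, hN2, h3⟩ := HomO.tf h2K (homO_chi (Om := Ω) h2K hd)
  refine ⟨N1 ⊓ N2, inf_mem_NP hN1 hN2, fun s hs Q hQ => ?_⟩
  have h4 : chi K d s = 0 := by
    have h5 := h3 1 s hs.2
    rw [one_mul] at h5
    rw [h5]
    exact SmN.chi_one (twg_chi (k := k) h2 hd)
  rw [rhoD_apply, h4, sgn, if_pos rfl, one_zsmul]
  exact h1 s hs.1 Q hQ

private theorem twg_mod (h2 : (2 : k) ≠ 0) (hL : LatG k L) {d : K} (hd : d ≠ 0) :
    SmJ.L.GMod (rhoD L d) := by
  have hmul : ∀ s t Q, rhoD L d (s * t) Q = rhoD L d s (rhoD L d t Q) := fun s t Q =>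
    SmN.tw_mul (twg_chi (k := k) h2 hd) s t Q
  refine ⟨fun Q => SmN.tw_one (twg_chi (k := k) h2 hd) Q, hmul, fun Q => ?_⟩
  obtain ⟨j, hj⟩ := tors_L L Q
  obtain ⟨N, hN, hN'⟩ := twg_act h2 hL hd j
  obtain ⟨F, hF, hFN⟩ := (krullTopology_mem_nhds_one_iff K Ω (N : Set (Ω ≃ₐ[K] Ω))).mp
    ((NP.isOpen hN).mem_nhds N.one_mem)
  refine ⟨F, hF, fun s t hst => ?_⟩
  have h1 : s⁻¹ * t ∈ N := by
    apply hFN
    rw [SetLike.mem_coe, IntermediateField.mem_fixingSubgroup_iff]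
    intro x hx
    rw [AlgEquiv.mul_apply, ← hst x hx, ← AlgEquiv.mul_apply, inv_mul_cancel,
      AlgEquiv.one_apply]
  have h3 := hN' _ h1 Q hj
  have h4 : rhoD L d t Q = rhoD L d s (rhoD L d (s⁻¹ * t) Q) := by
    rw [← hmul, mul_inv_cancel_left]
  rw [h4, h3]

private theorem twg_tors (i : ℕ) {g : ℕ} (hg : Fintype.card I = 2 * g) :
    Nat.card (Gn (VL L) (2 ^ i)) = 4 ^ (g * i) := by
  have h1 : Nat.card (Gn (VL L) (2 ^ i)) = Nat.card {Q : VL L // (2 : ℕ) ^ i • Q = 0} :=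
    Nat.card_congr ⟨fun Q => ⟨Q.1, mem_Gn.mp Q.2⟩, fun Q => ⟨Q.1, mem_Gn.mpr Q.2⟩,
      fun _ => rfl, fun _ => rfl⟩
  rw [h1, card_torsL, hg, ← pow_mul]
  have h4 : (4 : ℕ) = 2 ^ 2 := by norm_num
  rw [h4, ← pow_mul]
  congr 1
  ring

private theorem twg_rat {d : K} (hfix : ∀ w, (∀ s, acL L s w = w) → w = 0) (i : ℕ) :
    Nat.card (Gn (SmJ.L.Rat (rhoD L d)) (2 ^ i)) = 1 := by
  have key : ∀ (i : ℕ) (P : VL L), (∀ s, rhoD L d s P = P) → (2 : ℕ) ^ i • P = 0 → P = 0 := by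
    intro i
    induction i with
    | zero =>
      intro P _ h
      rwa [pow_zero, one_smul] at h
    | succ i ih =>
      intro P hP h
      have h1 : (2 : ℕ) • P = 0 := by
        refine ih _ (fun s => by rw [map_nsmul, hP]) ?_
        rw [← mul_smul, ← pow_succ]
        exact h
      obtain ⟨x, hx⟩ := iota_rangeL L P h1
      have h2 : x = 0 := by
        refine hfix x fun s => ?_
        apply iota_injL L
        rw [← iota_acL, hx]
        have h3 : rhoD L d s P = s • P := by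
          rw [rhoD_apply]
          rcases SmN.sgn_eq (chi K d s) with h4 | h4
          · rw [h4, one_zsmul]
          · rw [h4, neg_one_zsmul]
            have h5 : s • P + s • P = 0 := by
              rw [← smul_add, ← two_nsmul, h1, smul_zero]
            exact neg_eq_of_add_eq_zero_left h5
        rw [← h3]
        exact hP s
      rw [← hx, h2, map_zero]
  rw [Nat.card_eq_one_iff_unique]
  refine ⟨⟨fun x y => ?_⟩, ⟨0⟩⟩
  have h1 : ∀ x : Gn (SmJ.L.Rat (rhoD L d)) (2 ^ i), x = 0 := by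
    intro x
    have h3 : (2 : ℕ) ^ i • x.1 = 0 := mem_Gn.mp x.2
    exact Subtype.ext (Subtype.ext (key i x.1.1 x.1.2 (congrArg Subtype.val h3)))
  rw [h1 x, h1 y]

/-- The Selmer cocycles of the twist by `d` are those of the abstract structure. -/
theorem zsel_lat (h2 : (2 : k) ≠ 0) (hL : LatG k L) {d : K} (hd : d ≠ 0) (T0 : Set (Place k K))
    (j : ℕ) : Nonempty (SmJ.L.ZSel k (rhoD L d) (2 ^ j) ≃
      {Psi // ((sysG k L).shr T0).IsSel (chi K d) j Psi}) := by
  have hgal : IsGalois K Ω := IsSepClosure.isGalois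
  refine zsel_equivN (k := k) (ρ := fun s => DistribSMul.toAddMonoidHom (VL L) s)
    (twg_two (k := k) h2) (twg_mod h2 hL hd) (AddEquiv.refl (VL L)) (chi K d)
    (fun s Q => rfl) (AddMonoidHom.id (VL L)) (fun x y h => h) (fun Q _ => ⟨Q, rfl⟩)
    (fun s x => rfl) (fun j => twg_act h2 hL hd j) ((sysG k L).shr T0) rfl (fun v => ?_)
    (fun w hw _ => twg_conj w hw) ?_ j
  · exact ⟨abK Ω v, abK_ne_top Ω v, fun c => mem_of_finite
        ((algebraMap K Ω).comp (algebraMap k K)) _ c, rfl⟩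
  · intro w _ _ j Q _
    exact ⟨Q, tors_L L Q, fun s _ => rfl⟩

/-- The conclusions for the twist by `d`. -/
theorem good_lat (h2 : (2 : k) ≠ 0) (hL : LatG k L)
    (hfix : ∀ w, (∀ s, acL L s w = w) → w = 0) {d : K} (hd : d ≠ 0)
    {T0 : Set (Place k K)} {g j : ℕ} (hg : Fintype.card I = 2 * g) (hj : 1 ≤ j)
    (h : SmallS ((sysG k L).shr T0) j (chi K d)) : SmJ.L.GoodOn k (rhoD L d) j := by
  obtain ⟨e⟩ := zsel_lat h2 hL hd T0 j
  have hfin := h.1
  have hZ : Finite (SmJ.L.ZSel k (rhoD L d) (2 ^ j)) := Finite.of_equiv _ e.symm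
  refine SmNJ.goodOn_ofC (twg_mod h2 hL hd) (g := g) one_pos hj hZ ?_ (fun i => twg_tors i hg)
    (fun i _ => twg_rat hfix i) (SmNJ.E6.exists_pow_half (half_L L))
  rw [one_mul, Nat.card_congr e]
  refine h.2.trans_le (le_of_eq ?_)
  rw [Nat.card_fun, Nat.card_zmod, Nat.card_eq_fintype_card, hg]
  rw [pow_mul, show (2 : ℕ) ^ 2 = 4 by norm_num, ← pow_succ', ← pow_mul]

variable [Algebra.IsSeparable (RatFunc k) K]

/-- **The quadratic twists of a lattice**, `k` the exact field of constants. -/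
theorem tw_lat (h2 : (2 : k) ≠ 0)
    (hk : ∀ x : K, IsIntegral k x → ∃ c : k, algebraMap k K c = x) (hL : LatG k L)
    {g : ℕ} (hg : Fintype.card I = 2 * g) (hg1 : 1 ≤ g) {X : Type} [Fintype X]
    [MulAction (Ω ≃ₐ[K] Ω) X]
    {i : (I → ZMod 2) →ₗ[ZMod 2] (X → ZMod 2)} {p : (X → ZMod 2) →ₗ[ZMod 2] (I → ZMod 2)}
    (hP : PermL (acL L) (eL L) X i p) (hb : Big (acL L)) :
    (∀ N, (TwLE k N (fun _ : K => True)).Finite) ∧
    ∀ ε : ℝ, 0 < ε → ∃ j N₀ : ℕ, ∀ N ≥ N₀,
      ((TwLE k N (fun d : K => ¬ SmJ.L.GoodOn k (rhoD L d) j)).ncard : ℝ) ≤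
        ε * (TwLE k N (fun _ : K => True)).ncard := by
  have hI : 2 ≤ Fintype.card I := by omega
  have hV : 2 ≤ Module.finrank (ZMod 2) (I → ZMod 2) := by
    rwa [Module.finrank_fintype_fun_eq_card]
  obtain ⟨T0, T, fr, ca, cC, m0, hT, hAOk⟩ := exists_aOkG h2 hk hL hI hP hb
  have hne : Nonempty I := Fintype.card_pos_iff.1 (by omega)
  have hnt : Nontrivial (I → ZMod 2) := inferInstance
  refine tw_abs (twg_two (k := k) h2) rfl (locVals h2) hT hAOk _ fun m d hm1 hsm => ?_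
  exact good_lat h2 hL (hb.nofix hV) d.ne_zero hg hm1 hsm

end

end Pool.Agent.TTN
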