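import Pool.Agent.Lib.TTN.LatTG
import Pool.Agent.Lib.TTN.TwG
import Pool.Agent.Lib.TTN.TateK

/-!
# Project TTN (MP_950c68_ag), module FinN: the quadratic twists of the tensor product of an odd
number
of elliptic curves over a global function field

PROOF. `twT_core`: `Ω = SeparableClosure K`. `2 ≠ 0` in `k`. For every `i`: the cubic `X ^ 3 + A X
+ B` is monic and separable (its discriminant is `≠ 0`: `hdisc {i} 0`), `exists_rts` gives `a i`
with `ff (a i) = ` the cubic over `Ω`; `rtG_of`, `HypA` (see `twJ_core` in `SmN/Fin/FinJ.lean`).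
The sum of the roots is `0` (coefficient of `X ^ 2`). `R i` from `exists_repN`. `L = latT (cycK Ω
K) (fun i => (R i).rho) m`, `I = Fin n → Fin 2`, `Fintype.card I = 2 ^ n = 2 * 2 ^ (2 m)`, `g = 2
^ (2 m)`. `latG_T`, `red_T`, `tw_lat` (with the action `actX`) give the statement for `rhoD L d`;
`exists_basisK` and `exists_phiK` give `φ : VL L ≃+ ModN Ω W` with `φ (rhoD L d s Q) = actN Ω W m
d s (φ Q)`, and `goodOn_iso` (`SmN/Fin/Trans.lean`) transports `GoodOn`. (`shE A B` is `Short` and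
elliptic, its cubic is `X ^ 3 + C A * X + C B`; compare `cubW_twE`.)
`twists_T`: `tw_descend` to the field of constants `cst k K` and `goodOnJ_const`, exactly as
`twists_J` in `SmN/Fin/FinJ.lean`.
-/

set_option autoImplicit false

open Polynomial
open Pool.Agent.TTC (QZ mact red2 hf2 cycK latT kron J2 eL VL)
open Pool.Agent.SmNJ Pool.Agent.SmJ Pool.Agent.SmN.Fnl Pool.Agent.BSDFF Pool.Agent.BSDFF.MW

namespace Pool.Agent.TTN

/-- The elliptic curve `y ^ 2 = x ^ 3 + A x + B`. -/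
def shE {K : Type} [Field K] (A B : K) : WeierstrassCurve K := ⟨0, 0, 0, A, B⟩

section aux

variable {K : Type} [Field K]

private theorem fn_lt (A B : K) : (C A * X + C B : K[X]).degree < 3 := by
  refine lt_of_le_of_lt (degree_add_le _ _) (max_lt ?_ ?_)
  · exact lt_of_le_of_lt (degree_C_mul_X_le A) (by decide)
  · exact lt_of_le_of_lt degree_C_le (by decide)

private theorem fn_monic (A B : K) : (X ^ 3 + C A * X + C B : K[X]).Monic := by
  rw [add_assoc]
  exact monic_X_pow_add (fn_lt A B)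

private theorem fn_deg (A B : K) : (X ^ 3 + C A * X + C B : K[X]).natDegree = 3 := by
  rw [add_assoc]
  refine natDegree_eq_of_degree_eq_some ?_
  rw [degree_add_eq_left_of_degree_lt]
  · rw [degree_X_pow]
  · rw [degree_X_pow]
    exact fn_lt A B

private theorem fn_sep {A B : K} (h : -4 * A ^ 3 - 27 * B ^ 2 ≠ 0) :
    (X ^ 3 + C A * X + C B : K[X]).Separable := by
  rw [separable_def']
  have hder : derivative (X ^ 3 + C A * X + C B : K[X]) = C 3 * X ^ 2 + C A := by
    simp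
    rw [← C_1, ← C_add]
    norm_num
  rw [hder]
  refine ⟨C ((-4 * A ^ 3 - 27 * B ^ 2)⁻¹) * (C 3 * (C 6 * C A * X - C 9 * C B)),
    C ((-4 * A ^ 3 - 27 * B ^ 2)⁻¹) * (-(C 4 * C A ^ 2 + C 6 * C A * X ^ 2 - C 9 * C B * X)), ?_⟩
  have h1 : C ((-4 * A ^ 3 - 27 * B ^ 2)⁻¹) * C (-4 * A ^ 3 - 27 * B ^ 2) = (1 : K[X]) := by
    rw [← C_mul, inv_mul_cancel₀ h, C_1]
  rw [← h1]
  have h2 : (C (-4 * A ^ 3 - 27 * B ^ 2) : K[X]) = -(4 * C A ^ 3) - 27 * C B ^ 2 := by
    simp only [map_sub, map_mul, map_pow, map_neg, map_ofNat]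
    ring
  rw [h2]
  simp only [map_ofNat]
  ring

private theorem fn_short (A B : K) : Short (shE A B).toAffine := ⟨rfl, rfl⟩

private theorem fn_ell {A B : K} (h2 : (2 : K) ≠ 0) (h : -4 * A ^ 3 - 27 * B ^ 2 ≠ 0) :
    (shE A B).IsElliptic := by
  refine ⟨?_⟩
  have h1 : (shE A B).Δ = 2 ^ 4 * (-4 * A ^ 3 - 27 * B ^ 2) := by
    simp only [WeierstrassCurve.Δ, WeierstrassCurve.b₂, WeierstrassCurve.b₄, WeierstrassCurve.b₆,
      WeierstrassCurve.b₈, shE]
    ring
  rw [h1]
  exact (mul_ne_zero (pow_ne_zero 4 h2) h).isUnit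

private theorem fn_cub (A B : K) : cubW (shE A B).toAffine = X ^ 3 + C A * X + C B := by
  change (X ^ 3 + C (0 : K) * X ^ 2 + C A * X + C B : K[X]) = _
  rw [C_0, zero_mul, add_zero]

private theorem fn_sum {Ω : Type} [Field Ω] [Algebra K Ω] {A B : K} {a : Fin (2 * 1 + 1) → Ω}
    (ha : SmJ.ff a = (X ^ 3 + C A * X + C B : K[X]).map (algebraMap K Ω)) :
    a 0 + a 1 + a 2 = 0 := by
  have h1 : SmJ.ff a = (X - C (a 0)) * (X - C (a 1)) * (X - C (a 2)) := by
    rw [SmJ.ff, Fin.prod_univ_three]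
  have h2 : (X - C (a 0)) * (X - C (a 1)) * (X - C (a 2)) =
      (X ^ 3 - C (a 0 + a 1 + a 2) * X ^ 2 + C (a 0 * a 1 + a 0 * a 2 + a 1 * a 2) * X -
        C (a 0 * a 1 * a 2) : Polynomial Ω) := by
    simp only [map_add, map_mul]
    ring
  rw [h1, h2] at ha
  have h3 := congrArg (fun p : Polynomial Ω => p.coeff 2) ha
  simp at h3
  rw [← C_add, ← C_add, coeff_C_mul, coeff_X_pow, if_pos rfl, mul_one] at h3
  exact h3

end aux

section core

variable {k K : Type} [Field k] [Finite k] [Field K] [Algebra k K] [Algebra (RatFunc k) K]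
  [IsScalarTower k (RatFunc k) K] [FiniteDimensional (RatFunc k) K]
  [Algebra.IsSeparable (RatFunc k) K]

/-- `k` the exact field of constants. -/
theorem twT_core (h6 : (6 : k) ≠ 0)
    (hk : ∀ x : K, IsIntegral k x → ∃ c : k, algebraMap k K c = x) {n m : ℕ} (hn : n = 2 * m + 1)
    {A B : Fin n → K} (hroot : ∀ i x, x ^ 3 + A i * x + B i ≠ 0)
    (hdisc : ∀ J : Finset (Fin n), J.Nonempty → ∀ s : K,
      ∏ i ∈ J, (-4 * A i ^ 3 - 27 * B i ^ 2) ≠ s ^ 2) :
    (∀ N, (TwLE k N (fun _ : K => True)).Finite) ∧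
    ∀ ε : ℝ, 0 < ε → ∃ j N₀ : ℕ, ∀ N ≥ N₀,
      ((TwLE k N (fun d : K => ¬ SmJ.L.GoodOn k
        (TTC.actN (SeparableClosure K) (fun i => shE (A i) (B i)) m d) j)).ncard : ℝ) ≤
        ε * (TwLE k N (fun _ : K => True)).ncard := by
  classical
  have h2 : (2 : k) ≠ 0 := by
    intro h
    apply h6
    rw [show (6 : k) = 2 * 3 by norm_num, h, zero_mul]
  have h2K : (2 : K) ≠ 0 := by
    intro h
    apply h2
    apply (algebraMap k K).injective
    rw [map_ofNat, h, map_zero]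
  have hgal : IsGalois K (SeparableClosure K) := IsSepClosure.isGalois
  have hΔ : ∀ i, -4 * A i ^ 3 - 27 * B i ^ 2 ≠ 0 := by
    intro i h
    refine hdisc {i} (Finset.singleton_nonempty i) 0 ?_
    rw [Finset.prod_singleton, h]
    ring
  have hsep : ∀ i, (X ^ 3 + C (A i) * X + C (B i) : K[X]).Separable := fun i => fn_sep (hΔ i)
  have hex : ∀ i, ∃ a : Fin (2 * 1 + 1) → SeparableClosure K, Function.Injective a ∧
      SmJ.ff a = (X ^ 3 + C (A i) * X + C (B i) : K[X]).map (algebraMap K (SeparableClosure K)) :=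
    fun i => exists_rts ((fn_monic (A i) (B i)).map _) ((hsep i).map)
      (IsSepClosed.splits_codomain _ (hsep i)) (by rw [natDegree_map, fn_deg])
  choose a hinj ha using hex
  have hR : ∀ i, RtG K (a i) := fun i => rtG_of h2K (hinj i) (ha i)
  have hA : ∀ i, HypA (a i) := fun i => ⟨hinj i, (hR i).two⟩
  have hsum : ∀ i, a i 0 + a i 1 + a i 2 = 0 := fun i => fn_sum (ha i)
  have hrep : ∀ i, Nonempty (Rep (SeparableClosure K ≃ₐ[K] SeparableClosure K) (VN (a i))) :=
    fun i => exists_repN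
  obtain ⟨R⟩ : Nonempty (∀ i, Rep (SeparableClosure K ≃ₐ[K] SeparableClosure K) (VN (a i))) :=
    ⟨fun i => (hrep i).some⟩
  have hm : Fintype.card (Fin n) = 2 * m + 1 := by rw [Fintype.card_fin, hn]
  have hL := latG_T (k := k) h6 hsum R hm
  obtain ⟨hP, hB⟩ := red_T ha hroot hdisc R hm
  have hcard : Fintype.card (Fin n → Fin 2) = 2 * 2 ^ (2 * m) := by
    rw [Fintype.card_fun, Fintype.card_fin, Fintype.card_fin, hn, pow_succ, mul_comm]
  have key := @tw_lat k K (SeparableClosure K) _ _ _ _ _ _ _ _ _ _ _ _ _ _ _ h2 hk hL _ hcard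
    Nat.one_le_two_pow (XT (Fin n)) _ (actX fun i => (R i).red) _ _ hP hB
  have hsh : ∀ i, Short (shE (A i) (B i)).toAffine := fun i => fn_short _ _
  have hel : ∀ i, (shE (A i) (B i)).IsElliptic := fun i => fn_ell h2K (hΔ i)
  obtain ⟨φ, hφ⟩ := exists_phiK (fun i => shE (A i) (B i)) R
    (fun i => exists_basisK (shE (A i) (B i)) (by rw [fn_cub]; exact ha i) (R i)) m
  have hiff : ∀ (d : K) (j : ℕ), SmJ.L.GoodOn k
      (TTC.actN (SeparableClosure K) (fun i => shE (A i) (B i)) m d) j ↔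
      SmJ.L.GoodOn k (rhoD (latT (cycK (SeparableClosure K) K) (fun i => (R i).rho) m) d) j :=
    fun d j => ⟨fun h => goodOn_iso φ.symm (fun s x => he_symm φ (hφ d) s x) h,
      fun h => goodOn_iso φ (hφ d) h⟩
  simp only [hiff]
  exact key

end core

section main

variable (k K : Type) [Field k] [Finite k] [Field K] [Algebra k K] [Algebra.EssFiniteType k K]

theorem twists_T (hK : Algebra.trdeg k K = 1) (h6 : (6 : k) ≠ 0) {n m : ℕ} (hn : n = 2 * m + 1)
    {A B : Fin n → K} (hroot : ∀ i x, x ^ 3 + A i * x + B i ≠ 0)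
    (hdisc : ∀ J : Finset (Fin n), J.Nonempty → ∀ s : K,
      ∏ i ∈ J, (-4 * A i ^ 3 - 27 * B i ^ 2) ≠ s ^ 2) :
    (∀ N, (TwLE k N (fun _ : K => True)).Finite) ∧
    ∀ ε : ℝ, 0 < ε → ∃ j N₀ : ℕ, ∀ N ≥ N₀,
      ((TwLE k N (fun d : K => ¬ SmJ.L.GoodOn k
        (TTC.actN (SeparableClosure K) (fun i => shE (A i) (B i)) m d) j)).ncard : ℝ) ≤
        ε * (TwLE k N (fun _ : K => True)).ncard := by
  have hfin : Finite (cst k K) := finite_cst k K hK
  have htr : Algebra.trdeg (cst k K) K = 1 := trdeg_cst k K hK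
  have hess : Algebra.EssFiniteType (cst k K) K := essFinite_cst k K
  have hpf : PerfectField (cst k K) := inferInstance
  obtain ⟨alg, i1, i2, i3⟩ := Pool.Agent.GBC.exists_ratFunc (cst k K) K htr
  have h6' : (6 : cst k K) ≠ 0 := by
    intro h
    apply h6
    apply (algebraMap k (cst k K)).injective
    rw [map_ofNat, h, map_zero]
  refine tw_descend (k' := cst k K)
    (Bad' := fun j d => ¬ SmJ.L.GoodOn (cst k K)
      (TTC.actN (SeparableClosure K) (fun i => shE (A i) (B i)) m d) j) (fun j d h h' => h ?_)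
    (twT_core h6' (fun x hx => const_cst k K x (SmBU.isIntegral_iff_isC.1 hx)) hn hroot hdisc)
  exact goodOnJ_const (cst k K) k _ _ h'

end main

end Pool.Agent.TTN
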