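import Pool.Agent.Lib.SM.E.Inert
import Pool.Agent.Lib.SmD.ValIner

/-!
# Project TTN (MP_950c68_ag), module Halve: multiplicative reduction, the inertia group moves a
point

PROOF. Put `λ = e₁ - e₂ ≠ 0`, write `|x| = w.valuation x`. Suppose that `iner K w` fixes all
points of `VV Ω e₁ e₂ e₃`.
(1) CLAIM: for every `n ≥ 1` there is a point `(x, y)` in `VV` with `a = x - e₁`, `b = x - e₂`, `c
= x - e₃`: `|a| ^ (2 ^ n) = |λ|`, `|b| = |a|`, `|c| = 1` (and then `|a| < 1`, `a ≠ 0`).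
HALVING: for a point `(x, y)` choose `r₁, r₂, r₃ ∈ Ω` with `rᵢ ^ 2 = x - eᵢ` (separably closed, `2
≠ 0`). For every choice of the signs `x' = x + r₁ r₂ + r₁ r₃ + r₂ r₃`, `y' = (r₁ + r₂) (r₁ + r₃)
(r₂ + r₃)` is a point with `2 (x', y') = (x, ∓ r₁ r₂ r₃) = ± (x, y)`, so it is again in `VV` (see
`exists_half` in `SM/E/Half.lean` for the computation), and `x' - e₁ = (r₁ + r₂)(r₁ + r₃)`, `x' -
e₂ = (r₁ + r₂)(r₂ + r₃)`, `x' - e₃ = (r₁ + r₃)(r₂ + r₃)`.
`n = 1`: halve the point `(e₁, 0)`: `r₁ = 0`, `r₂ ^ 2 = λ`, `r₃ ^ 2 = e₁ - e₃`, `|r₃| = 1`: `x' -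
e₁ = r₂ r₃`, `x' - e₂ = r₂ (r₂ + r₃)`, `x' - e₃ = r₃ (r₂ + r₃)`, and `|r₂ + r₃| = 1` as `|r₂| <
1`.
`n → n + 1`: `|r₁| = |r₂| = |a|^(1/2)` (that is `|r₁| ^ 2 = |a|`), `|r₃| = 1`; `r₁ ^ 2 - r₂ ^ 2 =
- λ` ; `|2 r₁| = |r₁|` (`h.two`) is at most the maximum of `|r₁ + r₂|`, `|r₁ - r₂|`, both are at
most `|r₁|`: so one of them is equal to `|r₁|`; change the sign of `r₂` so that `|r₁ + r₂| =
|r₁|`. Then `x' - e₁ = (r₁ + r₂)(r₁ + r₃)` has absolute value `|r₁|` (`|r₁ + r₃| = 1` since `|r₁|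
< 1`), `x' - e₂` too, and `|x' - e₃| = 1`.
(2) By assumption `x` is fixed by `iner K w`, so `|a| = |π| ^ m` for some `m ∈ ℤ` (`value_iner`),
and `|λ| = |π| ^ M` (`h.disc`), `M > 0` since `|λ| < 1`, `|π| < 1`. So `M = m 2 ^ n` for every `n`
(with `m` depending on `n`), impossible for `2 ^ n > M`. (`|π| ^ i = |π| ^ j` implies `i = j`, as
`0 < |π| < 1`.)
The action on a point: `s • (x, y) = (s x, s y)`.
-/

set_option autoImplicit false

open Pool.Agent.SmithE Pool.Agent.Lib.SmD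

namespace Pool.Agent.TTN

private theorem hal_half {F : Type} [Field F] [DecidableEq F] (h2 : (2 : F) ≠ 0) {f₁ f₂ f₃ : F}
    (h12 : f₁ ≠ f₂) (h13 : f₁ ≠ f₃) (h23 : f₂ ≠ f₃) (W : WeierstrassCurve.Affine F)
    (hW : W = crv f₁ f₂ f₃) {x y r₁ r₂ r₃ : F} (h : W.Nonsingular x y)
    (hr1 : x - f₁ = r₁ ^ 2) (hr2 : x - f₂ = r₂ ^ 2) (hr3 : x - f₃ = r₃ ^ 2)
    (hy : y = r₁ * r₂ * r₃) :
    ∃ h' : W.Nonsingular (x + r₁ * r₂ + r₁ * r₃ + r₂ * r₃)
        ((r₁ + r₂) * (r₁ + r₃) * (r₂ + r₃)),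
      WeierstrassCurve.Affine.Point.some _ _ h' + WeierstrassCurve.Affine.Point.some _ _ h' =
        WeierstrassCurve.Affine.Point.some x y h := by
  subst hW
  have n12 : r₁ + r₂ ≠ 0 := by
    intro h0
    apply h12
    have : r₁ = -r₂ := by linear_combination h0
    rw [this] at hr1
    linear_combination -hr1 + hr2
  have n13 : r₁ + r₃ ≠ 0 := by
    intro h0
    apply h13
    have : r₁ = -r₃ := by linear_combination h0
    rw [this] at hr1
    linear_combination -hr1 + hr3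
  have n23 : r₂ + r₃ ≠ 0 := by
    intro h0
    apply h23
    have : r₂ = -r₃ := by linear_combination h0
    rw [this] at hr2
    linear_combination -hr2 + hr3
  set X := x + r₁ * r₂ + r₁ * r₃ + r₂ * r₃ with hX
  set Y := (r₁ + r₂) * (r₁ + r₃) * (r₂ + r₃) with hY
  have hY0 : Y ≠ 0 := mul_ne_zero (mul_ne_zero n12 n13) n23
  have hX1 : X - f₁ = (r₁ + r₂) * (r₁ + r₃) := by rw [hX]; linear_combination hr1
  have hX2 : X - f₂ = (r₁ + r₂) * (r₂ + r₃) := by rw [hX]; linear_combination hr2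
  have hX3 : X - f₃ = (r₁ + r₃) * (r₂ + r₃) := by rw [hX]; linear_combination hr3
  have hEQ : (crv f₁ f₂ f₃).toAffine.Equation X Y := by
    rw [equation_crv, hX1, hX2, hX3, hY]
    ring
  have hYneg : Y ≠ (crv f₁ f₂ f₃).toAffine.negY X Y := by
    rw [negY_crv]
    intro h5
    have h6 : 2 * Y = 0 := by linear_combination h5
    exact hY0 ((mul_eq_zero.mp h6).resolve_left h2)
  have hNS : (crv f₁ f₂ f₃).toAffine.Nonsingular X Y := by
    rw [WeierstrassCurve.Affine.nonsingular_iff]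
    exact ⟨hEQ, Or.inr hYneg⟩
  have hsl : (crv f₁ f₂ f₃).toAffine.slope X X Y Y = r₁ + r₂ + r₃ := by
    rw [WeierstrassCurve.Affine.slope_of_Y_ne rfl hYneg, negY_crv, crv_a₁, crv_a₂, crv_a₄]
    have h5 : (Y - -Y) = 2 * Y := by ring
    rw [h5, div_eq_iff (mul_ne_zero h2 hY0)]
    have h6 : (X - f₁) * (X - f₂) + (X - f₁) * (X - f₃) + (X - f₂) * (X - f₃) =
        2 * (r₁ + r₂ + r₃) * Y := by
      rw [hX1, hX2, hX3, hY]; ring
    linear_combination h6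
  have hx2 : (crv f₁ f₂ f₃).toAffine.addX X X (r₁ + r₂ + r₃) = x := by
    rw [WeierstrassCurve.Affine.addX, crv_a₁, crv_a₂, hX]
    linear_combination -hr1 - hr2 - hr3
  have hy2 : (crv f₁ f₂ f₃).toAffine.addY X X Y (r₁ + r₂ + r₃) = y := by
    rw [WeierstrassCurve.Affine.addY, WeierstrassCurve.Affine.negAddY, hx2, negY_crv, hy, hX, hY]
    ring
  refine ⟨hNS, ?_⟩
  rw [WeierstrassCurve.Affine.Point.add_self_of_Y_ne hYneg]
  rw [WeierstrassCurve.Affine.Point.some.injEq]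
  rw [hsl]
  exact ⟨hx2, hy2⟩

private theorem hal_pm {F : Type} [Field F] [DecidableEq F] (h2 : (2 : F) ≠ 0) {f₁ f₂ f₃ : F}
    (h12 : f₁ ≠ f₂) (h13 : f₁ ≠ f₃) (h23 : f₂ ≠ f₃) (W : WeierstrassCurve.Affine F)
    (hW : W = crv f₁ f₂ f₃) {x y r₁ r₂ r₃ : F} (h : W.Nonsingular x y)
    (hr1 : x - f₁ = r₁ ^ 2) (hr2 : x - f₂ = r₂ ^ 2) (hr3 : x - f₃ = r₃ ^ 2) :
    ∃ (Y : F) (h' : W.Nonsingular (x + r₁ * r₂ + r₁ * r₃ + r₂ * r₃) Y),
      WeierstrassCurve.Affine.Point.some _ _ h' + WeierstrassCurve.Affine.Point.some _ _ h' =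
        WeierstrassCurve.Affine.Point.some x y h ∨
      WeierstrassCurve.Affine.Point.some _ _ h' + WeierstrassCurve.Affine.Point.some _ _ h' =
        -WeierstrassCurve.Affine.Point.some x y h := by
  have hy : y = r₁ * r₂ * r₃ ∨ y = -(r₁ * r₂ * r₃) := by
    have hE : y ^ 2 = (x - f₁) * (x - f₂) * (x - f₃) := by
      have := h.1
      rw [hW] at this
      exact equation_crv.mp this
    apply sq_eq_sq_iff_eq_or_eq_neg.mp
    rw [hE, hr1, hr2, hr3]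
    ring
  rcases hy with hy | hy
  · obtain ⟨h', e⟩ := hal_half h2 h12 h13 h23 W hW h hr1 hr2 hr3 hy
    exact ⟨_, h', Or.inl e⟩
  · have hn : W.negY x y = r₁ * r₂ * r₃ := by
      rw [hW]
      change (crv f₁ f₂ f₃).toAffine.negY x y = _
      rw [negY_crv, hy, neg_neg]
    have hns : W.Nonsingular x (W.negY x y) := (WeierstrassCurve.Affine.nonsingular_neg ..).mpr h
    obtain ⟨h', e⟩ := hal_half h2 h12 h13 h23 W hW hns hr1 hr2 hr3 hn
    refine ⟨_, h', Or.inr ?_⟩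
    rw [e, WeierstrassCurve.Affine.Point.neg_some]

variable {K Ω : Type} [Field K] [Field Ω] [Algebra K Ω] [IsGalois K Ω] [IsSepClosed Ω]
  [DecidableEq Ω] {w : ValuationSubring Ω} {π e₁ e₂ e₃ : K}

omit [IsGalois K Ω] [IsSepClosed Ω] in
private theorem hal_VV (h2 : (2 : K) ≠ 0) (h12 : e₁ ≠ e₂) (h13 : e₁ ≠ e₃) (h23 : e₂ ≠ e₃)
    {x y r₁ r₂ r₃ : Ω}
    (h : (WeierstrassCurve.Affine.baseChange (crv e₁ e₂ e₃) Ω).Nonsingular x y)
    (hV : (WeierstrassCurve.Affine.Point.some x y h : Pt Ω e₁ e₂ e₃) ∈ VV Ω e₁ e₂ e₃)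
    (hr1 : x - algebraMap K Ω e₁ = r₁ ^ 2) (hr2 : x - algebraMap K Ω e₂ = r₂ ^ 2)
    (hr3 : x - algebraMap K Ω e₃ = r₃ ^ 2) :
    ∃ (X Y : Ω) (h' : (WeierstrassCurve.Affine.baseChange (crv e₁ e₂ e₃) Ω).Nonsingular X Y),
      (WeierstrassCurve.Affine.Point.some X Y h' : Pt Ω e₁ e₂ e₃) ∈ VV Ω e₁ e₂ e₃ ∧
      X - algebraMap K Ω e₁ = (r₁ + r₂) * (r₁ + r₃) ∧
      X - algebraMap K Ω e₂ = (r₁ + r₂) * (r₂ + r₃) ∧
      X - algebraMap K Ω e₃ = (r₁ + r₃) * (r₂ + r₃) := by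
  obtain ⟨Y, h', e⟩ := hal_pm (two_ne_zero_of_algebraMap h2)
    (fun h => h12 ((algebraMap K Ω).injective h)) (fun h => h13 ((algebraMap K Ω).injective h))
    (fun h => h23 ((algebraMap K Ω).injective h)) _ baseChange_crv h hr1 hr2 hr3
  refine ⟨_, Y, h', ?_, by linear_combination hr1, by linear_combination hr2,
    by linear_combination hr3⟩
  obtain ⟨n, hn⟩ := hV
  refine ⟨n + 1, ?_⟩
  rw [pow_succ, mul_smul, two_smul]
  rcases e with e | e
  · rw [e, hn]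
  · rw [e, smul_neg, hn, neg_zero]

private theorem hal_sq (h2 : (2 : Ω) ≠ 0) (a : Ω) : ∃ r : Ω, a = r ^ 2 := by
  have : NeZero (2 : Ω) := ⟨h2⟩
  obtain ⟨r, hr⟩ := IsSepClosed.exists_eq_mul_self a
  exact ⟨r, by rw [hr, pow_two]⟩

private theorem hal_one {a b : Ω} (ha : w.valuation a < 1) (hb : w.valuation b = 1) :
    w.valuation (a + b) = 1 := by
  rw [Valuation.map_add_eq_of_lt_right _ (by rw [hb]; exact ha), hb]

private theorem hal_chain (h : LocHyp K w π) (h12 : e₁ ≠ e₂)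
    (v12 : w.valuation (algebraMap K Ω (e₁ - e₂)) < 1)
    (v13 : w.valuation (algebraMap K Ω (e₁ - e₃)) = 1)
    (v23 : w.valuation (algebraMap K Ω (e₂ - e₃)) = 1) (n : ℕ) :
    ∃ (x y : Ω) (h' : (WeierstrassCurve.Affine.baseChange (crv e₁ e₂ e₃) Ω).Nonsingular x y),
      (WeierstrassCurve.Affine.Point.some x y h' : Pt Ω e₁ e₂ e₃) ∈ VV Ω e₁ e₂ e₃ ∧
      w.valuation (x - algebraMap K Ω e₁) ^ (2 ^ (n + 1)) =
        w.valuation (algebraMap K Ω (e₁ - e₂)) ∧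
      w.valuation (x - algebraMap K Ω e₂) = w.valuation (x - algebraMap K Ω e₁) ∧
      w.valuation (x - algebraMap K Ω e₃) = 1 := by
  have h2 : (2 : Ω) ≠ 0 := h.two_ne
  have h2K : (2 : K) ≠ 0 := by
    intro h0
    apply h2
    have h5 := congrArg (algebraMap K Ω) h0
    rwa [map_ofNat, map_zero] at h5
  have h13 : e₁ ≠ e₃ := by
    rintro rfl
    rw [sub_self, map_zero, map_zero] at v13
    exact zero_ne_one v13
  have h23 : e₂ ≠ e₃ := by
    rintro rfl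
    rw [sub_self, map_zero, map_zero] at v23
    exact zero_ne_one v23
  have sq1 : ∀ {z : Ω}, w.valuation (z ^ 2) = 1 → w.valuation z = 1 := by
    intro z hz
    rw [map_pow] at hz
    exact (pow_eq_one_iff_of_nonneg (zero_le) two_ne_zero).mp hz
  induction n with
  | zero =>
    obtain ⟨r₂, hr₂⟩ := hal_sq h2 (algebraMap K Ω e₁ - algebraMap K Ω e₂)
    obtain ⟨r₃, hr₃⟩ := hal_sq h2 (algebraMap K Ω e₁ - algebraMap K Ω e₃)
    have hV : (WeierstrassCurve.Affine.Point.some _ _ (nonsingular_bc1 (Ω := Ω) h12 h13) :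
        Pt Ω e₁ e₂ e₃) ∈ VV Ω e₁ e₂ e₃ := (T1 h2K h12 h13 h23 Ω).2
    obtain ⟨X, Y, h', hm, q1, q2, q3⟩ := hal_VV h2K h12 h13 h23 (r₁ := 0) (r₂ := r₂) (r₃ := r₃)
      (nonsingular_bc1 (Ω := Ω) h12 h13) hV (by ring) hr₂ hr₃
    have w3 : w.valuation r₃ = 1 := by
      apply sq1
      rw [← hr₃, ← map_sub, v13]
    have w2 : w.valuation r₂ ^ 2 = w.valuation (algebraMap K Ω (e₁ - e₂)) := by
      rw [← map_pow, ← hr₂, ← map_sub]
    have w2' : w.valuation r₂ < 1 := by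
      by_contra hc
      rw [not_lt] at hc
      have := one_le_pow₀ hc (n := 2)
      rw [w2] at this
      exact absurd v12 (not_lt.mpr this)
    have w23 : w.valuation (r₂ + r₃) = 1 := hal_one w2' w3
    refine ⟨X, Y, h', hm, ?_, ?_, ?_⟩
    · rw [q1, zero_add, zero_add, map_mul, w3, mul_one, zero_add, pow_one, w2]
    · rw [q1, q2, zero_add, zero_add, map_mul, map_mul, w3, w23]
    · rw [q3, zero_add, map_mul, w3, w23, mul_one]
  | succ n ih =>
    obtain ⟨x, y, hn, hV, c1, c2, c3⟩ := ih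
    obtain ⟨r₁, hr₁⟩ := hal_sq h2 (x - algebraMap K Ω e₁)
    obtain ⟨s₂, hs₂⟩ := hal_sq h2 (x - algebraMap K Ω e₂)
    obtain ⟨r₃, hr₃⟩ := hal_sq h2 (x - algebraMap K Ω e₃)
    have w3 : w.valuation r₃ = 1 := by
      apply sq1
      rw [← hr₃, c3]
    have w1 : w.valuation r₁ ^ 2 = w.valuation (x - algebraMap K Ω e₁) := by
      rw [hr₁, map_pow]
    have ws2 : w.valuation s₂ = w.valuation r₁ := by
      have h5 : w.valuation s₂ ^ 2 = w.valuation r₁ ^ 2 := by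
        rw [← map_pow, ← hs₂, c2, w1]
      rcases lt_trichotomy (w.valuation s₂) (w.valuation r₁) with h6 | h6 | h6
      · exact absurd h5 (pow_lt_pow_left₀ h6 zero_le two_ne_zero).ne
      · exact h6
      · exact absurd h5 (pow_lt_pow_left₀ h6 zero_le two_ne_zero).ne'
    have w1' : w.valuation r₁ < 1 := by
      by_contra hc
      rw [not_lt] at hc
      have h5 := one_le_pow₀ hc (n := 2)
      rw [w1] at h5
      have h6 := one_le_pow₀ h5 (n := 2 ^ (n + 1))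
      rw [c1] at h6
      exact absurd v12 (not_lt.mpr h6)
    obtain ⟨r₂, hr₂, wr₂, w12⟩ : ∃ r₂ : Ω, x - algebraMap K Ω e₂ = r₂ ^ 2 ∧
        w.valuation r₂ = w.valuation r₁ ∧ w.valuation (r₁ + r₂) = w.valuation r₁ := by
      have hle : ∀ {s : Ω}, w.valuation s = w.valuation r₁ →
          w.valuation (r₁ + s) ≤ w.valuation r₁ := by
        intro s hs
        refine (w.valuation.map_add _ _).trans (max_le le_rfl hs.le)
      have hm : w.valuation (-s₂) = w.valuation r₁ := by rw [Valuation.map_neg, ws2]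
      have h5 : w.valuation r₁ ≤ max (w.valuation (r₁ + s₂)) (w.valuation (r₁ + -s₂)) := by
        have h6 : w.valuation r₁ = w.valuation ((r₁ + s₂) + (r₁ + -s₂)) := by
          have h7 : (r₁ + s₂) + (r₁ + -s₂) = 2 * r₁ := by ring
          rw [h7, map_mul, h.two, one_mul]
        exact h6.le.trans (w.valuation.map_add _ _)
      rcases le_max_iff.mp h5 with h6 | h6
      · exact ⟨s₂, hs₂, ws2, le_antisymm (hle ws2) h6⟩
      · exact ⟨-s₂, by rw [hs₂]; ring, hm, le_antisymm (hle hm) h6⟩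
    obtain ⟨X, Y, h', hm, q1, q2, q3⟩ := hal_VV h2K h12 h13 h23 hn hV hr₁ hr₂ hr₃
    have w13 : w.valuation (r₁ + r₃) = 1 := hal_one w1' w3
    have w23 : w.valuation (r₂ + r₃) = 1 := hal_one (by rw [wr₂]; exact w1') w3
    refine ⟨X, Y, h', hm, ?_, ?_, ?_⟩
    · rw [q1, map_mul, w12, w13, mul_one, pow_succ 2 (n + 1), mul_comm (2 ^ (n + 1)) 2, pow_mul, w1,
        c1]
    · rw [q1, q2, map_mul, map_mul, w13, w23]
    · rw [q3, map_mul, w13, w23, mul_one]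

theorem mult_moves (h : LocHyp K w π) (h12 : e₁ ≠ e₂)
    (v12 : w.valuation (algebraMap K Ω (e₁ - e₂)) < 1)
    (v13 : w.valuation (algebraMap K Ω (e₁ - e₃)) = 1)
    (v23 : w.valuation (algebraMap K Ω (e₂ - e₃)) = 1) :
    ∃ s ∈ iner K w, ∃ Q : VV Ω e₁ e₂ e₃, s • Q ≠ Q := by
  by_contra hc
  push Not at hc
  obtain ⟨M, hM⟩ := h.disc (e₁ - e₂) (sub_ne_zero.mpr h12)
  have hM0 : M ≠ 0 := by
    rintro rfl
    rw [zpow_zero] at hM
    exact absurd v12 (by rw [hM]; exact lt_irrefl _)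
  obtain ⟨x, y, hn, hV, c1, -, -⟩ := hal_chain h h12 v12 v13 v23 M.natAbs
  have hx : ∀ σ ∈ iner K w, σ x = x := by
    intro σ hσ
    have h5 := hc σ hσ ⟨_, hV⟩
    have h6 := congrArg Subtype.val h5
    rw [coe_smul_VV] at h6
    exact ((smul_some_eq_iff σ hn).mp h6).1
  have ha0 : x - algebraMap K Ω e₁ ≠ 0 := by
    intro h0
    rw [h0, map_zero, zero_pow (by positivity)] at c1
    have h5 := (Valuation.zero_iff _).mp c1.symm
    rw [map_eq_zero_iff _ (algebraMap K Ω).injective] at h5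
    exact sub_ne_zero.mpr h12 h5
  obtain ⟨m, hm⟩ := value_iner h ha0 (by
    intro σ hσ
    rw [map_sub, hx σ hσ, AlgEquiv.commutes])
  rw [hm, hM, ← zpow_natCast, ← zpow_mul] at c1
  have h7 := h.zpow_inj c1
  have h8 : (2 : ℤ) ^ (M.natAbs + 1) ∣ M := ⟨m, by
    conv_lhs => rw [← h7]
    push_cast
    ring⟩
  have h9 : (2 ^ (M.natAbs + 1) : ℕ) ∣ M.natAbs := by
    have := Int.natAbs_dvd_natAbs.mpr h8
    rwa [Int.natAbs_pow] at this
  have h10 := Nat.le_of_dvd (Int.natAbs_pos.mpr hM0) h9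
  have h11 : M.natAbs < 2 ^ (M.natAbs + 1) :=
    lt_of_lt_of_le Nat.lt_two_pow_self (Nat.pow_le_pow_right (by norm_num) (Nat.le_succ _))
  omega

end Pool.Agent.TTN
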