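import Pool.Agent.Lib.TTN.RepD
import Pool.Agent.Lib.TTC.LatT

/-!
# Project TTN (MP_950c68_ag), module LatTA: the tensor product of an odd number of
representations,
algebra

SOURCES. `sy_T`: the proof of `latT_sy` in `TTC/LatT.lean` without its last part. `eL_T`: `eL` is
`Matrix.toLinearMap₂'` of `J.map red2`, `kron_map`, `(J2 ℤ_2).map red2 = J2 (ZMod 2)`. `acL_T`:
`latT_rho`, `cyc s` is a unit of `ℤ_2`, so `red2` of it is `1`; `kron_map`; `autM_apply`.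
`latT_cong`: `kron_one_add_pow` (`TTC/Kron.lean`) and the private lemmas `LatKT_pow_cong`,
`LatKT_inv_cong` of `TTC/LatKT.lean`. `latT_one`: `kron_one`.
-/

set_option autoImplicit false

open Pool.Agent.TTC (QZ mact red2 hf2 cycK latT kron J2 eL)

namespace Pool.Agent.TTN

variable {G : Type} [Group G] {ι : Type} [Fintype ι] [DecidableEq ι]

private theorem LatTA_red_unit (u : ℤ_[2]ˣ) : red2 (u : ℤ_[2]) = 1 := by
  have h2 : IsUnit (red2 (u : ℤ_[2])) := u.isUnit.map red2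
  revert h2
  generalize red2 (u : ℤ_[2]) = x
  intro h2
  have h3 : ∀ y : ZMod 2, y = 0 ∨ y = 1 := by decide
  rcases h3 x with h | h
  · exact absurd (h ▸ h2) not_isUnit_zero
  · exact h

private theorem LatTA_pow_cong {j : ℕ} {w b : ℤ_[2]} (h : w = 1 + 2 ^ j * b) (m : ℕ) :
    ∃ c, w ^ m = 1 + 2 ^ j * c := by
  induction m with
  | zero => exact ⟨0, by rw [pow_zero, mul_zero, add_zero]⟩
  | succ m ih =>
    obtain ⟨c, h1⟩ := ih
    exact ⟨c + b + 2 ^ j * (c * b), by rw [pow_succ, h1, h]; ring⟩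

private theorem LatTA_inv_cong {j : ℕ} {b : ℤ_[2]} {v : ℤ_[2]ˣ}
    (h : (v : ℤ_[2]) = 1 + 2 ^ j * b) : ∃ c, ((v⁻¹ : ℤ_[2]ˣ) : ℤ_[2]) = 1 + 2 ^ j * c := by
  have h1 : (v : ℤ_[2]) * ((v⁻¹ : ℤ_[2]ˣ) : ℤ_[2]) = 1 := v.mul_inv
  refine ⟨-(b * ((v⁻¹ : ℤ_[2]ˣ) : ℤ_[2])), ?_⟩
  rw [h] at h1
  linear_combination h1

theorem sy_T (cyc : G →* ℤ_[2]ˣ) (rho : ι → G →* Matrix (Fin 2) (Fin 2) ℤ_[2]) (m : ℕ)
    (hm : Fintype.card ι = 2 * m + 1) (hdet : ∀ i s, (rho i s).det = (cyc s : ℤ_[2])) :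
    Sy (latT cyc rho m) := by
  have : Nonempty ι := Fintype.card_pos_iff.mp (by omega)
  refine ⟨?_, ?_, ?_, ?_⟩
  · change (kron fun _ : ι => J2 ℤ_[2]).transpose = -(kron fun _ : ι => J2 ℤ_[2])
    rw [TTC.kronJ_transpose, hm, pow_succ, pow_mul]
    simp
  · intro a
    exact TTC.kronJ_diag a
  · exact TTC.kronJ_unit
  · intro s
    rw [TTC.latT_rho]
    change (_ : Matrix (ι → Fin 2) (ι → Fin 2) ℤ_[2]) * (kron fun _ : ι => J2 ℤ_[2]) * _ =
      (cyc s : ℤ_[2]) • (kron fun _ : ι => J2 ℤ_[2])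
    rw [Matrix.transpose_smul, Matrix.smul_mul, Matrix.smul_mul, Matrix.mul_smul, smul_smul,
      TTC.kron_sim, smul_smul]
    congr 1
    rw [Finset.prod_congr rfl fun i _ => hdet i s, Finset.prod_const, Finset.card_univ, hm,
      ← Units.val_mul, ← Units.val_pow_eq_pow_val, ← Units.val_mul]
    congr 1
    rw [← pow_add, ← two_mul, pow_succ, ← mul_assoc, inv_pow, inv_mul_cancel, one_mul]

theorem eL_T (cyc : G →* ℤ_[2]ˣ) (rho : ι → G →* Matrix (Fin 2) (Fin 2) ℤ_[2]) (m : ℕ) :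
    eL (latT cyc rho m) = eT ι := by
  have hJ : (J2 ℤ_[2]).map red2 = J2 (ZMod 2) := by
    ext i j
    fin_cases i <;> fin_cases j <;> simp [J2]
  have h1 : (latT cyc rho m).J.map red2 = kron fun _ : ι => J2 (ZMod 2) := by
    change (kron fun _ : ι => J2 ℤ_[2]).map red2 = _
    rw [TTC.kron_map]
    exact congrArg kron (funext fun _ => hJ)
  rw [eL, eT, h1]

/-- The reduction modulo `2` of the tensor product. -/
theorem acL_T {V : ι → Type} [∀ i, AddCommGroup (V i)] [∀ i, DistribMulAction G (V i)]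
    (cyc : G →* ℤ_[2]ˣ) (R : ∀ i, Rep G (V i)) (m : ℕ) :
    acL (latT cyc (fun i => (R i).rho) m) = autM (kronH fun i => (R i).red) := by
  have h1 : r2 (latT cyc (fun i => (R i).rho) m) = kronH fun i => (R i).red := by
    refine MonoidHom.ext fun s => ?_
    rw [r2_apply, kronH_apply, TTC.latT_rho]
    have h2 : ((((cyc s)⁻¹ ^ m : ℤ_[2]ˣ) : ℤ_[2]) • kron fun i => (R i).rho s).map red2 =
        (kron fun i => (R i).rho s).map red2 := by
      ext a b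
      rw [Matrix.map_apply, Matrix.map_apply, Matrix.smul_apply, smul_eq_mul, map_mul,
        LatTA_red_unit, one_mul]
    rw [h2, TTC.kron_map]
    rfl
  rw [acL, h1]

/-- Congruences. -/
theorem latT_cong (cyc : G →* ℤ_[2]ˣ) (rho : ι → G →* Matrix (Fin 2) (Fin 2) ℤ_[2]) (m j : ℕ)
    {s : G} (hc : ∃ b : ℤ_[2], (cyc s : ℤ_[2]) = 1 + 2 ^ j * b)
    (h : ∀ i, ∃ B : Matrix (Fin 2) (Fin 2) ℤ_[2], rho i s = 1 + (2 : ℤ_[2]) ^ j • B) :
    ∃ B : Matrix (ι → Fin 2) (ι → Fin 2) ℤ_[2],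
      (latT cyc rho m).rho s = 1 + (2 : ℤ_[2]) ^ j • B := by
  choose B hB using h
  obtain ⟨b0, hb0⟩ := hc
  obtain ⟨c0, hc0⟩ := LatTA_inv_cong hb0
  obtain ⟨c, hc⟩ := LatTA_pow_cong hc0 m
  obtain ⟨C, hC⟩ := TTC.kron_one_add_pow j B
  refine ⟨C + c • (1 + (2 : ℤ_[2]) ^ j • C), ?_⟩
  rw [TTC.latT_rho, Units.val_pow_eq_pow_val, hc,
    show (kron fun i => rho i s) = kron fun i => 1 + (2 : ℤ_[2]) ^ j • B i from
      congrArg kron (funext hB), hC]
  module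

theorem latT_one (cyc : G →* ℤ_[2]ˣ) (rho : ι → G →* Matrix (Fin 2) (Fin 2) ℤ_[2]) (m : ℕ)
    {s : G} (hc : cyc s = 1) (h : ∀ i, rho i s = 1) : (latT cyc rho m).rho s = 1 := by
  rw [TTC.latT_rho, hc, inv_one, one_pow, Units.val_one, one_smul,
    show (kron fun i => rho i s) = kron fun _ => 1 from congrArg kron (funext h), TTC.kron_one]

end Pool.Agent.TTN
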