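import Pool.Agent.Lib.TTN.TensD
import Pool.Agent.Lib.TTC.Kron

/-!
# Project TTN (MP_950c68_ag), module PermT: the tensor product modulo `2` is a direct summand of
the
permutation module of the families of nonzero vectors

PROOF. `e = eT ι` is `kron J2`, `ten x` is the tensor of the family `x` of nonzero vectors, `iT w
x = e (ten x) w`, `pT a = ∑ a x • ten x`.
`p_i`: `∑ x, e (ten x) w • ten x = w`: `e (ten x) (ten y) = ∏ i, e_i (x i) (y i)` (`kronJ_apply`),
and in one factor `∑_{v ≠ 0} e_i(v, w) v = w` on `𝔽_2 ^ 2` (`decide`); by linearity it is enough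
to take for `w` a standard basis vector `Pi.single b 1`, a product of `Pi.single (b i) 1`; `∑_{x :
XT ι} ∏ i F i (x i) = ∏ i ∑_{v ≠ 0} F i v` (`Finset.prod_univ_sum`, `Fintype.piFinset`).
`i_ac`: `e (ten x) (A w) = e (A⁻¹ ten x) w` (`kron_sim`: `Aᵀ J A = det • J`, the determinants are
`1` over `ZMod 2`) and `kronH r s⁻¹ (ten x) = ten (s⁻¹ • x)` (`mulVec` of a `kron` on a pure
tensor).
`p_ac`: reindex the sum by `x ↦ s • x`. `adj`: bilinearity. `ker`: if `s` acts trivially then it
fixes all `ten x`, so `ten (s • x) = ten x`, and `x ↦ ten x` is injective (over `𝔽_2` a nonzero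
pure tensor determines its factors). `tr`: `GL_2(𝔽_2)` is transitive on the nonzero vectors
(`decide`), then `hr`. `ne`: the constant family.
-/

set_option autoImplicit false

open Pool.Agent.TTC

namespace Pool.Agent.TTN

section

variable {G : Type} [Group G] {ι : Type} [Fintype ι] [DecidableEq ι]

private theorem PermT_S (a b : Fin 2) :
    ∑ v : {w : Fin 2 → ZMod 2 // w ≠ 0}, v.1 a * v.1 b = J2 (ZMod 2) a b := by
  fin_cases a <;> fin_cases b <;> decide

private theorem PermT_T (a b : ι → Fin 2) :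
    ∑ x : XT ι, ten x a * ten x b = kron (fun _ : ι => J2 (ZMod 2)) a b := by
  rw [kron_apply]
  simp only [← PermT_S, ten, ← Finset.prod_mul_distrib]
  rw [Finset.prod_univ_sum, Fintype.piFinset_univ]

private theorem PermT_JJ : (J2 (ZMod 2)).transpose * J2 (ZMod 2) = 1 := by
  decide

private theorem PermT_KJ : (kron (fun _ : ι => J2 (ZMod 2))).transpose *
    kron (fun _ : ι => J2 (ZMod 2)) = 1 := by
  rw [kron_transpose, ← kron_mul]
  simp only [PermT_JJ]
  exact kron_one

private theorem PermT_e (v w : (ι → Fin 2) → ZMod 2) :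
    eT ι v w = v ⬝ᵥ (kron (fun _ : ι => J2 (ZMod 2))).mulVec w := by
  rw [eT, Matrix.toLinearMap₂'_apply']

private theorem PermT_mulVec (M : ι → Matrix (Fin 2) (Fin 2) (ZMod 2)) (x : ι → Fin 2 → ZMod 2) :
    (kron M).mulVec (fun a => ∏ i, x i (a i)) = fun a => ∏ i, (M i).mulVec (x i) (a i) := by
  funext a
  simp only [Matrix.mulVec, dotProduct, kron_apply, ← Finset.prod_mul_distrib]
  rw [Finset.prod_univ_sum, Fintype.piFinset_univ]

private theorem PermT_ten (r : ι → G →* Matrix (Fin 2) (Fin 2) (ZMod 2)) (s : G) (x : XT ι) :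
    ten ((actX r).toSMul.smul s x) = (kronH r s).mulVec (ten x) := by
  rw [kronH_apply]
  exact (PermT_mulVec (fun i => r i s) (fun i => (x i).1)).symm

private theorem PermT_det (r : G →* Matrix (Fin 2) (Fin 2) (ZMod 2)) (s : G) : (r s).det = 1 := by
  have h : (r s).det * (r s⁻¹).det = 1 := by
    rw [← Matrix.det_mul, ← map_mul, mul_inv_cancel, map_one, Matrix.det_one]
  have h2 : ∀ a b : ZMod 2, a * b = 1 → a = 1 := by decide
  exact h2 _ _ h

private theorem PermT_adj (r : ι → G →* Matrix (Fin 2) (Fin 2) (ZMod 2)) (s : G) :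
    kron (fun _ : ι => J2 (ZMod 2)) * kronH r s =
      (kronH r s⁻¹).transpose * kron (fun _ : ι => J2 (ZMod 2)) := by
  have h1 := kron_sim (fun i => r i s⁻¹)
  rw [← kronH_apply] at h1
  simp only [PermT_det, Finset.prod_const_one, one_smul] at h1
  calc kron (fun _ : ι => J2 (ZMod 2)) * kronH r s
      = (kronH r s⁻¹).transpose * kron (fun _ => J2 (ZMod 2)) * kronH r s⁻¹ * kronH r s := by
        rw [h1]
    _ = (kronH r s⁻¹).transpose * kron (fun _ => J2 (ZMod 2)) := by
        rw [mul_assoc _ (kronH r s⁻¹), ← map_mul, inv_mul_cancel, map_one, mul_one]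

private theorem PermT_one {a b : ZMod 2} (h : a * b = 1) : a = 1 := by
  revert a b
  decide

private theorem PermT_inj {x y : XT ι} (h : ten x = ten y) : x = y := by
  have hx : ∀ i, ∃ c, (x i).1 c = 1 := by
    intro i
    have h1 : ∀ v : Fin 2 → ZMod 2, v ≠ 0 → ∃ c, v c = 1 := by decide
    exact h1 _ (x i).2
  choose b hb using hx
  have h1 : ten x b = 1 := by
    rw [ten]
    exact Finset.prod_eq_one fun i _ => hb i
  have h2 : ten y b = 1 := by rw [← h, h1]
  have hy : ∀ i, (y i).1 (b i) = 1 := by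
    intro i
    rw [ten, ← Finset.mul_prod_erase Finset.univ _ (Finset.mem_univ i)] at h2
    exact PermT_one h2
  funext i
  apply Subtype.ext
  funext c
  have h3 := congrFun h (Function.update b i c)
  have key : ∀ z : XT ι, (∀ j, (z j).1 (b j) = 1) →
      ten z (Function.update b i c) = (z i).1 c := by
    intro z hz
    rw [ten, ← Finset.mul_prod_erase Finset.univ _ (Finset.mem_univ i), Function.update_self,
      Finset.prod_eq_one, mul_one]
    intro j hj
    rw [Function.update_of_ne (Finset.ne_of_mem_erase hj)]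
    exact hz j
  rw [key x hb, key y hy] at h3
  exact h3

private theorem PermT_tr : ∀ x y : Fin 2 → ZMod 2, x ≠ 0 → y ≠ 0 →
    ∃ M : Matrix (Fin 2) (Fin 2) (ZMod 2), M.det = 1 ∧ M.mulVec x = y := by
  have h : ∀ x0 x1 y0 y1 : ZMod 2, (x0 ≠ 0 ∨ x1 ≠ 0) → (y0 ≠ 0 ∨ y1 ≠ 0) →
      ∃ a b c d : ZMod 2, a * d - b * c = 1 ∧ a * x0 + b * x1 = y0 ∧ c * x0 + d * x1 = y1 := by
    decide
  intro x y hx hy
  have hne : ∀ v : Fin 2 → ZMod 2, v ≠ 0 → v 0 ≠ 0 ∨ v 1 ≠ 0 := by decide
  obtain ⟨a, b, c, d, h1, h2, h3⟩ := h (x 0) (x 1) (y 0) (y 1) (hne x hx) (hne y hy)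
  refine ⟨!![a, b; c, d], ?_, ?_⟩
  · rw [Matrix.det_fin_two_of, h1]
  · funext i
    fin_cases i
    · simpa [Matrix.mulVec, dotProduct, Fin.sum_univ_two] using h2
    · simpa [Matrix.mulVec, dotProduct, Fin.sum_univ_two] using h3

theorem permL_T (r : ι → G →* Matrix (Fin 2) (Fin 2) (ZMod 2))
    (hr : ∀ M : ι → Matrix (Fin 2) (Fin 2) (ZMod 2), (∀ i, (M i).det = 1) → ∃ s, ∀ i, r i s = M i) :
    @PermL G _ _ _ _ (autM (kronH r)) (eT ι) (XT ι) _ (actX r) (iT ι) (pT ι) := by
  let _ := actX r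
  have hten : ∀ (s : G) (x : XT ι), ten (s • x) = (kronH r s).mulVec (ten x) := PermT_ten r
  refine @PermL.mk G _ _ _ _ (autM (kronH r)) (eT ι) (XT ι) _ (actX r) (iT ι) (pT ι)
    ?_ ?_ ?_ ?_ ?_ ?_ ?_
  · intro w
    funext c
    rw [pT_apply, Finset.sum_apply]
    simp only [Pi.smul_apply, smul_eq_mul, iT_apply, PermT_e, dotProduct, Finset.sum_mul]
    rw [Finset.sum_comm]
    have h1 : ∀ a : ι → Fin 2, ∑ x : XT ι,
        ten x a * (kron (fun _ : ι => J2 (ZMod 2))).mulVec w a * ten x c =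
        (kron (fun _ : ι => J2 (ZMod 2))).transpose c a *
          (kron (fun _ : ι => J2 (ZMod 2))).mulVec w a := by
      intro a
      rw [Matrix.transpose_apply, ← PermT_T, Finset.sum_mul]
      exact Finset.sum_congr rfl fun x _ => by ring
    rw [Finset.sum_congr rfl fun a _ => h1 a]
    change (kron (fun _ : ι => J2 (ZMod 2))).transpose.mulVec
      ((kron (fun _ : ι => J2 (ZMod 2))).mulVec w) c = w c
    rw [Matrix.mulVec_mulVec, PermT_KJ, Matrix.one_mulVec]
  · intro s w x
    rw [iT_apply, iT_apply, PermT_e, PermT_e, hten, autM_apply, Matrix.mulVec_mulVec, PermT_adj,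
      ← Matrix.mulVec_mulVec]
    rw [Matrix.mulVec_transpose, dotProduct_comm, ← Matrix.dotProduct_mulVec, dotProduct_comm]
  · intro s a
    rw [pT_apply, pT_apply, autM_apply, Matrix.mulVec_sum]
    rw [← Equiv.sum_comp (MulAction.toPerm s)]
    refine Finset.sum_congr rfl fun x _ => ?_
    rw [MulAction.toPerm_apply, inv_smul_smul, hten, Matrix.mulVec_smul]
  · intro a w
    rw [pT_apply, map_sum, LinearMap.sum_apply]
    refine Finset.sum_congr rfl fun x _ => ?_
    rw [map_smul, LinearMap.smul_apply, smul_eq_mul, iT_apply]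
  · intro s hs x
    apply PermT_inj
    rw [hten]
    exact hs (ten x)
  · intro x y
    choose M hM1 hM2 using fun i => PermT_tr (x i).1 (y i).1 (x i).2 (y i).2
    obtain ⟨s, hs⟩ := hr M hM1
    refine ⟨s, funext fun i => Subtype.ext ?_⟩
    change (r i s).mulVec (x i).1 = (y i).1
    rw [hs, hM2]
  · exact ⟨fun _ => ⟨fun _ => 1, by decide⟩⟩

end

end Pool.Agent.TTN
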