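import Mathlib

/-!
# Project TTN (MP_950c68_ag), module SurjG: subgroups of `GL_2(𝔽_2) ^ n`

`r i : G → GL_2(𝔽_2) = S_3`. If every `r i` has an element of order `3` in its image and for every
`i`
there is an element of `G` which is odd at `i` and even elsewhere, then `G → GL_2(𝔽_2) ^ n` is
surjective.

PROOF. `Matrix (Fin 2) (Fin 2) (ZMod 2)` is finite: facts on single matrices are `decide`. `r i s`
has determinant `1` (it is invertible). In `GL_2(𝔽_2) = S_3`: `x ^ 3 = 1` iff `x` is even (in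
`C_3`); `x ^ 6 = 1` always; the commutator of an odd element and an element of order `3` has order
`3`.
(1) For every `i` there is `c_i ∈ G` with `r i c_i` of order `3` and `r j c_i = 1` for `j ≠ i`:
let `s` be as in `hodd i` (odd at `i`, even elsewhere), `u = s ^ 3`: `r j u = 1` for `j ≠ i`, and
`r i u` is an involution. Let `t` be as in `h3 i` (of order `3` at `i`). Then `c_i = u t u⁻¹ t⁻¹`
is `1` at `j ≠ i`, and at `i` it is a commutator of an involution and an element of order `3`, so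
of order `3`.
(2) So the elements `u_i = s_i ^ 3` and `c_i` are `1` at `j ≠ i` and every `M` with `det M = 1` is
a product `(r i c_i) ^ a * (r i u_i) ^ b` (`decide`).
(3) Multiply over `i`: for every `T : Finset ι` there is `s` with `r i s = M i` for `i ∈ T` and `r
i s = 1` for `i ∉ T` (`Finset.induction`).
-/

set_option autoImplicit false

namespace Pool.Agent.TTN

section

variable {G : Type} [Group G] {ι : Type} [Fintype ι] [DecidableEq ι]

set_option maxRecDepth 20000 in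
private theorem surjG_key : ∀ A B : Matrix (Fin 2) (Fin 2) (ZMod 2), A * A = 1 → A ≠ 1 →
    B * B * B = 1 → B ≠ 1 → ∀ M : Matrix (Fin 2) (Fin 2) (ZMod 2),
    M 0 0 * M 1 1 - M 0 1 * M 1 0 = 1 →
    ∃ a : Fin 3, ∃ b : Fin 2, (A * B * A * (B * B)) ^ (a : ℕ) * A ^ (b : ℕ) = M := by
  decide

set_option maxRecDepth 20000 in
private theorem surjG_six : ∀ X : Matrix (Fin 2) (Fin 2) (ZMod 2),
    X 0 0 * X 1 1 - X 0 1 * X 1 0 = 1 → X * X * X * (X * X * X) = 1 := by
  decide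

private theorem surjG_det (r : G →* Matrix (Fin 2) (Fin 2) (ZMod 2)) (s : G) :
    (r s) 0 0 * (r s) 1 1 - (r s) 0 1 * (r s) 1 0 = 1 := by
  have h : r s * r s⁻¹ = 1 := by rw [← map_mul]; simp
  have h2 := congrArg Matrix.det h
  rw [Matrix.det_mul, Matrix.det_one, Matrix.det_fin_two (r s)] at h2
  generalize (r s) 0 0 * (r s) 1 1 - (r s) 0 1 * (r s) 1 0 = x at h2 ⊢
  generalize (r s⁻¹).det = y at h2
  revert x y
  decide

omit [Fintype ι] [DecidableEq ι] in
private theorem surjG_one (r : ι → G →* Matrix (Fin 2) (Fin 2) (ZMod 2))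
    (h3 : ∀ i, ∃ s, r i s ^ 3 = 1 ∧ r i s ≠ 1)
    (hodd : ∀ i, ∃ s, r i s ^ 3 ≠ 1 ∧ ∀ j, j ≠ i → r j s ^ 3 = 1)
    (i : ι) (M : Matrix (Fin 2) (Fin 2) (ZMod 2)) (hM : M.det = 1) :
    ∃ s, r i s = M ∧ ∀ j, j ≠ i → r j s = 1 := by
  obtain ⟨s, hs, hsj⟩ := hodd i
  obtain ⟨t, ht, ht1⟩ := h3 i
  have hpow : ∀ X : Matrix (Fin 2) (Fin 2) (ZMod 2), X ^ 3 = X * X * X := fun X => by
    rw [pow_succ, pow_two]
  have hA2 : r i (s ^ 3) * r i (s ^ 3) = 1 := by
    rw [map_pow, hpow]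
    exact surjG_six _ (surjG_det (r i) s)
  have hA1 : r i (s ^ 3) ≠ 1 := by rw [map_pow]; exact hs
  have hB3 : r i t * r i t * r i t = 1 := by rw [← hpow]; exact ht
  have hinvA : r i (s ^ 3)⁻¹ = r i (s ^ 3) := by
    have h : r i (s ^ 3)⁻¹ * r i (s ^ 3) = 1 := by rw [← map_mul]; simp
    calc r i (s ^ 3)⁻¹ = r i (s ^ 3)⁻¹ * (r i (s ^ 3) * r i (s ^ 3)) := by rw [hA2, mul_one]
      _ = r i (s ^ 3) := by rw [← mul_assoc, h, one_mul]
  have hinvB : r i t⁻¹ = r i t * r i t := by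
    have h : r i t⁻¹ * r i t = 1 := by rw [← map_mul]; simp
    calc r i t⁻¹ = r i t⁻¹ * (r i t * r i t * r i t) := by rw [hB3, mul_one]
      _ = r i t⁻¹ * r i t * (r i t * r i t) := by simp only [mul_assoc]
      _ = r i t * r i t := by rw [h, one_mul]
  have hM' : M 0 0 * M 1 1 - M 0 1 * M 1 0 = 1 := by rw [← Matrix.det_fin_two]; exact hM
  obtain ⟨a, b, hab⟩ := surjG_key _ _ hA2 hA1 hB3 ht1 M hM'
  refine ⟨(s ^ 3 * t * (s ^ 3)⁻¹ * t⁻¹) ^ (a : ℕ) * (s ^ 3) ^ (b : ℕ), ?_, fun j hj => ?_⟩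
  · rw [map_mul, map_pow, map_mul, map_mul, map_mul, map_pow (r i) (s ^ 3), hinvA, hinvB]
    exact hab
  · have hu : r j (s ^ 3) = 1 := by rw [map_pow]; exact hsj j hj
    have hui : r j (s ^ 3)⁻¹ = 1 := by
      have h : r j (s ^ 3)⁻¹ * r j (s ^ 3) = 1 := by rw [← map_mul]; simp
      rwa [hu, mul_one] at h
    have htt : r j t * r j t⁻¹ = 1 := by rw [← map_mul]; simp
    rw [map_mul, map_pow, map_mul, map_mul, map_mul, map_pow (r j) (s ^ 3), hu, hui, one_mul,
      mul_one, htt, one_pow, one_pow, one_mul]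

theorem surj_all (r : ι → G →* Matrix (Fin 2) (Fin 2) (ZMod 2))
    (h3 : ∀ i, ∃ s, r i s ^ 3 = 1 ∧ r i s ≠ 1)
    (hodd : ∀ i, ∃ s, r i s ^ 3 ≠ 1 ∧ ∀ j, j ≠ i → r j s ^ 3 = 1)
    (M : ι → Matrix (Fin 2) (Fin 2) (ZMod 2)) (hM : ∀ i, (M i).det = 1) :
    ∃ s, ∀ i, r i s = M i := by
  have key : ∀ T : Finset ι, ∃ s, (∀ i ∈ T, r i s = M i) ∧ ∀ i, i ∉ T → r i s = 1 := by
    intro T
    induction T using Finset.induction_on with
    | empty => exact ⟨1, fun i hi => absurd hi (Finset.notMem_empty i), fun i _ => map_one _⟩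
    | insert i T hiT ih =>
      obtain ⟨s, hs1, hs2⟩ := ih
      obtain ⟨t, ht1, ht2⟩ := surjG_one r h3 hodd i (M i) (hM i)
      refine ⟨s * t, fun j hj => ?_, fun j hj => ?_⟩
      · rcases Finset.mem_insert.1 hj with rfl | hj
        · rw [map_mul, hs2 _ hiT, one_mul, ht1]
        · have hji : j ≠ i := fun h => hiT (h ▸ hj)
          rw [map_mul, hs1 j hj, ht2 j hji, mul_one]
      · rw [Finset.mem_insert, not_or] at hj
        rw [map_mul, hs2 j hj.2, ht2 j hj.1, mul_one]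
  obtain ⟨s, hs, -⟩ := key Finset.univ
  exact ⟨s, fun i => hs i (Finset.mem_univ i)⟩

end

end Pool.Agent.TTN
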