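import Pool.Agent.Lib.TTN.RepTwo
import Pool.Agent.Lib.TTN.SurjG
import Pool.Agent.Lib.SmD.Defs

/-!
# Project TTN (MP_950c68_ag), module SurjE: the reductions modulo `2` of `n` elliptic curves with
independent discriminants

PROOF. Apply `surj_all` to `r i = (R i).red`. `red_pow_eq_one`: `r i s ^ 3 = 1` iff `pm (a i) s ^
3 = 1` iff the permutation is even (in `S_3`, `decide`).
`h3`: the image `H` of `pm K (a i)` in `S_3` has no common fixed point: if `pm s j = j` for all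
`s` then `a i j` is fixed by `Gal(Ω/K)`, so it is in `K` (`IsGalois`), a root of the cubic
(evaluate `ff (a i)`), against `hroot`. A subgroup of `S_3` without common fixed point contains a
`3`-cycle (if `s` moves `0` and is no `3`-cycle it is a transposition fixing `j`; take `t` which
moves `j`; then `t` or `s t` is a `3`-cycle; `decide` on `Equiv.Perm (Fin 3)`).
`hodd`: let `δ i = ∏_{j < l} (a i j - a i l)`: `δ i ^ 2 = -4 A ^ 3 - 27 B ^ 2 =: D i` (from `a 0 +
a 1 + a 2 = 0`, `a 0 a 1 + a 0 a 2 + a 1 a 2 = A`, `a 0 a 1 a 2 = -B`, compare coefficients of `ff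
(a i)`), `δ i ≠ 0`, `s (δ i) = sign(pm s) δ i`. Put `c i s = 0` if `s (δ i) = δ i` and `1` if `s
(δ i) = - δ i`: a homomorphism to `ZMod 2`. The image `W` of `s ↦ (c i s)_i` in `ι → ZMod 2` is a
subspace. If it is not everything there is a nonzero functional, that is a nonempty `J` with `∑_{i
∈ J} c i s = 0` for all `s` (`Submodule.exists_dual_map_eq_bot` / `exists_le_ker_of_lt_top`), so
`∏_{i ∈ J} δ i` is fixed by `Gal(Ω/K)`, is in `K`, and its square is `∏_{i ∈ J} D i`: against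
`hdisc`. So for every `i` there is `s` with `c i s = 1` and `c j s = 0` for `j ≠ i`; `pm (a i) s`
is odd iff `c i s = 1`.
-/

set_option autoImplicit false

open Polynomial
open Pool.Agent.TTC (QZ mact red2 hf2 cycK)
open Pool.Agent.SmNJ Pool.Agent.SmJ

namespace Pool.Agent.TTN

set_option maxRecDepth 20000 in
private theorem surjE_cases : ∀ σ : Equiv.Perm (Fin 3),
    (σ ^ 3 = 1 ∧ ((σ 0 = 0 ∧ σ 1 = 1 ∧ σ 2 = 2) ∨ (σ 0 = 1 ∧ σ 1 = 2 ∧ σ 2 = 0) ∨
      (σ 0 = 2 ∧ σ 1 = 0 ∧ σ 2 = 1))) ∨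
    (σ ^ 3 ≠ 1 ∧ ((σ 0 = 1 ∧ σ 1 = 0 ∧ σ 2 = 2) ∨ (σ 0 = 0 ∧ σ 1 = 2 ∧ σ 2 = 1) ∨
      (σ 0 = 2 ∧ σ 1 = 1 ∧ σ 2 = 0))) := by
  decide

set_option maxRecDepth 20000 in
private theorem surjE_three : ∀ σ : Equiv.Perm (Fin 3), σ 0 ≠ 0 →
    (σ ^ 3 = 1 ∧ σ ≠ 1) ∨ ∃ j, σ j = j ∧ ∀ τ : Equiv.Perm (Fin 3), τ j ≠ j →
      (τ ^ 3 = 1 ∧ τ ≠ 1) ∨ ((σ * τ) ^ 3 = 1 ∧ σ * τ ≠ 1) := by
  decide

set_option maxRecDepth 20000 in
private theorem surjE_sign : ∀ σ τ : Equiv.Perm (Fin 3),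
    (if (σ * τ) ^ 3 = 1 then (0 : ZMod 2) else 1) =
      (if σ ^ 3 = 1 then (0 : ZMod 2) else 1) + (if τ ^ 3 = 1 then (0 : ZMod 2) else 1) := by
  decide

/-- The square root of the discriminant. -/
private def surjE_dl {Ω : Type} [Field Ω] (b : Fin 3 → Ω) : Ω :=
  (b 0 - b 1) * (b 0 - b 2) * (b 1 - b 2)

private theorem surjE_dl_perm {Ω : Type} [Field Ω] (b : Fin 3 → Ω) (σ : Equiv.Perm (Fin 3)) :
    surjE_dl (fun i => b (σ i)) =
      (if σ ^ 3 = 1 then 1 else -1) * surjE_dl b := by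
  unfold surjE_dl
  rcases surjE_cases σ with ⟨h, h1⟩ | ⟨h, h1⟩
  · rw [if_pos h]
    rcases h1 with ⟨h0, h1, h2⟩ | ⟨h0, h1, h2⟩ | ⟨h0, h1, h2⟩ <;>
      simp only [h0, h1, h2] <;> ring
  · rw [if_neg h]
    rcases h1 with ⟨h0, h1, h2⟩ | ⟨h0, h1, h2⟩ | ⟨h0, h1, h2⟩ <;>
      simp only [h0, h1, h2] <;> ring

private theorem surjE_cf {Ω : Type} [Field Ω] {e1 e2 e3 A B : Ω}
    (h : (X ^ 3 + C e1 * X ^ 2 + C e2 * X + C e3 : Polynomial Ω) = X ^ 3 + C A * X + C B) :
    e1 = 0 ∧ e2 = A ∧ e3 = B := by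
  have h0 := congrArg (fun p : Polynomial Ω => p.coeff 0) h
  have h1 := congrArg (fun p : Polynomial Ω => p.coeff 1) h
  have h2 := congrArg (fun p : Polynomial Ω => p.coeff 2) h
  simp only [coeff_add, coeff_C_mul, coeff_X, coeff_C, coeff_X_pow] at h0 h1 h2
  norm_num at h0 h1 h2
  exact ⟨h2, h1, h0⟩

private theorem surjE_coeff {Ω : Type} [Field Ω] (b : Fin 3 → Ω) {A B : Ω}
    (h : (∏ i, (X - C (b i)) : Polynomial Ω) = X ^ 3 + C A * X + C B) :
    surjE_dl b ^ 2 = -4 * A ^ 3 - 27 * B ^ 2 := by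
  rw [Fin.prod_univ_three] at h
  have e : ((X - C (b 0)) * (X - C (b 1)) * (X - C (b 2)) : Polynomial Ω) =
      X ^ 3 + C (-(b 0 + b 1 + b 2)) * X ^ 2 + C (b 0 * b 1 + b 0 * b 2 + b 1 * b 2) * X +
        C (-(b 0 * b 1 * b 2)) := by
    simp only [C_neg, C_add, C_mul]
    ring
  rw [e] at h
  obtain ⟨h2, h1, h0⟩ := surjE_cf h
  have hb : b 2 = -(b 0) - b 1 := by linear_combination -h2
  unfold surjE_dl
  rw [← h1, ← h0, hb]
  ring

variable {K Ω : Type} [Field K] [Field Ω] [Algebra K Ω] [IsGalois K Ω] {ι : Type} [Fintype ι]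
  [DecidableEq ι] {a : ι → Fin (2 * 1 + 1) → Ω} [∀ i, RtG K (a i)] [∀ i, HypA (a i)]

omit [IsGalois K Ω] in
private theorem surjE_map (b : Fin (2 * 1 + 1) → Ω) [RtG K b] (s : Ω ≃ₐ[K] Ω) :
    s (surjE_dl b) = (if pm K b s ^ 3 = 1 then 1 else -1) * surjE_dl b := by
  have h : s (surjE_dl b) = surjE_dl (fun i => b (pm K b s i)) := by
    unfold surjE_dl
    simp only [map_mul, map_sub, pm_spec]
  rw [h]
  exact surjE_dl_perm b (pm K b s)

private theorem surjE_bot (x : Ω) (h : ∀ s : Ω ≃ₐ[K] Ω, s x = x) :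
    ∃ y : K, algebraMap K Ω y = x := by
  have h1 : x ∈ (⊥ : IntermediateField K Ω) := (InfiniteGalois.mem_bot_iff_fixed x).2 h
  exact IntermediateField.mem_bot.1 h1

private theorem surjE_h3 (b : Fin (2 * 1 + 1) → Ω) [RtG K b] {A B : K}
    (ha : ff b = (X ^ 3 + C A * X + C B : K[X]).map (algebraMap K Ω))
    (hroot : ∀ x, x ^ 3 + A * x + B ≠ 0) : ∃ s, pm K b s ^ 3 = 1 ∧ pm K b s ≠ 1 := by
  have hmove : ∀ j, ∃ s : Ω ≃ₐ[K] Ω, pm K b s j ≠ j := by
    intro j
    by_contra hcon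
    push Not at hcon
    obtain ⟨y, hy⟩ := surjE_bot (K := K) (b j) (fun s => by rw [← pm_spec, hcon s])
    have h1 := ff_eval_br b j
    rw [ha, ← hy, eval_map, eval₂_hom] at h1
    have h2 := (map_eq_zero (algebraMap K Ω)).1 h1
    apply hroot y
    simpa using h2
  obtain ⟨s, hs⟩ := hmove 0
  rcases surjE_three (pm K b s) hs with h | ⟨j, -, hj⟩
  · exact ⟨s, h⟩
  · obtain ⟨t, ht⟩ := hmove j
    rcases hj (pm K b t) ht with h | h
    · exact ⟨t, h⟩
    · exact ⟨s * t, by rw [map_mul]; exact h⟩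

omit [∀ i, HypA (a i)] in
private theorem surjE_hodd {A B : ι → K}
    (ha : ∀ i, ff (a i) = (X ^ 3 + C (A i) * X + C (B i) : K[X]).map (algebraMap K Ω))
    (hdisc : ∀ J : Finset ι, J.Nonempty → ∀ s : K,
      ∏ i ∈ J, (-4 * A i ^ 3 - 27 * B i ^ 2) ≠ s ^ 2) (v : ι → ZMod 2) :
    ∃ s, ∀ i, (if pm K (a i) s ^ 3 = 1 then (0 : ZMod 2) else 1) = v i := by
  classical
  let c : (Ω ≃ₐ[K] Ω) → ι → ZMod 2 := fun s i => if pm K (a i) s ^ 3 = 1 then (0 : ZMod 2) else 1
  have hcm : ∀ s t, c (s * t) = c s + c t := fun s t => by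
    funext i
    change (if pm K (a i) (s * t) ^ 3 = 1 then (0 : ZMod 2) else 1) =
      (if pm K (a i) s ^ 3 = 1 then (0 : ZMod 2) else 1) +
      (if pm K (a i) t ^ 3 = 1 then (0 : ZMod 2) else 1)
    rw [map_mul]
    exact surjE_sign _ _
  have hc1 : c 1 = 0 := by
    have h := hcm 1 1
    rw [mul_one] at h
    exact (left_eq_add.1 h)
  let W : AddSubgroup (ι → ZMod 2) :=
    { carrier := Set.range c
      zero_mem' := ⟨1, hc1⟩
      add_mem' := by
        rintro _ _ ⟨s, rfl⟩ ⟨t, rfl⟩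
        exact ⟨s * t, hcm s t⟩
      neg_mem' := by
        rintro _ ⟨s, rfl⟩
        refine ⟨s, ?_⟩
        funext i
        have hz : ∀ z : ZMod 2, z = -z := by decide
        exact hz _ }
  by_cases hW : AddSubgroup.toZModSubmodule 2 W = ⊤
  · have hv : v ∈ AddSubgroup.toZModSubmodule 2 W := by rw [hW]; trivial
    obtain ⟨s, hs⟩ : v ∈ W := hv
    exact ⟨s, fun i => congrFun hs i⟩
  · exfalso
    obtain ⟨f, hf, hfW⟩ := Submodule.exists_le_ker_of_lt_top _ (lt_top_iff_ne_top.2 hW)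
    let J : Finset ι := Finset.univ.filter fun i => f (Pi.single i 1) ≠ 0
    have hfe : ∀ w : ι → ZMod 2, f w = ∑ i ∈ J, w i := by
      intro w
      have h1 : w = ∑ i, w i • (Pi.single i (1 : ZMod 2) : ι → ZMod 2) := by
        funext j
        simp [Finset.sum_apply, Pi.single_apply]
      rw [Finset.sum_filter]
      conv_lhs => rw [h1]
      rw [map_sum]
      refine Finset.sum_congr rfl fun i _ => ?_
      rw [map_smul, smul_eq_mul]
      have hz : ∀ x y : ZMod 2, x * y = if y ≠ 0 then x else 0 := by decide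
      exact hz _ _
    have hJ : J.Nonempty := by
      by_contra hne
      rw [Finset.not_nonempty_iff_eq_empty] at hne
      apply hf
      ext w
      simp [hfe, hne]
    have hprod : ∀ s : Ω ≃ₐ[K] Ω, s (∏ i ∈ J, surjE_dl (a i)) = ∏ i ∈ J, surjE_dl (a i) := by
      intro s
      have h0 : ∑ i ∈ J, c s i = 0 := by
        rw [← hfe]
        exact hfW (show c s ∈ W from ⟨s, rfl⟩)
      have h1 : ∀ T : Finset ι, s (∏ i ∈ T, surjE_dl (a i)) =
          (if ∑ i ∈ T, c s i = 0 then 1 else -1) * ∏ i ∈ T, surjE_dl (a i) := by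
        intro T
        induction T using Finset.induction_on with
        | empty => simp
        | insert i T hiT ih =>
          rw [Finset.prod_insert hiT, Finset.sum_insert hiT, map_mul, ih,
            surjE_map (K := K) (a i) s]
          have hci : c s i = if pm K (a i) s ^ 3 = 1 then (0 : ZMod 2) else 1 := rfl
          rw [hci]
          generalize ∑ i ∈ T, c s i = z
          have hz : z = 0 ∨ z = 1 := by revert z; decide
          have h10 : (1 : ZMod 2) ≠ 0 := by decide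
          have h11 : (1 : ZMod 2) + 1 = 0 := by decide
          rcases hz with rfl | rfl
          · by_cases hp : pm K (a i) s ^ 3 = 1
            · simp only [if_pos hp, add_zero, if_true]; ring
            · simp only [if_neg hp, add_zero, if_true, if_neg h10]; ring
          · by_cases hp : pm K (a i) s ^ 3 = 1
            · simp only [if_pos hp, zero_add, if_neg h10]; ring
            · simp only [if_neg hp, h11, if_neg h10, if_true]; ring
      rw [h1, if_pos h0, one_mul]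
    obtain ⟨y, hy⟩ := surjE_bot (K := K) _ hprod
    apply hdisc J hJ y
    apply (algebraMap K Ω).injective
    rw [map_pow, hy, map_prod, ← Finset.prod_pow]
    refine Finset.prod_congr rfl fun i _ => ?_
    have h2 : (∏ j, (X - C (a i j)) : Polynomial Ω) =
        X ^ 3 + C (algebraMap K Ω (A i)) * X + C (algebraMap K Ω (B i)) := by
      have h3 := ha i
      rw [ff] at h3
      rw [h3]
      simp
    rw [surjE_coeff (a i) h2]
    simp only [map_sub, map_mul, map_pow, map_neg, map_ofNat]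

theorem surj_E {A B : ι → K}
    (ha : ∀ i, ff (a i) = (X ^ 3 + C (A i) * X + C (B i) : K[X]).map (algebraMap K Ω))
    (hroot : ∀ i x, x ^ 3 + A i * x + B i ≠ 0)
    (hdisc : ∀ J : Finset ι, J.Nonempty → ∀ s : K,
      ∏ i ∈ J, (-4 * A i ^ 3 - 27 * B i ^ 2) ≠ s ^ 2)
    (R : ∀ i, Rep (Ω ≃ₐ[K] Ω) (VN (a i)))
    (M : ι → Matrix (Fin 2) (Fin 2) (ZMod 2)) (hM : ∀ i, (M i).det = 1) :
    ∃ s, ∀ i, (R i).red s = M i := by
  refine surj_all (fun i => (R i).red) (fun i => ?_) (fun i => ?_) M hM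
  · obtain ⟨s, hs1, hs2⟩ := surjE_h3 (a i) (ha i) (hroot i)
    refine ⟨s, (red_pow_eq_one (R i) s 3).2 hs1, fun h => hs2 ?_⟩
    have h1 := (red_pow_eq_one (R i) s 1).1 (by rw [pow_one]; exact h)
    rwa [pow_one] at h1
  · obtain ⟨s, hs⟩ := surjE_hodd ha hdisc (Pi.single i 1)
    refine ⟨s, fun h => ?_, fun j hj => ?_⟩
    · have h1 := (red_pow_eq_one (R i) s 3).1 h
      have h2 := hs i
      rw [if_pos h1, Pi.single_eq_same] at h2
      exact absurd h2 (by decide)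
    · have h2 := hs j
      rw [Pi.single_eq_of_ne hj] at h2
      refine (red_pow_eq_one (R j) s 3).2 ?_
      by_contra hne
      rw [if_neg hne] at h2
      exact absurd h2 (by decide)

end Pool.Agent.TTN
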