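import Pool.Agent.Lib.TTN.PureT
import Pool.Agent.Lib.TTN.LatTA
import Pool.Agent.Lib.TTN.PermT
import Pool.Agent.Lib.TTN.BigT
import Pool.Agent.Lib.TTN.SurjE

/-!
# Project TTN (MP_950c68_ag), module LatTG: the tensor product of an odd number of elliptic curves
is a
lattice `LatG`; its reduction modulo `2` is big and a summand of a permutation module

PROOF. `latG_T`: `sy`: `sy_T`, `det_VN`. `cyc`: `rfl`. `cont`: `cont_VN` for every `i`,
`cycK_contK`, the finite intersection of members of `NP K Ω` is one (`inf_mem_NP`, `top_mem_NP`),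
`latT_cong`. `unr`: the set is contained in the finite union over `i` of the sets of `unr_VN`
(`latT_one`; `cycK_inerK`: `cyc s = 1` on the inertia group; `w.valuation 2 = 1`). `pure`:
`pure_T`. (`Infinite Ω`, `IsSepClosed Ω`, `IsGalois K Ω` as in `SmNJ/GoodN.lean`.)
`red_T`: `surj_E` gives the hypothesis `hr` of `permL_T` and `big_T` for `r i = (R i).red`
(`Nonempty ι` from `hm`), `acL_T`, `eL_T`. For the rewriting in `@PermL ...` use `(acL_T ..).symm
▸` or `rw`.
-/

set_option autoImplicit false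

open Polynomial
open Pool.Agent.TTC (QZ mact red2 hf2 cycK latT kron J2 eL)
open Pool.Agent.SmNJ Pool.Agent.SmJ Pool.Agent.BSDFF Pool.Agent.GBU Pool.Agent.Lib.SmD

namespace Pool.Agent.TTN

section

variable {k K Ω : Type} [Field k] [Finite k] [Field K] [Algebra k K] [Algebra (RatFunc k) K]
  [IsScalarTower k (RatFunc k) K] [FiniteDimensional (RatFunc k) K]
  [Algebra.IsSeparable (RatFunc k) K] [Field Ω] [Algebra K Ω] [IsSepClosure K Ω]
  {ι : Type} [Fintype ι] [DecidableEq ι]
  {a : ι → Fin (2 * 1 + 1) → Ω} [∀ i, RtG K (a i)] [∀ i, HypA (a i)]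

theorem latG_T (h6 : (6 : k) ≠ 0) (hsum : ∀ i, a i 0 + a i 1 + a i 2 = 0)
    (R : ∀ i, Rep (Ω ≃ₐ[K] Ω) (VN (a i))) {m : ℕ} (hm : Fintype.card ι = 2 * m + 1) :
    LatG k (latT (cycK Ω K) (fun i => (R i).rho) m) := by
  have hG : IsGalois K Ω := inferInstance
  have : IsSepClosed Ω := IsSepClosure.sep_closed K
  have : Infinite (RatFunc k) :=
    Infinite.of_injective _ (IsFractionRing.injective k[X] (RatFunc k))
  have : Infinite K := Infinite.of_injective _ (algebraMap (RatFunc k) K).injective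
  have : Infinite Ω := Infinite.of_injective _ (algebraMap K Ω).injective
  have h6K : (6 : K) ≠ 0 := by
    intro h
    apply h6
    apply (algebraMap k K).injective
    rw [map_ofNat, map_zero, h]
  have h2 : (2 : k) ≠ 0 := by
    intro h
    apply h6
    have h1 : (6 : k) = 2 * 3 := by norm_num
    rw [h1, h, zero_mul]
  have h2K : (2 : K) ≠ 0 := by
    intro h
    apply h2
    apply (algebraMap k K).injective
    rw [map_ofNat, map_zero, h]
  refine ⟨sy_T _ _ m hm fun i s => det_VN (R i) s, fun s => rfl, ?_, ?_, ?_⟩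
  · intro j
    choose N hN hB using fun i => cont_VN h6K (R i) j
    obtain ⟨N0, hN0, hB0⟩ := cycK_contK (K := K) (Ω := Ω) h2K j
    refine ⟨N0 ⊓ Finset.univ.inf N, inf_mem_NP hN0 ?_, ?_⟩
    · exact Finset.inf_induction top_mem_NP (fun _ h _ h' => inf_mem_NP h h') fun i _ => hN i
    · intro s hs
      exact latT_cong _ _ m j (hB0 s hs.1) fun i =>
        hB i s ((Finset.inf_le (Finset.mem_univ i) : Finset.univ.inf N ≤ N i) hs.2)
  · refine (Set.finite_iUnion fun i => unr_VN (k := k) h2 (R i)).subset ?_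
    intro v hv
    by_contra hcon
    apply hv
    intro s hs
    obtain ⟨π, hπ⟩ := IsDiscreteValuationRing.exists_irreducible v.ring
    have hL := locHyp_of_below h2 v (abK Ω v) (below_abK Ω v) hπ
    refine latT_one _ _ m (cycK_inerK hL.two hs) fun i => ?_
    by_contra h1
    exact hcon (Set.mem_iUnion.2 ⟨i, fun h => h1 (h s hs)⟩)
  · intro v U hU r hr
    exact pure_T h6 hsum R hm v hU hr

/-- The reduction modulo `2` is a summand of a transitive permutation module, and it is big. -/
theorem red_T {A B : ι → K}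
    (ha : ∀ i, ff (a i) = (X ^ 3 + C (A i) * X + C (B i) : K[X]).map (algebraMap K Ω))
    (hroot : ∀ i x, x ^ 3 + A i * x + B i ≠ 0)
    (hdisc : ∀ J : Finset ι, J.Nonempty → ∀ s : K,
      ∏ i ∈ J, (-4 * A i ^ 3 - 27 * B i ^ 2) ≠ s ^ 2)
    (R : ∀ i, Rep (Ω ≃ₐ[K] Ω) (VN (a i))) {m : ℕ} (hm : Fintype.card ι = 2 * m + 1) :
    @PermL _ _ _ _ _ (acL (latT (cycK Ω K) (fun i => (R i).rho) m))
      (eL (latT (cycK Ω K) (fun i => (R i).rho) m)) (XT ι) _ (actX fun i => (R i).red)
      (iT ι) (pT ι) ∧ Big (acL (latT (cycK Ω K) (fun i => (R i).rho) m)) := by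
  have hG : IsGalois K Ω := inferInstance
  have hne : Nonempty ι := Fintype.card_pos_iff.mp (by omega)
  have hr := surj_E ha hroot hdisc R
  rw [acL_T, eL_T]
  exact ⟨permL_T _ hr, big_T _ hr⟩

end

end Pool.Agent.TTN
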