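import Pool.Agent.Lib.GBU.Plc
import Pool.Agent.Lib.SmNJ.E6N

/-!
# Project TTN (MP_950c68_ag), module LocF: finite extensions `F` of the global function field `K`
inside the separable closure

PROOF. `exists_F`: `U` is open in the Krull topology, so there is a finite `F₀` with
`F₀.fixingSubgroup ≤ U` (`krullTopology_mem_nhds_one_iff`); take `F = F₀ ⊔ adjoin K S`
(`finiteDimensional_adjoin`). `comap_NP`: `N' = N.comap φ`, `φ : (Ω ≃ₐ[F] Ω) →* (Ω ≃ₐ[K] Ω)` the
restriction of scalars: normal; open (`φ` is continuous: if `M.fixingSubgroup ≤ N` for a finite `M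
/ K`, then `N'` contains the fixing subgroup of the compositum of `M` and `F` over `F`); its index
divides the index of `N` (`Subgroup.index_comap`, `relIndex_dvd_index_of_normal`), so it is not
zero in `F`. `exists_locF`: `F` is a finite separable extension of `K`, so of `RatFunc k`:
instances `Algebra (RatFunc k) F`, scalar tower, finite dimensional, separable (see how
`SmN/F/LPl.lean`, `LInst.lean`, `SmNJ/E6N.lean` do it) and `exists_locHyp_of_ne_top k F h2 w hw`
(`GBU/PlA.lean`).
-/

set_option autoImplicit false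

open Pool.Agent.BSDFF Pool.Agent.GBU Pool.Agent.Lib.SmD

namespace Pool.Agent.TTN

section

variable {K Ω : Type} [Field K] [Field Ω] [Algebra K Ω]

/-- A finite extension inside an open subgroup, with given elements. -/
theorem exists_F [IsGalois K Ω] {U : Subgroup (Ω ≃ₐ[K] Ω)} (hU : IsOpen (U : Set (Ω ≃ₐ[K] Ω)))
    {S : Set Ω} (hS : S.Finite) : ∃ F : IntermediateField K Ω, FiniteDimensional K F ∧
      S ⊆ F ∧ F.fixingSubgroup ≤ U := by
  obtain ⟨F₀, hF₀, h0⟩ := (krullTopology_mem_nhds_one_iff K Ω (U : Set (Ω ≃ₐ[K] Ω))).1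
    (hU.mem_nhds U.one_mem)
  have : Finite S := hS.to_subtype
  have hfd : FiniteDimensional K (IntermediateField.adjoin K S) :=
    IntermediateField.finiteDimensional_adjoin
      (fun x _ => Algebra.IsIntegral.isIntegral x)
  refine ⟨F₀ ⊔ IntermediateField.adjoin K S, inferInstance, ?_, ?_⟩
  · intro x hx
    exact (le_sup_right : IntermediateField.adjoin K S ≤ F₀ ⊔ IntermediateField.adjoin K S)
      (IntermediateField.subset_adjoin K S hx)
  · intro s hs
    exact h0 (IntermediateField.fixingSubgroup_antitone (le_sup_left) hs)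

/-- The open subgroups of index prime to the characteristic, over `F`. -/
theorem comap_NP (F : IntermediateField K Ω) {N : Subgroup (Ω ≃ₐ[K] Ω)} (hN : N ∈ NP K Ω) :
    ∃ N' ∈ NP F Ω, ∀ s ∈ N', AlgEquiv.restrictScalars K s ∈ N := by
  have hnorm : N.Normal := hN.1
  let φ : (Ω ≃ₐ[F] Ω) →* (Ω ≃ₐ[K] Ω) := AlgEquiv.restrictScalarsHom K
  refine ⟨N.comap φ, ⟨inferInstance, ?_, ?_⟩, fun s hs => hs⟩
  · obtain ⟨E, hE, h0⟩ := (krullTopology_mem_nhds_one_iff K Ω (N : Set (Ω ≃ₐ[K] Ω))).1
      (hN.2.1.mem_nhds N.one_mem)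
    let b := Module.finBasis K E
    let S : Set Ω := Set.range fun i => (b i : Ω)
    have hS : Finite S := (Set.finite_range _).to_subtype
    have hint : ∀ x ∈ S, IsIntegral F x := by
      rintro _ ⟨i, rfl⟩
      have h1 : IsIntegral K (b i) := IsIntegral.of_finite K (b i)
      have h2 : IsIntegral K ((b i : E) : Ω) := h1.map (IntermediateField.val E)
      exact h2.tower_top
    have hfd : FiniteDimensional F (IntermediateField.adjoin F S) :=
      IntermediateField.finiteDimensional_adjoin hint
    apply Subgroup.isOpen_of_mem_nhds (g := 1)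
    refine (krullTopology_mem_nhds_one_iff F Ω _).2
      ⟨IntermediateField.adjoin F S, hfd, fun s hs => ?_⟩
    refine h0 ?_
    rw [SetLike.mem_coe, IntermediateField.mem_fixingSubgroup_iff] at hs ⊢
    intro x hx
    obtain ⟨c, h1⟩ : ∃ c : Fin (Module.finrank K E) → K,
        x = ∑ i, c i • ((b i : E) : Ω) := by
      refine ⟨fun i => b.repr ⟨x, hx⟩ i, ?_⟩
      have h2 : IntermediateField.val E (∑ i, (b.repr ⟨x, hx⟩ i) • b i) = x :=
        congrArg (IntermediateField.val E) (b.sum_repr ⟨x, hx⟩)
      rw [map_sum] at h2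
      exact h2.symm
    rw [h1, map_sum]
    refine Finset.sum_congr rfl fun i _ => ?_
    rw [map_smul]
    congr 1
    exact hs _ (IntermediateField.subset_adjoin F S ⟨i, rfl⟩)
  · intro h0
    have h1 : (N.comap φ).index ∣ N.index := by
      rw [Subgroup.index_comap]
      exact Subgroup.relIndex_dvd_index_of_normal N φ.range
    obtain ⟨m, hm⟩ := h1
    apply hN.2.2
    have h2 : algebraMap K F (N.index : K) = 0 := by
      rw [map_natCast, hm, Nat.cast_mul, h0, zero_mul]
    exact (map_eq_zero (algebraMap K F)).1 h2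

end

section

variable {k K Ω : Type} [Field k] [Finite k] [Field K] [Algebra k K] [Algebra (RatFunc k) K]
  [IsScalarTower k (RatFunc k) K] [FiniteDimensional (RatFunc k) K]
  [Algebra.IsSeparable (RatFunc k) K] [Field Ω] [Algebra K Ω] [IsSepClosure K Ω]

/-- The place below `w` in `F`. -/
theorem exists_locF (h2 : (2 : k) ≠ 0) (F : IntermediateField K Ω) [FiniteDimensional K F]
    {w : ValuationSubring Ω} (hw : w ≠ ⊤) : ∃ π : F, LocHyp F w π := by
  have : IsGalois K Ω := inferInstance
  let _ : Algebra (RatFunc k) Ω := ((algebraMap K Ω).comp (algebraMap (RatFunc k) K)).toAlgebra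
  have : IsScalarTower (RatFunc k) K Ω := IsScalarTower.of_algebraMap_eq fun _ => rfl
  let _ : Algebra k Ω := ((algebraMap K Ω).comp (algebraMap k K)).toAlgebra
  have : IsScalarTower k K Ω := IsScalarTower.of_algebraMap_eq fun _ => rfl
  have : IsScalarTower k (RatFunc k) F := IsScalarTower.of_algebraMap_eq fun x => by
    apply Subtype.ext
    change algebraMap K Ω (algebraMap k K x) =
      algebraMap K Ω (algebraMap (RatFunc k) K (algebraMap k (RatFunc k) x))
    rw [← IsScalarTower.algebraMap_apply k (RatFunc k) K]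
  have : FiniteDimensional (RatFunc k) F := Module.Finite.trans K F
  have : Algebra.IsSeparable (RatFunc k) F := Algebra.IsSeparable.trans (RatFunc k) K F
  exact Pool.Agent.GBU.exists_locHyp_of_ne_top k F h2 w hw

end

end Pool.Agent.TTN
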