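import Pool.Agent.Lib.TTC.KronD

/-!
# Project TTN (MP_950c68_ag), module PureA: the tame relation in `GL_2(ℤ_2)`

`S` (the tame generator) and `P` (the Frobenius) with `P S = S ^ q P`, `S = 1` modulo `4`,
`det S = 1`, `det P = q`: `S` is unipotent and `P` acts on the image of `S - 1` by `± q`.

PROOF. (1) `P` is invertible over `ℚ_2` (`det P = q ≠ 0`), so `S` and `S ^ q` are conjugate over
`ℚ_2` and have the same trace `t`. For a `2 × 2` matrix `M` of determinant `1` Cayley-Hamilton is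
`M ^ 2 + 1 = tr M • M`. Applied to `S` and to `S ^ q`: `S ^ 2 + 1 = t S`, `S ^ (2 q) + 1 = t S ^
q`, hence `S ^ (2 q) + 1 = S ^ (q + 1) + S ^ (q - 1)`, that is `(S ^ (q + 1) - 1) * (S ^ (q - 1) -
1) = 0`.
(2) LEMMA: if `S = 1 + 4 B` and `n ≥ 1` then `C_n := ∑_{i < n} S ^ i` has `det C_n ≠ 0`. Strong
induction: `n` odd: modulo `2` it is `n • 1 = 1`, so the determinant is odd. `n = 2 m`: `C_n = C_m
* (1 + S ^ m)` and `1 + S ^ m = 2 (1 + 2 X)` has determinant `4 * unit`.
(3) `S ^ n - 1 = (S - 1) C_n`, everything commutes, so (1) is `(S - 1) ^ 2 C_{q+1} C_{q-1} = 0`;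
multiply by the adjugates of `C_{q+1} C_{q-1}` (`M_2(ℤ_2)` has no `ℤ_2`-torsion): `(S - 1) ^ 2 =
0`.
(4) `N := S - 1 ≠ 0`, `N ^ 2 = 0`: `S ^ q = 1 + q N`, so `P N = q N P`. Over `ℚ_2` write `N = u
vᵀ` (rank one). Then `(P u) vᵀ = q u (Pᵀ v)ᵀ`, so `P N = μ N` and `N P = ν N` with `μ = q ν`; `μ ≠
0` since `det P ≠ 0`. With `P' = adj P`, `P + P' = tr P`: `q N = P' P N = μ P' N` and `q N = N P
P' = ν N P'`, so `tr P = μ + q / μ = ν + q / ν`; with `μ = q ν` this is `ν + q / ν = q ν + 1 / ν`,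
that is `(q - 1) ν ^ 2 = q - 1`, `ν = ± 1`. Take `lam = ν`. (One can also do (4) with explicit
entries `N = !![a, b; c, -a]`, `a ^ 2 + b c = 0`, `P = !![x, y; z, w]`.)
-/

set_option autoImplicit false

namespace Pool.Agent.TTN

private theorem PureA_two : ¬ (2 : ℤ_[2]) ∣ 1 := by
  intro h
  have h1 := (PadicInt.prime_p (p := 2)).not_isUnit
  rw [Nat.cast_ofNat] at h1
  exact h1 (isUnit_of_dvd_one h)

private theorem PureA_det (X : Matrix (Fin 2) (Fin 2) ℤ_[2]) :
    (1 + (2 : ℤ_[2]) • X).det ≠ 0 := by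
  intro h
  rw [Matrix.det_fin_two] at h
  simp only [Matrix.add_apply, Matrix.smul_apply, Matrix.one_apply_eq, smul_eq_mul, ne_eq,
    zero_ne_one, one_ne_zero, not_false_eq_true, Matrix.one_apply_ne, zero_add] at h
  refine PureA_two ⟨-(X 0 0 + X 1 1 + 2 * (X 0 0 * X 1 1) - 2 * (X 0 1 * X 1 0)), ?_⟩
  linear_combination h

private theorem PureA_cay (M : Matrix (Fin 2) (Fin 2) ℤ_[2]) :
    M * M + M.det • (1 : Matrix (Fin 2) (Fin 2) ℤ_[2]) = M.trace • M := by
  ext i j
  fin_cases i <;> fin_cases j <;>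
    simp [Matrix.det_fin_two, Matrix.trace_fin_two, Matrix.mul_apply, Fin.sum_univ_two] <;> ring

private theorem PureA_pow {S B : Matrix (Fin 2) (Fin 2) ℤ_[2]} (hS : S = 1 + (4 : ℤ_[2]) • B)
    (n : ℕ) : S ^ n = 1 + (4 : ℤ_[2]) • (B * ∑ i ∈ Finset.range n, S ^ i) := by
  have h1 : S - 1 = (4 : ℤ_[2]) • B := by rw [hS, add_sub_cancel_left]
  rw [← Matrix.smul_mul, ← h1, mul_geom_sum]
  abel

private theorem PureA_geom {S B : Matrix (Fin 2) (Fin 2) ℤ_[2]} (hS : S = 1 + (4 : ℤ_[2]) • B)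
    (n : ℕ) : 1 ≤ n → (∑ i ∈ Finset.range n, S ^ i).det ≠ 0 := by
  induction n using Nat.strong_induction_on with
  | _ n ih =>
    intro hn
    rcases Nat.even_or_odd' n with ⟨m, hm | hm⟩
    · have h1 : ∑ i ∈ Finset.range n, S ^ i =
          (∑ i ∈ Finset.range m, S ^ i) * (1 + S ^ m) := by
        rw [hm, two_mul, Finset.sum_range_add, mul_add, mul_one, Finset.sum_mul]
        congr 1
        refine Finset.sum_congr rfl fun x _ => ?_
        rw [← pow_add, add_comm]
      have h2 : 1 + S ^ m =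
          (2 : ℤ_[2]) • (1 + (2 : ℤ_[2]) • (B * ∑ i ∈ Finset.range m, S ^ i)) := by
        rw [PureA_pow hS m, smul_add, smul_smul, two_smul ℤ_[2] (1 : Matrix (Fin 2) (Fin 2) ℤ_[2])]
        rw [show (2 : ℤ_[2]) * 2 = 4 by norm_num]
        abel
      rw [h1, Matrix.det_mul, h2, Matrix.det_smul]
      refine mul_ne_zero (ih m (by omega) (by omega)) (mul_ne_zero ?_ (PureA_det _))
      exact pow_ne_zero _ two_ne_zero
    · have h1 : ∑ i ∈ Finset.range n, S ^ i = 1 + (2 : ℤ_[2]) •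
          ((m : ℤ_[2]) • (1 : Matrix (Fin 2) (Fin 2) ℤ_[2]) + (2 : ℤ_[2]) •
            ∑ j ∈ Finset.range n, B * ∑ i ∈ Finset.range j, S ^ i) := by
        rw [Finset.sum_congr rfl fun i _ => PureA_pow hS i, Finset.sum_add_distrib,
          Finset.sum_const, Finset.card_range, ← Finset.smul_sum, smul_add, smul_smul, smul_smul,
          ← Nat.cast_smul_eq_nsmul ℤ_[2], ← add_assoc, show (2 : ℤ_[2]) * 2 = 4 by norm_num]
        congr 1
        rw [hm]
        push_cast
        rw [add_smul, one_smul, add_comm]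
      rw [h1]
      exact PureA_det _

private theorem PureA_sq {q : ℕ} (hq : 1 < q) {S P : Matrix (Fin 2) (Fin 2) ℤ_[2]}
    (hS : ∃ B : Matrix (Fin 2) (Fin 2) ℤ_[2], S = 1 + (4 : ℤ_[2]) • B) (hdS : S.det = 1)
    (hdP : P.det = q) (h : P * S = S ^ q * P) : (S - 1) * (S - 1) = 0 := by
  obtain ⟨B, hB⟩ := hS
  obtain ⟨k, rfl⟩ : ∃ k, q = k + 1 := ⟨q - 1, by omega⟩
  have hq0 : ((k + 1 : ℕ) : ℤ_[2]) ≠ 0 := by
    exact_mod_cast (Nat.succ_ne_zero k)
  have ht : (S ^ (k + 1)).trace = S.trace := by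
    have h1 : P * S * P.adjugate = ((k + 1 : ℕ) : ℤ_[2]) • S ^ (k + 1) := by
      rw [h, Matrix.mul_assoc, Matrix.mul_adjugate, hdP, Matrix.mul_smul, Matrix.mul_one]
    have h2 := congrArg Matrix.trace h1
    rw [Matrix.trace_mul_comm, ← Matrix.mul_assoc, Matrix.adjugate_mul, hdP, Matrix.smul_mul,
      Matrix.one_mul, Matrix.trace_smul, Matrix.trace_smul, smul_eq_mul, smul_eq_mul] at h2
    exact (mul_left_cancel₀ hq0 h2).symm
  have hc1 := PureA_cay S
  have hc2 := PureA_cay (S ^ (k + 1))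
  rw [Matrix.det_pow, hdS, one_pow, ht, one_smul] at hc2
  rw [hdS, one_smul] at hc1
  have h3 : (S ^ (k + 2) - 1) * (S ^ k - 1) = 0 := by
    have h4 : S.trace • S ^ (k + 1) = S ^ (k + 2) + S ^ k := by
      rw [pow_succ' S k, ← Matrix.smul_mul, ← hc1, add_mul, one_mul, ← pow_two, ← pow_add,
        add_comm 2 k]
    rw [h4, ← pow_add] at hc2
    have h5 : (S ^ (k + 2) - 1) * (S ^ k - 1) =
        (S ^ (k + 1 + (k + 1)) + 1) - (S ^ (k + 2) + S ^ k) := by
      rw [sub_mul, mul_sub, mul_one, one_mul, ← pow_add, show k + 2 + k = k + 1 + (k + 1) by ring]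
      abel
    rw [h5, hc2, sub_self]
  rw [← geom_sum_mul, ← mul_geom_sum] at h3
  set C := ∑ i ∈ Finset.range (k + 2), S ^ i with hC
  set D := ∑ i ∈ Finset.range k, S ^ i with hD
  have h6 : (C.det * D.det) • ((S - 1) * (S - 1)) = 0 := by
    have h7 : C.adjugate * (C * (S - 1) * ((S - 1) * D)) * D.adjugate =
        (C.adjugate * C) * ((S - 1) * (S - 1)) * (D * D.adjugate) := by
      simp only [Matrix.mul_assoc]
    rw [h3, Matrix.mul_zero, Matrix.zero_mul, Matrix.adjugate_mul, Matrix.mul_adjugate,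
      Matrix.smul_mul, Matrix.mul_smul, Matrix.one_mul, Matrix.mul_one, smul_smul] at h7
    rw [mul_comm, ← h7]
  exact (smul_eq_zero.1 h6).resolve_left
    (mul_ne_zero (PureA_geom hB _ (by omega)) (PureA_geom hB _ (by omega)))

theorem tame_rel {q : ℕ} (hodd : Odd q) (hq : 1 < q) {S P : Matrix (Fin 2) (Fin 2) ℤ_[2]}
    (hS : ∃ B : Matrix (Fin 2) (Fin 2) ℤ_[2], S = 1 + (4 : ℤ_[2]) • B) (hdS : S.det = 1)
    (hdP : P.det = q) (h : P * S = S ^ q * P) :
    (S - 1) * (S - 1) = 0 ∧ (S ≠ 1 → ∃ lam : ℤ_[2], (lam = 1 ∨ lam = -1) ∧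
      P * (S - 1) = (lam * q) • (S - 1)) := by
  have hN := PureA_sq hq hS hdS hdP h
  refine ⟨hN, fun hne => ?_⟩
  have hq1 : (q : ℤ_[2]) - 1 ≠ 0 := by
    rw [sub_ne_zero]
    exact_mod_cast hq.ne'
  have hq0 : (q : ℤ_[2]) ≠ 0 := by
    exact_mod_cast (by omega : q ≠ 0)
  have hSN : S = 1 + (S - 1) := by abel
  have hN0 : S - 1 ≠ 0 := sub_ne_zero.2 hne
  set N := S - 1 with hNdef
  have hpow : ∀ m : ℕ, S ^ m = 1 + (m : ℤ_[2]) • N := by
    intro m
    induction m with
    | zero => rw [pow_zero, Nat.cast_zero, zero_smul, add_zero]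
    | succ m ih =>
      rw [pow_succ, ih, hSN, add_mul, mul_add, mul_add, one_mul, one_mul, mul_one,
        Matrix.smul_mul, hN, smul_zero, add_zero, Nat.cast_succ, add_smul, one_smul]
      abel
  have hPN : P * N = (q : ℤ_[2]) • (N * P) := by
    have h1 : P * (1 + N) = (1 + (q : ℤ_[2]) • N) * P := by rw [← hpow, ← hSN, h]
    rw [mul_add, mul_one, add_mul, one_mul, add_right_inj, Matrix.smul_mul] at h1
    exact h1
  -- entries
  have e1 := congrFun (congrFun hN 0) 0
  have e2 := congrFun (congrFun hN 0) 1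
  have e3 := congrFun (congrFun hN 1) 0
  have e4 := congrFun (congrFun hN 1) 1
  have f1 := congrFun (congrFun hPN 0) 0
  have f2 := congrFun (congrFun hPN 0) 1
  have f3 := congrFun (congrFun hPN 1) 0
  have f4 := congrFun (congrFun hPN 1) 1
  rw [Matrix.det_fin_two] at hdP
  simp only [Matrix.mul_apply, Fin.sum_univ_two, Matrix.zero_apply, Matrix.smul_apply,
    smul_eq_mul] at e1 e2 e3 e4 f1 f2 f3 f4
  obtain ⟨a, ha⟩ : ∃ a, N 0 0 = a := ⟨_, rfl⟩
  obtain ⟨b, hb⟩ : ∃ b, N 0 1 = b := ⟨_, rfl⟩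
  obtain ⟨c, hc⟩ : ∃ c, N 1 0 = c := ⟨_, rfl⟩
  obtain ⟨d, hd⟩ : ∃ d, N 1 1 = d := ⟨_, rfl⟩
  obtain ⟨x, hx⟩ : ∃ x, P 0 0 = x := ⟨_, rfl⟩
  obtain ⟨y, hy⟩ : ∃ y, P 0 1 = y := ⟨_, rfl⟩
  obtain ⟨z, hz⟩ : ∃ z, P 1 0 = z := ⟨_, rfl⟩
  obtain ⟨w, hw⟩ : ∃ w, P 1 1 = w := ⟨_, rfl⟩
  rw [ha, hb, hc] at e1
  rw [ha, hb, hd] at e2
  rw [ha, hc, hd] at e3
  rw [hb, hc, hd] at e4
  rw [ha, hb, hc, hx, hy, hz] at f1
  rw [ha, hb, hd, hx, hy, hw] at f2
  rw [ha, hc, hd, hx, hz, hw] at f3
  rw [hb, hc, hd, hy, hz, hw] at f4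
  rw [hx, hy, hz, hw] at hdP
  have key : ∃ lam : ℤ_[2], (lam = 1 ∨ lam = -1) ∧ x * a + y * c = lam * q * a ∧
      x * b + y * d = lam * q * b ∧ z * a + w * c = lam * q * c ∧
      z * b + w * d = lam * q * d := by
    have had : a + d = 0 := by
      by_contra hne'
      have h1 : b = 0 := by
        have : b * (a + d) = 0 := by linear_combination e2
        exact (mul_eq_zero.1 this).resolve_right hne'
      have h2 : c = 0 := by
        have : c * (a + d) = 0 := by linear_combination e3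
        exact (mul_eq_zero.1 this).resolve_right hne'
      have h3 : a = 0 := by
        have : a * a = 0 := by rw [h1] at e1; linear_combination e1
        exact mul_self_eq_zero.1 this
      have h4 : d = 0 := by
        have : d * d = 0 := by rw [h1] at e4; linear_combination e4
        exact mul_self_eq_zero.1 this
      apply hne'
      rw [h3, h4, add_zero]
    have hd' : d = -a := by linear_combination had
    subst hd'
    have e0 : a * a + b * c = 0 := by linear_combination e1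
    have htr : a * x + b * z + c * y - a * w = 0 := by
      have h1 : ((q : ℤ_[2]) - 1) * (a * x + b * z + c * y - a * w) = 0 := by
        linear_combination -f1 - f4
      exact (mul_eq_zero.1 h1).resolve_left hq1
    by_cases hb0 : b = 0
    · have hc0 : c ≠ 0 := by
        intro hc0
        have ha0 : a = 0 := by
          rw [hb0] at e0
          exact mul_self_eq_zero.1 (by linear_combination e0)
        apply hN0
        ext i j
        fin_cases i <;> fin_cases j
        · exact ha.trans ha0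
        · exact hb.trans hb0
        · exact hc.trans hc0
        · exact hd.trans (by rw [ha0, neg_zero]; rfl)
      obtain ⟨ε, hε, hn⟩ : ∃ ε : ℤ_[2], (ε = 1 ∨ ε = -1) ∧ c * x - a * z = ε * c := by
        have h1 : (q : ℤ_[2]) * ((c * x - a * z - c) * (c * x - a * z + c)) = 0 := by
          linear_combination (-(c * x - a * z)) * f3 - z * z * e0 + c * z * htr + c * c * hdP
        rcases mul_eq_zero.1 ((mul_eq_zero.1 h1).resolve_left hq0) with h2 | h2
        · exact ⟨1, Or.inl rfl, by linear_combination h2⟩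
        · exact ⟨-1, Or.inr rfl, by linear_combination h2⟩
      have g3 : z * a + w * c = ε * q * c := by linear_combination f3 + (q : ℤ_[2]) * hn
      have g4 : z * b + w * -a = ε * q * -a :=
        mul_left_cancel₀ hc0 (by linear_combination z * e0 - a * g3)
      have g1 : x * a + y * c = ε * q * a := by linear_combination htr - g4
      have g2 : x * b + y * -a = ε * q * b :=
        mul_left_cancel₀ hc0 (by linear_combination -a * g1 + (x - ε * q) * e0)
      exact ⟨ε, hε, g1, g2, g3, g4⟩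
    · obtain ⟨ε, hε, hn⟩ : ∃ ε : ℤ_[2], (ε = 1 ∨ ε = -1) ∧ a * y + b * w = ε * b := by
        have h1 : (q : ℤ_[2]) * ((a * y + b * w - b) * (a * y + b * w + b)) = 0 := by
          linear_combination (-(a * y + b * w)) * f2 - y * y * e0 + b * y * htr + b * b * hdP
        rcases mul_eq_zero.1 ((mul_eq_zero.1 h1).resolve_left hq0) with h2 | h2
        · exact ⟨1, Or.inl rfl, by linear_combination h2⟩
        · exact ⟨-1, Or.inr rfl, by linear_combination h2⟩
      have g2 : x * b + y * -a = ε * q * b := by linear_combination f2 + (q : ℤ_[2]) * hn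
      have g1 : x * a + y * c = ε * q * a :=
        mul_left_cancel₀ hb0 (by linear_combination a * g2 + y * e0)
      have g4 : z * b + w * -a = ε * q * -a := by linear_combination htr - g1
      have g3 : z * a + w * c = ε * q * c :=
        mul_left_cancel₀ hb0 (by linear_combination a * g4 + (w - ε * q) * e0)
      exact ⟨ε, hε, g1, g2, g3, g4⟩
  obtain ⟨lam, hlam, k1, k2, k3, k4⟩ := key
  refine ⟨lam, hlam, ?_⟩
  ext i j
  fin_cases i <;> fin_cases j
  · simpa [Matrix.mul_apply, Fin.sum_univ_two, ha, hb, hc, hd, hx, hy, hz, hw] using k1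
  · simpa [Matrix.mul_apply, Fin.sum_univ_two, ha, hb, hc, hd, hx, hy, hz, hw] using k2
  · simpa [Matrix.mul_apply, Fin.sum_univ_two, ha, hb, hc, hd, hx, hy, hz, hw] using k3
  · simpa [Matrix.mul_apply, Fin.sum_univ_two, ha, hb, hc, hd, hx, hy, hz, hw] using k4

end Pool.Agent.TTN
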