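import Pool.Agent.Lib.TTN.RepA
import Pool.Agent.Lib.SmNJ.GoodN
import Pool.Agent.Lib.SmNJ.OkF

/-!
# Project TTN (MP_950c68_ag), module RepC: existence, continuity and ramification of the
representation on the `2`-power torsion of the Jacobian of `y ^ 2 = (x - a 0) (x - a 1) (x - a 2)`

SOURCES. `exists_repN`: `exists_rep` with `half_VN`, `tors_VN`, and `4` elements of order dividing
`2` (`iotaN` is a bijection of `EV 1` with them; `Nat.card (EV 1) = 4`, see `card_EV` in `SmJ/L`).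
`cont_VN`: `act_finN` (`SmNJ/Defs.lean`) and `Rep.rho_cong`; `(2 * 1 + 1).factorial = 6`.
`iner_one`: `IsTG.gen`: for every `N` there is `n` with `(τ ^ n)⁻¹ * s ∈ N`, so `rho s = rho (τ ^
n) * (1 + 2 ^ j B) = 1 + 2 ^ j B` for all `j`. `tame_rho`: `GBU.tame_frob`: `(τ ^ q)⁻¹ * (φ * τ *
φ⁻¹) ∈ N` for all `N ∈ NP K Ω`, so `rho (φ τ φ⁻¹) = rho τ ^ q` modulo every `2 ^ j`. `unr_VN`:
`good_triv_iner` (`SmNJ/GoodN.lean`) and `Rep.rho_eq_one`; the set of the places which are not in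
`(sysN k K Ω a).good` is finite (`SmNJ/OkF.lean`, `good_finT` / `finite_bad_roots`).
-/

set_option autoImplicit false

open Pool.Agent.TTC (QZ mact red2 hf2 cycK)
open Pool.Agent.SmNJ Pool.Agent.SmJ Pool.Agent.BSDFF Pool.Agent.GBU Pool.Agent.Lib.SmD

namespace Pool.Agent.TTN

private theorem RepC_zero {x : ℤ_[2]} (h : ∀ j : ℕ, ∃ b, x = (2 : ℤ_[2]) ^ j * b) : x = 0 := by
  by_contra hx
  have h0 : 0 < ‖x‖ := norm_pos_iff.mpr hx
  obtain ⟨m, hm⟩ := exists_pow_lt_of_lt_one h0 (by norm_num : (2⁻¹ : ℝ) < 1)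
  obtain ⟨b, hb⟩ := h m
  have h2 : ‖(2 : ℤ_[2])‖ = 2⁻¹ := by
    have := PadicInt.norm_p (p := 2)
    simpa using this
  have h1 : ‖x‖ ≤ 2⁻¹ ^ m := by
    rw [hb, norm_mul, norm_pow, h2]
    exact mul_le_of_le_one_right (by positivity) (PadicInt.norm_le_one b)
  exact absurd h1 (not_le.mpr hm)

private theorem RepC_eq {I : Type} {A C : Matrix I I ℤ_[2]}
    (h : ∀ j : ℕ, ∃ B : Matrix I I ℤ_[2], A - C = (2 : ℤ_[2]) ^ j • B) : A = C := by
  rw [← sub_eq_zero]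
  ext i k
  refine RepC_zero fun j => ?_
  obtain ⟨B, hB⟩ := h j
  exact ⟨B i k, by rw [hB, Matrix.smul_apply, smul_eq_mul]⟩

private theorem RepC_card : Nat.card (Pool.Agent.SmJ.L.EV 1) = 4 := by
  have e : Pool.Agent.SmJ.L.EV 1 ≃ {x : Fin (2 * 1 + 1) → ZMod 2 // ∑ i, x i = 0} :=
    { toFun := fun x => ⟨x.1, x.2⟩
      invFun := fun x => ⟨x.1, x.2⟩
      left_inv := fun x => rfl
      right_inv := fun x => rfl }
  rw [Nat.card_congr e, Nat.card_eq_fintype_card]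
  decide

section

variable {K Ω : Type} [Field K] [Field Ω] [Algebra K Ω]
  {a : Fin (2 * 1 + 1) → Ω} [RtG K a] [HypA a]

theorem exists_repN [IsSepClosed Ω] : Nonempty (Rep (Ω ≃ₐ[K] Ω) (VN a)) := by
  refine exists_rep half_VN tors_VN ?_
  have e1 : Nat.card {Q : VN a // (2 : ℕ) • Q = 0} = Nat.card (Pool.Agent.SmJ.L.EV 1) := by
    symm
    refine Nat.card_congr (Equiv.ofBijective
      (fun x => (⟨iotaN a x, two_iotaN x⟩ : {Q : VN a // (2 : ℕ) • Q = 0})) ⟨?_, ?_⟩)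
    · intro x y h
      exact iotaN_injective (congrArg Subtype.val h)
    · rintro ⟨Q, hQ⟩
      obtain ⟨x, hx⟩ := iotaN_range Q hQ
      exact ⟨x, Subtype.ext hx⟩
  rw [e1, RepC_card]

theorem cont_VN [IsGalois K Ω] [IsSepClosed Ω] (h6 : (6 : K) ≠ 0)
    (R : Rep (Ω ≃ₐ[K] Ω) (VN a)) (j : ℕ) : ∃ N ∈ NP K Ω, ∀ s ∈ N,
      ∃ B : Matrix (Fin 2) (Fin 2) ℤ_[2], R.rho s = 1 + (2 : ℤ_[2]) ^ j • B := by
  have h2 : (2 : K) ≠ 0 := by
    intro h
    apply h6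
    rw [show (6 : K) = 2 * 3 by norm_num, h, zero_mul]
  have hn : ((2 * 1 + 1).factorial : K) ≠ 0 := by
    have e : ((2 * 1 + 1).factorial : K) = 6 := by
      norm_num [Nat.factorial]
    rw [e]
    exact h6
  obtain ⟨N, hN, h⟩ := act_finN (K := K) (a := a) h2 hn j
  exact ⟨N, hN, fun s hs => R.rho_cong.2 (h s hs)⟩

/-- The inertia group, when the tame generator acts trivially. -/
theorem iner_one {I : Type} [Fintype I] [DecidableEq I] {w : ValuationSubring Ω}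
    {τ : Ω ≃ₐ[K] Ω} (hτ : IsTG K w τ) {rho : (Ω ≃ₐ[K] Ω) →* Matrix I I ℤ_[2]}
    (hc : ∀ j : ℕ, ∃ N ∈ NP K Ω, ∀ s ∈ N, ∃ B : Matrix I I ℤ_[2], rho s = 1 + (2 : ℤ_[2]) ^ j • B)
    (h1 : rho τ = 1) : ∀ s ∈ iner K w, rho s = 1 := by
  intro s hs
  refine RepC_eq fun j => ?_
  obtain ⟨N, hN, h⟩ := hc j
  obtain ⟨n, hn⟩ := hτ.gen N hN s hs
  obtain ⟨B, hB⟩ := h _ hn
  refine ⟨B, ?_⟩
  have e : rho s = rho (τ ^ n) * rho ((τ ^ n)⁻¹ * s) := by
    rw [← map_mul, mul_inv_cancel_left]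
  rw [e, hB, map_pow, h1, one_pow, one_mul, add_sub_cancel_left]

/-- The relation between the tame generator and a Frobenius element. -/
theorem tame_rho [IsGalois K Ω] {I : Type} [Fintype I] [DecidableEq I] {w : ValuationSubring Ω} {π : K}
    (h : LocHyp K w π) (hw : CharOk w) {τ φ : Ω ≃ₐ[K] Ω} (hφ : IsFrob K w φ) (hτ : τ ∈ iner K w)
    {rho : (Ω ≃ₐ[K] Ω) →* Matrix I I ℤ_[2]}
    (hc : ∀ j : ℕ, ∃ N ∈ NP K Ω, ∀ s ∈ N, ∃ B : Matrix I I ℤ_[2], rho s = 1 + (2 : ℤ_[2]) ^ j • B) :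
    rho φ * rho τ = rho τ ^ resCard (below K w) * rho φ := by
  refine RepC_eq fun j => ?_
  obtain ⟨N, hN, hN'⟩ := hc j
  obtain ⟨B, hB⟩ := hN' _ (tame_frob h hw hN hφ hτ)
  refine ⟨rho τ ^ resCard (below K w) * B * rho φ, ?_⟩
  have e : rho φ * rho τ = rho τ ^ resCard (below K w) *
      rho ((τ ^ resCard (below K w))⁻¹ * (φ * τ * φ⁻¹)) * rho φ := by
    rw [← map_pow, ← map_mul, ← map_mul, ← map_mul]
    congr 1
    group
  rw [e, hB, mul_add, add_mul, mul_one, add_sub_cancel_left, Matrix.mul_smul, Matrix.smul_mul]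

end

section

variable {k K Ω : Type} [Field k] [Finite k] [Field K] [Algebra k K] [Algebra (RatFunc k) K]
  [IsScalarTower k (RatFunc k) K] [FiniteDimensional (RatFunc k) K] [Field Ω] [Algebra K Ω]
  [IsSepClosure K Ω] {a : Fin (2 * 1 + 1) → Ω} [RtG K a] [HypA a]

/-- Almost all places are unramified. -/
theorem unr_VN [Algebra.IsSeparable (RatFunc k) K] (h2 : (2 : k) ≠ 0) (R : Rep (Ω ≃ₐ[K] Ω) (VN a)) :
    {v : Place k K | ¬ ∀ s ∈ iner K (abK Ω v), R.rho s = 1}.Finite := by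
  have : IsGalois K Ω := IsSepClosure.isGalois
  refine (good_finN (k := k) (K := K) (Ω := Ω) a).subset fun v hv hgood => hv fun s hs => ?_
  exact R.rho_eq_one.2 fun Q => good_triv_iner a h2 hgood hs Q

end

end Pool.Agent.TTN
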