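import Pool.Agent.Lib.TTN.Defs
import Pool.Agent.Lib.TTC.Cyc
import Pool.Agent.Lib.SmNJ.Weil

/-!
# Project TTN (MP_950c68_ag), module ZqK: the cyclotomic character of a global function field

The isomorphism of `ℚ_2 / ℤ_2` with the roots of unity of `2`-power order, the cyclotomic
character
on the inertia groups and at the Frobenius elements (port of `TTC/Cyc.lean` to any `K`).

SOURCES: `TTC/Cyc.lean` (`exists_zq`, `cycK_spec`, `cycK_toZModPow`, `cycK_iner`, `cycK_frob` over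
`k(t)`; `exists_zq` is verbatim for any `K`). For the inertia group and the Frobenius elements of
any place `w` of `Ω` use `SmNJ/Weil.lean` (the analogues for `K`), `Sm/P/MuLoc.lean`, `SmD`: an
element of `iner K w` fixes the roots of unity of order prime to the residue characteristic
(`w.valuation 2 = 1`; the residue map is injective on them), a Frobenius element raises them to
the power `resCard (below K w)`. `cycK_contK`: the stabilizer of all roots of unity of order `2 ^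
j` is open and normal; the quotient embeds in the units of `ZMod (2 ^ j)`, so the index divides a
power of `2` and is prime to the characteristic (see `not_dvd_index`, `act_finN` in
`SmNJ/Defs.lean`).
-/

set_option autoImplicit false

open Pool.Agent.TTC (QZ red2 hf2 cycK)
open Pool.Agent.BSDFF Pool.Agent.GBU Pool.Agent.Lib.SmD

namespace Pool.Agent.TTN

section

variable {K Ω : Type} [Field K] [Field Ω] [Algebra K Ω] [IsSepClosed Ω]

private theorem ZqK_eq_of (h2 : (2 : Ω) ≠ 0) (s : Ω ≃ₐ[K] Ω) (n : ℕ)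
    (h : ∀ (m : ℕ) (z : Ω), z ^ 2 ^ m = 1 → s z = z ^ n) : (cycK Ω K s : ℤ_[2]) = n := by
  refine PadicInt.ext_of_toZModPow.mp fun m => ?_
  obtain ⟨ζ, hζ⟩ := SmP.exists_prim_root h2 m
  rw [TTC.cycK_toZModPow h2, map_natCast, SmP.cyc_unique h2 m s hζ (h m ζ hζ.pow_eq_one)]

/-- The residue modulo `2 ^ m`. -/
private theorem ZqK_res (a : ℤ_[2]) (m : ℕ) : ∃ b : ℤ_[2],
    a = ((PadicInt.toZModPow m a).val : ℤ_[2]) + 2 ^ m * b := by
  have h1 : a - ((PadicInt.toZModPow m a).val : ℤ_[2]) ∈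
      RingHom.ker (PadicInt.toZModPow (p := 2) m) := by
    rw [RingHom.mem_ker, map_sub, map_natCast, ZMod.natCast_zmod_val, sub_self]
  rw [PadicInt.ker_toZModPow, Ideal.mem_span_singleton] at h1
  obtain ⟨b, hb⟩ := h1
  refine ⟨b, ?_⟩
  have : ((2 : ℕ) : ℤ_[2]) = 2 := by norm_num
  rw [this] at hb
  rw [← hb]
  ring

private theorem ZqK_one {a : ℤ_[2]} {j : ℕ} (h : PadicInt.toZModPow j a = 1) :
    ∃ b : ℤ_[2], a = 1 + 2 ^ j * b := by
  have h1 : a - 1 ∈ RingHom.ker (PadicInt.toZModPow (p := 2) j) := by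
    rw [RingHom.mem_ker, map_sub, h, map_one, sub_self]
  rw [PadicInt.ker_toZModPow, Ideal.mem_span_singleton] at h1
  obtain ⟨b, hb⟩ := h1
  refine ⟨b, ?_⟩
  have : ((2 : ℕ) : ℤ_[2]) = 2 := by norm_num
  rw [this] at hb
  rw [← hb]
  ring

omit [IsSepClosed Ω] in
private theorem ZqK_two {w : ValuationSubring Ω} (h2 : w.valuation 2 = 1) : (2 : Ω) ≠ 0 := by
  intro h
  rw [h, map_zero] at h2
  exact zero_ne_one h2

/-- The isomorphism of `ℚ_2 / ℤ_2` with the roots of unity of `2`-power order. -/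
theorem exists_zqK (h2 : (2 : Ω) ≠ 0) : ∃ zq : QZ →+ SmP.MuT Ω, Function.Injective zq ∧
    (∀ (s : Ω ≃ₐ[K] Ω) (Q : QZ), s • zq Q = zq ((cycK Ω K s : ℤ_[2]) • Q)) ∧
    ∀ a, zq (hf2 a) = SmP.hfM Ω a := by
  obtain ⟨f, hf⟩ := TTC.qz_hom (SmP.zet Ω) SmP.zet_zero SmP.two_zet
  have hone : ∀ m : ℕ, (2 : ℕ) ^ m • TTC.qz (1 / 2 ^ m) = 0 := by
    intro m
    have := (TTC.qz_zsmul_eq_zero ((2 ^ m : ℕ) : ℤ) m).2 (by push_cast; exact dvd_rfl)
    rwa [natCast_zsmul] at this
  refine ⟨f, ?_, ?_, ?_⟩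
  · rw [injective_iff_map_eq_zero]
    intro Q hQ
    obtain ⟨n, m, rfl⟩ := TTC.qz_gen Q
    rw [map_nsmul, hf] at hQ
    have h1 : (SmP.zet Ω m).el ^ n = 1 := by
      rw [← SmP.MuT.el_nsmul, hQ, SmP.MuT.el_zero]
    have h3 := ((SmP.zet_prim h2 m).pow_eq_one_iff_dvd n).1 h1
    have h4 := (TTC.qz_zsmul_eq_zero (n : ℤ) m).2 (by exact_mod_cast h3)
    rwa [natCast_zsmul] at h4
  · intro s Q
    obtain ⟨n, m, rfl⟩ := TTC.qz_gen Q
    have h1 : (cycK Ω K s : ℤ_[2]) • TTC.qz (1 / 2 ^ m) =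
        (SmP.cyc m s).val • TTC.qz (1 / 2 ^ m) := by
      obtain ⟨b, hb⟩ := ZqK_res (cycK Ω K s : ℤ_[2]) m
      rw [TTC.cycK_toZModPow h2] at hb
      rw [hb, add_smul, TTC.qz_kill (hone m), add_zero, Nat.cast_smul_eq_nsmul]
    rw [smul_comm (cycK Ω K s : ℤ_[2]) n, h1, map_nsmul, map_nsmul, map_nsmul, hf,
      ← SmP.smul_zet h2 s m, smul_comm s n]
  · intro a
    obtain ⟨n, rfl⟩ := ZMod.intCast_surjective a
    have h1 : (n / 2 : ℚ_[2]) = n * (1 / 2 ^ 1) := by ring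
    rw [TTC.hf2_intCast, SmP.hfM_intCast, h1, ← TTC.qz_zsmul, map_zsmul, hf]

/-- The cyclotomic character on the inertia group of any place of `Ω`. -/
theorem cycK_inerK {w : ValuationSubring Ω} (h2 : w.valuation 2 = 1) {s : Ω ≃ₐ[K] Ω}
    (hs : s ∈ iner K w) : cycK Ω K s = 1 := by
  apply Units.ext
  have h := ZqK_eq_of (ZqK_two h2) s 1 fun m z hz => by
    rw [pow_one]
    exact SmP.iner_root h2 hs m z hz
  rw [h, Nat.cast_one, Units.val_one]

/-- The cyclotomic character at a Frobenius element of any place of `Ω`. -/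
theorem cycK_frobK {w : ValuationSubring Ω} (h2 : w.valuation 2 = 1) {s : Ω ≃ₐ[K] Ω}
    (hs : IsFrob K w s) : (cycK Ω K s : ℤ_[2]) = (resCard (below K w) : ℤ_[2]) :=
  ZqK_eq_of (ZqK_two h2) _ _ fun m _ hz => SmP.frob_root h2 hs m hz

/-- Continuity of the cyclotomic character. -/
theorem cycK_contK [Algebra.IsIntegral K Ω] (h2 : (2 : K) ≠ 0) (j : ℕ) : ∃ N ∈ NP K Ω, ∀ s ∈ N,
    ∃ b : ℤ_[2], (cycK Ω K s : ℤ_[2]) = 1 + 2 ^ j * b := by
  have h2O : (2 : Ω) ≠ 0 := by
    intro h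
    apply h2
    apply (algebraMap K Ω).injective
    rw [map_ofNat, map_zero, h]
  obtain ⟨ζ, hζ⟩ := SmP.exists_prim_root h2O j
  let f : (Ω ≃ₐ[K] Ω) →* (ZMod (2 ^ j))ˣ :=
    (Units.map ((PadicInt.toZModPow (p := 2) j : ℤ_[2] →+* ZMod (2 ^ j)) :
      ℤ_[2] →* ZMod (2 ^ j))).comp (cycK Ω K)
  have hf : ∀ s, ((f s : (ZMod (2 ^ j))ˣ) : ZMod (2 ^ j)) = SmP.cyc j s := fun s =>
    TTC.cycK_toZModPow h2O s j
  have hker : ∀ s, s ∈ f.ker ↔ SmP.cyc j s = 1 := by
    intro s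
    rw [MonoidHom.mem_ker, ← hf s, Units.val_eq_one]
  refine ⟨f.ker, ⟨inferInstance, ?_, ?_⟩, fun s hs => ZqK_one ?_⟩
  · have hint : IsIntegral K ζ := Algebra.IsIntegral.isIntegral ζ
    have hfd : FiniteDimensional K (IntermediateField.adjoin K {ζ}) :=
      IntermediateField.adjoin.finiteDimensional hint
    have h1 := IntermediateField.fixingSubgroup_isOpen (IntermediateField.adjoin K {ζ})
    refine Subgroup.isOpen_mono (H₁ := (IntermediateField.adjoin K {ζ}).fixingSubgroup) ?_ h1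
    intro s hs
    rw [hker]
    have h3 : s ζ = ζ ^ 1 := by
      rw [pow_one]
      exact (IntermediateField.mem_fixingSubgroup_iff _ _).1 hs ζ
        (IntermediateField.mem_adjoin_simple_self K ζ)
    rw [SmP.cyc_unique h2O j s hζ h3, Nat.cast_one]
  · rw [Subgroup.index_ker]
    have h3 : Nat.card f.range ∣ 2 ^ j := by
      refine (Subgroup.card_subgroup_dvd_card f.range).trans ?_
      rw [Nat.card_eq_fintype_card, ZMod.card_units_eq_totient]
      rcases Nat.eq_zero_or_pos j with rfl | hj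
      · simp
      · rw [Nat.totient_prime_pow Nat.prime_two hj]
        simp only [Nat.add_one_sub_one, mul_one]
        exact pow_dvd_pow 2 (Nat.sub_le j 1)
    obtain ⟨m, -, hm⟩ := (Nat.dvd_prime_pow Nat.prime_two).mp h3
    rw [hm, Nat.cast_pow, Nat.cast_ofNat]
    exact pow_ne_zero _ h2
  · rw [TTC.cycK_toZModPow h2O]
    exact (hker s).1 hs

end

end Pool.Agent.TTN
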