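import Pool.Agent.Lib.TTN.RepA
import Pool.Agent.Lib.TTN.ZqK

/-!
# Project TTN (MP_950c68_ag), module RepW: the determinant of the representation on the `2`-power
torsion of the Jacobian of `y ^ 2 = (x - a 0) (x - a 1) (x - a 2)` is the cyclotomic character

PROOF. `weilN k` in `SmNJ/Weil.lean` (use `k := K` or any field `k`; the structure does not
matter) gives the Weil pairing `e m x y = wM m x y` on `VN a` with values in `SmP.MuT Ω`: fields
`add_left`, `add_right`, `alt`, `comp`, `equiv`, `one` of `SmN.Weil` (`SmN/P/Weil.lean`). Put `P m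
= R.th ![qz (1 / 2 ^ m), 0]`, `Q m = R.th ![0, qz (1 / 2 ^ m)]` and `z m = e m (P m) (Q m)`. (1)
`2 • z (m + 1) = z m`: `e (m + 1) (2 P (m+1)) (Q (m+1)) = e (m + 1) (P m) (Q (m + 1)) = e m (P m)
(2 Q (m + 1)) = e m (P m) (Q m)` by `add_left` and `comp`. (2) `z 1 = hfM 1 ≠ 0`: `P 1`, `Q 1` are
`iotaN w`, `iotaN w'` for different nonzero `w, w' ∈ EV 1` (`iotaN_range`), `one` and `dotE w w' =
1` (`decide`-type: `EV 1` has `4` elements; `w, w'` are two of the three vectors with exactly one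
zero). So `n • z m = 0` iff `2 ^ m ∣ n`. (3) `s • z m = e m (s • P m) (s • Q m) = det(rho s) • z
m`: with `rho s` congruent modulo `2 ^ m` to an integer matrix `!![α, β; γ, δ]`, `s • P m = α P m
+ γ Q m`, `s • Q m = β P m + δ Q m`, and `e m` is alternating and bilinear. (4) `s • z m = cyc s •
z m`, since `z m` is a root of unity of order `2 ^ m` (`TTC.cycK_spec`). So `det (rho s) = cyc s`
modulo `2 ^ m` for all `m`. SOURCES: `Sm/P/Det.lean` (`dt_eq_cyc`), `TTC/EB.lean` (`EB_det`,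
`EB_gm`) do the same for curves with rational `2`-torsion.
-/

set_option autoImplicit false

open Pool.Agent.TTC (QZ mact red2 hf2 cycK)
open Pool.Agent.SmNJ Pool.Agent.SmJ

namespace Pool.Agent.TTN

/-! ### `ℚ_2 / ℤ_2` -/

private theorem RepW_qz_two (m : ℕ) :
    (2 : ℕ) • TTC.qz (1 / 2 ^ (m + 1)) = TTC.qz (1 / 2 ^ m) := by
  rw [TTC.qz_nsmul]
  congr 1
  rw [pow_succ]
  field_simp
  norm_num

private theorem RepW_qz_zero : TTC.qz (1 / 2 ^ 0) = 0 :=
  TTC.qz_eq_zero.mpr ⟨1, by norm_num⟩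

private theorem RepW_qz_one : TTC.qz (1 / 2 ^ 1) = hf2 1 := by
  have h := TTC.hf2_intCast 1
  rw [Int.cast_one, Int.cast_one] at h
  rw [h, pow_one]

private theorem RepW_smul_qz {c : ℤ_[2]} {n : ℤ} {m : ℕ}
    (h : PadicInt.toZModPow m c = (n : ZMod (2 ^ m))) :
    c • TTC.qz (1 / 2 ^ m) = n • TTC.qz (1 / 2 ^ m) := by
  have h1 : c - n ∈ RingHom.ker (PadicInt.toZModPow (p := 2) m) := by
    rw [RingHom.mem_ker, map_sub, h, map_intCast, sub_self]
  rw [PadicInt.ker_toZModPow, Ideal.mem_span_singleton] at h1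
  obtain ⟨d, hd⟩ := h1
  rw [TTC.qz_smul, TTC.qz_zsmul]
  refine TTC.qz_eq.mpr ⟨d, ?_⟩
  have h3 : (c : ℚ_[2]) = n + 2 ^ m * d := by
    have h4 : c = n + 2 ^ m * d := by
      push_cast at hd
      rw [← hd]
      ring
    rw [h4]
    push_cast
    rfl
  rw [h3]
  field_simp

private theorem RepW_pair (x : Fin 2 → QZ) :
    x = (Pi.single 0 (x 0) : Fin 2 → QZ) + (Pi.single 1 (x 1) : Fin 2 → QZ) := by
  funext i
  fin_cases i
  · simp
  · simp

/-! ### The compatible basis and the determinant -/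

section mat

variable {G V : Type} [Group G] [AddCommGroup V] [DistribMulAction G V] (R : Rep G V)

/-- the compatible basis of the images of `(1 / 2 ^ m, 0)` and `(0, 1 / 2 ^ m)` -/
private noncomputable def RepW_CB : SmP.CB V where
  P m := R.th (Pi.single 0 (TTC.qz (1 / 2 ^ m)))
  Q m := R.th (Pi.single 1 (TTC.qz (1 / 2 ^ m)))
  P_zero := by rw [RepW_qz_zero, Pi.single_zero, map_zero]
  Q_zero := by rw [RepW_qz_zero, Pi.single_zero, map_zero]
  P_succ m := by rw [← map_nsmul, ← Pi.single_smul, RepW_qz_two]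
  Q_succ m := by rw [← map_nsmul, ← Pi.single_smul, RepW_qz_two]
  span := by
    intro x hx
    obtain ⟨y, rfl⟩ := R.th.surjective x
    rw [← map_nsmul, EmbeddingLike.map_eq_zero_iff] at hx
    obtain ⟨w, hw⟩ := TTC.hf2_range (y 0) (congrFun hx 0)
    obtain ⟨w', hw'⟩ := TTC.hf2_range (y 1) (congrFun hx 1)
    refine ⟨(w.val : ℤ), (w'.val : ℤ), ?_⟩
    have h1 : ∀ w : ZMod 2, (w.val : ℤ) • hf2 1 = hf2 w := by
      intro w
      rw [← map_zsmul, zsmul_eq_mul, mul_one, Int.cast_natCast, ZMod.natCast_zmod_val]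
    rw [← map_zsmul, ← map_zsmul, ← map_add, RepW_qz_one, ← Pi.single_smul, ← Pi.single_smul, h1,
      h1, hw, hw', ← RepW_pair]
  indep := by
    intro c d h
    rw [← map_zsmul, ← map_zsmul, ← map_add, EmbeddingLike.map_eq_zero_iff, ← Pi.single_smul,
      ← Pi.single_smul] at h
    have h1 := congrFun h 0
    have h2 := congrFun h 1
    simp only [Pi.add_apply, Pi.single_eq_same, Pi.zero_apply] at h1 h2
    rw [Pi.single_eq_of_ne (by decide), add_zero, TTC.qz_zsmul_eq_zero, pow_one] at h1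
    rw [Pi.single_eq_of_ne (by decide), zero_add, TTC.qz_zsmul_eq_zero, pow_one] at h2
    exact ⟨h1, h2⟩

private theorem RepW_CB_P (m : ℕ) :
    (RepW_CB R).P m = R.th (Pi.single 0 (TTC.qz (1 / 2 ^ m))) := rfl

private theorem RepW_CB_Q (m : ℕ) :
    (RepW_CB R).Q m = R.th (Pi.single 1 (TTC.qz (1 / 2 ^ m))) := rfl

private theorem RepW_evv (m : ℕ) (x : Fin 2 → ℤ) :
    SmP.evv (RepW_CB R) m (fun i => (x i : ZMod (2 ^ m))) =
      R.th (fun i => x i • TTC.qz (1 / 2 ^ m)) := by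
  rw [SmP.evv, SmP.CB.ev_int, RepW_CB_P, RepW_CB_Q, ← map_zsmul, ← map_zsmul, ← map_add,
    ← Pi.single_smul, ← Pi.single_smul]
  congr 1
  exact (RepW_pair fun i => x i • TTC.qz (1 / 2 ^ m)).symm

private theorem RepW_gm (m : ℕ) (s : G) :
    SmP.gm (RepW_CB R) m s = (R.rho s).map (PadicInt.toZModPow m) := by
  have hn : ∀ i j, ∃ n : ℤ, PadicInt.toZModPow m (R.rho s i j) = (n : ZMod (2 ^ m)) := fun i j => by
    obtain ⟨n, hn⟩ := SmP.CB.exists_int m (PadicInt.toZModPow m (R.rho s i j))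
    exact ⟨n, hn.symm⟩
  choose n hn using hn
  refine SmP.mf_unique (RepW_CB R) m _ _ fun x => ?_
  obtain ⟨y, rfl⟩ : ∃ y : Fin 2 → ℤ, (fun i => (y i : ZMod (2 ^ m))) = x := by
    choose y hy using fun i => SmP.CB.exists_int m (x i)
    exact ⟨y, funext hy⟩
  have h1 : (((R.rho s).map (PadicInt.toZModPow m)).mulVec fun i => (y i : ZMod (2 ^ m))) =
      fun i => ((∑ j, n i j * y j : ℤ) : ZMod (2 ^ m)) := by
    funext i
    simp only [Matrix.mulVec, dotProduct, Matrix.map_apply, hn]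
    push_cast
    rfl
  rw [h1, RepW_evv, RepW_evv]
  change s • R.th _ = _
  rw [← R.act]
  congr 1
  funext i
  rw [TTC.mact_apply, Finset.sum_smul]
  refine Finset.sum_congr rfl fun j _ => ?_
  rw [smul_comm, RepW_smul_qz (hn i j), ← mul_smul, mul_comm]

private theorem RepW_toZMod_det (m : ℕ) (s : G) :
    PadicInt.toZModPow m (R.rho s).det = SmP.dt (RepW_CB R) m s := by
  rw [SmP.dt, RepW_gm, RingHom.map_det]
  rfl

end mat

/-! ### The Weil pairing of the basis -/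

section weil

variable {G V V1 Pl M : Type*} [Group G] [AddCommGroup V] [DistribMulAction G V]
  [AddCommGroup V1] [Module (ZMod 2) V1] [AddCommGroup M] [DistribMulAction G M]
  {S : SmN.Sys G V V1 Pl} {e : ℕ → V → V → M} {j : ZMod 2 →+ M}

private theorem RepW_z_succ (hw : SmN.Weil S e j) (B : SmP.CB V) (m : ℕ) :
    (2 : ℕ) • e (m + 1) (B.P (m + 1)) (B.Q (m + 1)) = e m (B.P m) (B.Q m) := by
  have hP : (2 : ℕ) ^ (m + 1) • B.P (m + 1) = 0 := B.tors_P (m + 1)
  have hQ : (2 : ℕ) ^ (m + 1) • B.Q (m + 1) = 0 := B.tors_Q (m + 1)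
  have h1 : e (m + 1) (B.P m) (B.Q (m + 1)) =
      (2 : ℕ) • e (m + 1) (B.P (m + 1)) (B.Q (m + 1)) := by
    have h2 := hw.add_left (m + 1) (B.P (m + 1)) (B.P (m + 1)) (B.Q (m + 1)) hP hP hQ
    rw [← two_nsmul, ← two_nsmul, B.P_succ] at h2
    exact h2
  rw [← h1, hw.comp m _ _ (B.tors_P m) hQ, B.Q_succ]

private theorem RepW_z_pow (hw : SmN.Weil S e j) (B : SmP.CB V) (m n : ℕ) :
    (2 : ℕ) ^ n • e (m + n) (B.P (m + n)) (B.Q (m + n)) = e m (B.P m) (B.Q m) := by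
  induction n with
  | zero => rw [pow_zero, one_smul, add_zero]
  | succ n ih => rw [pow_succ, mul_smul, ← add_assoc, RepW_z_succ hw, ih]

private theorem RepW_z_zero (hw : SmN.Weil S e j) (B : SmP.CB V) :
    e 0 (B.P 0) (B.Q 0) = 0 := by
  rw [B.P_zero]
  exact hw.zero_left (B.tors_Q 0)

private theorem RepW_smul_z (hw : SmN.Weil S e j) (B : SmP.CB V) (m : ℕ) (s : G)
    {a b c d : ℤ} (h1 : s • B.P m = a • B.P m + b • B.Q m)
    (h2 : s • B.Q m = c • B.P m + d • B.Q m) :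
    s • e m (B.P m) (B.Q m) = (a * d - b * c) • e m (B.P m) (B.Q m) := by
  rw [← hw.equiv m s _ _ (B.tors_P m) (B.tors_Q m), h1, h2]
  have h3 := hw.anti (B.tors_Q m) (B.tors_P m)
  have h4 := hw.alt m _ (B.tors_P m)
  have h5 := hw.alt m _ (B.tors_Q m)
  have h6 : hw.B m (a • ⟨B.P m, B.tors_P m⟩ + b • ⟨B.Q m, B.tors_Q m⟩)
      (c • ⟨B.P m, B.tors_P m⟩ + d • ⟨B.Q m, B.tors_Q m⟩) =
      (a * d - b * c) • e m (B.P m) (B.Q m) := by
    simp only [map_add, map_zsmul, AddMonoidHom.add_apply, AddMonoidHom.zsmul_apply, hw.B_apply]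
    rw [h3, h4, h5]
    module
  exact h6

end weil

private theorem RepW_dec : ∀ b c b' c' : ZMod 2, ¬ (b = 0 ∧ c = 0) → ¬ (b' = 0 ∧ c' = 0) →
    ¬ (b = b' ∧ c = c') → (b + c) * (b' + c') + b * b' + c * c' = 1 := by
  decide

private theorem RepW_fin3 (x y : Fin 3 → ZMod 2) (hx : ∑ i, x i = 0) (hy : ∑ i, y i = 0)
    (hx0 : x ≠ 0) (hy0 : y ≠ 0) (hxy : x ≠ y) : ∑ i, x i * y i = 1 := by
  rw [Fin.sum_univ_three] at hx hy ⊢
  have e1 : x 0 = x 1 + x 2 := by
    rw [← CharTwo.sub_eq_add (x 1) (x 2), ← sub_eq_zero, ← hx, CharTwo.sub_eq_add,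
      CharTwo.sub_eq_add]
    ring
  have e2 : y 0 = y 1 + y 2 := by
    rw [← CharTwo.sub_eq_add (y 1) (y 2), ← sub_eq_zero, ← hy, CharTwo.sub_eq_add,
      CharTwo.sub_eq_add]
    ring
  rw [e1, e2]
  refine RepW_dec _ _ _ _ ?_ ?_ ?_
  · rintro ⟨h1, h2⟩
    apply hx0
    funext i
    fin_cases i
    · change x 0 = 0
      rw [e1, h1, h2, add_zero]
    · exact h1
    · exact h2
  · rintro ⟨h1, h2⟩
    apply hy0
    funext i
    fin_cases i
    · change y 0 = 0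
      rw [e2, h1, h2, add_zero]
    · exact h1
    · exact h2
  · rintro ⟨h1, h2⟩
    apply hxy
    funext i
    fin_cases i
    · change x 0 = y 0
      rw [e1, e2, h1, h2]
    · exact h1
    · exact h2

variable {K Ω : Type} [Field K] [Field Ω] [Algebra K Ω] [IsSepClosed Ω] [Infinite Ω]
  {a : Fin (2 * 1 + 1) → Ω} [RtG K a] [HypA a]

private theorem RepW_dot (x y : SmJ.L.EV 1) (hx : x ≠ 0) (hy : y ≠ 0) (hxy : x ≠ y) :
    SmJ.L.dotE 1 x y = 1 := by
  rw [SmJ.L.dotE_apply]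
  exact RepW_fin3 x.1 y.1 x.2 y.2 (fun h => hx (Subtype.ext h)) (fun h => hy (Subtype.ext h))
    (fun h => hxy (Subtype.ext h))

omit [Infinite Ω] [IsSepClosed Ω] in
private theorem RepW_prim {z : ℕ → SmP.MuT Ω} (h0 : z 0 = 0)
    (hs : ∀ m, (2 : ℕ) • z (m + 1) = z m) (h1 : z 1 ≠ 0) (m : ℕ) :
    IsPrimitiveRoot (z m).el (2 ^ m) := by
  have hp : ∀ m n, (2 : ℕ) ^ n • z (m + n) = z m := by
    intro m n
    induction n with
    | zero => rw [pow_zero, one_smul, add_zero]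
    | succ n ih => rw [pow_succ, mul_smul, ← add_assoc, hs, ih]
  match m with
  | 0 =>
    rw [h0, SmP.MuT.el_zero, pow_zero]
    exact IsPrimitiveRoot.one
  | m + 1 =>
    have h3 : (z (m + 1)).el ^ 2 ^ m ≠ 1 := by
      rw [← SmP.MuT.el_nsmul, add_comm m 1, hp, ← SmP.MuT.el_zero]
      exact fun h => h1 (SmP.MuT.el_inj h)
    have h4 : (z (m + 1)).el ^ 2 ^ (m + 1) = 1 := by
      have h5 := hp 0 (m + 1)
      rw [zero_add, h0] at h5
      rw [← SmP.MuT.el_nsmul, h5, SmP.MuT.el_zero]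
    have : Fact (Nat.Prime 2) := ⟨Nat.prime_two⟩
    rw [← orderOf_eq_prime_pow (p := 2) (x := (z (m + 1)).el) (n := m) h3 h4]
    exact IsPrimitiveRoot.orderOf _

theorem det_VN (R : Rep (Ω ≃ₐ[K] Ω) (VN a)) (s : Ω ≃ₐ[K] Ω) :
    (R.rho s).det = (cycK Ω K s : ℤ_[2]) := by
  have h2Ω : (2 : Ω) ≠ 0 := RtG.two K (a := a)
  refine PadicInt.ext_of_toZModPow.mp fun m => ?_
  rw [RepW_toZMod_det, TTC.cycK_toZModPow h2Ω]
  set B := RepW_CB R with hB
  have hw := weilN (k := K) (K := K) (Ω := Ω) (a := a)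
  obtain ⟨x, y, u, v, h1, h3, h4⟩ := SmP.dt_int B m s
  have h5 := RepW_smul_z hw B m s h1 h3
  have hz1 : wM 1 ((B.P 1 : VN a) : JJ (ff a)) ((B.Q 1 : VN a) : JJ (ff a)) ≠ 0 := by
    have hP : (2 : ℕ) • B.P 1 = 0 := by
      have := B.tors_P 1
      rwa [pow_one] at this
    have hQ : (2 : ℕ) • B.Q 1 = 0 := by
      have := B.tors_Q 1
      rwa [pow_one] at this
    obtain ⟨w, hw1⟩ := iotaN_range _ hP
    obtain ⟨w', hw1'⟩ := iotaN_range _ hQ
    have e1 : w ≠ 0 := by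
      rintro rfl
      rw [map_zero] at hw1
      have h := (B.indep 1 0 (by rw [← hw1, smul_zero, zero_smul, add_zero])).1
      norm_num at h
    have e2 : w' ≠ 0 := by
      rintro rfl
      rw [map_zero] at hw1'
      have h := (B.indep 0 1 (by rw [← hw1', smul_zero, zero_smul, add_zero])).2
      norm_num at h
    have e3 : w ≠ w' := by
      rintro rfl
      have h := (B.indep 1 (-1) (by rw [← hw1, ← hw1', one_smul, neg_one_smul, add_neg_cancel])).1
      norm_num at h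
    rw [← hw1, ← hw1']
    intro h
    have h6 := hw.one w w'
    rw [show (sysN K K Ω a).e w w' = 1 from RepW_dot w w' e1 e2 e3] at h6
    have h7 : SmP.hfM Ω 1 = 0 := h6.symm.trans h
    have h8 := SmP.hfM_inj h2Ω (h7.trans (map_zero (SmP.hfM Ω)).symm)
    exact one_ne_zero h8
  have hpr := RepW_prim (z := fun m => wM m ((B.P m : VN a) : JJ (ff a))
    ((B.Q m : VN a) : JJ (ff a))) (RepW_z_zero hw B) (RepW_z_succ hw B) hz1 m
  have hz0 : (2 : ℕ) ^ m • wM m ((B.P m : VN a) : JJ (ff a)) ((B.Q m : VN a) : JJ (ff a)) = 0 := by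
    apply SmP.MuT.el_inj
    rw [SmP.MuT.el_nsmul, SmP.MuT.el_zero]
    exact hpr.pow_eq_one
  have h6 : s • wM m ((B.P m : VN a) : JJ (ff a)) ((B.Q m : VN a) : JJ (ff a)) =
      ((x * v - y * u : ℤ) : ZMod (2 ^ m)).val •
        wM m ((B.P m : VN a) : JJ (ff a)) ((B.Q m : VN a) : JJ (ff a)) := by
    refine h5.trans ?_
    rw [← natCast_zsmul, ← sub_eq_zero, ← sub_smul]
    have h7 : ((2 ^ m : ℕ) : ℤ) ∣ (x * v - y * u) - (((x * v - y * u : ℤ) : ZMod (2 ^ m)).val : ℤ) := by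
      rw [← ZMod.intCast_zmod_eq_zero_iff_dvd, Int.cast_sub, Int.cast_natCast,
        ZMod.natCast_zmod_val, sub_self]
    obtain ⟨t, ht⟩ := h7
    rw [ht, mul_comm, mul_smul, natCast_zsmul, hz0, smul_zero]
  have h7 := congrArg SmP.MuT.el h6
  rw [SmP.MuT.el_smul, SmP.MuT.el_nsmul] at h7
  rw [h4, SmP.cyc_unique h2Ω m s hpr h7, ZMod.natCast_zmod_val]

end Pool.Agent.TTN
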