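import Pool.Agent.Lib.TTN.LocF
import Pool.Agent.Lib.TTN.RepC
import Pool.Agent.Lib.TTN.RepW
import Pool.Agent.Lib.TTN.PureA
import Pool.Agent.Lib.TTN.Dich
import Pool.Agent.Lib.TTN.BrV

/-!
# Project TTN (MP_950c68_ag), module LocK: the local structure of `n` elliptic curves at a place
of `K`

At every place `v` of `K`, inside every open subgroup: a tame generator and a Frobenius element
over a
finite extension at which every curve has good or multiplicative reduction.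

PROOF. Let `w = abK Ω v`, `w ≠ ⊤`. (1) Let `U' = U ⊓ N` with `N` = the intersection over `i` of
the `N i ∈ NP K Ω` of `cont_VN` for `j = 2`: on `N` every `(R i).rho s = 1 + 4 B`. `exists_F` with
`U'` and the finite set `S` of all `a i j`, a square root of every `a i j - a i l`, and a square
root of `-1`. (2) `exists_locF`: `π : F` with `LocHyp F w π`; `CharOk w` (`charOk_of_finite k K
w`). `τ' = exists_isTG`, `φ' = exists_frob` over `F` (`GBU/TG.lean`, `GBU/Plc.lean`; `Finite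
(ResidueField (below F w))` is `LocHyp.fin`). `τ = τ'.restrictScalars K`, `φ = φ'.restrictScalars
K`: they fix `F`, so they are in `U'`; `restrictScalars_mem_dec` (`SmNJ/E6N.lean`): in `dec K w =
dvK Ω v`. `q = resCard (below F w) > 1` (`Finite.one_lt_card`), odd (`2` is a unit at `w`). `cycK
Ω K τ = cycK Ω F τ' = 1` and `cycK Ω K φ = q` (`cycK_inerK`, `cycK_frobK` over `F`; `cycK Ω K
(s.restrictScalars K) = cycK Ω F s` is `rfl`).
(3) Over `F`: `rho' i = (R i).rho.comp (restriction of scalars)` satisfies the continuity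
hypothesis of `iner_one`, `tame_rho` (`cont_VN` and `comap_NP`). So `P S = S ^ q P` for `S = (R
i).rho τ`, `P = (R i).rho φ`; `det S = 1`, `det P = q` (`det_VN`); `S = 1 + 4 B`: `tame_rel`
(module PureA) gives `(S - 1) ^ 2 = 0` and, if `S ≠ 1`, the `lam`.
(4) `A` = the set of `i` with `(R i).rho τ ≠ 1`. If `i ∉ A` then `iner_one` over `F`: `iner F w`
acts trivially on `VN (a i)` (`Rep.rho_eq_one`), so on `VV Ω e₀ e₁ e₂` by `exists_brV` (`eⱼ ∈ F`
the element `a i j`): the second case of `dich` (over `F`) is impossible, so the first one holds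
and gives the quadratic relation for `φ'`, transport by `exists_brV`, `Rep.rho_quad`. (`h3 :
w.valuation 3 = 1`: `3 ≠ 0` in `k`, `val_const_of_finite`.)
-/

set_option autoImplicit false

open Pool.Agent.TTC (QZ mact red2 hf2 cycK)
open Pool.Agent.SmNJ Pool.Agent.SmJ Pool.Agent.BSDFF Pool.Agent.GBU Pool.Agent.Lib.SmD

namespace Pool.Agent.TTN

private theorem LocK_two {k : Type} [Field k] (h6 : (6 : k) ≠ 0) : (2 : k) ≠ 0 := by
  intro h
  apply h6
  have : (6 : k) = 2 * 3 := by norm_num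
  rw [this, h, zero_mul]

private theorem LocK_three {k : Type} [Field k] (h6 : (6 : k) ≠ 0) : (3 : k) ≠ 0 := by
  intro h
  apply h6
  have : (6 : k) = 2 * 3 := by norm_num
  rw [this, h, mul_zero]

private theorem LocK_ne {k K Ω : Type} [Field k] [Field K] [Algebra k K] [Field Ω] [Algebra K Ω]
    {n : ℕ} (h : (n : k) ≠ 0) : (n : Ω) ≠ 0 := by
  intro h0
  apply h
  apply ((algebraMap K Ω).comp (algebraMap k K)).injective
  rw [map_natCast, map_zero, h0]

private theorem LocK_map {k K Ω : Type} [Field k] [Field K] [Algebra k K] [Field Ω] [Algebra K Ω]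
    (h : (2 : k) ≠ 0) : (2 : Ω) ≠ 0 := by
  have := LocK_ne (k := k) (K := K) (Ω := Ω) (n := 2) (by exact_mod_cast h)
  exact_mod_cast this

section

variable {k K Ω : Type} [Field k] [Finite k] [Field K] [Algebra k K] [Algebra (RatFunc k) K]
  [IsScalarTower k (RatFunc k) K] [FiniteDimensional (RatFunc k) K]
  [Algebra.IsSeparable (RatFunc k) K] [Field Ω] [Algebra K Ω] [IsSepClosure K Ω]
  {ι : Type} [Fintype ι] [DecidableEq ι]
  {a : ι → Fin (2 * 1 + 1) → Ω} [∀ i, RtG K (a i)] [∀ i, HypA (a i)]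

theorem exists_loc (h6 : (6 : k) ≠ 0) (hsum : ∀ i, a i 0 + a i 1 + a i 2 = 0)
    (R : ∀ i, Rep (Ω ≃ₐ[K] Ω) (VN (a i))) (v : Place k K) {U : Subgroup (Ω ≃ₐ[K] Ω)}
    (hU : IsOpen (U : Set (Ω ≃ₐ[K] Ω))) :
    ∃ (q : ℕ) (A : Finset ι) (τ φ : Ω ≃ₐ[K] Ω), 1 < q ∧
      τ ∈ dvK Ω v ∧ τ ∈ U ∧ φ ∈ dvK Ω v ∧ φ ∈ U ∧
      (cycK Ω K τ : ℤ_[2]) = 1 ∧ (cycK Ω K φ : ℤ_[2]) = q ∧
      (∀ i, i ∉ A → (R i).rho τ = 1 ∧ ∃ t : ℤ, t ^ 2 ≤ 4 * (q : ℤ) ∧
        (R i).rho φ ^ 2 - (t : ℤ_[2]) • (R i).rho φ +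
          (q : ℤ_[2]) • (1 : Matrix (Fin 2) (Fin 2) ℤ_[2]) = 0) ∧
      ∀ i ∈ A, (R i).rho τ ≠ 1 ∧ ((R i).rho τ - 1) * ((R i).rho τ - 1) = 0 ∧
        ((R i).rho φ).det = (q : ℤ_[2]) ∧ ∃ lam : ℤ_[2], (lam = 1 ∨ lam = -1) ∧
          (R i).rho φ * ((R i).rho τ - 1) = (lam * q) • ((R i).rho τ - 1) := by
  classical
  have hGal : IsGalois K Ω := IsSepClosure.isGalois
  have hsc : IsSepClosed Ω := IsSepClosure.sep_closed K
  have hinfR : Infinite (RatFunc k) :=
    Infinite.of_injective _ (IsFractionRing.injective (Polynomial k) (RatFunc k))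
  have hinfK : Infinite K := Infinite.of_injective _ (algebraMap (RatFunc k) K).injective
  have hinfΩ : Infinite Ω := Infinite.of_injective _ (algebraMap K Ω).injective
  have h2k : (2 : k) ≠ 0 := LocK_two h6
  have h3k : (3 : k) ≠ 0 := LocK_three h6
  have h2Ω : (2 : Ω) ≠ 0 := LocK_map (K := K) h2k
  have h3Ω : (3 : Ω) ≠ 0 := by
    have := LocK_ne (k := k) (K := K) (Ω := Ω) (n := 3) (by exact_mod_cast h3k)
    exact_mod_cast this
  have h6K : (6 : K) ≠ 0 := by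
    intro h
    apply h6
    apply (algebraMap k K).injective
    rw [map_ofNat, map_zero, h]
  have hwtop : abK Ω v ≠ ⊤ := abK_ne_top Ω v
  have hchar : CharOk (abK Ω v) := charOk_of_finite k K (abK Ω v)
  -- the open subgroup on which all the matrices are `1` modulo `4`
  choose N hN hNB using fun i => cont_VN (K := K) h6K (R i) 2
  have hN0 : IsOpen ((U ⊓ ⨅ i, N i : Subgroup (Ω ≃ₐ[K] Ω)) : Set (Ω ≃ₐ[K] Ω)) := by
    rw [Subgroup.coe_inf, Subgroup.coe_iInf]
    exact hU.inter (isOpen_iInter_of_finite fun i => NP.isOpen (hN i))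
  -- the finite extension
  have hsq : ∀ x : Ω, ∃ y : Ω, y ^ 2 = x := fun x => by
    have : NeZero ((2 : ℕ) : Ω) := ⟨by exact_mod_cast h2Ω⟩
    exact IsSepClosed.exists_pow_nat_eq x 2
  choose r hr using hsq
  let S : Set Ω := (Set.range fun p : ι × Fin (2 * 1 + 1) => a p.1 p.2) ∪
    (Set.range fun p : ι × Fin (2 * 1 + 1) × Fin (2 * 1 + 1) =>
      r (a p.1 p.2.1 - a p.1 p.2.2)) ∪ {r (-1)}
  have hSfin : S.Finite := ((Set.finite_range _).union (Set.finite_range _)).union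
    (Set.finite_singleton _)
  obtain ⟨F, hFfin, hSF, hFU⟩ := exists_F hN0 hSfin
  have ha : ∀ i j, a i j ∈ F := fun i j => hSF (Or.inl (Or.inl ⟨(i, j), rfl⟩))
  have hra : ∀ i j l, r (a i j - a i l) ∈ F := fun i j l =>
    hSF (Or.inl (Or.inr ⟨(i, j, l), rfl⟩))
  have hr1 : r (-1) ∈ F := hSF (Or.inr rfl)
  have hsqF : ∀ (x : F) (_ : r (x : Ω) ∈ F), IsSquare x := fun x hx =>
    ⟨⟨r (x : Ω), hx⟩, Subtype.ext (by
      show (x : Ω) = r (x : Ω) * r (x : Ω)
      rw [← pow_two, hr])⟩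
  obtain ⟨π, hL⟩ := exists_locF h2k F hwtop
  have hfin : Finite (IsLocalRing.ResidueField (below F (abK Ω v))) := hL.fin
  obtain ⟨τ', hτ'⟩ := exists_isTG (K := F) hL hchar
  obtain ⟨φ', hφ'⟩ := Pool.Agent.Lib.SmD.exists_frob (K := F) (abK Ω v)
  have hq : 1 < resCard (below F (abK Ω v)) := Finite.one_lt_card
  have hodd : Odd (resCard (below F (abK Ω v))) := by
    obtain ⟨m, hm⟩ := Pool.Agent.SmJ.E6.exists_half_resCard hL
    exact ⟨m, hm⟩
  have hfix : ∀ s : Ω ≃ₐ[F] Ω, AlgEquiv.restrictScalars K s ∈ F.fixingSubgroup := by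
    intro s
    rw [IntermediateField.mem_fixingSubgroup_iff]
    intro x hx
    exact s.commutes ⟨x, hx⟩
  have hNm : ∀ (s : Ω ≃ₐ[F] Ω) (i : ι), AlgEquiv.restrictScalars K s ∈ N i := fun s i =>
    (Subgroup.mem_iInf.1 (Subgroup.mem_inf.1 (hFU (hfix s))).2) i
  have hUm : ∀ s : Ω ≃ₐ[F] Ω, AlgEquiv.restrictScalars K s ∈ U := fun s =>
    (Subgroup.mem_inf.1 (hFU (hfix s))).1
  -- the representations over `F`
  let rh : ι → (Ω ≃ₐ[F] Ω) →* Matrix (Fin 2) (Fin 2) ℤ_[2] := fun i =>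
    (R i).rho.comp (AlgEquiv.restrictScalarsHom K)
  have hrh : ∀ i s, rh i s = (R i).rho (AlgEquiv.restrictScalars K s) := fun i s => rfl
  have hc : ∀ (i : ι) (j : ℕ), ∃ N' ∈ NP F Ω, ∀ s ∈ N',
      ∃ B : Matrix (Fin 2) (Fin 2) ℤ_[2], rh i s = 1 + (2 : ℤ_[2]) ^ j • B := by
    intro i j
    obtain ⟨M, hM, hMB⟩ := cont_VN (K := K) h6K (R i) j
    obtain ⟨N', hN', hle⟩ := comap_NP F hM
    exact ⟨N', hN', fun s hs => hMB _ (hle s hs)⟩
  have hw2 : (abK Ω v).valuation 2 = 1 := hL.two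
  have hcτ : cycK Ω K (AlgEquiv.restrictScalars K τ') = 1 := cycK_inerK (K := F) hw2 hτ'.mem
  have hcφ : (cycK Ω K (AlgEquiv.restrictScalars K φ') : ℤ_[2]) =
      (resCard (below F (abK Ω v)) : ℤ_[2]) := cycK_frobK (K := F) hw2 hφ'
  refine ⟨resCard (below F (abK Ω v)),
    Finset.univ.filter (fun i => (R i).rho (AlgEquiv.restrictScalars K τ') ≠ 1),
    AlgEquiv.restrictScalars K τ', AlgEquiv.restrictScalars K φ', hq,
    (restrictScalars_mem_dec K F _ τ').2 hτ'.mem.1, hUm τ',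
    (restrictScalars_mem_dec K F _ φ').2 hφ'.mem, hUm φ', ?_, hcφ, ?_, ?_⟩
  · rw [hcτ, Units.val_one]
  · intro i hi
    have h1 : (R i).rho (AlgEquiv.restrictScalars K τ') = 1 := by
      by_contra h
      exact hi (Finset.mem_filter.2 ⟨Finset.mem_univ _, h⟩)
    refine ⟨h1, ?_⟩
    have hin : ∀ s ∈ iner F (abK Ω v), rh i s = 1 := iner_one (K := F) hτ' (hc i) h1
    obtain ⟨β, hβ⟩ := exists_brV (a := a i) F (e₀ := ⟨a i 0, ha i 0⟩) (e₁ := ⟨a i 1, ha i 1⟩)
      (e₂ := ⟨a i 2, ha i 2⟩) rfl rfl rfl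
    have hinj := RtG.inj K (a := a i)
    have hne : ∀ j l : Fin (2 * 1 + 1), j ≠ l → (⟨a i j, ha i j⟩ : F) ≠ ⟨a i l, ha i l⟩ := by
      intro j l hjl h
      exact hjl (hinj (congrArg Subtype.val h))
    have hsqd : ∀ j l : Fin (2 * 1 + 1),
        IsSquare ((⟨a i j, ha i j⟩ : F) - ⟨a i l, ha i l⟩) := fun j l =>
      hsqF _ (hra i j l)
    have hsqm : IsSquare (-1 : F) := hsqF (-1) (by simpa using hr1)
    have hw3 : (abK Ω v).valuation (3 : Ω) = 1 := by
      have := hchar 3 (by exact_mod_cast h3Ω)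
      exact_mod_cast this
    have hsum' : (⟨a i 0, ha i 0⟩ : F) + ⟨a i 1, ha i 1⟩ + ⟨a i 2, ha i 2⟩ = 0 :=
      Subtype.ext (hsum i)
    rcases dich (K := F) hL hw3 hsum' (hne 0 1 (by decide)) (hne 0 2 (by decide))
      (hne 1 2 (by decide)) (hsqd 0 1) (hsqd 0 2) (hsqd 1 2) hsqm with ⟨-, h⟩ | ⟨s, hs, Q, hQ⟩
    · obtain ⟨t, ht, htQ⟩ := h φ' hφ'
      refine ⟨t, ht, Rep.rho_quad (R i) fun Q => ?_⟩
      obtain ⟨P, rfl⟩ := β.surjective Q
      rw [← hβ, ← hβ, ← map_zsmul, ← map_zsmul, ← map_sub, ← map_add, htQ, map_zero]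
    · exfalso
      apply hQ
      apply β.injective
      rw [hβ]
      exact (Rep.rho_eq_one (R i)).1 (hin s hs) (β Q)
  · intro i hi
    have h1 : (R i).rho (AlgEquiv.restrictScalars K τ') ≠ 1 := (Finset.mem_filter.1 hi).2
    have hdS : ((R i).rho (AlgEquiv.restrictScalars K τ')).det = 1 := by
      rw [det_VN, hcτ, Units.val_one]
    have hdP : ((R i).rho (AlgEquiv.restrictScalars K φ')).det =
        (resCard (below F (abK Ω v)) : ℤ_[2]) := by
      rw [det_VN, hcφ]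
    have hS4 : ∃ B : Matrix (Fin 2) (Fin 2) ℤ_[2],
        (R i).rho (AlgEquiv.restrictScalars K τ') = 1 + (4 : ℤ_[2]) • B := by
      obtain ⟨B, hB⟩ := hNB i _ (hNm τ' i)
      refine ⟨B, ?_⟩
      rw [hB]
      norm_num
    have htame : (R i).rho (AlgEquiv.restrictScalars K φ') *
        (R i).rho (AlgEquiv.restrictScalars K τ') =
        (R i).rho (AlgEquiv.restrictScalars K τ') ^ resCard (below F (abK Ω v)) *
          (R i).rho (AlgEquiv.restrictScalars K φ') :=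
      tame_rho (K := F) hL hchar hφ' hτ'.mem (rho := rh i) (hc i)
    obtain ⟨h2, h3⟩ := tame_rel hodd hq hS4 hdS hdP htame
    exact ⟨h1, h2, hdP, h3 h1⟩

end

end Pool.Agent.TTN
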