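import Pool.Agent.Lib.TTN.NestS

/-!
# Project TTN (MP_950c68_ag), module NestN: independent twists of the curves

PROOF. More generally, for every finite type `ι`, `A₀ B₀ : ι → K`, and `A B : Fin n → K` with
`Indep k (Sum.elim A₀ A) (Sum.elim B₀ B)` and `Tup k A₀ B₀`: `Nested k n fun D => Tup k (Sum.elim
A₀ (fun i => A i * D i ^ 2)) (Sum.elim B₀ (fun i => B i * D i ^ 3))`. Induction on `n`. `n = 0`:
`Tup` is invariant under bijections of the index sets (compose `g` with the bijection). `n + 1`:
`nest_step` for `Option ι` with `none ↦ (A 0, B 0)`: for almost all `d` the family `Option ι` with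
`(A 0 d ^ 2, B 0 d ^ 3)` at `none` satisfies `Tup`; for each such `d ≠ 0` the induction hypothesis
for `Option ι` and `A ∘ Fin.succ` applies: `Indep` is stable under `(a, b) ↦ (a d ^ 2, b d ^ 3)`
at one index (the roots are multiplied by `d`, the discriminant by `d ^ 6 = (d ^ 3) ^ 2`, which
goes into `s`) and under bijections, and `Nested` is monotone in `P` and `(Option ι) ⊕ Fin n ≃ ι ⊕
Fin (n + 1)`. The set of the bad `d` for `Nested` is contained in that of `nest_step` (and `d :
Kˣ` in `Twists`). Start with `ι = Empty` (or `Fin 0`). `Twists k N True` is finite: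
`SmNH.Fnl.twists_EH` or `SmN.Fnl.pairs_E`.
-/

set_option autoImplicit false

open Polynomial Pool.Agent.SmN.Stm

namespace Pool.Agent.TTN

section aux

variable {k K : Type} [Field k] [Field K] [Algebra k K]

private theorem nestn_indep_comp {ι κ : Type} {A B : κ → K} (h : Indep k A B) (φ : ι → κ)
    (hφ : Function.Injective φ) : Indep k (fun i => A (φ i)) (fun i => B (φ i)) := by
  classical
  refine ⟨fun i x => h.root (φ i) x, fun J hJ c s hc he => ?_⟩
  refine h.disc (J.map ⟨φ, hφ⟩) (Finset.map_nonempty.2 hJ) c s hc ?_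
  rw [Finset.prod_map]
  exact he

private theorem nestn_indep_tw {κ : Type} {A B : κ → K} (h : Indep k A B) (e : κ → K)
    (he : ∀ i, e i ≠ 0) : Indep k (fun i => A i * e i ^ 2) (fun i => B i * e i ^ 3) := by
  refine ⟨fun i x h0 => ?_, fun J hJ c s hc h0 => ?_⟩
  · refine h.root i (x / e i) ?_
    have h1 : e i ^ 3 * ((x / e i) ^ 3 + A i * (x / e i) + B i) =
        x ^ 3 + A i * e i ^ 2 * x + B i * e i ^ 3 := by
      have h2 := he i
      field_simp
    rw [h0] at h1
    exact (mul_eq_zero.1 h1).resolve_left (pow_ne_zero 3 (he i))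
  · have h1 : (∏ i ∈ J, e i ^ 3) ≠ 0 := Finset.prod_ne_zero_iff.2 fun i _ => pow_ne_zero 3 (he i)
    refine h.disc J hJ c (s / ∏ i ∈ J, e i ^ 3) hc ?_
    have h2 : ∏ i ∈ J, (-4 * (A i * e i ^ 2) ^ 3 - 27 * (B i * e i ^ 3) ^ 2) =
        (∏ i ∈ J, (-4 * A i ^ 3 - 27 * B i ^ 2)) * (∏ i ∈ J, e i ^ 3) ^ 2 := by
      rw [← Finset.prod_pow, ← Finset.prod_mul_distrib]
      refine Finset.prod_congr rfl fun i _ => ?_
      ring
    rw [h2] at h0
    rw [div_pow, mul_div_assoc', eq_div_iff (pow_ne_zero 2 h1)]
    exact h0

private theorem nestn_tup_comp {ι κ : Type} {A B : κ → K} (h : Tup k A B) (φ : ι → κ)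
    (hφ : Function.Injective φ) : Tup k (fun i => A (φ i)) (fun i => B (φ i)) :=
  ⟨fun m g hg hm h3 => h.tensor m (fun j => φ (g j)) (hφ.comp hg) hm h3, fun i => h.ord (φ i)⟩

private theorem nestn_num (hfin : ∀ N, (Twists k N fun _ : K => True).Finite) (N : ℕ)
    {P Q : K → Prop} (h : ∀ d : K, d ≠ 0 → P d → Q d) : num k N P ≤ num k N Q := by
  refine Nat.cast_le.2 (Set.ncard_le_ncard ?_ ((hfin N).subset ?_))
  · rintro c ⟨d, h1, h2, h3⟩
    exact ⟨d, h1, h2, h _ d.ne_zero h3⟩
  · rintro c ⟨d, h1, h2, h3⟩
    exact ⟨d, h1, h2, trivial⟩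

private theorem nestn_mono_all (hfin : ∀ N, (Twists k N fun _ : K => True).Finite)
    {P Q : ℕ → K → Prop} (h : ∀ j, ∀ d : K, d ≠ 0 → P j d → Q j d) (hP : AlmostAll k P) :
    AlmostAll k Q := by
  intro ε hε
  obtain ⟨j, N₀, h1⟩ := hP ε hε
  refine ⟨j, N₀, fun N hN => le_trans ?_ (h1 N hN)⟩
  exact nestn_num hfin N fun d hd h2 h3 => h2 (h j d hd h3)

private theorem nestn_mono (hfin : ∀ N, (Twists k N fun _ : K => True).Finite) (n : ℕ) :
    ∀ {P Q : (Fin n → K) → Prop}, (∀ D, P D → Q D) → Nested k n P → Nested k n Q := by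
  induction n with
  | zero =>
    intro P Q h hP
    exact h _ hP
  | succ n ih =>
    intro P Q h hP
    exact nestn_mono_all hfin (fun _ d _ h1 => ih (fun D => h _) h1) hP

end aux

section gen

variable (k K : Type) [Field k] [Finite k] [Field K] [Algebra k K] [Algebra.EssFiniteType k K]

private theorem nestn_gen (hK : Algebra.trdeg k K = 1) (h6 : (6 : k) ≠ 0)
    (hfin : ∀ N, (Twists k N fun _ : K => True).Finite) (n : ℕ) :
    ∀ (ι : Type) [Finite ι] (A₀ B₀ : ι → K) (A B : Fin n → K),
      Indep k (Sum.elim A₀ A) (Sum.elim B₀ B) → Tup k A₀ B₀ →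
      Nested k n fun D => Tup k (Sum.elim A₀ (fun i => A i * D i ^ 2))
        (Sum.elim B₀ (fun i => B i * D i ^ 3)) := by
  induction n with
  | zero =>
    intro ι _ A₀ B₀ A B hI h0
    have h1 := nestn_tup_comp h0 (fun x : ι ⊕ Fin 0 => x.elim id fun i => i.elim0) (by
      rintro (x | x) (y | y) h
      · exact congrArg Sum.inl h
      · exact y.elim0
      · exact x.elim0
      · exact x.elim0)
    have e : ∀ (f : ι → K) (g : Fin 0 → K), Sum.elim f g =
        fun x : ι ⊕ Fin 0 => f (x.elim id fun i => i.elim0) := by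
      intro f g
      funext x
      rcases x with x | x
      · rfl
      · exact x.elim0
    show Tup k (Sum.elim A₀ _) (Sum.elim B₀ _)
    rw [e A₀, e B₀]
    exact h1
  | succ n ih =>
    intro ι _ A₀ B₀ A B hI h0
    have hφ : Function.Injective (fun i : Option ι => (i.elim (Sum.inr 0) Sum.inl :
        ι ⊕ Fin (n + 1))) := by
      rintro (_ | i) (_ | j) h
      · rfl
      · exact absurd h (by simp)
      · exact absurd h (by simp)
      · exact congrArg some (Sum.inl_injective h)
    have h1 : Indep k (fun i : Option ι => i.elim (A 0) A₀) (fun i => i.elim (B 0) B₀) := by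
      have h2 := nestn_indep_comp hI _ hφ
      have e : ∀ (f : ι → K) (g : Fin (n + 1) → K), (fun i : Option ι => i.elim (g 0) f) =
          fun i : Option ι => Sum.elim f g (i.elim (Sum.inr 0) Sum.inl) := by
        intro f g
        funext i
        rcases i with _ | i <;> rfl
      rw [e A₀ A, e B₀ B]
      exact h2
    have h3 := nest_step k K hK h6 h1 h0
    show AlmostAll k _
    refine nestn_mono_all hfin (fun _ d hd h4 => ?_) h3
    -- the family with one more curve
    have h5 : Indep k (Sum.elim (fun i : Option ι => i.elim (A 0 * d ^ 2) A₀)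
        fun j => A (Fin.succ j)) (Sum.elim (fun i : Option ι => i.elim (B 0 * d ^ 3) B₀)
        fun j => B (Fin.succ j)) := by
      have hψ : Function.Injective (fun x : Option ι ⊕ Fin n =>
          (x.elim (fun i => i.elim (Sum.inr 0) Sum.inl) fun j => Sum.inr (Fin.succ j) :
            ι ⊕ Fin (n + 1))) := by
        rintro ((_ | i) | i) ((_ | j) | j) h
        · rfl
        · exact absurd h (by simp)
        · exact absurd (Sum.inr_injective h) (Fin.succ_ne_zero _).symm
        · exact absurd h (by simp)
        · exact congrArg (fun z => Sum.inl (some z)) (Sum.inl_injective h)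
        · exact absurd h (by simp)
        · exact absurd (Sum.inr_injective h) (Fin.succ_ne_zero _)
        · exact absurd h (by simp)
        · exact congrArg Sum.inr (Fin.succ_injective _ (Sum.inr_injective h))
      have h6 := nestn_indep_tw (nestn_indep_comp hI _ hψ)
        (fun x : Option ι ⊕ Fin n => x.elim (fun i => i.elim d fun _ => 1) fun _ => 1) (by
          rintro ((_ | i) | i)
          · exact hd
          · exact one_ne_zero
          · exact one_ne_zero)
      have e : ∀ (f : ι → K) (g : Fin (n + 1) → K) (r : ℕ),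
          (Sum.elim (fun i : Option ι => i.elim (g 0 * d ^ r) f) fun j => g (Fin.succ j)) =
          fun x : Option ι ⊕ Fin n => Sum.elim f g
            (x.elim (fun i => i.elim (Sum.inr 0) Sum.inl) fun j => Sum.inr (Fin.succ j)) *
            (x.elim (fun i => i.elim d fun _ => 1) fun _ => (1 : K)) ^ r := by
        intro f g r
        funext x
        rcases x with (_ | i) | i
        · rfl
        · show f i = f i * 1 ^ r
          rw [one_pow, mul_one]
        · show g (Fin.succ i) = g (Fin.succ i) * 1 ^ r
          rw [one_pow, mul_one]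
      rw [e A₀ A 2, e B₀ B 3]
      exact h6
    have h7 := ih (Option ι) _ _ _ _ h5 h4
    refine nestn_mono hfin n (fun D hD => ?_) h7
    have hχ : Function.Injective (fun x : ι ⊕ Fin (n + 1) =>
        (x.elim (fun i => Sum.inl (some i)) fun j => Fin.cases (Sum.inl none) Sum.inr j :
          Option ι ⊕ Fin n)) := by
      rintro (i | i) (j | j) h
      · exact congrArg Sum.inl (Option.some_injective _ (Sum.inl_injective h))
      · refine Fin.cases ?_ (fun j => ?_) j h
        · intro h
          exact absurd (Sum.inl_injective h) (by simp)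
        · intro h
          exact absurd h (by simp)
      · refine Fin.cases ?_ (fun i => ?_) i h
        · intro h
          exact absurd (Sum.inl_injective h) (by simp)
        · intro h
          exact absurd h (by simp)
      · refine Fin.cases ?_ (fun i => ?_) i h
        · refine Fin.cases (fun _ => rfl) (fun j h => ?_) j
          exact absurd h (by simp)
        · refine Fin.cases (fun h => ?_) (fun j h => ?_) j
          · exact absurd h (by simp)
          · have h8 : i = j := Sum.inr_injective h
            rw [h8]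
    have h8 := nestn_tup_comp hD _ hχ
    have e : ∀ (f : ι → K) (g : Fin (n + 1) → K) (r : ℕ),
        (Sum.elim f fun i => g i * (Fin.cons d D : Fin (n + 1) → K) i ^ r) =
        fun x : ι ⊕ Fin (n + 1) =>
          Sum.elim (fun i : Option ι => i.elim (g 0 * d ^ r) f)
            (fun j => g (Fin.succ j) * D j ^ r)
            (x.elim (fun i => Sum.inl (some i)) fun j => Fin.cases (Sum.inl none) Sum.inr j) := by
      intro f g r
      funext x
      rcases x with x | x
      · rfl
      · refine Fin.cases ?_ (fun j => ?_) x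
        · rfl
        · rfl
    show Tup k (Sum.elim A₀ fun i => A i * (Fin.cons d D : Fin (n + 1) → K) i ^ 2)
      (Sum.elim B₀ fun i => B i * (Fin.cons d D : Fin (n + 1) → K) i ^ 3)
    rw [e A₀ A 2, e B₀ B 3]
    exact h8

end gen

variable (k K : Type) [Field k] [Finite k] [Field K] [Algebra k K] [Algebra.EssFiniteType k K]

/-- **Independent twists.** -/
theorem nested_all (hK : Algebra.trdeg k K = 1) (h6 : (6 : k) ≠ 0) {n : ℕ} {A B : Fin n → K}
    (hI : Indep k A B) :
    Nested k n fun D => Tup k (fun i => A i * D i ^ 2) (fun i => B i * D i ^ 3) := by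
  have hfin : ∀ N, (Twists k N fun _ : K => True).Finite := by
    intro N
    rw [SmNH.Fnl.twists_self]
    exact (SmN.Fnl.pairs_E hK h6).1 N
  have h1 : Indep k (Sum.elim (Empty.elim : Empty → K) A) (Sum.elim (Empty.elim : Empty → K) B) := by
    have h2 := nestn_indep_comp hI (fun x : Empty ⊕ Fin n => x.elim Empty.elim id) (by
      rintro (x | x) (y | y) h
      · exact x.elim
      · exact x.elim
      · exact y.elim
      · exact congrArg Sum.inr h)
    have e : ∀ g : Fin n → K, Sum.elim (Empty.elim : Empty → K) g =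
        fun x : Empty ⊕ Fin n => g (x.elim Empty.elim id) := by
      intro g
      funext x
      rcases x with x | x
      · exact x.elim
      · rfl
    rw [e A, e B]
    exact h2
  have h0 : Tup k (Empty.elim : Empty → K) (Empty.elim : Empty → K) :=
    ⟨fun m g _ _ h3 => (g ⟨0, by omega⟩).elim, fun i => i.elim⟩
  have h3 := nestn_gen k K hK h6 hfin n Empty _ _ A B h1 h0
  exact nestn_mono hfin n (fun D hD => nestn_tup_comp hD Sum.inr Sum.inr_injective) h3

end Pool.Agent.TTN
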