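import Pool.Agent.Lib.TTN.AcL
import Pool.Agent.Lib.TTN.WeilG
import Pool.Agent.Lib.SmNJ.OkT

/-!
# Project TTN (MP_950c68_ag), module OkG: `Sys.Ok` for a lattice from the fields of block F
(port of `SmNJ/Weil.lean`, `SmNJ/OkT.lean`)

SOURCES: `SmNJ/Weil.lean` (`locD`, `locM`, `mq`, `isot` for Jacobians; `isot_of_weil`),
`SmNJ/OkT.lean` (`okT`, `shr`), with `AcL`, `WeilG`, `ZqK` for the facts on the module:
`iota_injL`, `iota_rangeL`, `iota_acL`, `half_L`, `tors_L`, `card_torsL`, `act_finL`, `fin_invL`,
`e_altL`, `e_ndL`, `e_invL`. `locDG`: at a good place the inertia group acts trivially (`good` of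
`sysG`; an element of `iner K (abK Ω v)` acts on `VL L` by `L.rho s = 1`). `LatG.unr`: only
finitely many bad places.
-/

set_option autoImplicit false

open Pool.Agent.TTC (Lat VL QZ mact red2 hf2 iotaL eL cycK)
open Pool.Agent.BSDFF Pool.Agent.GBU Pool.Agent.Lib.SmD Pool.Agent.SmN

namespace Pool.Agent.TTN

section

variable {k K Ω : Type} [Field k] [Finite k] [Field K] [Algebra k K] [Algebra (RatFunc k) K]
  [IsScalarTower k (RatFunc k) K] [FiniteDimensional (RatFunc k) K]
  [Field Ω] [Algebra K Ω] [IsSepClosure K Ω]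
  {I : Type} [Fintype I] [DecidableEq I] {L : Lat (Ω ≃ₐ[K] Ω) I}

omit [Finite k] [Algebra (RatFunc k) K] [IsScalarTower k (RatFunc k) K]
  [FiniteDimensional (RatFunc k) K] [IsSepClosure K Ω] in
private theorem OkG_rho_one {s : Ω ≃ₐ[K] Ω} (hs : L.rho s = 1) : acL L s = 1 := by
  ext w : 1
  rw [acL_apply, hs, Matrix.map_one _ (map_zero _) (map_one _), Matrix.one_mulVec]
  rfl

/-- The local data. -/
theorem locDG (h2 : (2 : k) ≠ 0) (hL : LatG k L) : Loc.LocD (sysG k L) qK := by
  have : IsSepClosed Ω := IsSepClosure.sep_closed K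
  have : IsGalois K Ω := inferInstance
  exact
    { q_odd := fun v => odd_qK h2 v
      normal := fun N hN => NP.normal hN
      phi_mem := fun v => phK_mem v
      sg_mem := fun v => sgK_mem h2 v
      rel := fun v N hN => frobK h2 v hN
      sy_eq := fun v => rfl
      eps_eq := fun v => rfl
      e_alt := fun w => e_altL hL.sy w
      e_inv := fun s w w' => e_invL hL.sy s w w'
      ac_fin := by
        obtain ⟨N, hN, h⟩ := act_finL hL 1
        refine ⟨N, hN, fun s hs => ?_⟩
        ext x : 1
        apply iota_injL L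
        have h1 := h s hs (iotaL L x) (by
          rw [← map_nsmul]
          have : (2 : ℕ) ^ 1 • x = 0 := by
            funext i
            rw [pow_one, Pi.smul_apply, Pi.zero_apply, nsmul_eq_mul]
            exact mul_eq_zero_of_left (by decide) _
          rw [this, map_zero])
        rw [iota_acL] at h1
        exact h1
      ac_good := fun v hv => OkG_rho_one (hv _ (sgK_iner h2 v)) }

/-- The 2-power roots of unity. -/
theorem locMG (h2 : (2 : k) ≠ 0) (L : Lat (Ω ≃ₐ[K] Ω) I) :
    LocM (sysG k L) (SmP.MuT Ω) qK := by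
  have : IsSepClosed Ω := IsSepClosure.sep_closed K
  have : IsGalois K Ω := inferInstance
  obtain ⟨p, hpp, hodd, hpΩ⟩ := SmNJ.exists_charN k K Ω h2
  have := Fact.mk hpp
  refine ⟨fun v m => SmP.MuT.smul_iner hodd (sgK_iner h2 v) m, fun v m => ?_⟩
  have h := SmP.MuT.smul_frob hodd (phK_frob (Om := Ω) v) m
  rwa [resCard_below (below_abK Ω v)] at h

theorem mqG (h2 : (2 : k) ≠ 0) (L : Lat (Ω ≃ₐ[K] Ω) I) : (sysG k L).MQ (SmP.hfM Ω) := by
  have hsc : IsSepClosed Ω := IsSepClosure.sep_closed K
  have h20 : (2 : Ω) ≠ 0 := SmNJ.two_neO (SmNJ.two_neK (K := K) h2)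
  exact
    { fin := fun N hN => NP.finiteIndex hN
      half := SmP.MuT.half h20
      inj := SmP.hfM_inj h20
      two := SmP.MuT.two h20
      act := fun m => by
        obtain ⟨N, hN, h⟩ := SmP.MuT.act (K := K) h20 m
        exact ⟨N, NN_subset_NP (SmNJ.two_neK h2) hN, h⟩ }

/-- The local Kummer groups are isotropic. -/
theorem isotG (h2 : (2 : k) ≠ 0) (hL : LatG k L) (chi : (Ω ≃ₐ[K] Ω) → ZMod 2)
    (hchi : (sysG k L).HomG chi) (v : Place k K) :
    ∀ x ∈ (sysG k L).Wl chi v, ∀ y ∈ (sysG k L).Wl chi v, (sysG k L).sy v x y = 0 := by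
  have hsc : IsSepClosed Ω := IsSepClosure.sep_closed K
  have h20 : (2 : Ω) ≠ 0 := SmNJ.two_neO (SmNJ.two_neK (K := K) h2)
  obtain ⟨e, he⟩ := weilG (k := k) h20 hL.sy hL.cyc
  exact isot_of_weil he (locDG h2 hL) (locMG h2 L) (SmP.hfM_inj h20)
    (fun N hN N' hN' => inf_mem_NP hN hN') (iota_injL L) (iota_rangeL L)
    (fun s w => iota_acL L s w) (half_L L) (tors_L L) (fun j => act_finL hL j) chi hchi v

variable [Algebra.IsSeparable (RatFunc k) K]

/-- **`Sys.Ok`** from the fields of block F. -/
theorem okG (h2 : (2 : k) ≠ 0) (hL : LatG k L) {T0 : Set (Place k K)} (hT0 : T0.Finite)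
    (h : FOk ((sysG k L).shr T0)) : ((sysG k L).shr T0).Ok := by
  have hsc : IsSepClosed Ω := IsSepClosure.sep_closed K
  have : IsGalois K Ω := inferInstance
  have hD := (locDG h2 hL).shr T0
  exact
    { top_mem := top_mem_NP
      inf_mem := fun N hN N' hN' => inf_mem_NP hN hN'
      normal := hD.normal
      phi_mem := hD.phi_mem
      sg_mem := hD.sg_mem
      gen := fun v N hN s hs => genK h2 v hN hs
      frob := fun v N hN => ⟨qK v, odd_qK h2 v, frobK h2 v hN⟩
      fin1 := inferInstanceAs (Finite (I → ZMod 2))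
      e_alt := fun w => e_altL hL.sy w
      e_nondeg := fun w h => e_ndL hL.sy w h
      e_inv := fun s w w' => e_invL hL.sy s w w'
      iota_inj := iota_injL L
      iota_range := iota_rangeL L
      iota_ac := fun s w => iota_acL L s w
      half := half_L L
      tors := tors_L L
      act_fin := fun j => act_finL hL j
      unr := fun N hN => unrK h2 (NP.isOpen hN)
      good_fin := by
        refine (hL.unr.union hT0).subset ?_
        intro v hv
        by_contra hv2
        rw [Set.mem_union, not_or, Set.mem_ofPred_eq, not_not] at hv2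
        exact hv ⟨hv2.1, hv2.2⟩
      good_triv := fun v hv Q => by
        have h1 : L.rho (sgK Ω v) = 1 := hv.1 _ (sgK_iner h2 v)
        have h3 : sgK Ω v • Q = Q := by
          rw [Pool.Agent.TTC.smul_VL, h1]
          exact Pool.Agent.TTC.mact_one _
        exact h3
      hasse := h.hasse
      sy_comm := hD.sy_comm
      sy_cob := hD.sy_cob
      sy_unr := hD.sy_unr
      sy_split := hD.sy_split
      recip := h.recip
      corr := h.corr
      dual := h.dual
      fin_inv := fun chi hchi v => fin_invL h2 hL chi hchi v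
      isot := fun chi hchi v => isotG h2 hL chi hchi v }

end

end Pool.Agent.TTN
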