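import Pool.Agent.Lib.TTC.PureG

/-!
# Project TTN (MP_950c68_ag), module PureS: no invariants of weight zero in a tensor product

`i ∉ A`: good reduction (`S i = 1`, the Frobenius `P i` has weight one); `i ∈ A`: multiplicative
reduction (`S i ≠ 1` unipotent, `P i = ± q` on the image of `S i - 1`). In the tensor product of
an odd
number `2 m + 1` of these modules no vector is fixed by `⨂ S i` and multiplied by `± q ^ m` by
`⨂ P i`.

PROOF (copy the private lemmas `PureG_common`, `PureG_prod`, `PureG_map_pol`, `PureG_mulVec`,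
`PureG_inj`, `PureG_nil` of `TTC/PureG.lean`; `weight_no` is in `TTC/PureW.lean`). Work over `F =
AlgebraicClosure ℚ_[2]`.
(1) BASIS. For `i ∈ A`: `N = S i - 1 ≠ 0`, `N ^ 2 = 0`, `P i N = lam q N`; `det (P i) = q`, `lam =
± 1`. There are columns `e, f` over `F` with `N f = e`, `N e = 0`, `P i e = lam q e`, `P i f = lam
f`: choose `f₀` with `e := N f₀ ≠ 0`; `P f₀ = lam f₀ + c e` because of the determinant; `f = f₀ +
c / (lam - lam q) e`. So there is an invertible `g i` with `g⁻¹ (S i) g = !![1, 1; 0, 1]`, `g⁻¹ (P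
i) g = lam • !![q, 0; 0, 1]`. Replace `r` by `kron (fun i => if i ∈ A then (g i)⁻¹ else 1)`
applied to `r` (`kron_mul`).
(2) Let `E` be the space of all `r` with `kron S r = r` and `kron P r = q ^ m r`. The matrices
`ins i (P i)`, `i ∉ A`, commute with each other, with `kron S` (`S i = 1`) and with `kron P`, so
if `E ≠ 0` it contains a common eigenvector `r ≠ 0`: `ins i (P i) r = α i r`, `α i` a root of `x ^
2 - t x + q` (`PureG_common`). Hence `kron (fun i => if i ∈ A then D else 1) r = c • r` with `D =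
!![q, 0; 0, 1]` and `c * ∏_{i ∉ A} α i * ∏_{i ∈ A} lam i = q ^ m`. The matrix on the left is
diagonal with entries `q ^ a(x)`, `a(x) = #{i ∈ A | x i = 0}`, so `a(x) = a` is constant on the
support of `r`, and `weight_no` (with `s = Aᶜ`, `b = m`) forces `card Aᶜ + 2 a = 2 m`, that is `2
a = card A - 1 < card A`.
(3) `kron S r = r`, `S i = !![1, 1; 0, 1]` for `i ∈ A`. Expand `kron S = ∏_{i ∈ A} (1 + ins i E)`,
`E = !![0, 1; 0, 0]`: the part of `kron S r - r` with `a(x) = a + 1` is `U r`, `U := ∑_{i ∈ A} ins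
i E` (`ins i E` raises `a(x)` by one, a product of `k` different ones by `k`). So `U r = 0`.
(4) LEMMA (the up operator is injective below the middle): if `r` is supported on `a(x) = a`, `2 a
< n = card A` and `U r = 0` then `r = 0`. With `V := ∑_{i ∈ A} ins i !![0, 0; 1, 0]`: `U V - V U`
is the diagonal operator with entry `2 a(x) - n` (on each factor `E Eᵀ - Eᵀ E = !![1, 0; 0, -1]`;
different factors commute). Induction on `k`: `U V ^ (k+1) r = c_k V ^ k r`, `c_k = ∑_{j ≤ k} (2
(a - j) - n) < 0` (`V ^ j r` is supported on `a(x) = a - j`). As `V ^ (a + 1) r = 0`, descending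
induction gives `V ^ a r = 0, …, r = 0` (characteristic `0`). Alternatively Mathlib's
`IsSl2Triple` (a primitive vector has a weight in `ℕ`; ours would be `2 a - n < 0`).
-/

set_option autoImplicit false
set_option linter.unusedSectionVars false

open Pool.Agent.TTC

namespace Pool.Agent.TTN

section two

variable {L : Type} [Field L]

private theorem PureS_adj (X : Matrix (Fin 2) (Fin 2) L) :
    X.adjugate = X.trace • (1 : Matrix (Fin 2) (Fin 2) L) - X := by
  rw [Matrix.adjugate_fin_two]
  ext i j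
  fin_cases i <;> fin_cases j <;> simp [Matrix.trace_fin_two]

private theorem PureS_ch (X : Matrix (Fin 2) (Fin 2) L) :
    X * X = X.trace • X - X.det • (1 : Matrix (Fin 2) (Fin 2) L) := by
  have h := Matrix.adjugate_mul X
  rw [PureS_adj, sub_mul, smul_mul_assoc, one_mul] at h
  rw [← h]; abel

private theorem PureS_tr {N : Matrix (Fin 2) (Fin 2) L} (h0 : N ≠ 0) (h2 : N * N = 0) :
    N.trace = 0 := by
  have h := PureS_ch N
  have hd : N.det = 0 := by
    have := congrArg Matrix.det h2
    rw [Matrix.det_mul, Matrix.det_zero] at this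
    exact mul_self_eq_zero.mp this
  rw [h2, hd, zero_smul, sub_zero] at h
  rcases smul_eq_zero.mp h.symm with h | h
  · exact h
  · exact absurd h h0

/-- the trace of `P` and the commutation with `N` -/
private theorem PureS_rel {q lam : L} (hq : q ≠ 0) (hlam : lam * lam = 1)
    {N P : Matrix (Fin 2) (Fin 2) L} (h0 : N ≠ 0) (h2 : N * N = 0) (hd : P.det = q)
    (hPN : P * N = (lam * q) • N) : P.trace = lam * (q + 1) ∧ N * P = lam • N := by
  have hl0 : lam ≠ 0 := by
    intro h; rw [h, zero_mul] at hlam; exact zero_ne_one hlam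
  have h1 : P.adjugate * N = lam • N := by
    have h := congrArg (fun M : Matrix (Fin 2) (Fin 2) L => P.adjugate * M) hPN
    rw [← mul_assoc, Matrix.adjugate_mul, hd, mul_smul_comm, smul_mul_assoc, one_mul] at h
    have h3 : (lam * q) • (P.adjugate * N) = (lam * q) • (lam • N) := by
      rw [← h, smul_smul]
      congr 1
      linear_combination (-q) * hlam
    exact smul_right_injective _ (mul_ne_zero hl0 hq) h3
  have ht : P.trace = lam * (q + 1) := by
    rw [PureS_adj, sub_mul, smul_mul_assoc, one_mul, hPN, ← sub_smul] at h1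
    have h4 : (P.trace - lam * q - lam) • N = 0 := by
      rw [sub_smul, h1, sub_self]
    rcases smul_eq_zero.mp h4 with h | h
    · linear_combination h
    · exact absurd h h0
  refine ⟨ht, ?_⟩
  have h5 := Matrix.adjugate_mul_distrib P N
  have h6 : (P * N).trace = 0 := by
    rw [hPN, Matrix.trace_smul, PureS_tr h0 h2, smul_zero]
  rw [PureS_adj (P * N), h6, zero_smul, zero_sub, hPN, PureS_adj N, PureS_tr h0 h2, zero_smul,
    zero_sub, PureS_adj P, neg_mul, mul_sub, mul_smul_comm, mul_one, neg_inj, ht] at h5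
  have h7 : N * P = (lam * (q + 1)) • N - (lam * q) • N := by
    rw [h5]; abel
  rw [h7, ← sub_smul]
  congr 1
  ring

/-- the `sl₂` triple of a multiplicative place -/
private theorem PureS_triple {q lam : L} (hq : q ≠ 0) (hq1 : q - 1 ≠ 0) (hlam : lam * lam = 1)
    {N P : Matrix (Fin 2) (Fin 2) L} (h0 : N ≠ 0) (h2 : N * N = 0) (hd : P.det = q)
    (hPN : P * N = (lam * q) • N)
    {B : Matrix (Fin 2) (Fin 2) L} (hB : N * B + B * N = 1) :
    (lam • P) ^ 2 - (q + 1) • (lam • P) + q • (1 : Matrix (Fin 2) (Fin 2) L) = 0 ∧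
    ∃ F : Matrix (Fin 2) (Fin 2) L,
      N * F - F * N = (q - 1)⁻¹ • ((2 : L) • (lam • P) - (q + 1) • (1 : Matrix (Fin 2) (Fin 2) L)) ∧
      ((q - 1)⁻¹ • ((2 : L) • (lam • P) - (q + 1) • (1 : Matrix (Fin 2) (Fin 2) L))) * N -
        N * ((q - 1)⁻¹ • ((2 : L) • (lam • P) - (q + 1) • (1 : Matrix (Fin 2) (Fin 2) L))) =
          (2 : L) • N ∧
      ((q - 1)⁻¹ • ((2 : L) • (lam • P) - (q + 1) • (1 : Matrix (Fin 2) (Fin 2) L))) * F -
        F * ((q - 1)⁻¹ • ((2 : L) • (lam • P) - (q + 1) • (1 : Matrix (Fin 2) (Fin 2) L))) =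
          -((2 : L) • F) := by
  obtain ⟨ht, hNP⟩ := PureS_rel hq hlam h0 h2 hd hPN
  set p := lam • P with hp
  have hpN : p * N = q • N := by
    rw [hp, smul_mul_assoc, hPN, smul_smul, ← mul_assoc, hlam, one_mul]
  have hNp : N * p = N := by
    rw [hp, mul_smul_comm, hNP, smul_smul, hlam, one_smul]
  have hpp : p * p = (q + 1) • p - q • (1 : Matrix (Fin 2) (Fin 2) L) := by
    rw [hp, smul_mul_assoc, mul_smul_comm, smul_smul, hlam, one_smul, PureS_ch, ht, hd, smul_smul]
    congr 2
    ring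
  clear_value p
  refine ⟨?_, ?_⟩
  · rw [pow_two, hpp]; abel
  · set k := (q - 1)⁻¹ with hk
    have hk1 : k * (q - 1) = 1 := inv_mul_cancel₀ hq1
    have hNB : N * B = 1 - B * N := by rw [← hB]; abel
    have hBN : B * N = 1 - N * B := by rw [← hB]; abel
    -- `q - p` and `p - 1`
    have e1 : N * (q • (1 : Matrix (Fin 2) (Fin 2) L) - p) = (q - 1) • N := by
      rw [mul_sub, mul_smul_comm, mul_one, hNp, sub_smul, one_smul]
    have e2 : N * (p - 1) = 0 := by rw [mul_sub, mul_one, hNp, sub_self]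
    have e3 : (q • (1 : Matrix (Fin 2) (Fin 2) L) - p) * N = 0 := by
      rw [sub_mul, smul_mul_assoc, one_mul, hpN, sub_self]
    have e4 : (p - 1) * N = (q - 1) • N := by
      rw [sub_mul, one_mul, hpN, sub_smul, one_smul]
    have e5 : p * (q • (1 : Matrix (Fin 2) (Fin 2) L) - p) = q • 1 - p := by
      rw [mul_sub, mul_smul_comm, mul_one, hpp, add_smul, one_smul]; abel
    have e6 : (p - 1) * p = q • (p - 1) := by
      rw [sub_mul, one_mul, hpp, add_smul, one_smul, smul_sub]; abel
    set C := (q • (1 : Matrix (Fin 2) (Fin 2) L) - p) * B * (p - 1) with hC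
    have f1 : N * C = (q - 1) • (p - 1) := by
      rw [hC, ← mul_assoc, ← mul_assoc, e1, smul_mul_assoc, smul_mul_assoc, hNB, sub_mul,
        one_mul, mul_assoc B, e2, mul_zero, sub_zero]
    have f2 : C * N = (q - 1) • (q • (1 : Matrix (Fin 2) (Fin 2) L) - p) := by
      rw [hC, mul_assoc, e4, mul_smul_comm, mul_assoc, hBN, mul_sub, mul_one, ← mul_assoc, e3,
        zero_mul, sub_zero]
    have f3 : p * C = C := by
      rw [hC, ← mul_assoc, ← mul_assoc, e5]
    have f4 : C * p = q • C := by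
      rw [hC, mul_assoc, e6, mul_smul_comm]
    clear_value C
    refine ⟨(k * k) • C, ?_, ?_, ?_⟩
    · rw [mul_smul_comm, smul_mul_assoc, f1, f2, smul_smul, smul_smul, mul_assoc, hk1, mul_one,
        ← smul_sub]
      congr 1
      rw [add_smul, one_smul, two_smul]; abel
    · rw [smul_mul_assoc, mul_smul_comm, ← smul_sub, sub_mul, mul_sub, smul_mul_assoc,
        smul_mul_assoc, mul_smul_comm, mul_smul_comm, hpN, hNp, one_mul, mul_one,
        sub_sub_sub_cancel_right, smul_smul, ← sub_smul, smul_smul]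
      congr 1
      linear_combination 2 * hk1
    · simp only [smul_mul_assoc, mul_smul_comm, sub_mul, mul_sub, f3, f4, one_mul, mul_one]
      match_scalars
      linear_combination (-2 * k * k) * hk1

end two

section op

variable {L : Type} [Field L] {κ : Type} [Fintype κ] [DecidableEq κ]

/-- a fixed vector of a unipotent matrix is killed by its logarithm -/
private theorem PureS_log [CharZero L] (U : Matrix κ κ L) (hU : IsNilpotent U) {r : κ → L}
    (h : (IsNilpotent.exp U).mulVec r = r) : U.mulVec r = 0 := by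
  obtain ⟨k, hk⟩ := hU
  have step : ∀ j, 1 ≤ j → (U ^ (j + 1)).mulVec r = 0 → (U ^ j).mulVec r = 0 := by
    intro j hj hz
    obtain ⟨i, rfl⟩ := Nat.exists_eq_add_of_le' hj
    have h1 : IsNilpotent.exp U =
        ∑ n ∈ Finset.range (k + 2), ((n.factorial : ℚ))⁻¹ • U ^ n :=
      IsNilpotent.exp_eq_sum (pow_eq_zero_of_le (by omega) hk)
    have h2 : (U ^ i).mulVec ((IsNilpotent.exp U).mulVec r) = (U ^ i).mulVec r := by rw [h]
    rw [Matrix.mulVec_mulVec, h1, Finset.sum_range_succ', Finset.sum_range_succ', mul_add, mul_add,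
      Matrix.add_mulVec, Matrix.add_mulVec, Finset.mul_sum] at h2
    have h3 : (∑ n ∈ Finset.range k, U ^ i * (((n + 1 + 1).factorial : ℚ)⁻¹ • U ^ (n + 1 + 1))).mulVec r
        = 0 := by
      rw [Matrix.sum_mulVec]
      apply Finset.sum_eq_zero
      intro n _
      rw [mul_smul_comm, ← pow_add, show i + (n + 1 + 1) = n + (i + 1 + 1) by ring, pow_add,
        Matrix.smul_mulVec, ← Matrix.mulVec_mulVec, hz, Matrix.mulVec_zero, smul_zero]
    rw [h3, zero_add] at h2
    simp only [zero_add, Nat.factorial_one, Nat.factorial_zero, Nat.cast_one, inv_one, one_smul,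
      pow_zero, pow_one, mul_one] at h2
    rw [← pow_succ] at h2
    exact add_eq_right.mp h2
  have key : ∀ n, (U ^ (n + 1)).mulVec r = 0 → (U ^ 1).mulVec r = 0 := by
    intro n
    induction n with
    | zero => intro h; simpa using h
    | succ n ih => intro h; exact ih (step (n + 1) (by omega) h)
  have h4 := key k (by rw [pow_succ, hk, zero_mul, Matrix.zero_mulVec])
  rwa [pow_one] at h4

/-- a highest weight vector has a weight in `ℕ` -/
private theorem PureS_sl2 [CharZero L] {H U V : Matrix κ κ L} (h1 : U * V - V * U = H)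
    (h2 : H * U - U * H = (2 : L) • U) (h3 : H * V - V * H = -((2 : L) • V)) {x : κ → L}
    (hx : x ≠ 0) {μ : L} (hμ : H.mulVec x = μ • x) (hU : U.mulVec x = 0) : ∃ n : ℕ, μ = n := by
  by_cases hH : H = 0
  · refine ⟨0, ?_⟩
    rw [hH, Matrix.zero_mulVec] at hμ
    rcases smul_eq_zero.mp hμ.symm with h | h
    · rw [h]; simp
    · exact absurd h hx
  · let _ : LieRing (Module.End L (κ → L)) := LieRing.ofAssociativeRing
    have t : IsSl2Triple (L := Module.End L (κ → L)) (Matrix.toLin' H) (Matrix.toLin' U)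
        (Matrix.toLin' V) := by
      refine ⟨?_, ?_, ?_, ?_⟩
      · intro h
        exact hH (by simpa using h)
      · rw [LieRing.of_associative_ring_bracket, Module.End.mul_eq_comp, Module.End.mul_eq_comp,
          ← Matrix.toLin'_mul, ← Matrix.toLin'_mul, ← map_sub, h1]
      · rw [LieRing.of_associative_ring_bracket, Module.End.mul_eq_comp, Module.End.mul_eq_comp,
          ← Matrix.toLin'_mul, ← Matrix.toLin'_mul, ← map_sub, h2, map_smul, two_smul, two_nsmul]
      · rw [LieRing.of_associative_ring_bracket, Module.End.mul_eq_comp, Module.End.mul_eq_comp,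
          ← Matrix.toLin'_mul, ← Matrix.toLin'_mul, ← map_sub, h3, map_neg, map_smul, two_smul,
          two_nsmul]
    have P : t.HasPrimitiveVectorWith x μ := by
      refine ⟨hx, ?_, ?_⟩
      · rw [Module.End.lie_apply, Matrix.toLin'_apply, hμ]
      · rw [Module.End.lie_apply, Matrix.toLin'_apply, hU]
    exact P.exists_nat

/-- an eigenvector in a stable subspace -/
private theorem PureS_eig [IsAlgClosed L] (H : Matrix κ κ L) (E : Submodule L (κ → L))
    (hE : ∀ x ∈ E, H.mulVec x ∈ E) (hne : ∃ x ∈ E, x ≠ 0) :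
    ∃ x ∈ E, x ≠ 0 ∧ ∃ μ : L, H.mulVec x = μ • x := by
  obtain ⟨x, hx, hx0⟩ := hne
  have : Nontrivial E := ⟨⟨⟨x, hx⟩, 0, fun h => hx0 (by simpa using congrArg Subtype.val h)⟩⟩
  obtain ⟨μ, hμ⟩ := Module.End.exists_eigenvalue ((Matrix.toLin' H).restrict
    (p := E) (q := E) (fun x hx => by rw [Matrix.toLin'_apply]; exact hE x hx))
  obtain ⟨v, hv⟩ := hμ.exists_hasEigenvector
  refine ⟨v, v.2, fun h => hv.2 (Subtype.ext h), μ, ?_⟩
  have := congrArg Subtype.val hv.apply_eq_smul
  simpa using this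

end op

section copy

variable {ι : Type} [Fintype ι] [DecidableEq ι]

/-- A common eigenvector of commuting matrices killed by quadratic polynomials. -/
private theorem PureS_common {L : Type} [Field L] [IsAlgClosed L] {κ : Type} [Fintype κ]
    [DecidableEq κ] (T : ι → Matrix κ κ L) (t : ι → L) (q : L) (s : Finset ι)
    (hc : ∀ i ∈ s, ∀ j ∈ s, T i * T j = T j * T i)
    (hT : ∀ i ∈ s, T i ^ 2 - t i • T i + q • (1 : Matrix κ κ L) = 0)
    (W : Submodule L (κ → L)) (hW : ∀ i ∈ s, ∀ r ∈ W, (T i).mulVec r ∈ W)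
    (hne : ∃ r ∈ W, r ≠ 0) :
    ∃ r ∈ W, r ≠ 0 ∧ ∃ α : ι → L, ∀ i ∈ s,
      α i ^ 2 - t i * α i + q = 0 ∧ (T i).mulVec r = α i • r := by
  classical
  induction s using Finset.induction_on with
  | empty =>
    obtain ⟨r, hr, h0⟩ := hne
    exact ⟨r, hr, h0, fun _ => 0, fun i hi => absurd hi (Finset.notMem_empty i)⟩
  | insert a s ha ih =>
    obtain ⟨r, hr, h0, α, hα⟩ := ih
      (fun i hi j hj => hc i (Finset.mem_insert_of_mem hi) j (Finset.mem_insert_of_mem hj))
      (fun i hi => hT i (Finset.mem_insert_of_mem hi))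
      (fun i hi => hW i (Finset.mem_insert_of_mem hi))
    -- the two roots
    obtain ⟨x, hx⟩ : ∃ x : L, x ^ 2 - t a * x + q = 0 := by
      obtain ⟨x, hx⟩ := IsAlgClosed.exists_root
        (Polynomial.X ^ 2 - Polynomial.C (t a) * Polynomial.X + Polynomial.C q) (by
          have : (Polynomial.X ^ 2 - Polynomial.C (t a) * Polynomial.X + Polynomial.C q :
            Polynomial L).degree = 2 := by
            compute_degree!
          rw [this]; norm_num)
      refine ⟨x, ?_⟩
      simpa [Polynomial.IsRoot] using hx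
    have hTa := hT a (Finset.mem_insert_self a s)
    have hy : (t a - x) ^ 2 - t a * (t a - x) + q = 0 := by
      rw [← hx]; ring
    have hxy : (T a - x • 1) * (T a - (t a - x) • 1) = 0 := by
      have h1 : (T a - x • (1 : Matrix κ κ L)) * (T a - (t a - x) • 1) =
          T a ^ 2 - t a • T a + (x * (t a - x)) • 1 := by
        rw [sub_mul, mul_sub, mul_sub, smul_mul_assoc, one_mul, mul_smul_comm, mul_one,
          smul_mul_assoc, one_mul, smul_smul, pow_two, sub_smul]
        module
      have h2 : x * (t a - x) = q := by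
        have := hx
        linear_combination -hx
      rw [h1, h2, hTa]
    by_cases hz : (T a - (t a - x) • (1 : Matrix κ κ L)).mulVec r = 0
    · refine ⟨r, hr, h0, Function.update α a (t a - x), fun i hi => ?_⟩
      rcases Finset.mem_insert.mp hi with rfl | hi'
      · rw [Function.update_self]
        refine ⟨hy, ?_⟩
        rw [Matrix.sub_mulVec, Matrix.smul_mulVec, Matrix.one_mulVec, sub_eq_zero] at hz
        exact hz
      · have hia : i ≠ a := fun h => ha (h ▸ hi')
        rw [Function.update_of_ne hia]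
        exact hα i hi'
    · refine ⟨(T a - (t a - x) • (1 : Matrix κ κ L)).mulVec r, ?_, hz,
        Function.update α a x, fun i hi => ?_⟩
      · rw [Matrix.sub_mulVec, Matrix.smul_mulVec, Matrix.one_mulVec]
        exact W.sub_mem (hW a (Finset.mem_insert_self a s) r hr) (W.smul_mem _ hr)
      · rcases Finset.mem_insert.mp hi with rfl | hi'
        · rw [Function.update_self]
          refine ⟨hx, ?_⟩
          have h3 : (T i - x • (1 : Matrix κ κ L)).mulVec
              ((T i - (t i - x) • (1 : Matrix κ κ L)).mulVec r) = 0 := by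
            rw [Matrix.mulVec_mulVec, hxy, Matrix.zero_mulVec]
          rw [Matrix.sub_mulVec, Matrix.smul_mulVec, Matrix.one_mulVec, sub_eq_zero] at h3
          exact h3
        · have hia : i ≠ a := fun h => ha (h ▸ hi')
          rw [Function.update_of_ne hia]
          refine ⟨(hα i hi').1, ?_⟩
          have hcm : T i * (T a - (t a - x) • (1 : Matrix κ κ L)) =
              (T a - (t a - x) • (1 : Matrix κ κ L)) * T i := by
            rw [mul_sub, sub_mul, mul_smul_comm, mul_one, smul_mul_assoc, one_mul,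
              hc i hi a (Finset.mem_insert_self a s)]
          rw [Matrix.mulVec_mulVec, hcm, ← Matrix.mulVec_mulVec, (hα i hi').2,
            Matrix.mulVec_smul]

/-- The product of the eigenvalues. -/
private theorem PureS_prod {L : Type} [Field L] (A : ι → Matrix (Fin 2) (Fin 2) L)
    (r : (ι → Fin 2) → L) (α : ι → L) (s : Finset ι)
    (h : ∀ i ∈ s, (ins i (A i) : Matrix (ι → Fin 2) (ι → Fin 2) L).mulVec r = α i • r) :
    (kron fun i => if i ∈ s then A i else 1).mulVec r = (∏ i ∈ s, α i) • r := by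
  classical
  induction s using Finset.induction_on with
  | empty =>
    have : (kron fun i : ι => if i ∈ (∅ : Finset ι) then A i else 1) =
        (1 : Matrix (ι → Fin 2) (ι → Fin 2) L) := by
      rw [← kron_one]
      congr 1
    rw [this, Matrix.one_mulVec, Finset.prod_empty, one_smul]
  | insert a s ha ih =>
    have h1 : (kron fun i : ι => if i ∈ insert a s then A i else 1) =
        ins a (A a) * kron fun i : ι => if i ∈ s then A i else 1 := by
      rw [ins_eq_kron, ← kron_mul]
      congr 1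
      funext i
      by_cases hi : i = a
      · subst hi
        simp [ha]
      · simp [hi]
    rw [h1, ← Matrix.mulVec_mulVec,
      ih (fun i hi => h i (Finset.mem_insert_of_mem hi)), Matrix.mulVec_smul,
      h a (Finset.mem_insert_self a s), Finset.prod_insert ha, smul_smul, mul_comm]

private theorem PureS_map_pol {R S : Type} [CommRing R] [CommRing S] (f : R →+* S)
    {P : Matrix (Fin 2) (Fin 2) R} {t q : R}
    (h : P ^ 2 - t • P + q • (1 : Matrix (Fin 2) (Fin 2) R) = 0) (i : ι) :
    (ins i (P.map f) : Matrix (ι → Fin 2) (ι → Fin 2) S) ^ 2 - f t • ins i (P.map f) +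
      f q • (1 : Matrix (ι → Fin 2) (ι → Fin 2) S) = 0 := by
  have h1 : P.map f ^ 2 - f t • P.map f + f q • (1 : Matrix (Fin 2) (Fin 2) S) = 0 := by
    have h2 := congrArg (fun M : Matrix (Fin 2) (Fin 2) R => f.mapMatrix M) h
    simp only [map_add, map_sub, map_pow, map_zero] at h2
    have h3 : ∀ (c : R) (M : Matrix (Fin 2) (Fin 2) R), f.mapMatrix (c • M) = f c • f.mapMatrix M := by
      intro c M
      ext x y
      simp [RingHom.mapMatrix_apply, Matrix.map_apply, Matrix.smul_apply]
    rw [h3, h3, map_one] at h2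
    exact h2
  have h4 : (ins i (P.map f ^ 2 - f t • P.map f + f q • (1 : Matrix (Fin 2) (Fin 2) S)) :
      Matrix (ι → Fin 2) (ι → Fin 2) S) = 0 := by
    rw [h1]
    have := ins_smul (R := S) i (0 : S) (0 : Matrix (Fin 2) (Fin 2) S)
    rw [zero_smul, zero_smul] at this
    exact this
  rw [← h4, ins_add, sub_eq_add_neg, sub_eq_add_neg, ins_add, pow_two (P.map f), ins_mul,
    ← pow_two, ins_smul, ins_one, ← neg_smul, ← neg_smul, ins_smul]

private theorem PureS_f (x : ℤ_[2]) : ((algebraMap ℚ_[2] (AlgebraicClosure ℚ_[2])).comp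
    PadicInt.Coe.ringHom) x = algebraMap ℚ_[2] (AlgebraicClosure ℚ_[2]) (x : ℚ_[2]) := rfl

/-- extension of the scalars from `ℚ_[2]` to its algebraic closure -/
private theorem PureS_mulVec (M : Matrix (ι → Fin 2) (ι → Fin 2) ℤ_[2]) {r v : (ι → Fin 2) → ℚ_[2]}
    (h : (M.map fun x : ℤ_[2] => (x : ℚ_[2])).mulVec r = v) :
    (M.map ((algebraMap ℚ_[2] (AlgebraicClosure ℚ_[2])).comp PadicInt.Coe.ringHom)).mulVec
      (fun i => algebraMap ℚ_[2] (AlgebraicClosure ℚ_[2]) (r i)) =
      fun i => algebraMap ℚ_[2] (AlgebraicClosure ℚ_[2]) (v i) := by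
  subst h
  funext i
  simp only [Matrix.mulVec, dotProduct, Matrix.map_apply, map_sum, map_mul]
  rfl

private theorem PureS_inj {r : (ι → Fin 2) → ℚ_[2]}
    (h : (fun i => algebraMap ℚ_[2] (AlgebraicClosure ℚ_[2]) (r i)) = 0) : r = 0 := by
  funext i
  have := congrFun h i
  simpa using this

/-- a nilpotent `2 × 2` matrix over a field -/
private theorem PureS_nil {F : Type} [Field F] {N : Matrix (Fin 2) (Fin 2) F} (h2 : N * N = 0)
    (h0 : N ≠ 0) : ∃ B : Matrix (Fin 2) (Fin 2) F, N * B + B * N = 1 := by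
  have e00 := congrFun (congrFun h2 0) 0
  have e01 := congrFun (congrFun h2 0) 1
  have e10 := congrFun (congrFun h2 1) 0
  have e11 := congrFun (congrFun h2 1) 1
  simp only [Matrix.mul_apply, Fin.sum_univ_two, Matrix.zero_apply] at e00 e01 e10 e11
  by_cases hb : N 0 1 = 0
  · by_cases hc : N 1 0 = 0
    · exfalso
      apply h0
      rw [hb, zero_mul, add_zero, mul_self_eq_zero] at e00
      rw [hc, zero_mul, zero_add, mul_self_eq_zero] at e11
      ext i j
      fin_cases i <;> fin_cases j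
      · exact e00
      · exact hb
      · exact hc
      · exact e11
    · have htr : N 0 0 + N 1 1 = 0 := by
        have : N 1 0 * (N 0 0 + N 1 1) = 0 := by linear_combination e10
        rcases mul_eq_zero.mp this with h | h
        · exact absurd h hc
        · exact h
      refine ⟨!![0, (N 1 0)⁻¹; 0, 0], ?_⟩
      ext i j
      rw [Matrix.add_apply, Matrix.mul_apply, Matrix.mul_apply, Fin.sum_univ_two, Fin.sum_univ_two]
      fin_cases i <;> fin_cases j
      · simp [hc]
      · simp
        linear_combination (N 1 0)⁻¹ * htr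
      · simp
      · simp [hc]
  · have htr : N 0 0 + N 1 1 = 0 := by
      have : N 0 1 * (N 0 0 + N 1 1) = 0 := by linear_combination e01
      rcases mul_eq_zero.mp this with h | h
      · exact absurd h hb
      · exact h
    refine ⟨!![0, 0; (N 0 1)⁻¹, 0], ?_⟩
    ext i j
    rw [Matrix.add_apply, Matrix.mul_apply, Matrix.mul_apply, Fin.sum_univ_two, Fin.sum_univ_two]
    fin_cases i <;> fin_cases j
    · simp [hb]
    · simp
    · simp
      linear_combination (N 0 1)⁻¹ * htr
    · simp [hb]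

end copy

section main

variable {ι : Type} [Fintype ι] [DecidableEq ι]

private theorem PureS_insb {L : Type} [Field L] (i : ι) (X Y : Matrix (Fin 2) (Fin 2) L) :
    (ins i (X - Y) : Matrix (ι → Fin 2) (ι → Fin 2) L) = ins i X - ins i Y := by
  rw [sub_eq_add_neg, ins_add, ← neg_one_smul L Y, ins_smul, neg_one_smul, ← sub_eq_add_neg]

private theorem PureS_ins0 {L : Type} [Field L] (i : ι) :
    (ins i (0 : Matrix (Fin 2) (Fin 2) L) : Matrix (ι → Fin 2) (ι → Fin 2) L) = 0 := by
  rw [← zero_smul L (0 : Matrix (Fin 2) (Fin 2) L), ins_smul, zero_smul]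

private theorem PureS_comm {L : Type} [Field L] (A : Finset ι)
    (X Y : ι → Matrix (Fin 2) (Fin 2) L) :
    (∑ i ∈ A, (ins i (X i) : Matrix (ι → Fin 2) (ι → Fin 2) L)) * (∑ i ∈ A, ins i (Y i)) -
      (∑ i ∈ A, (ins i (Y i) : Matrix (ι → Fin 2) (ι → Fin 2) L)) * (∑ i ∈ A, ins i (X i)) =
      ∑ i ∈ A, ins i (X i * Y i - Y i * X i) := by
  rw [Finset.sum_mul_sum, Finset.sum_mul_sum, Finset.sum_comm (s := A) (t := A)
    (f := fun i j => (ins i (Y i) : Matrix (ι → Fin 2) (ι → Fin 2) L) * ins j (X j)),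
    ← Finset.sum_sub_distrib]
  refine Finset.sum_congr rfl fun i hi => ?_
  rw [← Finset.sum_sub_distrib, Finset.sum_eq_single i]
  · rw [sub_eq_add_neg (X i * Y i), ins_add, ins_mul, ← neg_one_smul L (Y i * X i), ins_smul,
      ins_mul, neg_one_smul, ← sub_eq_add_neg]
  · intro j _ hj
    rw [ins_comm (Ne.symm hj), sub_self]
  · intro h; exact absurd hi h

private theorem PureS_exp {L : Type} [Field L] [CharZero L] (N : ι → Matrix (Fin 2) (Fin 2) L)
    (s : Finset ι) (hN : ∀ i ∈ s, N i * N i = 0) :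
    IsNilpotent (∑ i ∈ s, (ins i (N i) : Matrix (ι → Fin 2) (ι → Fin 2) L)) ∧
    (kron fun i => if i ∈ s then 1 + N i else 1) =
      IsNilpotent.exp (∑ i ∈ s, (ins i (N i) : Matrix (ι → Fin 2) (ι → Fin 2) L)) := by
  classical
  induction s using Finset.induction_on with
  | empty =>
    refine ⟨by simp, ?_⟩
    rw [Finset.sum_empty, IsNilpotent.exp_zero]
    simp only [Finset.notMem_empty, if_false]
    exact kron_one
  | insert a s ha ih =>
    obtain ⟨h1, h2⟩ := ih (fun i hi => hN i (Finset.mem_insert_of_mem hi))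
    have hz : (ins a (N a) : Matrix (ι → Fin 2) (ι → Fin 2) L) ^ 2 = 0 := by
      rw [pow_two, ← ins_mul, hN a (Finset.mem_insert_self a s),
        ← zero_smul L (0 : Matrix (Fin 2) (Fin 2) L), ins_smul, zero_smul]
    have hc : Commute (ins a (N a) : Matrix (ι → Fin 2) (ι → Fin 2) L)
        (∑ i ∈ s, (ins i (N i) : Matrix (ι → Fin 2) (ι → Fin 2) L)) := by
      refine Commute.sum_right _ _ _ fun i hi => ?_
      exact ins_comm (show a ≠ i from fun h => ha (h ▸ hi)) _ _
    rw [Finset.sum_insert ha]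
    refine ⟨hc.isNilpotent_add ⟨2, hz⟩ h1, ?_⟩
    rw [IsNilpotent.exp_add_of_commute hc ⟨2, hz⟩ h1, ← h2, IsNilpotent.exp_eq_sum hz,
      Finset.sum_range_succ, Finset.sum_range_one]
    simp only [Nat.factorial_zero, Nat.factorial_one, Nat.cast_one, inv_one, one_smul, pow_zero,
      pow_one]
    have h3 : (1 + ins a (N a) : Matrix (ι → Fin 2) (ι → Fin 2) L) = ins a (1 + N a) := by
      rw [ins_add, ins_one]
    rw [h3, ins_eq_kron, ← kron_mul]
    congr 1
    funext i
    by_cases hi : i = a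
    · subst hi
      simp [ha]
    · simp [hi]

private theorem PureS_commK {L : Type} [Field L] (i : ι) (X : Matrix (Fin 2) (Fin 2) L)
    (P : ι → Matrix (Fin 2) (Fin 2) L) (h : X * P i = P i * X) :
    (ins i X : Matrix (ι → Fin 2) (ι → Fin 2) L) * kron P = kron P * ins i X := by
  rw [ins_eq_kron, ← kron_mul, ← kron_mul]
  congr 1
  funext j
  by_cases hj : j = i
  · subst hj
    simp [h]
  · simp [hj]

private theorem PureS_core {L : Type} [Field L] [CharZero L] [IsAlgClosed L] {q : ℕ} (hq : 1 < q)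
    (A : Finset ι) (N P : ι → Matrix (Fin 2) (Fin 2) L) {m : ℕ}
    (hm : Fintype.card ι = 2 * m + 1)
    (hg : ∀ i, i ∉ A → ∃ t : ℤ, t ^ 2 ≤ 4 * (q : ℤ) ∧
      (ins i (P i) : Matrix (ι → Fin 2) (ι → Fin 2) L) ^ 2 - (t : L) • ins i (P i) +
        (q : L) • (1 : Matrix (ι → Fin 2) (ι → Fin 2) L) = 0)
    (hb : ∀ i ∈ A, N i ≠ 0 ∧ N i * N i = 0 ∧ (P i).det = (q : L) ∧
      ∃ lam : L, (lam = 1 ∨ lam = -1) ∧ P i * N i = (lam * q) • N i)
    {r : (ι → Fin 2) → L}
    (hr1 : (kron fun i => if i ∈ A then 1 + N i else 1).mulVec r = r)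
    (hr : (kron P).mulVec r = ((q : L) ^ m) • r) : r = 0 := by
  classical
  by_contra hr0
  have hq0 : (q : L) ≠ 0 := by
    have : q ≠ 0 := by omega
    exact_mod_cast this
  have hq1 : (q : L) - 1 ≠ 0 := by
    intro h
    have h2 : (q : L) = ((1 : ℕ) : L) := by rw [Nat.cast_one]; linear_combination h
    have h3 := Nat.cast_injective h2
    omega
  -- the signs
  have hlamE : ∃ lam : ι → L, (∀ i, lam i = 1 ∨ lam i = -1) ∧ (∀ i, i ∉ A → lam i = 1) ∧
      ∀ i ∈ A, P i * N i = (lam i * q) • N i := by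
    have h : ∀ i, ∃ l : L, (l = 1 ∨ l = -1) ∧ (i ∉ A → l = 1) ∧
        (i ∈ A → P i * N i = (l * q) • N i) := by
      intro i
      by_cases hi : i ∈ A
      · obtain ⟨-, -, -, l, hl, h⟩ := hb i hi
        exact ⟨l, hl, fun h' => absurd hi h', fun _ => h⟩
      · exact ⟨1, Or.inl rfl, fun _ => rfl, fun h' => absurd h' hi⟩
    choose lam h1 h2 h3 using h
    exact ⟨lam, h1, h2, h3⟩
  obtain ⟨lam, hlam, hlamA, hPN⟩ := hlamE
  have hlam2 : ∀ i, lam i * lam i = 1 := by
    intro i
    rcases hlam i with h | h <;> rw [h] <;> ring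
  -- the sl2 triples
  set hh : ι → Matrix (Fin 2) (Fin 2) L := fun i => ((q : L) - 1)⁻¹ •
    ((2 : L) • (lam i • P i) - ((q : L) + 1) • (1 : Matrix (Fin 2) (Fin 2) L)) with hhd
  have htr : ∀ i ∈ A, (lam i • P i) ^ 2 - ((q : L) + 1) • (lam i • P i) +
      (q : L) • (1 : Matrix (Fin 2) (Fin 2) L) = 0 ∧
      ∃ F : Matrix (Fin 2) (Fin 2) L, N i * F - F * N i = hh i ∧
        hh i * N i - N i * hh i = (2 : L) • N i ∧ hh i * F - F * hh i = -((2 : L) • F) := by
    intro i hi
    obtain ⟨h1, h2, h3, -⟩ := hb i hi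
    obtain ⟨B, hB⟩ := PureS_nil h2 h1
    exact PureS_triple hq0 hq1 (hlam2 i) h1 h2 h3 (hPN i hi) hB
  clear_value hh
  have hFE : ∃ F : ι → Matrix (Fin 2) (Fin 2) L, ∀ i ∈ A, N i * F i - F i * N i = hh i ∧
        hh i * N i - N i * hh i = (2 : L) • N i ∧
        hh i * F i - F i * hh i = -((2 : L) • F i) := by
    have h : ∀ i, ∃ F : Matrix (Fin 2) (Fin 2) L, i ∈ A → N i * F - F * N i = hh i ∧
        hh i * N i - N i * hh i = (2 : L) • N i ∧ hh i * F - F * hh i = -((2 : L) • F) := by
      intro i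
      by_cases hi : i ∈ A
      · obtain ⟨-, F, hF⟩ := htr i hi
        exact ⟨F, fun _ => hF⟩
      · exact ⟨0, fun h' => absurd h' hi⟩
    choose F hF using h
    exact ⟨F, hF⟩
  obtain ⟨F, hF⟩ := hFE
  set H : Matrix (ι → Fin 2) (ι → Fin 2) L := ∑ i ∈ A, ins i (hh i) with hHd
  set U : Matrix (ι → Fin 2) (ι → Fin 2) L := ∑ i ∈ A, ins i (N i) with hUd
  set V : Matrix (ι → Fin 2) (ι → Fin 2) L := ∑ i ∈ A, ins i (F i) with hVd
  have c1 : U * V - V * U = H := by
    rw [hUd, hVd, PureS_comm, hHd]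
    exact Finset.sum_congr rfl fun i hi => by rw [(hF i hi).1]
  have c2 : H * U - U * H = (2 : L) • U := by
    rw [hUd, hHd, PureS_comm, Finset.smul_sum]
    exact Finset.sum_congr rfl fun i hi => by rw [(hF i hi).2.1, ins_smul]
  have c3 : H * V - V * H = -((2 : L) • V) := by
    rw [hVd, hHd, PureS_comm, Finset.smul_sum, ← Finset.sum_neg_distrib]
    exact Finset.sum_congr rfl fun i hi => by
      rw [(hF i hi).2.2, ← neg_smul, ins_smul, neg_smul]
  -- the commutation with `kron P`
  have hhP : ∀ i, hh i * P i = P i * hh i := by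
    intro i
    simp only [hhd, smul_mul_assoc, mul_smul_comm, sub_mul, mul_sub, one_mul, mul_one]
  have c4 : H * kron P = kron P * H := by
    rw [hHd, Finset.sum_mul, Finset.mul_sum]
    exact Finset.sum_congr rfl fun i _ => PureS_commK i _ P (hhP i)
  -- `U r = 0`
  obtain ⟨hUn, hUe⟩ := PureS_exp N A (fun i hi => (hb i hi).2.1)
  rw [hUe] at hr1
  have hUr : U.mulVec r = 0 := PureS_log U hUn hr1
  -- an eigenvector of `H`
  obtain ⟨x, hx, hx0, μ, hμ⟩ := PureS_eig H
    (LinearMap.ker (Matrix.toLin' U) ⊓ LinearMap.ker (Matrix.toLin' (kron P - ((q : L) ^ m) •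
      (1 : Matrix (ι → Fin 2) (ι → Fin 2) L)))) (by
      intro x hx
      rw [Submodule.mem_inf, LinearMap.mem_ker, LinearMap.mem_ker, Matrix.toLin'_apply,
        Matrix.toLin'_apply, Matrix.sub_mulVec, Matrix.smul_mulVec, Matrix.one_mulVec,
        sub_eq_zero] at hx ⊢
      refine ⟨?_, ?_⟩
      · have h1 : U * H = H * U - (2 : L) • U := by rw [← c2]; abel
        rw [Matrix.mulVec_mulVec, h1, Matrix.sub_mulVec, Matrix.smul_mulVec,
          ← Matrix.mulVec_mulVec, hx.1, Matrix.mulVec_zero, smul_zero, sub_zero]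
      · rw [Matrix.mulVec_mulVec, ← c4, ← Matrix.mulVec_mulVec, hx.2, Matrix.mulVec_smul])
    ⟨r, by
      rw [Submodule.mem_inf, LinearMap.mem_ker, LinearMap.mem_ker, Matrix.toLin'_apply,
        Matrix.toLin'_apply, Matrix.sub_mulVec, Matrix.smul_mulVec, Matrix.one_mulVec,
        sub_eq_zero]
      exact ⟨hUr, hr⟩, hr0⟩
  rw [Submodule.mem_inf, LinearMap.mem_ker, LinearMap.mem_ker, Matrix.toLin'_apply,
    Matrix.toLin'_apply, Matrix.sub_mulVec, Matrix.smul_mulVec, Matrix.one_mulVec,
    sub_eq_zero] at hx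
  obtain ⟨n, hn⟩ := PureS_sl2 c1 c2 c3 hx0 hμ hx.1
  -- a common eigenvector of the `lam i • P i`
  have hTE : ∃ t : ι → L, (∀ i, (ins i (lam i • P i) : Matrix (ι → Fin 2) (ι → Fin 2) L) ^ 2 -
      t i • ins i (lam i • P i) + (q : L) • (1 : Matrix (ι → Fin 2) (ι → Fin 2) L) = 0) ∧
      (∀ i ∈ A, t i = q + 1) ∧ (∀ i, i ∉ A → ∃ z : ℤ, t i = z ∧ z ^ 2 ≤ 4 * (q : ℤ)) := by
    have h : ∀ i, ∃ t : L, ((ins i (lam i • P i) : Matrix (ι → Fin 2) (ι → Fin 2) L) ^ 2 -
      t • ins i (lam i • P i) + (q : L) • (1 : Matrix (ι → Fin 2) (ι → Fin 2) L) = 0) ∧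
      (i ∈ A → t = q + 1) ∧ (i ∉ A → ∃ z : ℤ, t = z ∧ z ^ 2 ≤ 4 * (q : ℤ)) := by
      intro i
      by_cases hi : i ∈ A
      · refine ⟨q + 1, ?_, fun _ => rfl, fun h => absurd hi h⟩
        have h1 := (htr i hi).1
        have h2 := congrArg (fun M : Matrix (Fin 2) (Fin 2) L =>
          (ins i M : Matrix (ι → Fin 2) (ι → Fin 2) L)) h1
        rw [ins_add, PureS_insb, pow_two, ins_mul, ins_smul i ((q : L) + 1) (lam i • P i),
          ins_smul i (q : L) 1, ins_one, PureS_ins0] at h2
        rw [pow_two, h2]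
      · obtain ⟨z, hz, h⟩ := hg i hi
        refine ⟨z, ?_, fun h' => absurd h' hi, fun _ => ⟨z, rfl, hz⟩⟩
        rw [hlamA i hi, one_smul]
        exact h
    choose t h1 h2 h3 using h
    exact ⟨t, h1, h2, h3⟩
  obtain ⟨t, ht1, ht2, ht3⟩ := hTE
  have hTP : ∀ i, (ins i (lam i • P i) : Matrix (ι → Fin 2) (ι → Fin 2) L) * kron P =
      kron P * ins i (lam i • P i) := fun i => PureS_commK i _ P (by
        rw [smul_mul_assoc, mul_smul_comm])
  have hTH : ∀ i, (ins i (lam i • P i) : Matrix (ι → Fin 2) (ι → Fin 2) L) * H =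
      H * ins i (lam i • P i) := by
    intro i
    rw [hHd, Finset.sum_mul, Finset.mul_sum]
    refine Finset.sum_congr rfl fun j _ => ?_
    by_cases h : i = j
    · subst h
      rw [← ins_mul, ← ins_mul, smul_mul_assoc, mul_smul_comm, hhP]
    · exact ins_comm h _ _
  obtain ⟨y, hy, hy0, α, hα⟩ := PureS_common
    (fun i => (ins i (lam i • P i) : Matrix (ι → Fin 2) (ι → Fin 2) L)) t (q : L) Finset.univ
    (by
      intro i _ j _
      by_cases h : i = j
      · subst h; rfl
      · exact ins_comm h _ _) (fun i _ => ht1 i)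
    (LinearMap.ker (Matrix.toLin' (H - μ • (1 : Matrix (ι → Fin 2) (ι → Fin 2) L))) ⊓
      LinearMap.ker (Matrix.toLin' (kron P - ((q : L) ^ m) •
      (1 : Matrix (ι → Fin 2) (ι → Fin 2) L)))) (by
      intro i _ x hx
      rw [Submodule.mem_inf, LinearMap.mem_ker, LinearMap.mem_ker, Matrix.toLin'_apply,
        Matrix.toLin'_apply, Matrix.sub_mulVec, Matrix.sub_mulVec, Matrix.smul_mulVec,
        Matrix.smul_mulVec, Matrix.one_mulVec, sub_eq_zero, sub_eq_zero] at hx ⊢
      refine ⟨?_, ?_⟩
      · rw [Matrix.mulVec_mulVec, ← hTH, ← Matrix.mulVec_mulVec, hx.1, Matrix.mulVec_smul]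
      · rw [Matrix.mulVec_mulVec, ← hTP, ← Matrix.mulVec_mulVec, hx.2, Matrix.mulVec_smul])
    ⟨x, by
      rw [Submodule.mem_inf, LinearMap.mem_ker, LinearMap.mem_ker, Matrix.toLin'_apply,
        Matrix.toLin'_apply, Matrix.sub_mulVec, Matrix.sub_mulVec, Matrix.smul_mulVec,
        Matrix.smul_mulVec, Matrix.one_mulVec, sub_eq_zero, sub_eq_zero]
      exact ⟨hμ, hx.2⟩, hx0⟩
  rw [Submodule.mem_inf, LinearMap.mem_ker, LinearMap.mem_ker, Matrix.toLin'_apply,
    Matrix.toLin'_apply, Matrix.sub_mulVec, Matrix.sub_mulVec, Matrix.smul_mulVec,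
    Matrix.smul_mulVec, Matrix.one_mulVec, sub_eq_zero, sub_eq_zero] at hy
  obtain ⟨c, hc⟩ := Function.ne_iff.mp hy0
  have hcan : ∀ a b : L, a • y = b • y → a = b := by
    intro a b h
    have := congrFun h c
    simp only [Pi.smul_apply, smul_eq_mul, Pi.zero_apply] at this hc
    exact mul_right_cancel₀ hc this
  -- the product of the eigenvalues
  have hprod : (∏ i, lam i) * (q : L) ^ m = ∏ i, α i := by
    have h1 := PureS_prod (fun i => lam i • P i) y α Finset.univ fun i hi => (hα i hi).2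
    have h2 : (kron fun i => if i ∈ (Finset.univ : Finset ι) then lam i • P i else 1) =
        (∏ i, lam i) • kron P := by
      rw [← kron_smul]
      congr 1
      funext i
      simp
    rw [h2, Matrix.smul_mulVec, hy.2, smul_smul] at h1
    exact hcan _ _ h1
  -- the eigenvalues at the places of `A`
  have hαA : ∀ i ∈ A, α i = q ∨ α i = 1 := by
    intro i hi
    have h1 := (hα i (Finset.mem_univ i)).1
    rw [ht2 i hi] at h1
    have h2 : (α i - q) * (α i - 1) = 0 := by linear_combination h1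
    rcases mul_eq_zero.mp h2 with h | h
    · left; exact sub_eq_zero.mp h
    · right; exact sub_eq_zero.mp h
  set Bq := A.filter (fun i => α i = q) with hBq
  have hq1' : (1 : L) ≠ q := by
    intro h; exact hq1 (by rw [← h, sub_self])
  have hprodA : ∏ i ∈ A, α i = (q : L) ^ Bq.card := by
    rw [← Finset.prod_filter_mul_prod_filter_not A (fun i => α i = q), ← hBq]
    have h1 : ∏ i ∈ Bq, α i = (q : L) ^ Bq.card := by
      rw [Finset.prod_congr rfl (fun i hi => (Finset.mem_filter.mp hi).2), Finset.prod_const]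
    have h2 : ∏ i ∈ A.filter (fun i => ¬ α i = q), α i = 1 := by
      apply Finset.prod_eq_one
      intro i hi
      obtain ⟨h3, h4⟩ := Finset.mem_filter.mp hi
      exact (hαA i h3).resolve_left h4
    rw [h1, h2, mul_one]
  have hμ2 : μ = 2 * (Bq.card : L) - (A.card : L) := by
    have h1 : H.mulVec y = (∑ i ∈ A, (if α i = q then (1 : L) else -1)) • y := by
      rw [hHd, Matrix.sum_mulVec, Finset.sum_smul]
      refine Finset.sum_congr rfl fun i hi => ?_
      have h2 : (ins i (hh i) : Matrix (ι → Fin 2) (ι → Fin 2) L) = ((q : L) - 1)⁻¹ •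
          ((2 : L) • ins i (lam i • P i) - ((q : L) + 1) •
            (1 : Matrix (ι → Fin 2) (ι → Fin 2) L)) := by
        simp only [hhd]
        rw [ins_smul, PureS_insb, ins_smul i (2 : L) (lam i • P i), ins_smul i ((q : L) + 1) 1,
          ins_one]
      rw [h2, Matrix.smul_mulVec, Matrix.sub_mulVec, Matrix.smul_mulVec, Matrix.smul_mulVec,
        Matrix.one_mulVec, (hα i (Finset.mem_univ i)).2, smul_smul, ← sub_smul, smul_smul]
      congr 1
      rcases hαA i hi with h | h
      · rw [if_pos h, h]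
        field_simp
        ring
      · rw [if_neg (by rw [h]; exact hq1'), h]
        field_simp
        ring
    rw [hy.1] at h1
    rw [hcan _ _ h1, ← Finset.sum_filter_add_sum_filter_not A (fun i => α i = q), ← hBq]
    have h3 : ∑ i ∈ Bq, (if α i = q then (1 : L) else -1) = (Bq.card : L) := by
      rw [Finset.sum_congr rfl (fun i hi => if_pos (Finset.mem_filter.mp hi).2),
        Finset.sum_const, nsmul_eq_mul, mul_one]
    have h4 : ∑ i ∈ A.filter (fun i => ¬ α i = q), (if α i = q then (1 : L) else -1) =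
        -((A.filter (fun i => ¬ α i = q)).card : L) := by
      rw [Finset.sum_congr rfl (fun i hi => if_neg (Finset.mem_filter.mp hi).2),
        Finset.sum_const, nsmul_eq_mul, mul_neg, mul_one]
    have h5 : (Bq.card : L) + ((A.filter (fun i => ¬ α i = q)).card : L) = (A.card : L) := by
      rw [hBq, ← Nat.cast_add, Finset.card_filter_add_card_filter_not]
    rw [h3, h4]
    linear_combination (-1 : L) * h5
  -- weights
  have hε : (∏ i, lam i) = 1 ∨ (∏ i, lam i) = -1 := by
    have h1 : (∏ i, lam i) * (∏ i, lam i) = 1 := by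
      rw [← Finset.prod_mul_distrib]
      exact Finset.prod_eq_one fun i _ => hlam2 i
    exact mul_self_eq_one_iff.mp h1
  have ht3' : ∀ i, ∃ z : ℤ, i ∈ Aᶜ → t i = z ∧ z ^ 2 ≤ 4 * (q : ℤ) := by
    intro i
    by_cases hi : i ∈ Aᶜ
    · obtain ⟨z, h⟩ := ht3 i (Finset.mem_compl.mp hi)
      exact ⟨z, fun _ => h⟩
    · exact ⟨0, fun h => absurd h hi⟩
  choose t' ht' using ht3'
  have hw : (Aᶜ).card + 2 * Bq.card = 2 * m := by
    by_contra hne
    refine weight_no hq Aᶜ (α := α) (t := t') (fun i hi => (ht' i hi).2) (fun i hi => ?_) hne hε ?_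
    · rw [← (ht' i hi).1]
      exact (hα i (Finset.mem_univ i)).1
    · rw [hprod, ← hprodA]
      exact Finset.prod_mul_prod_compl A α
  have hcard : A.card + (Aᶜ).card = 2 * m + 1 := by
    rw [Finset.card_add_card_compl, hm]
  have h6 : (n : L) + 1 = 0 := by
    rw [← hn, hμ2]
    have h7 : 2 * Bq.card + 1 = A.card := by omega
    rw [← h7]
    push_cast
    ring
  have h8 : ((n + 1 : ℕ) : L) = ((0 : ℕ) : L) := by
    rw [Nat.cast_add, Nat.cast_one, h6, Nat.cast_zero]
  have h9 := Nat.cast_injective h8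
  omega

end main

section

variable {ι : Type} [Fintype ι] [DecidableEq ι]

/-- **Purity**, any number of multiplicative factors. -/
theorem pure_all {q : ℕ} (hq : 1 < q) (A : Finset ι) (S P : ι → Matrix (Fin 2) (Fin 2) ℤ_[2])
    {m : ℕ} (hm : Fintype.card ι = 2 * m + 1)
    (hg : ∀ i, i ∉ A → S i = 1 ∧ ∃ t : ℤ, t ^ 2 ≤ 4 * (q : ℤ) ∧
      P i ^ 2 - (t : ℤ_[2]) • P i + (q : ℤ_[2]) • (1 : Matrix (Fin 2) (Fin 2) ℤ_[2]) = 0)
    (hb : ∀ i ∈ A, S i ≠ 1 ∧ (S i - 1) * (S i - 1) = 0 ∧ (P i).det = (q : ℤ_[2]) ∧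
      ∃ lam : ℤ_[2], (lam = 1 ∨ lam = -1) ∧ P i * (S i - 1) = (lam * q) • (S i - 1))
    {r : (ι → Fin 2) → ℚ_[2]}
    (hr1 : ((kron S).map fun x : ℤ_[2] => (x : ℚ_[2])).mulVec r = r)
    (hr : ((kron P).map fun x : ℤ_[2] => (x : ℚ_[2])).mulVec r = ((q : ℚ_[2]) ^ m) • r) :
    r = 0 := by
  classical
  set L := AlgebraicClosure ℚ_[2] with hL
  set f : ℤ_[2] →+* L := (algebraMap ℚ_[2] L).comp PadicInt.Coe.ringHom with hf
  have hfinj : Function.Injective f := by
    intro x y hxy
    have h1 : ((x : ℚ_[2])) = (y : ℚ_[2]) := (algebraMap ℚ_[2] L).injective hxy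
    exact Subtype.ext h1
  have hr' := PureS_mulVec (kron P) hr
  have hr1' := PureS_mulVec (kron S) hr1
  rw [← hf] at hr' hr1'
  rw [kron_map] at hr' hr1'
  apply PureS_inj
  have hN1 : ∀ i, (S i).map f = 1 + (S i - 1).map f := by
    intro i
    ext a b
    rw [Matrix.add_apply, Matrix.map_apply, Matrix.map_apply, Matrix.sub_apply, map_sub]
    by_cases hab : a = b
    · subst hab; simp
    · simp [hab]
  refine PureS_core hq A (fun i => (S i - 1).map f) (fun i => (P i).map f) hm ?_ ?_ ?_ ?_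
  · intro i hi
    obtain ⟨t, ht, h⟩ := (hg i hi).2
    refine ⟨t, ht, ?_⟩
    have := PureS_map_pol (ι := ι) f h i
    rw [map_intCast, map_natCast] at this
    exact this
  · intro i hi
    obtain ⟨h1, h2, h3, lam, hlam, h4⟩ := hb i hi
    refine ⟨?_, ?_, ?_, f lam, ?_, ?_⟩
    · intro h
      apply h1
      rw [← sub_eq_zero]
      ext a b
      have := congrFun (congrFun h a) b
      simp only [Matrix.map_apply, Matrix.zero_apply] at this
      exact hfinj (by rw [this, Matrix.zero_apply, map_zero])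
    · rw [← Matrix.map_mul, h2]
      ext a b; simp
    · have := RingHom.map_det f (P i)
      rw [h3, map_natCast] at this
      exact this.symm
    · rcases hlam with rfl | rfl
      · left; simp
      · right; simp
    · have h5 := congrArg (fun M : Matrix (Fin 2) (Fin 2) ℤ_[2] => M.map f) h4
      simp only [Matrix.map_mul] at h5
      rw [h5]
      ext a b
      simp [Matrix.map_apply, Matrix.smul_apply]
  · have h6 : (kron fun i => if i ∈ A then 1 + (S i - 1).map f else 1) =
        kron fun i => (S i).map f := by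
      congr 1
      funext i
      split_ifs with hi
      · rw [hN1]
      · rw [(hg i hi).1]
        ext a b
        by_cases hab : a = b
        · subst hab; simp
        · simp [hab]
    rw [h6]
    exact hr1'
  · rw [hr']
    funext i
    simp only [Pi.smul_apply, smul_eq_mul, map_mul, map_pow, map_natCast]

end

end Pool.Agent.TTN
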