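import Pool.Agent.Lib.TTN.LocK
import Pool.Agent.Lib.TTN.PureS

/-!
# Project TTN (MP_950c68_ag), module PureT: purity of the tensor product at every place of `K`

PROOF. `exists_loc` gives `q, A, τ, φ` in `dvK Ω v ⊓ U`. `r` is fixed by `latT.rq τ` and `latT.rq
φ`. `latT_rho`: `rho s = ((cyc s)⁻¹ ^ m) • kron (fun i => (R i).rho s)`. For `τ`: `cyc τ = 1`, so
`kron S r = r` with `S i = (R i).rho τ`. For `φ`: `cyc φ = q`, so `q ^ (-m) kron P r = r`, that is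
`kron P r = q ^ m r`, `P i = (R i).rho φ`. `pure_all` (module PureS). (Compare the private lemmas
of `TTC/LatKT.lean` on the map `ℤ_2 → ℚ_2`.)
-/

set_option autoImplicit false

open Pool.Agent.TTC (QZ mact red2 hf2 cycK latT kron J2 eL)
open Pool.Agent.SmNJ Pool.Agent.SmJ Pool.Agent.BSDFF Pool.Agent.GBU Pool.Agent.Lib.SmD

namespace Pool.Agent.TTN

section gen

variable {G : Type} [Group G] {ι : Type} [Fintype ι] [DecidableEq ι]

private theorem PureT_gen (cyc : G →* ℤ_[2]ˣ) (rho : ι → G →* Matrix (Fin 2) (Fin 2) ℤ_[2])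
    (m : ℕ) (s : G) {u : ℤ_[2]} (hu : (cyc s : ℤ_[2]) = u) {r : (ι → Fin 2) → ℚ_[2]}
    (h : ((latT cyc rho m).rq s).mulVec r = r) :
    ((kron fun i => rho i s).map fun x : ℤ_[2] => (x : ℚ_[2])).mulVec r =
      ((u : ℚ_[2]) ^ m) • r := by
  have h1 : (latT cyc rho m).rq s = (((((cyc s)⁻¹ ^ m : ℤ_[2]ˣ) : ℤ_[2])) : ℚ_[2]) •
      (kron fun i => rho i s).map fun x : ℤ_[2] => (x : ℚ_[2]) := by
    unfold Pool.Agent.TTC.Lat.rq
    rw [Pool.Agent.TTC.latT_rho]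
    ext x y
    rw [Matrix.map_apply, Matrix.smul_apply, Matrix.smul_apply, Matrix.map_apply, smul_eq_mul,
      smul_eq_mul, PadicInt.coe_mul]
  have h2 : (u : ℚ_[2]) ^ m * (((((cyc s)⁻¹ ^ m : ℤ_[2]ˣ) : ℤ_[2])) : ℚ_[2]) = 1 := by
    rw [← hu, ← PadicInt.coe_pow, ← PadicInt.coe_mul, ← Units.val_pow_eq_pow_val,
      ← Units.val_mul, ← mul_pow, mul_inv_cancel, one_pow, Units.val_one, PadicInt.coe_one]
  rw [h1, Matrix.smul_mulVec] at h
  have h3 := congrArg (fun w => ((u : ℚ_[2]) ^ m) • w) h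
  beta_reduce at h3
  rw [smul_smul, h2, one_smul] at h3
  exact h3

end gen

section

variable {k K Ω : Type} [Field k] [Finite k] [Field K] [Algebra k K] [Algebra (RatFunc k) K]
  [IsScalarTower k (RatFunc k) K] [FiniteDimensional (RatFunc k) K]
  [Algebra.IsSeparable (RatFunc k) K] [Field Ω] [Algebra K Ω] [IsSepClosure K Ω]
  {ι : Type} [Fintype ι] [DecidableEq ι]
  {a : ι → Fin (2 * 1 + 1) → Ω} [∀ i, RtG K (a i)] [∀ i, HypA (a i)]

theorem pure_T (h6 : (6 : k) ≠ 0) (hsum : ∀ i, a i 0 + a i 1 + a i 2 = 0)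
    (R : ∀ i, Rep (Ω ≃ₐ[K] Ω) (VN (a i))) {m : ℕ} (hm : Fintype.card ι = 2 * m + 1)
    (v : Place k K) {U : Subgroup (Ω ≃ₐ[K] Ω)} (hU : IsOpen (U : Set (Ω ≃ₐ[K] Ω)))
    {r : (ι → Fin 2) → ℚ_[2]} (hr : ∀ s ∈ dvK Ω v, s ∈ U →
      ((latT (cycK Ω K) (fun i => (R i).rho) m).rq s).mulVec r = r) : r = 0 := by
  obtain ⟨q, A, τ, φ, hq, hτd, hτU, hφd, hφU, hτ1, hφq, hg, hb⟩ := exists_loc h6 hsum R v hU
  have h1 := PureT_gen (cycK Ω K) (fun i => (R i).rho) m τ hτ1 (hr τ hτd hτU)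
  have h2 := PureT_gen (cycK Ω K) (fun i => (R i).rho) m φ hφq (hr φ hφd hφU)
  rw [PadicInt.coe_one, one_pow, one_smul] at h1
  rw [PadicInt.coe_natCast] at h2
  exact pure_all hq A (fun i => (R i).rho τ) (fun i => (R i).rho φ) hm hg hb h1 h2

end

end Pool.Agent.TTN
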