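import Pool.Agent.Lib.TTN.RepD
import Pool.Agent.Lib.TTC.QZ2
import Pool.Agent.Lib.TTC.Mact
import Pool.Agent.Lib.Sm.P.Psi

/-!
# Project TTN (MP_950c68_ag), module RepA: representations by `2 × 2` matrices over `ℤ_2`

SOURCES: `TTC/EA.lean` (private `EA_exists_th`, `EA_exists_rho`, with `SmP.exists_CB`),
`TTC/EB.lean` (private `EB_mat`, `EB_rho_eq`, `EB_smul_qz`, the end of `eDat_ok` for `rho_quad`),
`TTC/QZ2.lean` (`qz_hom`, `qz_tors`, `hf2_range`, `qz_faithful`, `qz_kill`), `TTC/Mact.lean`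
(`mact_inj`, `mact_hf2`, `mact_kill`). `exists_rep`: the elements of order dividing `2` are a
group with `4` elements killed by `2`: take `P ≠ 0` and `Q ≠ 0, P` in it; `iota : ZMod 2 × ZMod 2
→+ V` sends the basis to `P, Q` (`SmithE.ofTwo` in `SM/E/Act.lean` or `ZMod.lift`), injective, and
surjective onto them by counting; then `SmP.exists_CB` (which asks for `half`, `iota`, injectivity
and range) and the two private lemmas. `rho_cong`, the direction from matrices to points: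
`mact_kill`.
-/

set_option autoImplicit false

open Pool.Agent.TTC (QZ mact red2 hf2)

namespace Pool.Agent.TTN

variable {G V : Type} [Group G] [AddCommGroup V] [DistribMulAction G V]

open Pool.Agent.TTC (qz qz_hom qz_tors qz_gen_of qz_zsmul_eq_zero mact_end mact_inj mact_one mact_mul
  mact_apply mact_kill mact_hf2 add_mact smul_mact qz_smul qz_eq_zero qz_nsmul qz_coe hf2_range
  hf2_inj)
open Pool.Agent.SmP (CB)

/-- The isomorphism `(ℚ_2 / ℤ_2) ^ 2 → V` given by a compatible basis. -/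
private theorem RepA_exists_th {V : Type} [AddCommGroup V] (B : CB V)
    (ht : ∀ x : V, ∃ j : ℕ, (2 : ℕ) ^ j • x = 0) :
    ∃ th : (Fin 2 → QZ) ≃+ V, (∀ Q : QZ, (2 : ℕ) • Q = 0 → th ![Q, 0] = 0 → Q = 0) ∧
      th ![qz (1 / 2), 0] = B.P 1 ∧ th ![0, qz (1 / 2)] = B.Q 1 := by
  obtain ⟨f, hf⟩ := qz_hom B.P B.P_zero B.P_succ
  obtain ⟨g, hg⟩ := qz_hom B.Q B.Q_zero B.Q_succ
  let F : (Fin 2 → QZ) →+ V :=
    { toFun := fun x => f (x 0) + g (x 1)
      map_zero' := by
        rw [Pi.zero_apply, Pi.zero_apply, map_zero, map_zero, add_zero]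
      map_add' := by
        intro x y
        rw [Pi.add_apply, Pi.add_apply, map_add, map_add]
        abel }
  have hF : ∀ x, F x = f (x 0) + g (x 1) := fun _ => rfl
  have hinj : Function.Injective F := by
    rw [injective_iff_map_eq_zero]
    intro x hx
    obtain ⟨j0, h0⟩ := qz_tors (x 0)
    obtain ⟨j1, h1⟩ := qz_tors (x 1)
    have h0' : (2 : ℕ) ^ (j0 + j1) • x 0 = 0 := by
      rw [pow_add, mul_comm, mul_smul, h0, smul_zero]
    have h1' : (2 : ℕ) ^ (j0 + j1) • x 1 = 0 := by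
      rw [pow_add, mul_smul, h1, smul_zero]
    obtain ⟨n0, e0⟩ := qz_gen_of h0'
    obtain ⟨n1, e1⟩ := qz_gen_of h1'
    rw [hF, e0, e1, map_nsmul, map_nsmul, hf, hg, ← natCast_zsmul, ← natCast_zsmul,
      B.coord_zero] at hx
    funext i
    fin_cases i
    · change x 0 = 0
      rw [e0, ← natCast_zsmul, qz_zsmul_eq_zero]
      exact hx.1
    · change x 1 = 0
      rw [e1, ← natCast_zsmul, qz_zsmul_eq_zero]
      exact hx.2
  have hsurj : Function.Surjective F := by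
    intro y
    obtain ⟨j, hj⟩ := ht y
    obtain ⟨a, b, hab⟩ := B.exists_coord j y hj
    refine ⟨![a • qz (1 / 2 ^ j), b • qz (1 / 2 ^ j)], ?_⟩
    rw [hF, hab]
    change f (a • qz (1 / 2 ^ j)) + g (b • qz (1 / 2 ^ j)) = _
    rw [map_zsmul, map_zsmul, hf, hg]
  refine ⟨AddEquiv.ofBijective F ⟨hinj, hsurj⟩, ?_, ?_, ?_⟩
  · intro Q _ h
    have h1 : F ![Q, 0] = 0 := h
    have h2 := (injective_iff_map_eq_zero F).mp hinj _ h1
    exact congrFun h2 0
  · change F ![qz (1 / 2), 0] = _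
    rw [hF]
    change f (qz (1 / 2)) + g 0 = _
    have h1 := hf 1
    rw [pow_one] at h1
    rw [h1, map_zero, add_zero]
  · change F ![0, qz (1 / 2)] = _
    rw [hF]
    change f 0 + g (qz (1 / 2)) = _
    have h1 := hg 1
    rw [pow_one] at h1
    rw [h1, map_zero, zero_add]

/-- The matrices of an action on `V` in the coordinates `th`. -/
private theorem RepA_exists_rho {V G : Type} [AddCommGroup V] [Group G] [DistribMulAction G V]
    (th : (Fin 2 → QZ) ≃+ V) :
    ∃ rho : G →* Matrix (Fin 2) (Fin 2) ℤ_[2], ∀ s x, th (mact (rho s) x) = s • th x := by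
  have h1 : ∀ s : G, ∃ A : Matrix (Fin 2) (Fin 2) ℤ_[2], ∀ x, th (mact A x) = s • th x := by
    intro s
    obtain ⟨A, hA⟩ := mact_end
      ((th.symm.toAddMonoidHom.comp (DistribSMul.toAddMonoidHom V s)).comp th.toAddMonoidHom)
    refine ⟨A, fun x => ?_⟩
    rw [← hA x]
    change th (th.symm (s • th x)) = _
    rw [AddEquiv.apply_symm_apply]
  choose A hA using h1
  refine ⟨⟨⟨A, ?_⟩, ?_⟩, hA⟩
  · apply mact_inj
    intro x
    apply th.injective
    rw [hA, one_smul, mact_one]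
  · intro s t
    apply mact_inj
    intro x
    apply th.injective
    rw [hA, mact_mul, hA, hA, mul_smul]

private theorem RepA_smul_qz_zero {c : ℤ_[2]} {m : ℕ} (h : c • qz (1 / 2 ^ m) = 0) :
    ∃ d, c = 2 ^ m * d := by
  rw [qz_smul, qz_eq_zero] at h
  obtain ⟨d, hd⟩ := h
  refine ⟨d, ?_⟩
  apply Subtype.ext
  have h2 : ((2 : ℤ_[2]) : ℚ_[2]) = 2 := rfl
  rw [PadicInt.coe_mul, PadicInt.coe_pow, hd, h2]
  field_simp

/-- a matrix acting trivially on the elements killed by `2 ^ j` -/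
private theorem RepA_mat {A : Matrix (Fin 2) (Fin 2) ℤ_[2]} {j : ℕ}
    (h : ∀ x : Fin 2 → QZ, (2 : ℕ) ^ j • x = 0 → mact A x = x) :
    ∃ B : Matrix (Fin 2) (Fin 2) ℤ_[2], A = 1 + (2 : ℤ_[2]) ^ j • B := by
  have key : ∀ i l, ∃ d, (A - 1) i l = 2 ^ j * d := by
    intro i l
    refine RepA_smul_qz_zero ?_
    have h1 := h (Pi.single l (qz (1 / 2 ^ j))) (by
      rw [← Pi.single_smul, qz_nsmul]
      have h3 : ((2 ^ j : ℕ) : ℚ_[2]) * (1 / 2 ^ j) = ((1 : ℤ_[2]) : ℚ_[2]) := by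
        push_cast
        field_simp
      rw [h3, qz_coe, Pi.single_zero])
    have h2 : mact (A - 1) (Pi.single l (qz (1 / 2 ^ j))) = 0 := by
      have h3 := add_mact (A - 1) 1 (Pi.single l (qz (1 / 2 ^ j)))
      rw [sub_add_cancel, h1, mact_one] at h3
      exact (right_eq_add.mp h3)
    have h3 := congrFun h2 i
    rw [mact_apply, Pi.zero_apply, Finset.sum_eq_single l] at h3
    · rwa [Pi.single_eq_same] at h3
    · intro l' _ hl
      rw [Pi.single_eq_of_ne hl, smul_zero]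
    · intro hl
      exact absurd (Finset.mem_univ l) hl
  choose d hd using key
  refine ⟨Matrix.of d, ?_⟩
  rw [← sub_eq_iff_eq_add']
  ext i l
  rw [hd, Matrix.smul_apply, Matrix.of_apply, smul_eq_mul]

/-- The elements of order dividing `2` in coordinates. -/
private theorem RepA_iota {V : Type} [AddCommGroup V]
    (hcard : Nat.card {Q : V // (2 : ℕ) • Q = 0} = 4) :
    ∃ iota : ZMod 2 × ZMod 2 →+ V, Function.Injective iota ∧
      ∀ x : V, (2 : ℕ) • x = 0 → ∃ w, iota w = x := by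
  classical
  have hfin : Finite {Q : V // (2 : ℕ) • Q = 0} := Nat.finite_of_card_ne_zero (by rw [hcard]; decide)
  have := Fintype.ofFinite {Q : V // (2 : ℕ) • Q = 0}
  have hc : Fintype.card {Q : V // (2 : ℕ) • Q = 0} = 4 := by rw [← Nat.card_eq_fintype_card, hcard]
  let z : {Q : V // (2 : ℕ) • Q = 0} := ⟨0, smul_zero _⟩
  obtain ⟨P, -, hP⟩ := Finset.exists_mem_notMem_of_card_lt_card
    (s := {z}) (t := Finset.univ) (by rw [Finset.card_singleton, Finset.card_univ, hc]; decide)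
  obtain ⟨Q, -, hQ⟩ := Finset.exists_mem_notMem_of_card_lt_card
    (s := {z, P}) (t := Finset.univ)
    (lt_of_le_of_lt Finset.card_le_two (by rw [Finset.card_univ, hc]; decide))
  rw [Finset.mem_singleton] at hP
  rw [Finset.mem_insert, Finset.mem_singleton, not_or] at hQ
  have hP0 : P.1 ≠ 0 := fun h => hP (Subtype.ext h)
  have hQ0 : Q.1 ≠ 0 := fun h => hQ.1 (Subtype.ext h)
  have hPQ : Q.1 ≠ P.1 := fun h => hQ.2 (Subtype.ext h)
  have hPP : P.1 + P.1 = 0 := by rw [← two_nsmul]; exact P.2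
  have hQQ : Q.1 + Q.1 = 0 := by rw [← two_nsmul]; exact Q.2
  let iota : ZMod 2 × ZMod 2 →+ V :=
    AddMonoidHom.coprod (Pool.Agent.SmithE.ofTwo P.1 hPP) (Pool.Agent.SmithE.ofTwo Q.1 hQQ)
  have hio : ∀ a b, iota (a, b) = Pool.Agent.SmithE.ofTwo P.1 hPP a +
      Pool.Agent.SmithE.ofTwo Q.1 hQQ b := fun a b => AddMonoidHom.coprod_apply _ _ _
  have h10 : iota (1, 0) = P.1 := by
    rw [hio, Pool.Agent.SmithE.ofTwo_one, map_zero, add_zero]
  have h01 : iota (0, 1) = Q.1 := by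
    rw [hio, Pool.Agent.SmithE.ofTwo_one, map_zero, zero_add]
  have h11 : iota (1, 1) = P.1 + Q.1 := by
    rw [hio, Pool.Agent.SmithE.ofTwo_one, Pool.Agent.SmithE.ofTwo_one]
  have hinj : Function.Injective iota := by
    rw [injective_iff_map_eq_zero]
    rintro ⟨a, b⟩ h
    fin_cases a <;> fin_cases b
    · rfl
    · exact absurd (h01.symm.trans h) hQ0
    · exact absurd (h10.symm.trans h) hP0
    · exfalso
      have h2 : P.1 + Q.1 = P.1 + P.1 := by rw [hPP, ← h11]; exact h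
      exact hPQ (add_left_cancel h2)
  refine ⟨iota, hinj, ?_⟩
  have h2w : ∀ w, (2 : ℕ) • iota w = 0 := by
    intro w
    rw [← map_nsmul]
    have : (2 : ℕ) • w = 0 := by
      rw [two_nsmul]
      exact Prod.ext (CharTwo.add_self_eq_zero _) (CharTwo.add_self_eq_zero _)
    rw [this, map_zero]
  let F : ZMod 2 × ZMod 2 → {Q : V // (2 : ℕ) • Q = 0} := fun w => ⟨iota w, h2w w⟩
  have hF : Function.Injective F := fun w w' h => hinj (congrArg Subtype.val h)
  have hb : Function.Bijective F := (Fintype.bijective_iff_injective_and_card F).mpr ⟨hF, by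
    rw [hc]; rfl⟩
  intro x hx
  obtain ⟨w, hw⟩ := hb.2 ⟨x, hx⟩
  exact ⟨w, congrArg Subtype.val hw⟩

theorem exists_rep (hhalf : ∀ Q : V, ∃ R : V, (2 : ℕ) • R = Q)
    (htors : ∀ Q : V, ∃ j : ℕ, (2 : ℕ) ^ j • Q = 0)
    (hcard : Nat.card {Q : V // (2 : ℕ) • Q = 0} = 4) : Nonempty (Rep G V) := by
  obtain ⟨iota, h1, h2⟩ := RepA_iota hcard
  obtain ⟨B, -, -⟩ := Pool.Agent.SmP.exists_CB hhalf iota h1 h2
  obtain ⟨th, -, -, -⟩ := RepA_exists_th B htors
  obtain ⟨rho, hrho⟩ := RepA_exists_rho (G := G) th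
  exact ⟨⟨rho, th, hrho⟩⟩

theorem Rep.rho_eq_one (R : Rep G V) {s : G} : R.rho s = 1 ↔ ∀ Q : V, s • Q = Q := by
  constructor
  · intro h Q
    obtain ⟨x, rfl⟩ := R.th.surjective Q
    rw [← R.act, h, mact_one]
  · intro h
    refine mact_inj fun x => ?_
    apply R.th.injective
    rw [R.act, h, mact_one]

theorem Rep.rho_cong (R : Rep G V) {s : G} {j : ℕ} :
    (∃ B : Matrix (Fin 2) (Fin 2) ℤ_[2], R.rho s = 1 + (2 : ℤ_[2]) ^ j • B) ↔
      ∀ Q : V, (2 : ℕ) ^ j • Q = 0 → s • Q = Q := by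
  constructor
  · rintro ⟨B, hB⟩ Q hQ
    obtain ⟨x, rfl⟩ := R.th.surjective Q
    rw [← map_nsmul, EmbeddingLike.map_eq_zero_iff] at hQ
    rw [← R.act, hB, mact_kill B hQ]
  · intro h
    refine RepA_mat fun x hx => ?_
    apply R.th.injective
    rw [R.act]
    exact h _ (by rw [← map_nsmul, hx, map_zero])

/-- A quadratic relation. -/
theorem Rep.rho_quad (R : Rep G V) {s : G} {t : ℤ} {q : ℕ}
    (h : ∀ Q : V, s • (s • Q) - t • (s • Q) + (q : ℤ) • Q = 0) :
    R.rho s ^ 2 - (t : ℤ_[2]) • R.rho s +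
      (q : ℤ_[2]) • (1 : Matrix (Fin 2) (Fin 2) ℤ_[2]) = 0 := by
  refine mact_inj fun x => ?_
  apply R.th.injective
  have hz : ∀ (n : ℤ) (y : Fin 2 → QZ), ((n : ℤ_[2])) • y = n • y := fun n y =>
    Int.cast_smul_eq_zsmul _ _ _
  have hn : ∀ (n : ℕ) (y : Fin 2 → QZ), ((n : ℤ_[2])) • y = (n : ℤ) • y := fun n y => by
    rw [Nat.cast_smul_eq_nsmul, natCast_zsmul]
  have h0 : mact (0 : Matrix (Fin 2) (Fin 2) ℤ_[2]) x = 0 := by
    funext i
    simp [mact_apply]
  have hs : mact (R.rho s ^ 2 - (t : ℤ_[2]) • R.rho s +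
      (q : ℤ_[2]) • (1 : Matrix (Fin 2) (Fin 2) ℤ_[2])) x =
      mact (R.rho s) (mact (R.rho s) x) - t • mact (R.rho s) x + (q : ℤ) • x := by
    have h3 := add_mact (R.rho s ^ 2 - (t : ℤ_[2]) • R.rho s) ((t : ℤ_[2]) • R.rho s) x
    rw [sub_add_cancel, smul_mact, hz, pow_two, mact_mul] at h3
    rw [add_mact, smul_mact, mact_one, hn, pow_two, h3]
    abel
  rw [hs, h0, map_zero, map_add, map_sub, map_zsmul, map_zsmul, R.act, R.act]
  exact h (R.th x)

/-- The action on the elements of order `2`. -/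
theorem Rep.act_hf2 (R : Rep G V) (s : G) (w : Fin 2 → ZMod 2) :
    s • R.th (fun i => hf2 (w i)) = R.th (fun i => hf2 ((R.red s).mulVec w i)) := by
  rw [← R.act, mact_hf2, R.red_apply]

/-- The elements of order `2`. -/
theorem Rep.th_hf2_surj (R : Rep G V) {Q : V} (hQ : (2 : ℕ) • Q = 0) :
    ∃ w : Fin 2 → ZMod 2, R.th (fun i => hf2 (w i)) = Q := by
  obtain ⟨x, rfl⟩ := R.th.surjective Q
  rw [← map_nsmul, EmbeddingLike.map_eq_zero_iff] at hQ
  choose w hw using fun i => hf2_range (x i) (congrFun hQ i)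
  exact ⟨w, congrArg _ (funext hw)⟩

theorem Rep.th_hf2_inj (R : Rep G V) {w w' : Fin 2 → ZMod 2}
    (h : R.th (fun i => hf2 (w i)) = R.th (fun i => hf2 (w' i))) : w = w' := by
  funext i
  exact hf2_inj (congrFun (R.th.injective h) i)

end Pool.Agent.TTN
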