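import Pool.Agent.Lib.TTN.TensD
import Pool.Agent.Lib.SmNJ.Sys

/-!
# Project TTN (MP_950c68_ag), module RepD: representations by `2 × 2` matrices over `ℤ_2`, definitions

`Rep G V`: coordinates `(ℚ_2 / ℤ_2) ^ 2 ≃ V` and the matrices of the action of `G`. `Rep.red` the
reduction modulo `2`.
-/

set_option autoImplicit false

open Pool.Agent.TTC (QZ mact red2 hf2)

namespace Pool.Agent.TTN

/-- The action of `G` on `V` in coordinates. -/
structure Rep (G V : Type) [Group G] [AddCommGroup V] [DistribMulAction G V] where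
  rho : G →* Matrix (Fin 2) (Fin 2) ℤ_[2]
  th : (Fin 2 → QZ) ≃+ V
  act : ∀ s x, th (mact (rho s) x) = s • th x

variable {G V : Type} [Group G] [AddCommGroup V] [DistribMulAction G V]

/-- The reduction modulo `2`. -/
noncomputable def Rep.red (R : Rep G V) : G →* Matrix (Fin 2) (Fin 2) (ZMod 2) :=
  ((RingHom.mapMatrix red2 : Matrix (Fin 2) (Fin 2) ℤ_[2] →+* Matrix (Fin 2) (Fin 2) (ZMod 2)) :
    Matrix (Fin 2) (Fin 2) ℤ_[2] →* Matrix (Fin 2) (Fin 2) (ZMod 2)).comp R.rho

theorem Rep.red_apply (R : Rep G V) (s : G) : R.red s = (R.rho s).map red2 := rfl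

end Pool.Agent.TTN
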