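import Pool.Agent.Lib.TTN.RepA

/-!
# Project TTN (MP_950c68_ag), module RepTwo: the reduction modulo `2` of the representation on the
`2`-power torsion of the Jacobian of `y ^ 2 = (x - a 0) (x - a 1) (x - a 2)`: the permutations of
the three nonzero vectors are those of the roots

PROOF. `x i := 1 - e_i ∈ EV 1` (the even vector with zero at `i`, one elsewhere) are the three
nonzero elements of `EV 1`. `iotaN a (x i)` has order `2`, so it is `R.th (hf2 ∘ w i)` for a
unique `w i ≠ 0` (`Rep.th_hf2_surj`, `iotaN_injective`); `i ↦ w i` is injective between sets with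
`3` elements, so bijective. `s • iotaN a (x i) = iotaN a (acN K a s (x i)) = iotaN a (x (pm s i))`
(`smul_iotaN`, `permE_apply`), and `s • R.th (hf2 ∘ w) = R.th (hf2 ∘ R.red s w)` (`Rep.act_hf2`).
`red_pow_eq_one`: `(red s) ^ n = red (s ^ n)`, which is `1` iff it fixes the three nonzero vectors
iff `pm (s ^ n) = 1`.
-/

set_option autoImplicit false

open Pool.Agent.TTC (QZ mact red2 hf2 cycK)
open Pool.Agent.SmNJ Pool.Agent.SmJ

namespace Pool.Agent.TTN

/-- The even vector with zero at `i`, one elsewhere. -/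
private def RTW_x (i : Fin (2 * 1 + 1)) : Pool.Agent.SmJ.L.EV 1 :=
  ⟨fun j => if j = i then 0 else 1, by
    change ∑ j, (if j = i then (0 : ZMod 2) else 1) = 0
    revert i
    decide⟩

private theorem RTW_x_val (i j : Fin (2 * 1 + 1)) : (RTW_x i).1 j = if j = i then 0 else 1 := rfl

private theorem RTW_x_inj {i j : Fin (2 * 1 + 1)} (h : RTW_x i = RTW_x j) : i = j := by
  by_contra hij
  have h1 := congrFun (congrArg Subtype.val h) i
  rw [RTW_x_val, RTW_x_val, if_pos rfl, if_neg hij] at h1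
  exact zero_ne_one h1

private theorem RTW_x_ne (i : Fin (2 * 1 + 1)) : RTW_x i ≠ 0 := by
  intro h
  obtain ⟨j, hj⟩ : ∃ j : Fin (2 * 1 + 1), j ≠ i := by
    revert i
    decide
  have h1 := congrFun (congrArg Subtype.val h) j
  rw [RTW_x_val, if_neg hj] at h1
  exact one_ne_zero h1

private theorem RTW_perm (σ : Equiv.Perm (Fin (2 * 1 + 1))) (i : Fin (2 * 1 + 1)) :
    permE 1 σ (RTW_x i) = RTW_x (σ i) := by
  apply Subtype.ext
  funext j
  rw [permE_apply, RTW_x_val, RTW_x_val]
  have h : σ⁻¹ j = i ↔ j = σ i := by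
    rw [Equiv.Perm.inv_eq_iff_eq]
  by_cases hj : j = σ i
  · rw [if_pos hj, if_pos (h.mpr hj)]
  · rw [if_neg hj, if_neg fun h1 => hj (h.mp h1)]

variable {K Ω : Type} [Field K] [Field Ω] [Algebra K Ω]
  {a : Fin (2 * 1 + 1) → Ω} [RtG K a] [HypA a]

private theorem RTW_hf2_zero (R : Rep (Ω ≃ₐ[K] Ω) (VN a)) :
    R.th (fun i => hf2 ((0 : Fin 2 → ZMod 2) i)) = 0 := by
  have h : (fun i => hf2 ((0 : Fin 2 → ZMod 2) i)) = (0 : Fin 2 → QZ) := by
    funext i
    exact map_zero hf2
  rw [h, map_zero]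

theorem exists_two (R : Rep (Ω ≃ₐ[K] Ω) (VN a)) :
    ∃ τ : Fin (2 * 1 + 1) ≃ {w : Fin 2 → ZMod 2 // w ≠ 0},
      ∀ (s : Ω ≃ₐ[K] Ω) (i : Fin (2 * 1 + 1)),
        (R.red s).mulVec (τ i).1 = (τ (pm K a s i)).1 := by
  have hex : ∀ i : Fin (2 * 1 + 1), ∃ w : Fin 2 → ZMod 2,
      R.th (fun j => hf2 (w j)) = iotaN a (RTW_x i) := fun i =>
    R.th_hf2_surj (two_iotaN _)
  choose w hw using hex
  have hw0 : ∀ i, w i ≠ 0 := by
    intro i h
    have h1 := hw i
    rw [h, RTW_hf2_zero] at h1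
    apply RTW_x_ne i
    apply iotaN_injective (a := a)
    rw [map_zero]
    exact h1.symm
  have hinj : Function.Injective fun i => (⟨w i, hw0 i⟩ : {w : Fin 2 → ZMod 2 // w ≠ 0}) := by
    intro i j h
    have h1 : w i = w j := congrArg Subtype.val h
    apply RTW_x_inj
    apply iotaN_injective (a := a)
    rw [← hw i, ← hw j, h1]
  have hcard : Fintype.card (Fin (2 * 1 + 1)) =
      Fintype.card {w : Fin 2 → ZMod 2 // w ≠ 0} := by
    decide
  have hbij := (Fintype.bijective_iff_injective_and_card _).mpr ⟨hinj, hcard⟩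
  refine ⟨Equiv.ofBijective _ hbij, fun s i => ?_⟩
  change (R.red s).mulVec (w i) = w (pm K a s i)
  apply R.th_hf2_inj
  rw [← R.act_hf2, hw, hw, smul_iotaN]
  congr 1
  exact RTW_perm (pm K a s) i

/-- A power of the reduction is trivial if and only if the power of the permutation is. -/
theorem red_pow_eq_one (R : Rep (Ω ≃ₐ[K] Ω) (VN a)) (s : Ω ≃ₐ[K] Ω) (n : ℕ) :
    R.red s ^ n = 1 ↔ pm K a s ^ n = 1 := by
  obtain ⟨τ, hτ⟩ := exists_two R
  rw [← map_pow, ← map_pow]
  constructor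
  · intro h
    ext1 i
    have h1 := hτ (s ^ n) i
    rw [h, Matrix.one_mulVec] at h1
    have h2 : τ i = τ (pm K a (s ^ n) i) := Subtype.ext h1
    exact (τ.injective h2).symm
  · intro h
    have h1 : ∀ v : Fin 2 → ZMod 2, (R.red (s ^ n)).mulVec v = v := by
      intro v
      by_cases hv : v = 0
      · rw [hv, Matrix.mulVec_zero]
      · obtain ⟨i, hi⟩ := τ.surjective ⟨v, hv⟩
        have h2 := hτ (s ^ n) i
        rw [h, Equiv.Perm.one_apply, hi] at h2
        exact h2
    apply Matrix.toLin'.injective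
    apply LinearMap.ext
    intro v
    rw [Matrix.toLin'_apply, Matrix.toLin'_apply, h1, Matrix.one_mulVec]

end Pool.Agent.TTN
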