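import Pool.Agent.Lib.TTN.Defs

/-!
# Project TTN (MP_950c68_ag), module TensD: the tensor product modulo `2`, definitions

`r i : G → GL_2(𝔽_2)`; `kronH r` the tensor product of the `r i`, `eT` the tensor product of the
alternating forms, `XT ι` the families of nonzero vectors of `𝔽_2 ^ 2` (`3 ^ n` elements).
-/

set_option autoImplicit false

open Pool.Agent.TTC

namespace Pool.Agent.TTN

section

variable {G : Type} [Group G] {ι : Type} [Fintype ι] [DecidableEq ι]

/-- The tensor product of representations by `2 × 2` matrices. -/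
def kronH {R : Type} [CommRing R] (r : ι → G →* Matrix (Fin 2) (Fin 2) R) :
    G →* Matrix (ι → Fin 2) (ι → Fin 2) R where
  toFun s := kron fun i => r i s
  map_one' := by
    simp only [map_one]
    exact kron_one
  map_mul' s t := by
    simp only [map_mul]
    exact kron_mul _ _

theorem kronH_apply {R : Type} [CommRing R] (r : ι → G →* Matrix (Fin 2) (Fin 2) R) (s : G) :
    kronH r s = kron fun i => r i s := rfl

/-- The form on the tensor product. -/
noncomputable def eT (ι : Type) [Fintype ι] [DecidableEq ι] :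
    ((ι → Fin 2) → ZMod 2) →ₗ[ZMod 2] ((ι → Fin 2) → ZMod 2) →ₗ[ZMod 2] ZMod 2 :=
  Matrix.toLinearMap₂' (ZMod 2) (kron fun _ : ι => J2 (ZMod 2))

/-- The families of nonzero vectors. -/
abbrev XT (ι : Type) : Type := ι → {w : Fin 2 → ZMod 2 // w ≠ 0}

theorem mulVec_ne (r : G →* Matrix (Fin 2) (Fin 2) (ZMod 2)) (s : G) {w : Fin 2 → ZMod 2}
    (hw : w ≠ 0) : (r s).mulVec w ≠ 0 := by
  intro h
  apply hw
  have h1 := congrArg (fun v => (r s⁻¹).mulVec v) h
  beta_reduce at h1
  rw [Matrix.mulVec_mulVec, ← map_mul, inv_mul_cancel, map_one, Matrix.one_mulVec,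
    Matrix.mulVec_zero] at h1
  exact h1

/-- The action on the families of nonzero vectors. -/
@[reducible] def actX (r : ι → G →* Matrix (Fin 2) (Fin 2) (ZMod 2)) : MulAction G (XT ι) where
  smul s x := fun i => ⟨(r i s).mulVec (x i).1, mulVec_ne (r i) s (x i).2⟩
  one_smul x := funext fun i => Subtype.ext (by
    change (r i 1).mulVec (x i).1 = (x i).1
    rw [map_one, Matrix.one_mulVec])
  mul_smul s t x := funext fun i => Subtype.ext (by
    change (r i (s * t)).mulVec (x i).1 = (r i s).mulVec ((r i t).mulVec (x i).1)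
    rw [map_mul, Matrix.mulVec_mulVec])

/-- The pure tensor of a family. -/
def ten (x : XT ι) : (ι → Fin 2) → ZMod 2 := fun a => ∏ i, (x i).1 (a i)

/-- The inclusion in the permutation module. -/
noncomputable def iT (ι : Type) [Fintype ι] [DecidableEq ι] :
    ((ι → Fin 2) → ZMod 2) →ₗ[ZMod 2] (XT ι → ZMod 2) :=
  LinearMap.pi fun x => eT ι (ten x)

/-- The projection of the permutation module. -/
noncomputable def pT (ι : Type) [Fintype ι] [DecidableEq ι] :
    (XT ι → ZMod 2) →ₗ[ZMod 2] ((ι → Fin 2) → ZMod 2) :=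
  ∑ x : XT ι, (LinearMap.proj x : (XT ι → ZMod 2) →ₗ[ZMod 2] ZMod 2).smulRight (ten x)

theorem iT_apply (w : (ι → Fin 2) → ZMod 2) (x : XT ι) : iT ι w x = eT ι (ten x) w := rfl

theorem pT_apply (a : XT ι → ZMod 2) : pT ι a = ∑ x, a x • ten x := by
  rw [pT, LinearMap.sum_apply]
  rfl

end

end Pool.Agent.TTN
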